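import Pool.Agent.Helper73.E8.Lattice

/-!
# Change of coefficients on `A ⊗ L`
-/

set_option autoImplicit false

open scoped TensorProduct

namespace Pool.Agent.Helper73.E8

variable {A A' A'' : Type} [CommRing A] [CommRing A'] [CommRing A''] (L : Type) [LieRing L]

/-- The map `τ ⊗ 1 : A ⊗ L → A' ⊗ L` of a ring homomorphism `τ`. -/
noncomputable def cT (τ : A →+* A') : A ⊗[ℤ] L →ₗ⁅ℤ⁆ A' ⊗[ℤ] L :=
  LieAlgebra.ExtendScalars.map τ.toIntAlgHom (LieHom.id : L →ₗ⁅ℤ⁆ L)

@[simp] theorem cT_tmul (τ : A →+* A') (a : A) (x : L) : cT L τ (a ⊗ₜ x) = τ a ⊗ₜ x := rfl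

theorem cT_smul (τ : A →+* A') (a : A) (y : A ⊗[ℤ] L) : cT L τ (a • y) = τ a • cT L τ y := by
  induction y using TensorProduct.induction_on with
  | zero => rw [smul_zero, map_zero, smul_zero]
  | tmul b x => rw [TensorProduct.smul_tmul', cT_tmul, cT_tmul, TensorProduct.smul_tmul', smul_eq_mul, smul_eq_mul, map_mul]
  | add y z hy hz => rw [smul_add, map_add, map_add, smul_add, hy, hz]

theorem cT_cT (τ : A →+* A') (τ' : A' →+* A'') (y : A ⊗[ℤ] L) : cT L τ' (cT L τ y) = cT L (τ'.comp τ) y := by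
  induction y using TensorProduct.induction_on with
  | zero => rw [map_zero, map_zero, map_zero]
  | tmul a x => rw [cT_tmul, cT_tmul, cT_tmul]; rfl
  | add y z hy hz => rw [map_add, map_add, map_add, hy, hz]

theorem cT_id (y : A ⊗[ℤ] L) : cT L (RingHom.id A) y = y := by
  induction y using TensorProduct.induction_on with
  | zero => rw [map_zero]
  | tmul a x => rw [cT_tmul]; rfl
  | add y z hy hz => rw [map_add, hy, hz]

theorem cT_bijective (τ : A ≃+* A') : Function.Bijective (cT L (τ : A →+* A')) := by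
  refine Function.bijective_iff_has_inverse.2 ⟨cT L (τ.symm : A' →+* A), fun y => ?_, fun y => ?_⟩
  · rw [cT_cT, RingEquiv.symm_comp, cT_id]
  · rw [cT_cT, RingEquiv.comp_symm, cT_id]

/-- The map `1 ⊗ g` of an endomorphism `g` of the Lie ring `L`. -/
noncomputable def cG (A : Type) [CommRing A] {L : Type} [LieRing L] (g : L →ₗ⁅ℤ⁆ L) : A ⊗[ℤ] L →ₗ⁅ℤ⁆ A ⊗[ℤ] L :=
  LieAlgebra.ExtendScalars.map (AlgHom.id ℤ A) g

variable {L}

@[simp] theorem cG_tmul (g : L →ₗ⁅ℤ⁆ L) (a : A) (x : L) : cG A g (a ⊗ₜ x) = a ⊗ₜ g x := rfl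

theorem cG_smul (g : L →ₗ⁅ℤ⁆ L) (a : A) (y : A ⊗[ℤ] L) : cG A g (a • y) = a • cG A g y := by
  induction y using TensorProduct.induction_on with
  | zero => rw [smul_zero, map_zero, smul_zero]
  | tmul b x => rw [TensorProduct.smul_tmul', cG_tmul, cG_tmul, TensorProduct.smul_tmul']
  | add y z hy hz => rw [smul_add, map_add, map_add, smul_add, hy, hz]

theorem cG_cG (g g' : L →ₗ⁅ℤ⁆ L) (y : A ⊗[ℤ] L) : cG A g (cG A g' y) = cG A (g.comp g') y := by
  induction y using TensorProduct.induction_on with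
  | zero => rw [map_zero, map_zero, map_zero]
  | tmul a x => rw [cG_tmul, cG_tmul, cG_tmul]; rfl
  | add y z hy hz => rw [map_add, map_add, map_add, hy, hz]

theorem cT_cG (τ : A →+* A') (g : L →ₗ⁅ℤ⁆ L) (y : A ⊗[ℤ] L) : cT L τ (cG A g y) = cG A' g (cT L τ y) := by
  induction y using TensorProduct.induction_on with
  | zero => simp only [map_zero]
  | tmul a x => rw [cG_tmul, cT_tmul, cT_tmul, cG_tmul]
  | add y z hy hz => rw [map_add, map_add, map_add, map_add, hy, hz]

theorem cG_bijective (g : L ≃ₗ⁅ℤ⁆ L) : Function.Bijective (cG A (g : L →ₗ⁅ℤ⁆ L)) := by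
  refine Function.bijective_iff_has_inverse.2 ⟨cG A (g.symm : L →ₗ⁅ℤ⁆ L), fun y => ?_, fun y => ?_⟩
  · induction y using TensorProduct.induction_on with
    | zero => rw [map_zero, map_zero]
    | tmul a x => rw [cG_tmul, cG_tmul]; exact congrArg (fun z => a ⊗ₜ[ℤ] z) (g.symm_apply_apply x)
    | add y z hy hz => rw [map_add, map_add, hy, hz]
  · induction y using TensorProduct.induction_on with
    | zero => rw [map_zero, map_zero]
    | tmul a x => rw [cG_tmul, cG_tmul]; exact congrArg (fun z => a ⊗ₜ[ℤ] z) (g.apply_symm_apply x)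
    | add y z hy hz => rw [map_add, map_add, hy, hz]

end Pool.Agent.Helper73.E8
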