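import Pool.Agent.Helper73.E8.Isom

/-!
# Block E8-DYN: isometries and heights modulo 31

(1) An isometry `w` with `ht (w x) ≡ ht x` mod 31 is the identity. Proof: `w (al i)` is a root (`onRoot`) of height `≡ 1` mod 31,
and `|ht| ≤ 29` (`abs_ht_root_le`), so its height is 1 and it is a simple root (`root_of_ht_one`): `w (al i) = al (π i)`,
and `C_(π i, π j) = C_ij` (`ip_al_al`). `π` is injective, hence a permutation, and the Dynkin diagram of E8 has no
symmetry: node 3 (0-based) is the only one with 3 neighbours; its neighbours are 1, 2, 4; the branch 1 has length 1,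
the branch 2, 0 length 2, the branch 4, 5, 6, 7 length 4. So `π = 1`, and `w = 1` by `lat_hom_ext`.
(2) An isometry with `ht (w x) ≡ 3 ht x` mod 31 is `W`: apply (1) to `W^-1 ∘ w` or `w ∘ W^-1` (`ht_W`, `W_isom`).
-/

set_option autoImplicit false

namespace Pool.Agent.Helper73.E8

private theorem center46 : ∀ c x y z : Fin 8, x ≠ y → y ≠ z → x ≠ z →
    CartanMatrix.E₈ c x = -1 → CartanMatrix.E₈ c y = -1 → CartanMatrix.E₈ c z = -1 → c = 3 := by
  decide +kernel

private theorem path46 : ∀ a b c : Fin 8, CartanMatrix.E₈ 3 a = -1 → CartanMatrix.E₈ a b = -1 →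
    b ≠ 3 → CartanMatrix.E₈ b c = -1 → c ≠ a → a = 4 ∧ b = 5 ∧ c = 6 := by
  decide +kernel

private theorem path46' : ∀ d : Fin 8, CartanMatrix.E₈ 6 d = -1 → d ≠ 5 → d = 7 := by
  decide +kernel

private theorem short46 : ∀ a b : Fin 8, CartanMatrix.E₈ 3 a = -1 → a ≠ 4 →
    CartanMatrix.E₈ a b = -1 → b ≠ 3 → a = 2 ∧ b = 0 := by
  decide +kernel

private theorem last46 : ∀ a : Fin 8, CartanMatrix.E₈ 3 a = -1 → a ≠ 4 → a ≠ 2 → a = 1 := by
  decide +kernel

private theorem two46 : ∀ i j : Fin 8, CartanMatrix.E₈ i j = 2 → i = j := by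
  decide +kernel

private theorem entry46 : CartanMatrix.E₈ 3 1 = -1 ∧ CartanMatrix.E₈ 3 2 = -1 ∧
    CartanMatrix.E₈ 3 4 = -1 ∧ CartanMatrix.E₈ 4 5 = -1 ∧ CartanMatrix.E₈ 5 6 = -1 ∧
    CartanMatrix.E₈ 6 7 = -1 ∧ CartanMatrix.E₈ 2 0 = -1 := by
  decide +kernel

/-- The Dynkin diagram of type E8 has no symmetry. -/
private theorem perm46 (p : Fin 8 → Fin 8)
    (hp : ∀ i j, CartanMatrix.E₈ (p i) (p j) = CartanMatrix.E₈ i j) (i : Fin 8) : p i = i := by
  have hinj : ∀ {i j : Fin 8}, i ≠ j → p i ≠ p j := by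
    intro i j hij h
    have h1 := hp i j
    rw [h, CartanMatrix.E₈_diag] at h1
    exact hij (two46 i j h1.symm)
  obtain ⟨e31, e32, e34, e45, e56, e67, e20⟩ := entry46
  have h3 : p 3 = 3 := center46 (p 3) (p 1) (p 2) (p 4) (hinj (by decide)) (hinj (by decide))
    (hinj (by decide)) ((hp 3 1).trans e31) ((hp 3 2).trans e32) ((hp 3 4).trans e34)
  have hp3 : ∀ j, CartanMatrix.E₈ 3 (p j) = CartanMatrix.E₈ 3 j := fun j => by
    have h := hp 3 j
    rwa [h3] at h
  have hn3 : ∀ j, j ≠ 3 → p j ≠ 3 := fun j hj h => hinj hj (h.trans h3.symm)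
  obtain ⟨h4, h5, h6⟩ := path46 (p 4) (p 5) (p 6) ((hp3 4).trans e34)
    ((hp 4 5).trans e45) (hn3 5 (by decide)) ((hp 5 6).trans e56) (hinj (by decide))
  have h7 : p 7 = 7 := by
    have e := (hp 6 7).trans e67
    rw [h6] at e
    exact path46' (p 7) e (fun h => hinj (i := 7) (j := 5) (by decide) (h.trans h5.symm))
  obtain ⟨h2, h0⟩ := short46 (p 2) (p 0) ((hp3 2).trans e32)
    (fun h => hinj (i := 2) (j := 4) (by decide) (h.trans h4.symm)) ((hp 2 0).trans e20)
    (hn3 0 (by decide))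
  have h1 : p 1 = 1 := last46 (p 1) ((hp3 1).trans e31)
    (fun h => hinj (i := 1) (j := 4) (by decide) (h.trans h4.symm))
    (fun h => hinj (i := 1) (j := 2) (by decide) (h.trans h2.symm))
  fin_cases i
  · exact h0
  · exact h1
  · exact h2
  · exact h3
  · exact h4
  · exact h5
  · exact h6
  · exact h7

private theorem ht_al46 (i : Fin 8) : ht (al i) = 1 := by
  unfold ht al
  rw [Finset.sum_eq_single i (fun k _ hk => by simp [hk]) (fun h => absurd (Finset.mem_univ _) h)]
  simp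

theorem dyn (w : Lat ≃+ Lat) (hw : IsIsom w) (h : ∀ x, ((ht (w x) : ℤ) : ZMod 31) = (ht x : ℤ)) (x : Lat) : w x = x := by
  have h1 : ∀ i, ∃ j, w (al i) = al j := by
    intro i
    have h2 := h (al i)
    rw [ht_al46] at h2
    have h3 : (31 : ℤ) ∣ 1 - ht (w (al i)) := by
      have h4 := (ZMod.intCast_eq_intCast_iff_dvd_sub (ht (w (al i))) 1 31).1 h2
      exact_mod_cast h4
    have h5 := abs_ht_root_le (onRoot w hw (sr i))
    have h6 : (onRoot w hw (sr i)).1 = w (al i) := rfl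
    rw [h6, abs_le] at h5
    have h7 : ht (w (al i)) = 1 := by omega
    obtain ⟨j, hj⟩ := root_of_ht_one (onRoot w hw (sr i)) (by rw [h6]; exact h7)
    refine ⟨j, ?_⟩
    have h8 := congrArg Subtype.val hj
    exact h8
  choose p hp using h1
  have hC : ∀ i j, CartanMatrix.E₈ (p i) (p j) = CartanMatrix.E₈ i j := by
    intro i j
    rw [← ip_al_al, ← hp, ← hp, hw, ip_al_al]
  have h2 : w.toAddMonoidHom = AddMonoidHom.id Lat := lat_hom_ext _ _ fun i => by
    show w (al i) = al i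
    rw [hp, perm46 p hC]
  exact DFunLike.congr_fun h2 x

theorem eq_W (w : Lat ≃+ Lat) (hw : IsIsom w) (h : ∀ x, ((ht (w x) : ℤ) : ZMod 31) = 3 * (ht x : ℤ)) : w = W := by
  have h1 : ∀ x, (w.trans W.symm) x = x := by
    refine dyn _ (IsIsom.trans hw W_isom.symm) fun x => ?_
    have h2 := ht_W (W.symm (w x))
    rw [W.apply_symm_apply, h] at h2
    have h3 : IsUnit (3 : ZMod 31) := by
      have : (3 : ZMod 31) * 21 = 1 := by decide
      exact IsUnit.of_mul_eq_one _ this
    exact (h3.mul_left_cancel h2).symm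
  refine AddEquiv.ext fun x => ?_
  have h2 := h1 x
  have h3 : W.symm (w x) = x := h2
  rw [← h3, W.apply_symm_apply, h3]

end Pool.Agent.Helper73.E8
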