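import Pool.Agent.Helper73.E8.Alg

/-!
# The diagonal automorphism `e_a ↦ z^(ht a) e_a`
-/

set_option autoImplicit false

namespace Pool.Agent.Helper73.E8

open Chev

/-- Multiply the `a`-component with `z^(ht a)`. -/
noncomputable def gz {F : Type*} [Field F] (z : F) (y : Chev F) : Chev F := ⟨y.h, fun a => z ^ (ht a.1) * y.x a⟩

end Pool.Agent.Helper73.E8
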