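import Pool.Agent.Helper73.E8.Roots

/-!
# Block E8-HOMEXT: multiplicative functions on the roots extend to the lattice

`v : Root → G`, `G` a commutative group, multiplicative where the sum of two roots is a root, `v (-a) = (v a)⁻¹`.
Then there is a homomorphism of `Lat` which agrees with `v` on the roots.
Proof: define `u x = ∏ i, v (sr i) ^ x i`. `u = v` on positive roots by induction on the height (`exists_sub_simple`,
`root_of_ht_one`; note `b` in `exists_sub_simple` has height `ht a - 1 ≥ 1`, the multiplicativity of `v` applies to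
`a = b + α_i`), on negative roots by `v (-a) = (v a)⁻¹` (`root_pos_or_neg`, `ht_root_ne_zero`: a root has height `> 0` or `< 0`).
-/

set_option autoImplicit false

namespace Pool.Agent.Helper73.E8

private theorem ht_al38 (i : Fin 8) : ht (al i) = 1 := by
  unfold ht al
  rw [Finset.sum_eq_single i (fun k _ hk => by simp [hk]) (fun h => absurd (Finset.mem_univ _) h)]
  simp

theorem hom_ext {G : Type*} [CommGroup G] (v : Root → G)
    (hadd : ∀ a b c : Root, c.1 = a.1 + b.1 → v c = v a * v b) (hneg : ∀ a : Root, v (-a) = (v a)⁻¹) :
    ∃ u : Multiplicative Lat →* G, ∀ a : Root, v a = u (Multiplicative.ofAdd a.1) := by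
  let u : Multiplicative Lat →* G :=
    { toFun := fun x => ∏ i, v (sr i) ^ (Multiplicative.toAdd x i)
      map_one' := by simp
      map_mul' := fun x y => by
        rw [← Finset.prod_mul_distrib]
        refine Finset.prod_congr rfl fun i _ => ?_
        rw [toAdd_mul, Pi.add_apply, zpow_add] }
  have hu : ∀ x : Lat, u (Multiplicative.ofAdd x) = ∏ i, v (sr i) ^ x i := fun x => rfl
  have hal : ∀ i, u (Multiplicative.ofAdd (al i)) = v (sr i) := by
    intro i
    rw [hu, Finset.prod_eq_single i]
    · simp [al]
    · intro j _ hj
      simp [al, hj]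
    · intro h
      exact absurd (Finset.mem_univ _) h
  have hpos : ∀ (n : ℕ) (a : Root), ht a.1 = n + 1 → v a = u (Multiplicative.ofAdd a.1) := by
    intro n
    induction n with
    | zero =>
      intro a ha
      obtain ⟨i, rfl⟩ := root_of_ht_one a (by rw [ha]; norm_num)
      exact (hal i).symm
    | succ n ih =>
      intro a ha
      obtain ⟨i, b, hb⟩ := exists_sub_simple a (by rw [ha]; push_cast; linarith [Int.natCast_nonneg n])
      have h1 : ht b.1 = n + 1 := by
        have h2 : ht a.1 = ht b.1 + ht (al i) := by rw [hb, ht_add]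
        rw [ht_al38, ha] at h2
        push_cast at h2
        linarith
      rw [hadd b (sr i) a hb, ih b h1, ← hal i, hb, ofAdd_add, map_mul]
  have hpos' : ∀ a : Root, (∀ i, 0 ≤ a.1 i) → v a = u (Multiplicative.ofAdd a.1) := by
    intro a ha
    have h1 : 0 ≤ ht a.1 := Finset.sum_nonneg fun i _ => ha i
    have h2 := ht_root_ne_zero a
    have h3 : 1 ≤ ht a.1 := by omega
    exact hpos (ht a.1 - 1).toNat a (by rw [Int.toNat_of_nonneg (by omega)]; ring)
  refine ⟨u, fun a => ?_⟩
  rcases root_pos_or_neg a with h | h
  · exact hpos' a h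
  · have h1 := hpos' (-a) (fun i => by
      rw [neg_val, Pi.neg_apply]
      exact neg_nonneg.mpr (h i))
    rw [hneg, neg_val, ofAdd_neg, map_inv] at h1
    exact inv_injective h1

/-- Two homomorphisms which agree on the simple roots are equal. -/
theorem hom_unique {G : Type*} [CommGroup G] (u u' : Multiplicative Lat →* G)
    (h : ∀ i, u (Multiplicative.ofAdd (al i)) = u' (Multiplicative.ofAdd (al i))) : u = u' := by
  have key : ∀ x : Lat, Multiplicative.ofAdd x =
      ∏ i, (Multiplicative.ofAdd (al i)) ^ (x i) := by
    intro x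
    have h1 : x = ∑ i, x i • al i := by
      funext j
      rw [Finset.sum_apply, Finset.sum_eq_single j]
      · simp [al]
      · intro i _ hi
        simp [al, hi.symm]
      · intro h
        exact absurd (Finset.mem_univ _) h
    conv_lhs => rw [h1]
    rw [ofAdd_sum]
    exact Finset.prod_congr rfl fun i _ => ofAdd_zsmul _ _
  refine MonoidHom.ext fun x => ?_
  obtain ⟨x, rfl⟩ := Multiplicative.ofAdd.surjective x
  rw [key x, map_prod, map_prod]
  refine Finset.prod_congr rfl fun i _ => ?_
  rw [map_zpow, map_zpow, h i]

end Pool.Agent.Helper73.E8
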