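import Pool.Agent.Helper73.E8.Isom

/-!
# Block E8-LIFT: signs which lift an isometry

For every isometry `w` there are signs `η : Lat → {±1}` with `η (x + y) = η x η y eps(x, y) eps(w x, w y)`, `η (-x) = η x`,
`η (al i) = 1`.
Proof. `b x y = be x y + be (w x) (w y)` is bilinear, `b x y + b y x = (x, y) + (w x, w y) = 2 (x, y)` is even (`be_add_be`) and
`b x x = (x, x)/2 + (w x, w x)/2 = (x, x)` is even (`two_be_self`, `ip_even`). Put
`η x = (-1)^(∑_{i<j} x_i x_j b(al i, al j))`. Then modulo 2
`∑_{i<j} (x_i + y_i)(x_j + y_j) b_ij - ∑_{i<j} x_i x_j b_ij - ∑_{i<j} y_i y_j b_ij = ∑_{i<j} (x_i y_j + x_j y_i) b_ij = b x y`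
(as `b_ji ≡ b_ij`, `b_ii ≡ 0`).

`lift_W_fifteen`: put `q x = ∏ k < 15, η (W^k x)`. By `IsLift.add` and telescoping
`q (x + y) = q x q y ∏_k eps(W^k x, W^k y) eps(W^(k+1) x, W^(k+1) y) = q x q y eps(x, y) eps(W^15 x, W^15 y) = q x q y`
(`W_fifteen`, `eps (-x) (-y) = eps x y`, signs have square 1), so `q` is a homomorphism to `{±1}`; and
`q (W x) = q x η (W^15 x) / η x = q x η (-x) / η x = q x`. Applying `q` to `W_phi`:
`1 = q (W^8 x) q (W^7 x) q (W^5 x)^-1 q (W^4 x)^-1 q (W^3 x)^-1 q (W x) q x = q x ^ (1+1-1-1-1+1+1) = q x`.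
-/

set_option autoImplicit false

namespace Pool.Agent.Helper73.E8

/-- `η` is a system of signs which lifts the isometry `w`. -/
structure IsLift (w : Lat → Lat) (η : Lat → ℤˣ) : Prop where
  add : ∀ x y, η (x + y) = η x * η y * (eps x y * eps (w x) (w y))
  neg : ∀ x, η (-x) = η x
  al : ∀ i, η (al i) = 1

private theorem h80_split (f : Fin 8 → Fin 8 → ℤ) :
    ∑ i, ∑ j, f i j = ∑ i, ∑ j, (if i < j then f i j + f j i else 0) + ∑ i, f i i := by
  have h1 : ∀ i j : Fin 8, f i j = (if i < j then f i j else 0) + (if j < i then f i j else 0) +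
      (if i = j then f i j else 0) := by
    intro i j
    rcases lt_trichotomy i j with h | h | h
    · rw [if_pos h, if_neg (lt_asymm h), if_neg h.ne]
      ring
    · subst h
      rw [if_neg (lt_irrefl _), if_pos rfl]
      ring
    · rw [if_neg (lt_asymm h), if_pos h, if_neg h.ne']
      ring
  have h2 : ∑ i, ∑ j, (if j < i then f i j else 0) = ∑ i, ∑ j, (if i < j then f j i else 0) :=
    Finset.sum_comm
  have h3 : ∀ i : Fin 8, ∑ j, (if i = j then f i j else 0) = f i i := by
    intro i
    rw [Finset.sum_ite_eq, if_pos (Finset.mem_univ _)]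
  have h4 : ∀ i j : Fin 8, (if i < j then f i j + f j i else 0) = (if i < j then f i j else 0) +
      (if i < j then f j i else 0) := by
    intro i j
    split_ifs <;> ring
  calc ∑ i, ∑ j, f i j = ∑ i, ∑ j, ((if i < j then f i j else 0) + (if j < i then f i j else 0) +
      (if i = j then f i j else 0)) := Finset.sum_congr rfl fun i _ => Finset.sum_congr rfl fun j _ => h1 i j
    _ = _ := by
      simp only [Finset.sum_add_distrib, h3, h4, h2]

/-- The bilinear exponent. -/
private def h80_b (w : Lat ≃+ Lat) (x y : Lat) : ℤ := be x y + be (w x) (w y)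

private theorem h80_b_add_left (w : Lat ≃+ Lat) (x y z : Lat) :
    h80_b w (x + y) z = h80_b w x z + h80_b w y z := by
  unfold h80_b
  rw [map_add, be_add_left, be_add_left]
  ring

private theorem h80_b_add_right (w : Lat ≃+ Lat) (x y z : Lat) :
    h80_b w x (y + z) = h80_b w x y + h80_b w x z := by
  unfold h80_b
  rw [map_add, be_add_right, be_add_right]
  ring

private theorem h80_expand_left (w : Lat ≃+ Lat) (x z : Lat) :
    h80_b w x z = ∑ i, x i * h80_b w (al i) z := by
  let f : Lat →+ ℤ := AddMonoidHom.mk' (fun x => h80_b w x z) (fun a b => h80_b_add_left w a b z)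
  let g : Lat →+ ℤ := AddMonoidHom.mk' (fun x => ∑ i, x i * h80_b w (al i) z) (fun a b => by
    simp only [Pi.add_apply, add_mul, Finset.sum_add_distrib])
  have h : f = g := lat_hom_ext _ _ fun i => by
    change h80_b w (al i) z = ∑ k, (al i) k * h80_b w (al k) z
    rw [Finset.sum_eq_single i]
    · simp [al]
    · intro k _ hk
      simp [al, hk]
    · intro hi
      exact absurd (Finset.mem_univ _) hi
  exact DFunLike.congr_fun h x

private theorem h80_expand_right (w : Lat ≃+ Lat) (x z : Lat) :
    h80_b w x z = ∑ i, z i * h80_b w x (al i) := by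
  let f : Lat →+ ℤ := AddMonoidHom.mk' (fun z => h80_b w x z) (fun a b => h80_b_add_right w x a b)
  let g : Lat →+ ℤ := AddMonoidHom.mk' (fun z => ∑ i, z i * h80_b w x (al i)) (fun a b => by
    simp only [Pi.add_apply, add_mul, Finset.sum_add_distrib])
  have h : f = g := lat_hom_ext _ _ fun i => by
    change h80_b w x (al i) = ∑ k, (al i) k * h80_b w x (al k)
    rw [Finset.sum_eq_single i]
    · simp [al]
    · intro k _ hk
      simp [al, hk]
    · intro hi
      exact absurd (Finset.mem_univ _) hi
  exact DFunLike.congr_fun h z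

private theorem h80_b_symm (w : Lat ≃+ Lat) (hw : IsIsom w) (x y : Lat) :
    h80_b w x y + h80_b w y x = 2 * ip x y := by
  unfold h80_b
  have h1 := be_add_be x y
  have h2 := be_add_be (w x) (w y)
  rw [hw] at h2
  linarith

/-- The quadratic exponent. -/
private def h80_Q (w : Lat ≃+ Lat) (x : Lat) : ℤ :=
  ∑ i, ∑ j, if i < j then x i * x j * h80_b w (al i) (al j) else 0

private theorem h80_Q_add (w : Lat ≃+ Lat) (hw : IsIsom w) (x y : Lat) :
    ∃ k : ℤ, h80_Q w (x + y) = h80_Q w x + h80_Q w y + h80_b w x y + 2 * k := by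
  have e1 : h80_b w x y = ∑ i, ∑ j, x i * y j * h80_b w (al i) (al j) := by
    rw [h80_expand_left]
    refine Finset.sum_congr rfl fun i _ => ?_
    rw [h80_expand_right, Finset.mul_sum]
    exact Finset.sum_congr rfl fun j _ => by ring
  rw [h80_split] at e1
  have hd : ∀ i, h80_b w (al i) (al i) = ip (al i) (al i) := by
    intro i
    have := h80_b_symm w hw (al i) (al i)
    linarith
  have e2 : ∀ i, h80_b w (al i) (al i) = 2 * be (al i) (al i) := by
    intro i
    rw [hd, two_be_self]
  have e3 : ∀ i j, h80_b w (al j) (al i) = 2 * ip (al i) (al j) - h80_b w (al i) (al j) := by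
    intro i j
    have := h80_b_symm w hw (al i) (al j)
    linarith
  refine ⟨∑ i, ∑ j, (if i < j then x j * y i * (h80_b w (al i) (al j) - ip (al i) (al j)) else 0) -
    ∑ i, x i * y i * be (al i) (al i), ?_⟩
  rw [e1]
  unfold h80_Q
  simp only [Finset.mul_sum, mul_sub, Pi.add_apply]
  have e4 : ∀ i, 2 * (x i * y i * be (al i) (al i)) = x i * y i * h80_b w (al i) (al i) := by
    intro i
    rw [e2]
    ring
  simp only [e4]
  have e5 : ∀ i j : Fin 8, (if i < j then (x i + y i) * (x j + y j) * h80_b w (al i) (al j) else 0) =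
      (if i < j then x i * x j * h80_b w (al i) (al j) else 0) +
      (if i < j then y i * y j * h80_b w (al i) (al j) else 0) +
      (if i < j then x i * y j * h80_b w (al i) (al j) + x j * y i * h80_b w (al j) (al i) else 0) +
      2 * (if i < j then x j * y i * h80_b w (al i) (al j) - x j * y i * ip (al i) (al j) else 0) := by
    intro i j
    by_cases h : i < j
    · simp only [if_pos h]
      rw [e3 i j]
      ring
    · simp only [if_neg h]
      ring
  simp only [e5, Finset.sum_add_distrib]
  ring

theorem exists_lift (w : Lat ≃+ Lat) (hw : IsIsom w) : ∃ η : Lat → ℤˣ, IsLift w η := by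
  refine ⟨fun x => (h80_Q w x).negOnePow, ?_, ?_, ?_⟩
  · intro x y
    obtain ⟨k, hk⟩ := h80_Q_add w hw x y
    change (h80_Q w (x + y)).negOnePow = (h80_Q w x).negOnePow * (h80_Q w y).negOnePow *
      ((be x y).negOnePow * (be (w x) (w y)).negOnePow)
    rw [hk, Int.negOnePow_add, Int.negOnePow_add, Int.negOnePow_add, Int.negOnePow_two_mul, mul_one]
    unfold h80_b
    rw [Int.negOnePow_add]
  · intro x
    change (h80_Q w (-x)).negOnePow = (h80_Q w x).negOnePow
    have h : h80_Q w (-x) = h80_Q w x := by
      unfold h80_Q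
      refine Finset.sum_congr rfl fun i _ => Finset.sum_congr rfl fun j _ => ?_
      simp only [Pi.neg_apply, neg_mul_neg]
    rw [h]
  · intro i
    change (h80_Q w (al i)).negOnePow = 1
    have h : h80_Q w (al i) = 0 := by
      unfold h80_Q
      refine Finset.sum_eq_zero fun k _ => Finset.sum_eq_zero fun j _ => ?_
      by_cases h : k < j
      · rw [if_pos h]
        by_cases hk : k = i
        · have hj : j ≠ i := by
            rw [← hk]
            exact h.ne'
          simp [al, hj]
        · simp [al, hk]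
      · rw [if_neg h]
    rw [h, Int.negOnePow_zero]

private theorem h80_tele (e : ℕ → ℤˣ) (n : ℕ) :
    ∏ k ∈ Finset.range n, (e k * e (k + 1)) = e 0 * e n := by
  induction n with
  | zero => rw [Finset.range_zero, Finset.prod_empty, Int.units_mul_self]
  | succ n ih =>
    rw [Finset.prod_range_succ, ih]
    have h := Int.units_mul_self (e n)
    calc e 0 * e n * (e n * e (n + 1)) = e 0 * (e n * e n) * e (n + 1) := by
          simp only [mul_assoc]
      _ = e 0 * e (n + 1) := by rw [h, mul_one]

/-- The signs which lift `W` (`n = ` the corresponding automorphism has `n^15 = ` the Chevalley involution). -/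
theorem lift_W_fifteen (η : Lat → ℤˣ) (hη : IsLift W η) (a : Root) : ∏ k ∈ Finset.range 15, η (W^[k] a.1) = 1 := by
  have hadd : ∀ k (x y : Lat), W^[k] (x + y) = W^[k] x + W^[k] y := by
    intro k x y
    rw [← Wpow_apply, map_add, Wpow_apply, Wpow_apply]
  have hq : ∀ x y : Lat, ∏ k ∈ Finset.range 15, η (W^[k] (x + y)) =
      (∏ k ∈ Finset.range 15, η (W^[k] x)) * ∏ k ∈ Finset.range 15, η (W^[k] y) := by
    intro x y
    have h1 : ∀ k, η (W^[k] (x + y)) = η (W^[k] x) * η (W^[k] y) *
        (eps (W^[k] x) (W^[k] y) * eps (W^[k + 1] x) (W^[k + 1] y)) := by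
      intro k
      rw [hadd, hη.add, Function.iterate_succ_apply', Function.iterate_succ_apply']
    simp only [h1, Finset.prod_mul_distrib]
    have h2 := h80_tele (fun k => eps (W^[k] x) (W^[k] y)) 15
    rw [Finset.prod_mul_distrib] at h2
    rw [h2]
    simp only [W_fifteen, eps_neg_left, eps_neg_right, Function.iterate_zero, id_eq]
    rw [Int.units_mul_self, mul_one]
  let q : Lat →+ Additive ℤˣ :=
    AddMonoidHom.mk' (fun x => Additive.ofMul (∏ k ∈ Finset.range 15, η (W^[k] x))) fun x y => by
      rw [hq, ofMul_mul]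
  have hW : ∀ x, q (W x) = q x := by
    intro x
    have h1 : (∏ k ∈ Finset.range 15, η (W^[k] (W x))) = ∏ k ∈ Finset.range 15, η (W^[k] x) := by
      have h2 : (∏ k ∈ Finset.range 15, η (W^[k + 1] x)) * η (W^[0] x) =
          (∏ k ∈ Finset.range 15, η (W^[k] x)) * η (W^[15] x) := by
        rw [← Finset.prod_range_succ (fun k => η (W^[k] x)) 15,
          ← Finset.prod_range_succ' (fun k => η (W^[k] x)) 15]
      rw [W_fifteen, hη.neg, Function.iterate_zero, id_eq] at h2
      have h3 := mul_right_cancel h2
      rw [← h3]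
      refine Finset.prod_congr rfl fun k _ => ?_
      rw [Function.iterate_succ_apply]
    change Additive.ofMul _ = Additive.ofMul _
    rw [h1]
  have hWk : ∀ k x, q (W^[k] x) = q x := by
    intro k
    induction k with
    | zero => intro x; rfl
    | succ n ih =>
      intro x
      rw [Function.iterate_succ_apply, ih, hW]
  have h := congrArg q (W_phi a.1)
  rw [map_zero] at h
  simp only [map_add, map_sub, hWk, hW] at h
  have h0 : q a.1 = 0 := by
    rw [← h]
    abel
  exact h0

end Pool.Agent.Helper73.E8
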