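import Pool.Agent.Helper73.E8.Alg
import Pool.Agent.Helper73.E8.HomExt
import Pool.Agent.Helper73.E8.Lift

/-!
# Block E8-MONO: semilinear monomial maps of the Chevalley algebra

`mono τ w hw k : Chev R → Chev S` maps `t v` to `t (w v)` and `e_a` to `k_a e_(w a)`, semilinear for `τ : R → S`.
Under the cocycle condition `IsCoc w k` it is multiplicative.

Hints. `mono_lie`: additive in both arguments and semilinear, so by `decomp` (and `c_eq_sum`) it suffices to check on
`t v` and `e a`: use `mono_t`, `mono_e`, `lie_c_c`, `lie_t_e`, `lie_e_e_add`, `lie_e_neg`, `lie_e_e_zero`. `mono_bf`: `IsIsom` for the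
Cartan part (bilinear over `τ`), reindex the roots by `onRoot w hw` and use `k a * k (-a) = 1`.
`isCoc_torus`: `u (a + b) = u a * u b`, `u (-a) = (u a)⁻¹`. `isCoc_lift`: `IsLift.add`, `IsLift.neg` (signs have square 1).
`isCoc_factor`: apply `hom_ext` to `v a := k a * η a` (units).
-/

set_option autoImplicit false

namespace Pool.Agent.Helper73.E8

/-- Cocycle condition: the coefficients of a multiplicative monomial map. -/
structure IsCoc {S : Type*} [CommRing S] (w : Lat ≃+ Lat) (k : Root → S) : Prop where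
  add : ∀ a b d : Root, d.1 = a.1 + b.1 →
    k d * ((eps a.1 b.1 : ℤ) : S) = k a * k b * ((eps (w a.1) (w b.1) : ℤ) : S)
  neg : ∀ a : Root, k a * k (-a) = 1

namespace Chev

variable {R S T : Type*} [CommRing R] [CommRing S] [CommRing T]

/-- Semilinear monomial map. -/
noncomputable def mono (τ : R →+* S) (w : Lat ≃+ Lat) (hw : IsIsom w) (k : Root → S) (y : Chev R) : Chev S where
  h := fun i => ∑ j, τ (y.h j) * ((w (al j) i : ℤ) : S)
  x := fun a => k ((onRoot w hw).symm a) * τ (y.x ((onRoot w hw).symm a))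

variable (τ : R →+* S) (w : Lat ≃+ Lat) (hw : IsIsom w) (k : Root → S)

theorem mono_add (y z : Chev R) : mono τ w hw k (y + z) = mono τ w hw k y + mono τ w hw k z := by
  ext i
  · simp only [mono, add_h, Pi.add_apply, map_add, add_mul, Finset.sum_add_distrib]
  · simp only [mono, add_x, Pi.add_apply, map_add, mul_add]

theorem mono_smul (r : R) (y : Chev R) : mono τ w hw k (r • y) = τ r • mono τ w hw k y := by
  ext i
  · simp only [mono, smul_h, Pi.smul_apply, smul_eq_mul, map_mul, Finset.mul_sum, mul_assoc]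
  · simp only [mono, smul_x, Pi.smul_apply, smul_eq_mul, map_mul]
    ring

private theorem w_apply62 (w : Lat ≃+ Lat) (v : Lat) (i : Fin 8) :
    w v i = ∑ j, v j * w (al j) i := by
  have h1 : v = ∑ j, v j • al j := by
    funext l
    rw [Finset.sum_apply, Finset.sum_eq_single l]
    · simp [al]
    · intro j _ hj
      simp [al, hj.symm]
    · intro h
      exact absurd (Finset.mem_univ _) h
  have h2 : w v = ∑ j, v j • w (al j) := by
    conv_lhs => rw [h1]
    rw [map_sum]
    exact Finset.sum_congr rfl fun j _ => map_zsmul _ _ _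
  rw [h2, Finset.sum_apply]
  exact Finset.sum_congr rfl fun j _ => by rw [Pi.smul_apply, smul_eq_mul]

private theorem inv_sum62 (w : Lat ≃+ Lat) (u : Fin 8 → S) (l : Fin 8) :
    ∑ i, (∑ j, u j * ((w (al j) i : ℤ) : S)) * ((w.symm (al i) l : ℤ) : S) = u l := by
  have h1 : ∀ j, ∑ i, ((w (al j) i : ℤ) : S) * ((w.symm (al i) l : ℤ) : S) =
      if j = l then 1 else 0 := by
    intro j
    have h2 := w_apply62 w.symm (w (al j)) l
    rw [w.symm_apply_apply] at h2
    have h3 := congrArg (Int.cast : ℤ → S) h2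
    push_cast at h3
    rw [← h3]
    by_cases hjl : j = l
    · rw [if_pos hjl, hjl]
      simp [al]
    · rw [if_neg hjl]
      simp [al, Ne.symm hjl]
  simp only [Finset.sum_mul]
  rw [Finset.sum_comm]
  simp only [mul_assoc, ← Finset.mul_sum, h1]
  simp

private theorem decomp62 (y : Chev R) : y = ∑ i, y.h i • t (al i) + ∑ a : Root, y.x a • e a := by
  conv_lhs => rw [decomp y, c_eq_sum]

private theorem sl_expand62 {M : Type*} [AddCommGroup M] [Module S M] (τ : R →+* S)
    {F : Chev R → M} (hadd : ∀ y z, F (y + z) = F y + F z) (hsmul : ∀ (r : R) y, F (r • y) = τ r • F y)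
    (y : Chev R) : F y = ∑ i, τ (y.h i) • F (t (al i)) + ∑ a : Root, τ (y.x a) • F (e a) := by
  let f : Chev R →+ M := AddMonoidHom.mk' F hadd
  calc F y = f (∑ i, y.h i • t (al i) + ∑ a : Root, y.x a • e a) := congrArg f (decomp62 y)
    _ = ∑ i, f (y.h i • t (al i)) + ∑ a : Root, f (y.x a • e a) := by
        rw [map_add, map_sum, map_sum]
    _ = _ := by
        refine congrArg₂ (· + ·) ?_ ?_
        · exact Finset.sum_congr rfl fun i _ => hsmul _ _
        · exact Finset.sum_congr rfl fun i _ => hsmul _ _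

private theorem sl_ext62 {M : Type*} [AddCommGroup M] [Module S M] (τ : R →+* S)
    {F G : Chev R → M} (hF : ∀ y z, F (y + z) = F y + F z) (hF' : ∀ (r : R) y, F (r • y) = τ r • F y)
    (hG : ∀ y z, G (y + z) = G y + G z) (hG' : ∀ (r : R) y, G (r • y) = τ r • G y)
    (h1 : ∀ v, F (t v) = G (t v)) (h2 : ∀ a, F (e a) = G (e a)) (y : Chev R) : F y = G y := by
  rw [sl_expand62 τ hF hF' y, sl_expand62 τ hG hG' y]
  simp only [h1, h2]

theorem mono_t (v : Lat) : mono τ w hw k (t v) = t (w v) := by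
  ext i
  · simp only [mono, t_h, map_intCast]
    rw [w_apply62 w v i]
    push_cast
    rfl
  · simp only [mono, t_x, Pi.zero_apply, map_zero, mul_zero]

theorem mono_e (a : Root) : mono τ w hw k (e a) = k a • e (onRoot w hw a) := by
  ext i
  · simp only [mono, e_h, Pi.zero_apply, map_zero, zero_mul, Finset.sum_const_zero, smul_h,
      Pi.smul_apply, smul_zero]
  · simp only [mono, e_x, smul_x, Pi.smul_apply, smul_eq_mul]
    by_cases hi : i = onRoot w hw a
    · rw [hi, Equiv.symm_apply_apply, Pi.single_eq_same, Pi.single_eq_same, map_one]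
    · have h1 : (onRoot w hw).symm i ≠ a := by
        intro h
        exact hi (by rw [← h, Equiv.apply_symm_apply])
      rw [Pi.single_eq_of_ne h1, Pi.single_eq_of_ne hi, map_zero, mul_zero, mul_zero]

private theorem mono_zero62 : mono τ w hw k (0 : Chev R) = 0 := by
  have h := mono_smul τ w hw k (0 : R) (0 : Chev R)
  rwa [zero_smul, map_zero, zero_smul] at h

private theorem mono_neg62 (y : Chev R) : mono τ w hw k (-y) = -mono τ w hw k y := by
  have h := mono_add τ w hw k (-y) y
  rw [neg_add_cancel, mono_zero62] at h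
  exact eq_neg_of_add_eq_zero_left h.symm

private theorem onRoot_neg62 (a : Root) : onRoot w hw (-a) = -onRoot w hw a :=
  root_ext (by rw [onRoot_val, neg_val, neg_val, onRoot_val, map_neg])

private theorem lie_t_t62 (v v' : Lat) : ⁅(t v : Chev R), (t v' : Chev R)⁆ = 0 := lie_c_c _ _

private theorem mono_lie_te62 (v : Lat) (a : Root) :
    mono τ w hw k ⁅(t v : Chev R), (e a : Chev R)⁆ = ⁅mono τ w hw k (t v), mono τ w hw k (e a)⁆ := by
  rw [lie_t_e, mono_smul, mono_t, mono_e, lie_smul, lie_t_e, onRoot_val, hw, map_intCast,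
    smul_comm]

private theorem mono_lie_ee62 (hk : IsCoc w k) (a b : Root) :
    mono τ w hw k ⁅(e a : Chev R), (e b : Chev R)⁆ = ⁅mono τ w hw k (e a), mono τ w hw k (e b)⁆ := by
  rw [mono_e, mono_e, lie_smul, smul_lie]
  by_cases h1 : b = -a
  · subst h1
    rw [lie_e_neg, onRoot_neg62, lie_e_neg, mono_neg62, mono_t, onRoot_val, smul_smul,
      mul_comm (k (-a)), hk.neg, one_smul]
  · by_cases h2 : ∃ d : Root, d.1 = a.1 + b.1
    · obtain ⟨d, hd⟩ := h2
      have hd' : (onRoot w hw d).1 = (onRoot w hw a).1 + (onRoot w hw b).1 := by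
        rw [onRoot_val, onRoot_val, onRoot_val, hd, map_add]
      rw [lie_e_e_add hd, lie_e_e_add hd', mono_smul, mono_e, smul_smul, smul_smul, smul_smul,
        map_intCast, onRoot_val, onRoot_val]
      congr 1
      have := hk.add a b d hd
      linear_combination this
    · have h3 : ∀ d : Root, d.1 ≠ a.1 + b.1 := fun d hd => h2 ⟨d, hd⟩
      have h4 : onRoot w hw b ≠ -onRoot w hw a := by
        rw [← onRoot_neg62]
        exact fun h => h1 ((onRoot w hw).injective h)
      have h5 : ∀ d : Root, d.1 ≠ (onRoot w hw a).1 + (onRoot w hw b).1 := by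
        intro d hd
        refine h3 ((onRoot w hw).symm d) ?_
        change w.symm d.1 = a.1 + b.1
        rw [hd, onRoot_val, onRoot_val, ← map_add, w.symm_apply_apply]
      rw [lie_e_e_zero h1 h3, lie_e_e_zero h4 h5, mono_zero62, smul_zero, smul_zero]

theorem mono_lie (hk : IsCoc w k) (y z : Chev R) : mono τ w hw k ⁅y, z⁆ = ⁅mono τ w hw k y, mono τ w hw k z⁆ := by
  have hF : ∀ y : Chev R, ∀ z z' : Chev R, mono τ w hw k ⁅y, z + z'⁆ =
      mono τ w hw k ⁅y, z⁆ + mono τ w hw k ⁅y, z'⁆ := fun y z z' => by rw [lie_add, mono_add]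
  have hF' : ∀ y : Chev R, ∀ (r : R) (z : Chev R), mono τ w hw k ⁅y, r • z⁆ =
      τ r • mono τ w hw k ⁅y, z⁆ := fun y r z => by rw [lie_smul, mono_smul]
  have hG : ∀ y : Chev R, ∀ z z' : Chev R, ⁅mono τ w hw k y, mono τ w hw k (z + z')⁆ =
      ⁅mono τ w hw k y, mono τ w hw k z⁆ + ⁅mono τ w hw k y, mono τ w hw k z'⁆ :=
    fun y z z' => by rw [mono_add, lie_add]
  have hG' : ∀ y : Chev R, ∀ (r : R) (z : Chev R), ⁅mono τ w hw k y, mono τ w hw k (r • z)⁆ =
      τ r • ⁅mono τ w hw k y, mono τ w hw k z⁆ := fun y r z => by rw [mono_smul, lie_smul]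
  have hL : ∀ z : Chev R, ∀ y y' : Chev R, mono τ w hw k ⁅y + y', z⁆ =
      mono τ w hw k ⁅y, z⁆ + mono τ w hw k ⁅y', z⁆ := fun z y y' => by rw [add_lie, mono_add]
  have hL' : ∀ z : Chev R, ∀ (r : R) (y : Chev R), mono τ w hw k ⁅r • y, z⁆ =
      τ r • mono τ w hw k ⁅y, z⁆ := fun z r y => by rw [smul_lie, mono_smul]
  have hM : ∀ z : Chev R, ∀ y y' : Chev R, ⁅mono τ w hw k (y + y'), mono τ w hw k z⁆ =
      ⁅mono τ w hw k y, mono τ w hw k z⁆ + ⁅mono τ w hw k y', mono τ w hw k z⁆ :=
    fun z y y' => by rw [mono_add, add_lie]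
  have hM' : ∀ z : Chev R, ∀ (r : R) (y : Chev R), ⁅mono τ w hw k (r • y), mono τ w hw k z⁆ =
      τ r • ⁅mono τ w hw k y, mono τ w hw k z⁆ := fun z r y => by rw [mono_smul, smul_lie]
  refine sl_ext62 τ (F := fun z => mono τ w hw k ⁅y, z⁆)
    (G := fun z => ⁅mono τ w hw k y, mono τ w hw k z⁆) (hF y) (hF' y) (hG y) (hG' y)
    (fun v => ?_) (fun b => ?_) z
  · refine sl_ext62 τ (F := fun y => mono τ w hw k ⁅y, t v⁆)
      (G := fun y => ⁅mono τ w hw k y, mono τ w hw k (t v)⁆) (hL (t v)) (hL' (t v)) (hM (t v))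
      (hM' (t v)) (fun v' => ?_) (fun a => ?_) y
    · rw [lie_t_t62, mono_zero62, mono_t, mono_t, lie_t_t62]
    · rw [← lie_skew, mono_neg62, mono_lie_te62, lie_skew]
  · refine sl_ext62 τ (F := fun y => mono τ w hw k ⁅y, e b⁆)
      (G := fun y => ⁅mono τ w hw k y, mono τ w hw k (e b)⁆) (hL (e b)) (hL' (e b)) (hM (e b))
      (hM' (e b)) (fun v' => ?_) (fun a => ?_) y
    · exact mono_lie_te62 τ w hw k v' b
    · exact mono_lie_ee62 τ w hw k hk a b

private theorem bf_t_t62 (v v' : Lat) : bf (t v : Chev R) (t v') = (ip v v' : R) := by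
  unfold bf ip
  simp only [t_h, t_x, Pi.zero_apply, zero_mul, Finset.sum_const_zero, sub_zero]
  push_cast
  rfl

private theorem bf_t_e62 (v : Lat) (a : Root) : bf (t v : Chev R) (e a) = 0 := by
  unfold bf
  simp only [t_h, t_x, e_h, Pi.zero_apply, zero_mul, mul_zero, Finset.sum_const_zero, sub_zero]

private theorem bf_e_e62 (a b : Root) : bf (e a : Chev R) (e b) = -(if b = -a then 1 else 0) := by
  unfold bf
  simp only [e_h, e_x, Pi.zero_apply, zero_mul, Finset.sum_const_zero, zero_sub]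
  rw [Finset.sum_eq_single a]
  · rw [Pi.single_eq_same, one_mul]
    by_cases h : b = -a
    · rw [if_pos h, h, Pi.single_eq_same]
    · rw [if_neg h, Pi.single_eq_of_ne (Ne.symm h)]
  · intro c _ hc
    rw [Pi.single_eq_of_ne hc, zero_mul]
  · intro h
    exact absurd (Finset.mem_univ _) h

theorem mono_bf (hk : IsCoc w k) (y z : Chev R) : bf (mono τ w hw k y) (mono τ w hw k z) = τ (bf y z) := by
  have hF : ∀ y : Chev R, ∀ z z' : Chev R, bf (mono τ w hw k y) (mono τ w hw k (z + z')) =
      bf (mono τ w hw k y) (mono τ w hw k z) + bf (mono τ w hw k y) (mono τ w hw k z') :=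
    fun y z z' => by rw [mono_add, bf_add_right]
  have hF' : ∀ y : Chev R, ∀ (r : R) (z : Chev R), bf (mono τ w hw k y) (mono τ w hw k (r • z)) =
      τ r • bf (mono τ w hw k y) (mono τ w hw k z) :=
    fun y r z => by rw [mono_smul, bf_smul_right, smul_eq_mul]
  have hG : ∀ y : Chev R, ∀ z z' : Chev R, τ (bf y (z + z')) = τ (bf y z) + τ (bf y z') :=
    fun y z z' => by rw [bf_add_right, map_add]
  have hG' : ∀ y : Chev R, ∀ (r : R) (z : Chev R), τ (bf y (r • z)) = τ r • τ (bf y z) :=
    fun y r z => by rw [bf_smul_right, map_mul, smul_eq_mul]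
  have hL : ∀ z : Chev R, ∀ y y' : Chev R, bf (mono τ w hw k (y + y')) (mono τ w hw k z) =
      bf (mono τ w hw k y) (mono τ w hw k z) + bf (mono τ w hw k y') (mono τ w hw k z) :=
    fun z y y' => by rw [mono_add, bf_add_left]
  have hL' : ∀ z : Chev R, ∀ (r : R) (y : Chev R), bf (mono τ w hw k (r • y)) (mono τ w hw k z) =
      τ r • bf (mono τ w hw k y) (mono τ w hw k z) :=
    fun z r y => by rw [mono_smul, bf_smul_left, smul_eq_mul]
  have hM : ∀ z : Chev R, ∀ y y' : Chev R, τ (bf (y + y') z) = τ (bf y z) + τ (bf y' z) :=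
    fun z y y' => by rw [bf_add_left, map_add]
  have hM' : ∀ z : Chev R, ∀ (r : R) (y : Chev R), τ (bf (r • y) z) = τ r • τ (bf y z) :=
    fun z r y => by rw [bf_smul_left, map_mul, smul_eq_mul]
  refine sl_ext62 τ (F := fun z => bf (mono τ w hw k y) (mono τ w hw k z))
    (G := fun z => τ (bf y z)) (hF y) (hF' y) (hG y) (hG' y) (fun v => ?_) (fun b => ?_) z
  · refine sl_ext62 τ (F := fun y => bf (mono τ w hw k y) (mono τ w hw k (t v)))
      (G := fun y => τ (bf y (t v))) (hL (t v)) (hL' (t v)) (hM (t v)) (hM' (t v))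
      (fun v' => ?_) (fun a => ?_) y
    · rw [mono_t, mono_t, bf_t_t62, bf_t_t62, hw, map_intCast]
    · rw [mono_t, mono_e, bf_smul_left, bf_comm, bf_t_e62, bf_comm, bf_t_e62, mul_zero, map_zero]
  · refine sl_ext62 τ (F := fun y => bf (mono τ w hw k y) (mono τ w hw k (e b)))
      (G := fun y => τ (bf y (e b))) (hL (e b)) (hL' (e b)) (hM (e b)) (hM' (e b))
      (fun v' => ?_) (fun a => ?_) y
    · rw [mono_t, mono_e, bf_smul_right, bf_t_e62, bf_t_e62, mul_zero, map_zero]
    · rw [mono_e, mono_e, bf_smul_left, bf_smul_right, bf_e_e62, bf_e_e62, map_neg]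
      by_cases h : b = -a
      · have h' : onRoot w hw b = -onRoot w hw a := by rw [h, onRoot_neg62]
        rw [if_pos h, if_pos h', map_one, h]
        have := hk.neg a
        linear_combination -this
      · have h' : onRoot w hw b ≠ -onRoot w hw a := by
          rw [← onRoot_neg62]
          exact fun h2 => h ((onRoot w hw).injective h2)
        rw [if_neg h, if_neg h', map_zero]
        ring

theorem mono_comp (τ' : S →+* T) (w' : Lat ≃+ Lat) (hw' : IsIsom w') (k' : Root → T) (y : Chev R) :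
    mono τ' w' hw' k' (mono τ w hw k y) =
      mono (τ'.comp τ) (w.trans w') (hw.trans hw') (fun a => k' (onRoot w hw a) * τ' (k a)) y := by
  refine sl_ext62 (τ'.comp τ) (F := fun y => mono τ' w' hw' k' (mono τ w hw k y))
    (fun y z => by rw [mono_add, mono_add]) (fun r y => by rw [mono_smul, mono_smul]; rfl)
    (mono_add _ _ _ _) (mono_smul _ _ _ _) (fun v => ?_) (fun a => ?_) y
  · rw [mono_t, mono_t, mono_t]
    rfl
  · rw [mono_e, mono_smul, mono_e, mono_e, smul_smul, mul_comm (τ' (k a))]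
    rfl

theorem mono_injective (hτ : Function.Injective τ) (hk : IsCoc w k) : Function.Injective (mono τ w hw k) := by
  intro y z hyz
  ext i
  · refine hτ ?_
    have h1 : ∀ l, ∑ j, τ (y.h j) * ((w (al j) l : ℤ) : S) =
        ∑ j, τ (z.h j) * ((w (al j) l : ℤ) : S) := fun l =>
      congrFun (congrArg Chev.h hyz) l
    rw [← inv_sum62 w (fun j => τ (y.h j)) i, ← inv_sum62 w (fun j => τ (z.h j)) i]
    simp only [h1]
  · refine hτ ?_
    have h1 : k ((onRoot w hw).symm (onRoot w hw i)) * τ (y.x ((onRoot w hw).symm (onRoot w hw i))) =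
        k ((onRoot w hw).symm (onRoot w hw i)) * τ (z.x ((onRoot w hw).symm (onRoot w hw i))) :=
      congrFun (congrArg Chev.x hyz) (onRoot w hw i)
    rw [Equiv.symm_apply_apply] at h1
    have h2 := hk.neg i
    calc τ (y.x i) = k i * k (-i) * τ (y.x i) := by rw [h2, one_mul]
      _ = k (-i) * (k i * τ (y.x i)) := by ring
      _ = k (-i) * (k i * τ (z.x i)) := by rw [h1]
      _ = k i * k (-i) * τ (z.x i) := by ring
      _ = τ (z.x i) := by rw [h2, one_mul]

theorem mono_surjective (hτ : Function.Surjective τ) (hk : IsCoc w k) : Function.Surjective (mono τ w hw k) := by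
  intro y
  choose g hg using hτ
  refine ⟨⟨fun j => g (∑ i, y.h i * ((w.symm (al i) j : ℤ) : S)),
    fun a => g (k (-a) * y.x (onRoot w hw a))⟩, ?_⟩
  ext i
  · simp only [mono, hg]
    have h := inv_sum62 w.symm y.h i
    rw [AddEquiv.symm_symm] at h
    exact h
  · simp only [mono, hg, Equiv.apply_symm_apply]
    rw [← mul_assoc, hk.neg, one_mul]

/-- A monomial map is determined by its values on `t v` and `e a`. -/
theorem eq_mono {F : Chev R → Chev S} (hadd : ∀ y z, F (y + z) = F y + F z) (hsmul : ∀ (r : R) y, F (r • y) = τ r • F y)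
    (ht : ∀ i, F (t (al i)) = t (w (al i))) (he : ∀ a, F (e a) = k a • e (onRoot w hw a)) (y : Chev R) :
    F y = mono τ w hw k y := by
  rw [sl_expand62 τ hadd hsmul y, sl_expand62 τ (mono_add τ w hw k) (mono_smul τ w hw k) y]
  simp only [ht, he, mono_t, mono_e]

/-- The linear monomial maps as automorphisms. -/
noncomputable def monoEquiv (k : Root → R) (hk : IsCoc w k) : Chev R ≃ₗ⁅R⁆ Chev R :=
  { LinearEquiv.ofBijective
      ({ toFun := mono (RingHom.id R) w hw k
         map_add' := mono_add _ _ _ _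
         map_smul' := mono_smul _ _ _ _ } : Chev R →ₗ[R] Chev R)
      ⟨mono_injective _ _ _ _ Function.injective_id hk, mono_surjective _ _ _ _ Function.surjective_id hk⟩ with
    map_lie' := mono_lie (RingHom.id R) w hw k hk _ _ }

@[simp] theorem monoEquiv_apply (k : Root → R) (hk : IsCoc w k) (y : Chev R) :
    monoEquiv w hw k hk y = mono (RingHom.id R) w hw k y := rfl

end Chev

theorem isIsom_refl : IsIsom (AddEquiv.refl Lat) := fun _ _ => rfl

/-- Torus elements. -/
theorem isCoc_torus {S : Type*} [CommRing S] (u : Multiplicative Lat →* Sˣ) :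
    IsCoc (AddEquiv.refl Lat) (fun a : Root => (u (Multiplicative.ofAdd a.1) : S)) := by
  constructor
  · intro a b d h
    change (u (Multiplicative.ofAdd d.1) : S) * ((eps a.1 b.1 : ℤ) : S) =
      (u (Multiplicative.ofAdd a.1) : S) * (u (Multiplicative.ofAdd b.1) : S) *
        ((eps a.1 b.1 : ℤ) : S)
    rw [h, ofAdd_add, map_mul, Units.val_mul]
  · intro a
    change (u (Multiplicative.ofAdd a.1) : S) * (u (Multiplicative.ofAdd (-a.1)) : S) = 1
    rw [ofAdd_neg, map_inv, Units.mul_inv]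

/-- Lifts of isometries. -/
theorem isCoc_lift {S : Type*} [CommRing S] (w : Lat ≃+ Lat) (η : Lat → ℤˣ) (hη : IsLift w η) :
    IsCoc w (fun a : Root => ((η a.1 : ℤ) : S)) := by
  constructor
  · intro a b d h
    have h1 : η d.1 * eps a.1 b.1 = η a.1 * η b.1 * eps (w a.1) (w b.1) := by
      rw [h, hη.add]
      calc η a.1 * η b.1 * (eps a.1 b.1 * eps (w a.1) (w b.1)) * eps a.1 b.1
          = η a.1 * η b.1 * eps (w a.1) (w b.1) * (eps a.1 b.1 * eps a.1 b.1) := by
            simp only [mul_assoc, mul_comm, mul_left_comm]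
        _ = η a.1 * η b.1 * eps (w a.1) (w b.1) := by rw [Int.units_mul_self, mul_one]
    have h2 := congrArg (fun u : ℤˣ => ((u : ℤ) : S)) h1
    simpa only [Units.val_mul, Int.cast_mul] using h2
  · intro a
    have h1 : η a.1 * η (-a).1 = 1 := by
      rw [neg_val, hη.neg, Int.units_mul_self]
    have h2 := congrArg (fun u : ℤˣ => ((u : ℤ) : S)) h1
    simpa only [Units.val_mul, Int.cast_mul, Units.val_one, Int.cast_one] using h2

/-- Every system of coefficients is a lift times a torus element. -/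
theorem isCoc_factor {S : Type*} [CommRing S] (w : Lat ≃+ Lat) (k : Root → S) (hk : IsCoc w k) (η : Lat → ℤˣ) (hη : IsLift w η) :
    ∃ u : Multiplicative Lat →* Sˣ, ∀ a : Root, k a = ((η a.1 : ℤ) : S) * (u (Multiplicative.ofAdd a.1) : S) := by
  have hsq : ∀ x : Lat, ((η x : ℤ) : S) * ((η x : ℤ) : S) = 1 := by
    intro x
    have h2 := congrArg (fun u : ℤˣ => ((u : ℤ) : S)) (Int.units_mul_self (η x))
    simpa only [Units.val_mul, Int.cast_mul, Units.val_one, Int.cast_one] using h2
  have hk2 : ∀ a : Root, k (-a) * k a = 1 := fun a => by rw [mul_comm, hk.neg]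
  let v : Root → Sˣ := fun a =>
    ⟨k a * ((η a.1 : ℤ) : S), k (-a) * ((η a.1 : ℤ) : S), by
      have h1 := hk.neg a
      have h2 := hsq a.1
      calc k a * ((η a.1 : ℤ) : S) * (k (-a) * ((η a.1 : ℤ) : S))
          = (k a * k (-a)) * (((η a.1 : ℤ) : S) * ((η a.1 : ℤ) : S)) := by ring
        _ = 1 := by rw [h1, h2, one_mul], by
      have h1 := hk.neg a
      have h2 := hsq a.1
      calc k (-a) * ((η a.1 : ℤ) : S) * (k a * ((η a.1 : ℤ) : S))
          = (k a * k (-a)) * (((η a.1 : ℤ) : S) * ((η a.1 : ℤ) : S)) := by ring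
        _ = 1 := by rw [h1, h2, one_mul]⟩
  have hlift := isCoc_lift (S := S) w η hη
  have heps : ∀ x y : Lat, ((eps x y : ℤ) : S) * ((eps x y : ℤ) : S) = 1 := by
    intro x y
    have h2 := congrArg (fun u : ℤˣ => ((u : ℤ) : S)) (Int.units_mul_self (eps x y))
    simpa only [Units.val_mul, Int.cast_mul, Units.val_one, Int.cast_one] using h2
  obtain ⟨u, hu⟩ := hom_ext v (fun a b c h => by
    apply Units.ext
    rw [Units.val_mul]
    change k c * ((η c.1 : ℤ) : S) = k a * ((η a.1 : ℤ) : S) * (k b * ((η b.1 : ℤ) : S))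
    have h1 := hk.add a b c h
    have h2 := hlift.add a b c h
    have h3 := heps a.1 b.1
    have h4 := heps (w a.1) (w b.1)
    calc k c * ((η c.1 : ℤ) : S)
        = (k c * ((eps a.1 b.1 : ℤ) : S)) * (((η c.1 : ℤ) : S) * ((eps a.1 b.1 : ℤ) : S)) := by
          calc k c * ((η c.1 : ℤ) : S)
              = k c * ((η c.1 : ℤ) : S) * (((eps a.1 b.1 : ℤ) : S) * ((eps a.1 b.1 : ℤ) : S)) := by
                rw [h3, mul_one]
            _ = _ := by ring
      _ = (k a * k b * ((eps (w a.1) (w b.1) : ℤ) : S)) *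
          (((η a.1 : ℤ) : S) * ((η b.1 : ℤ) : S) * ((eps (w a.1) (w b.1) : ℤ) : S)) := by
          rw [h1, h2]
      _ = k a * ((η a.1 : ℤ) : S) * (k b * ((η b.1 : ℤ) : S)) *
          (((eps (w a.1) (w b.1) : ℤ) : S) * ((eps (w a.1) (w b.1) : ℤ) : S)) := by ring
      _ = _ := by rw [h4, mul_one])
    (fun a => by
      rw [eq_inv_iff_mul_eq_one]
      apply Units.ext
      rw [Units.val_mul, Units.val_one]
      change k (-a) * ((η (-a).1 : ℤ) : S) * (k a * ((η a.1 : ℤ) : S)) = 1
      rw [neg_val, hη.neg]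
      calc k (-a) * ((η a.1 : ℤ) : S) * (k a * ((η a.1 : ℤ) : S))
          = (k (-a) * k a) * (((η a.1 : ℤ) : S) * ((η a.1 : ℤ) : S)) := by ring
        _ = 1 := by rw [hk2, hsq, one_mul])
  refine ⟨u, fun a => ?_⟩
  rw [← hu a]
  change k a = ((η a.1 : ℤ) : S) * (k a * ((η a.1 : ℤ) : S))
  calc k a = k a * (((η a.1 : ℤ) : S) * ((η a.1 : ℤ) : S)) := by rw [hsq, mul_one]
    _ = _ := by ring

end Pool.Agent.Helper73.E8
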