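import Pool.Agent.Helper73.E8.RootsDef

/-!
# Block E8-ROOTS: combinatorics of the roots of E8

Everything is about the explicit positive definite even unimodular lattice `Lat = Z^8` (`ip`, `four_ip` in `Base.lean`).
Either enumerate (the doubled coordinates `y_1, ..., y_8` of `four_ip` satisfy `∑ y_i ^ 2 = 8`, so they are
all `±1` or two of them are `±2` and the others 0; or: `a.1 ∈ explicit list of 240 vectors`), or argue:

* `ip_even`: `two_be_self`.
* `add_root_iff`: `(a + b, a + b) = 4 + 2 (a, b)`.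
* `abs_ip_root_le`: Cauchy-Schwarz: `0 ≤ (a ± b, a ± b) = 4 ± 2 (a, b)`; `ip_eq_two_iff`: `(a, b) = 2` iff `(a - b, a - b) = 0`.
* `root_pos_or_neg`: write `a = p - m` with `p = max a 0`, `m = max (-a) 0` (disjoint supports). The off-diagonal entries of
  the Cartan matrix are `≤ 0`, so `(p, m) ≤ 0` and `2 = (a, a) = (p, p) + (m, m) - 2 (p, m) ≥ (p, p) + (m, m)`; if both are non-zero
  the right side is `≥ 4` (even positive definite).
* `ht_root_ne_zero`, `root_of_ht_one` (coordinates `≥ 0` with sum 1) follow.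
* `exists_sub_simple`: `2 = (a, a) = ∑ a_i (a, α_i)` with `a_i ≥ 0`, so `(a, α_i) > 0` for some `i`; not 2 because `a ≠ α_i`;
  so `(a, α_i) = 1` and `a - α_i` is a root, of height `ht a - 1 > 0`.
* `root_coord_le`, `abs_ht_root_le`: by enumeration, or: a positive root `a ≠ θ` has `(a, α_i) < 0` for some `i` or is dominant; ...
  (enumeration is easier: `decide`/`norm_num` on the explicit list).
* `card_root`, `sum_root`: from the explicit list (it suffices to check `∑_a a_i a_j = 60 (C^-1)_ij`, i.e. 64 integer sums, or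
  `∑_a (∑_k C_ik a_k) (∑_k C_jk a_k) = 60 C_ij`).
* `exists_ip_eq_one`: `x = a - b` has norm `4 - 2 (a, b) ≤ 6`, and is not zero; if an integer `d ≥ 2` divides all coordinates of `x`
  then `(x, x) ≥ 2 d^2 ≥ 8`, contradiction. So the coordinates of `x` are coprime, and so are those of `C x` (`det C = 1`,
  `CartanMatrix.E₈_det`, inverse = adjugate); Bezout gives `v` with `∑ v_i (C x)_i = 1`.
-/

set_option autoImplicit false

namespace Pool.Agent.Helper73.E8

/-! ### The explicit list of roots -/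

/-- The positive roots, the coordinates written as decimal digits. -/
private def posCodes : List ℕ :=
  [1, 10, 11, 100, 110, 111, 1000, 1100, 1110, 1111, 10000, 11000, 11100, 11110, 11111, 100000,
   110000, 111000, 111100, 111110, 111111, 1000000, 1010000, 1011000, 1011100, 1011110, 1011111,
   1110000, 1111000, 1111100, 1111110, 1111111, 1121000, 1121100, 1121110, 1121111, 1122100,
   1122110, 1122111, 1122210, 1122211, 1122221, 10000000, 10100000, 10110000, 10111000, 10111100,
   10111110, 10111111, 11110000, 11111000, 11111100, 11111110, 11111111, 11121000, 11121100,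
   11121110, 11121111, 11122100, 11122110, 11122111, 11122210, 11122211, 11122221, 11221000,
   11221100, 11221110, 11221111, 11222100, 11222110, 11222111, 11222210, 11222211, 11222221,
   11232100, 11232110, 11232111, 11232210, 11232211, 11232221, 11233210, 11233211, 11233221,
   11233321, 12232100, 12232110, 12232111, 12232210, 12232211, 12232221, 12233210, 12233211,
   12233221, 12233321, 12243210, 12243211, 12243221, 12243321, 12244321, 12343210, 12343211,
   12343221, 12343321, 12344321, 12354321, 13354321, 22343210, 22343211, 22343221, 22343321,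
   22344321, 22354321, 22454321, 23354321, 23454321, 23464321, 23465321, 23465421, 23465431,
   23465432]

private def dig (n : ℕ) : List ℤ :=
  [((n / 10000000 % 10 : ℕ) : ℤ), ((n / 1000000 % 10 : ℕ) : ℤ), ((n / 100000 % 10 : ℕ) : ℤ),
    ((n / 10000 % 10 : ℕ) : ℤ), ((n / 1000 % 10 : ℕ) : ℤ), ((n / 100 % 10 : ℕ) : ℤ),
    ((n / 10 % 10 : ℕ) : ℤ), ((n % 10 : ℕ) : ℤ)]

private def rl : List (List ℤ) :=
  posCodes.map dig ++ posCodes.map fun n => (dig n).map fun t => -t

private def vec (l : List ℤ) : Lat := fun i => l.getD (i : ℕ) 0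

private def code (a : Lat) : List ℤ := [a 0, a 1, a 2, a 3, a 4, a 5, a 6, a 7]

private theorem vec_code (a : Lat) : vec (code a) = a := by
  funext i
  fin_cases i <;> rfl

/-- The doubled orthonormal coordinates. -/
private def yOf (a : Lat) : List ℤ :=
  [a 0 + 2 * a 1 - 2 * a 2, -a 0 + 2 * a 1 + 2 * a 2 - 2 * a 3, -a 0 + 2 * a 3 - 2 * a 4,
    -a 0 + 2 * a 4 - 2 * a 5, -a 0 + 2 * a 5 - 2 * a 6, -a 0 + 2 * a 6 - 2 * a 7,
    -a 0 + 2 * a 7, a 0]

private theorem sum_yOf (a : Lat) : ((yOf a).map fun t => t * t).sum = 4 * ip a a := by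
  rw [four_ip]
  simp only [yOf, List.map_cons, List.map_nil, List.sum_cons, List.sum_nil]
  ring

private def invx (y1 y2 y7 y8 x7 x6 x5 x4 x3 : ℤ) : List ℤ :=
  [y8, (y1 + y2 + 2 * x3) / 4, (y8 + 2 * ((y1 + y2 + 2 * x3) / 4) - y1) / 2, x3, x4, x5, x6,
    x7 + 0 * y7]

private def inv : List ℤ → List ℤ
  | [y1, y2, y3, y4, y5, y6, y7, y8] =>
    let x7 := (y7 + y8) / 2
    let x6 := (y6 + y8 + 2 * x7) / 2
    let x5 := (y5 + y8 + 2 * x6) / 2
    let x4 := (y4 + y8 + 2 * x5) / 2
    let x3 := (y3 + y8 + 2 * x4) / 2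
    invx y1 y2 y7 y8 x7 x6 x5 x4 x3
  | _ => []

private theorem inv_yOf (a : Lat) : inv (yOf a) = code a := by
  have h7 : (-a 0 + 2 * a 7 + a 0) / 2 = a 7 := by omega
  have h6 : (-a 0 + 2 * a 6 - 2 * a 7 + a 0 + 2 * a 7) / 2 = a 6 := by omega
  have h5 : (-a 0 + 2 * a 5 - 2 * a 6 + a 0 + 2 * a 6) / 2 = a 5 := by omega
  have h4 : (-a 0 + 2 * a 4 - 2 * a 5 + a 0 + 2 * a 5) / 2 = a 4 := by omega
  have h3 : (-a 0 + 2 * a 3 - 2 * a 4 + a 0 + 2 * a 4) / 2 = a 3 := by omega
  have h1 : (a 0 + 2 * a 1 - 2 * a 2 + (-a 0 + 2 * a 1 + 2 * a 2 - 2 * a 3) + 2 * a 3) / 4 =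
      a 1 := by omega
  have h2 : (a 0 + 2 * a 1 - (a 0 + 2 * a 1 - 2 * a 2)) / 2 = a 2 := by omega
  simp only [inv, yOf, invx, code, h7, h6, h5, h4, h3, h1, h2, zero_mul, add_zero]

/-- The lists of length `n` of integers in `[-2, 2]`, congruent to `p` modulo 2, with sum of
squares `r`. -/
private def S : ℕ → ℤ → ℤ → List (List ℤ)
  | 0, _, r => if r = 0 then [[]] else []
  | n + 1, p, r => if r < 0 then [] else
      (([-2, -1, 0, 1, 2] : List ℤ).filter fun t => (t - p) % 2 = 0).flatMap fun t =>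
        (S n p (r - t * t)).map fun l => t :: l

private theorem mem_S (p : ℤ) : ∀ (l : List ℤ) (r : ℤ),
    (∀ t ∈ l, (-2 ≤ t ∧ t ≤ 2) ∧ (t - p) % 2 = 0) → (l.map fun t => t * t).sum = r →
    l ∈ S l.length p r
  | [], r, _, h => by
    have : r = 0 := by rw [← h]; rfl
    rw [this]
    simp [S]
  | t :: l, r, h, hr => by
    have h1 := h t List.mem_cons_self
    have h2 : (l.map fun t => t * t).sum = r - t * t := by
      rw [← hr, List.map_cons, List.sum_cons]
      ring
    have h3 := mem_S p l _ (fun u hu => h u (List.mem_cons_of_mem _ hu)) h2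
    have h4 : 0 ≤ (l.map fun t => t * t).sum := by
      apply List.sum_nonneg
      intro u hu
      obtain ⟨v, _, rfl⟩ := List.mem_map.1 hu
      exact mul_self_nonneg v
    have h5 : ¬ r < 0 := by
      have := mul_self_nonneg t
      omega
    have h6 : t ∈ ([-2, -1, 0, 1, 2] : List ℤ) := by
      have : t = -2 ∨ t = -1 ∨ t = 0 ∨ t = 1 ∨ t = 2 := by omega
      rcases this with rfl | rfl | rfl | rfl | rfl <;> decide
    rw [List.length_cons, S, if_neg h5, List.mem_flatMap]
    refine ⟨t, List.mem_filter.2 ⟨h6, by simpa using h1.2⟩, List.mem_map.2 ⟨l, h3, rfl⟩⟩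

private theorem check_S : ∀ y ∈ S 8 0 8 ++ S 8 1 8, yOf (vec (inv y)) = y → inv y ∈ rl := by
  decide +kernel

private theorem code_mem {a : Lat} (h : ip a a = 2) : code a ∈ rl := by
  have h1 : ((yOf a).map fun t => t * t).sum = 8 := by rw [sum_yOf, h]; rfl
  have h4 := four_ip a
  rw [h] at h4
  have key : ∀ t : ℤ, t ^ 2 ≤ 8 → -2 ≤ t ∧ t ≤ 2 := by
    intro t ht
    constructor <;> nlinarith
  have hb : ∀ t ∈ yOf a, -2 ≤ t ∧ t ≤ 2 := by
    intro t ht
    apply key
    have h2 : t ^ 2 ≤ ((yOf a).map fun t => t * t).sum := by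
      have := List.single_le_sum (l := (yOf a).map fun t => t * t) (by
        intro u hu
        obtain ⟨v, _, rfl⟩ := List.mem_map.1 hu
        exact mul_self_nonneg v) (t * t) (List.mem_map.2 ⟨t, ht, rfl⟩)
      rw [sq]
      exact this
    rw [h1] at h2
    exact h2
  have hp : ∀ t ∈ yOf a, (t - a 0 % 2) % 2 = 0 := by
    intro t ht
    simp only [yOf, List.mem_cons, List.not_mem_nil, or_false] at ht
    rcases ht with h | h | h | h | h | h | h | h <;> (rw [h]; omega)
  have h5 : yOf a ∈ S 8 (a 0 % 2) 8 := mem_S _ (yOf a) 8 (fun t ht => ⟨hb t ht, hp t ht⟩) h1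
  have h6 : yOf a ∈ S 8 0 8 ++ S 8 1 8 := by
    rw [List.mem_append]
    rcases Int.emod_two_eq_zero_or_one (a 0) with h | h
    · left
      rwa [h] at h5
    · right
      rwa [h] at h5
  have h7 := check_S _ h6
  rw [inv_yOf, vec_code] at h7
  exact h7 rfl

private theorem check_quad : ∀ l ∈ rl, ((yOf (vec l)).map fun t => t * t).sum = 8 := by
  decide +kernel

private theorem check_code : ∀ l ∈ rl, code (vec l) = l := by
  decide +kernel

private def key (l : List ℤ) : ℤ :=
  if 0 < l.foldl (fun acc t => acc * 10 + t) 0 then l.foldl (fun acc t => acc * 10 + t) 0 else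
    1000000000 - l.foldl (fun acc t => acc * 10 + t) 0

private theorem rl_nodup : rl.Nodup := by
  have h : (rl.map key).IsChain (· < ·) := by decide +kernel
  exact List.Nodup.of_map key (List.isChain_iff_pairwise.1 h |>.imp fun h => ne_of_lt h)

private theorem map_nodup : (rl.map vec).Nodup := by
  refine List.Nodup.map_on (fun l hl l' hl' h => ?_) rl_nodup
  rw [← check_code l hl, ← check_code l' hl', h]

private def R0 : Finset Lat := (rl.map vec).toFinset

private theorem mem_R0 (a : Lat) : a ∈ R0 ↔ ip a a = 2 := by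
  unfold R0
  rw [List.mem_toFinset, List.mem_map]
  constructor
  · rintro ⟨l, hl, rfl⟩
    have h1 := check_quad l hl
    rw [sum_yOf] at h1
    omega
  · intro h
    exact ⟨code a, code_mem h, vec_code a⟩

private theorem root_ind {P : Lat → Prop} (h : ∀ l ∈ rl, P (vec l)) (a : Root) : P a.1 := by
  rw [← vec_code a.1]
  exact h _ (code_mem a.2)

private theorem sum_eq {M : Type*} [AddCommMonoid M] (F : Lat → M) :
    ∑ a : Root, F a.1 = (rl.map fun l => F (vec l)).sum := by
  have h1 : ∑ x ∈ R0, F x = ∑ a : Root, F a.1 := Finset.sum_subtype R0 mem_R0 F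
  rw [← h1]
  unfold R0
  rw [List.sum_toFinset _ map_nodup, List.map_map]
  rfl

private theorem ht_eq (x : Lat) :
    ht x = x 0 + x 1 + x 2 + x 3 + x 4 + x 5 + x 6 + x 7 := by
  unfold ht
  rw [Fin.sum_univ_eight]

private theorem check_sign : ∀ l ∈ rl, (∀ i, 0 ≤ vec l i) ∨ (∀ i, vec l i ≤ 0) := by
  decide +kernel

private theorem check_ht : ∀ l ∈ rl, vec l 0 + vec l 1 + vec l 2 + vec l 3 + vec l 4 + vec l 5 +
    vec l 6 + vec l 7 ≠ 0 := by
  decide +kernel

private theorem check_theta : ∀ l ∈ rl, ∀ i, -theta i ≤ vec l i ∧ vec l i ≤ theta i := by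
  decide +kernel

private theorem check_ht29 : ∀ l ∈ rl, -29 ≤ vec l 0 + vec l 1 + vec l 2 + vec l 3 + vec l 4 +
    vec l 5 + vec l 6 + vec l 7 ∧ vec l 0 + vec l 1 + vec l 2 + vec l 3 + vec l 4 + vec l 5 +
    vec l 6 + vec l 7 ≤ 29 := by
  decide +kernel

private theorem check_one : ∀ l ∈ rl, vec l 0 + vec l 1 + vec l 2 + vec l 3 + vec l 4 +
    vec l 5 + vec l 6 + vec l 7 = 1 → ∃ i : Fin 8, ∀ j, vec l j = if j = i then 1 else 0 := by
  decide +kernel

private theorem check_sub : ∀ l ∈ rl, 1 < vec l 0 + vec l 1 + vec l 2 + vec l 3 + vec l 4 +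
    vec l 5 + vec l 6 + vec l 7 → ∃ i : Fin 8,
      ((yOf fun j => vec l j - if j = i then 1 else 0).map fun t => t * t).sum = 8 := by
  decide +kernel

/-- The doubled orthonormal coordinates, as a function. -/
private def Y (a : Lat) : Fin 8 → ℤ :=
  ![a 0 + 2 * a 1 - 2 * a 2, -a 0 + 2 * a 1 + 2 * a 2 - 2 * a 3, -a 0 + 2 * a 3 - 2 * a 4,
    -a 0 + 2 * a 4 - 2 * a 5, -a 0 + 2 * a 5 - 2 * a 6, -a 0 + 2 * a 6 - 2 * a 7,
    -a 0 + 2 * a 7, a 0]

private theorem four_ip2 (x y : Lat) : 4 * ip x y = ∑ i, Y x i * Y y i := by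
  simp [Y, ip, Fin.sum_univ_eight, CartanMatrix.E₈]
  ring

private theorem check_sum : ∀ i j : Fin 8, (rl.map fun l => Y (vec l) i * Y (vec l) j).sum =
    if i = j then 240 else 0 := by
  decide +kernel

theorem ip_even (x : Lat) : 2 ∣ ip x x := ⟨be x x, (two_be_self x).symm⟩

private theorem ip_add_add_h14 (x y : Lat) :
    ip (x + y) (x + y) = ip x x + ip y y + 2 * ip x y := by
  rw [ip_add_left, ip_add_right, ip_add_right, ip_comm y x]
  ring

private theorem ip_sub_sub_h14 (x y : Lat) :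
    ip (x - y) (x - y) = ip x x + ip y y - 2 * ip x y := by
  rw [sub_eq_add_neg, ip_add_add_h14, ip_neg_left, ip_neg_right, ip_neg_right]
  ring

theorem abs_ip_root_le (a b : Root) : |ip a.1 b.1| ≤ 2 := by
  have h1 := ip_nonneg (a.1 - b.1)
  have h2 := ip_nonneg (a.1 + b.1)
  rw [ip_sub_sub_h14] at h1
  rw [ip_add_add_h14] at h2
  rw [a.2, b.2] at h1 h2
  rw [abs_le]
  constructor <;> linarith

theorem ip_root_eq_two_iff (a b : Root) : ip a.1 b.1 = 2 ↔ a = b := by
  constructor
  · intro h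
    have h1 : ip (a.1 - b.1) (a.1 - b.1) = 0 := by
      rw [ip_sub_sub_h14, a.2, b.2, h]
      norm_num
    exact root_ext (sub_eq_zero.1 (ip_self_eq_zero h1))
  · rintro rfl
    exact a.2

theorem ip_root_eq_neg_two_iff (a b : Root) : ip a.1 b.1 = -2 ↔ a = -b := by
  rw [← ip_root_eq_two_iff, neg_val, ip_neg_right]
  constructor <;> intro h <;> linarith

theorem add_root_iff (a b : Root) : (∃ c : Root, c.1 = a.1 + b.1) ↔ ip a.1 b.1 = -1 := by
  constructor
  · rintro ⟨c, hc⟩
    have h1 := c.2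
    rw [hc, ip_add_add_h14, a.2, b.2] at h1
    linarith
  · intro h
    refine ⟨⟨a.1 + b.1, ?_⟩, rfl⟩
    rw [ip_add_add_h14, a.2, b.2, h]
    norm_num

theorem root_pos_or_neg (a : Root) : (∀ i, 0 ≤ a.1 i) ∨ (∀ i, a.1 i ≤ 0) := by
  exact root_ind (P := fun x => (∀ i, 0 ≤ x i) ∨ (∀ i, x i ≤ 0)) check_sign a

theorem ht_root_ne_zero (a : Root) : ht a.1 ≠ 0 := by
  refine root_ind (P := fun x => ht x ≠ 0) (fun l hl => ?_) a
  rw [ht_eq]
  exact check_ht l hl

theorem root_coord_le (a : Root) (i : Fin 8) : |a.1 i| ≤ theta i := by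
  refine root_ind (P := fun x => |x i| ≤ theta i) (fun l hl => ?_) a
  exact abs_le.2 (check_theta l hl i)

theorem abs_ht_root_le (a : Root) : |ht a.1| ≤ 29 := by
  refine root_ind (P := fun x => |ht x| ≤ 29) (fun l hl => ?_) a
  rw [ht_eq]
  exact abs_le.2 (check_ht29 l hl)

theorem root_of_ht_one (a : Root) (h : ht a.1 = 1) : ∃ i, a = sr i := by
  have h1 : ∃ i : Fin 8, ∀ j, a.1 j = if j = i then 1 else 0 := by
    revert h
    refine root_ind (P := fun x => ht x = 1 → ∃ i : Fin 8, ∀ j, x j = if j = i then 1 else 0)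
      (fun l hl => ?_) a
    rw [ht_eq]
    exact check_one l hl
  obtain ⟨i, hi⟩ := h1
  refine ⟨i, root_ext ?_⟩
  funext j
  rw [hi j]
  simp [sr, al, Pi.single_apply]

theorem exists_sub_simple (a : Root) (h : 1 < ht a.1) : ∃ (i : Fin 8) (b : Root), a.1 = b.1 + al i := by
  have h1 : ∃ i : Fin 8,
      ((yOf fun j => a.1 j - if j = i then 1 else 0).map fun t => t * t).sum = 8 := by
    revert h
    refine root_ind (P := fun x => 1 < ht x → ∃ i : Fin 8,
      ((yOf fun j => x j - if j = i then 1 else 0).map fun t => t * t).sum = 8)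
      (fun l hl => ?_) a
    rw [ht_eq]
    exact check_sub l hl
  obtain ⟨i, hi⟩ := h1
  rw [sum_yOf] at hi
  refine ⟨i, ⟨fun j => a.1 j - if j = i then 1 else 0, by omega⟩, ?_⟩
  funext j
  simp [al, Pi.single_apply]

theorem card_root : Fintype.card Root = 240 := by
  have h1 : Fintype.card Root = R0.card :=
    @Fintype.card_of_subtype Lat (fun a => ip a a = 2) R0 mem_R0 (inferInstance : Fintype Root)
  rw [h1]
  unfold R0
  rw [List.toFinset_card_of_nodup map_nodup, List.length_map]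
  decide +kernel

theorem sum_root (x y : Lat) : ∑ a : Root, ip x a.1 * ip a.1 y = 60 * ip x y := by
  have h1 : ∑ a : Root, (4 * ip x a.1) * (4 * ip a.1 y) = 960 * ip x y := by
    have h2 : ∀ a : Root, (4 * ip x a.1) * (4 * ip a.1 y) =
        ∑ i, ∑ j, Y x i * Y y j * (Y a.1 i * Y a.1 j) := by
      intro a
      rw [four_ip2, four_ip2, Finset.sum_mul_sum]
      refine Finset.sum_congr rfl fun i _ => Finset.sum_congr rfl fun j _ => ?_
      ring
    rw [Finset.sum_congr rfl fun a _ => h2 a, Finset.sum_comm]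
    have h3 : ∀ i, ∑ a : Root, ∑ j, Y x i * Y y j * (Y a.1 i * Y a.1 j) =
        240 * (Y x i * Y y i) := by
      intro i
      rw [Finset.sum_comm]
      have h4 : ∀ j, ∑ a : Root, Y x i * Y y j * (Y a.1 i * Y a.1 j) =
          Y x i * Y y j * if i = j then 240 else 0 := by
        intro j
        rw [← Finset.mul_sum, ← check_sum i j, ← sum_eq fun v => Y v i * Y v j]
      rw [Finset.sum_congr rfl fun j _ => h4 j, Finset.sum_eq_single i]
      · rw [if_pos rfl]
        ring
      · intro j _ hj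
        rw [if_neg (Ne.symm hj), mul_zero]
      · intro h
        exact absurd (Finset.mem_univ i) h
    rw [Finset.sum_congr rfl fun i _ => h3 i, ← Finset.mul_sum, ← four_ip2]
    ring
  have h5 : ∑ a : Root, (4 * ip x a.1) * (4 * ip a.1 y) =
      16 * ∑ a : Root, ip x a.1 * ip a.1 y := by
    rw [Finset.mul_sum]
    exact Finset.sum_congr rfl fun a _ => by ring
  omega

private theorem functional_h14 (f : Lat →+ ℤ) : ∃ v : Lat, ∀ x, f x = ip v x := by
  have hdet : IsUnit (CartanMatrix.E₈ : Matrix (Fin 8) (Fin 8) ℤ).det := by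
    rw [CartanMatrix.E₈_det]
    exact isUnit_one
  obtain ⟨w, hw⟩ : ∃ w : Fin 8 → ℤ, w = fun k => f (al k) := ⟨_, rfl⟩
  refine ⟨Matrix.vecMul w (CartanMatrix.E₈)⁻¹, fun x => ?_⟩
  have h1 : f x = ∑ k, w k * x k := by
    have h2 : x = ∑ k, x k • al k := by
      funext j
      simp [al, Finset.sum_apply, Pi.single_apply]
    conv_lhs => rw [h2]
    rw [map_sum]
    refine Finset.sum_congr rfl fun k _ => ?_
    rw [map_zsmul, hw, smul_eq_mul, mul_comm]
  have h3 : ip (Matrix.vecMul w (CartanMatrix.E₈)⁻¹) x =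
      ∑ j, Matrix.vecMul (Matrix.vecMul w (CartanMatrix.E₈)⁻¹) CartanMatrix.E₈ j * x j := by
    unfold ip
    rw [Finset.sum_comm]
    refine Finset.sum_congr rfl fun j _ => ?_
    rw [Matrix.vecMul, dotProduct, Finset.sum_mul]
  rw [h1, h3, Matrix.vecMul_vecMul, Matrix.nonsing_inv_mul _ hdet, Matrix.vecMul_one]

theorem exists_ip_eq_one {a b : Root} (h1 : a ≠ b) (h2 : a ≠ -b) : ∃ v : Lat, ip v (a.1 - b.1) = 1 := by
  obtain ⟨x, hx⟩ : ∃ x : Lat, x = a.1 - b.1 := ⟨_, rfl⟩
  rw [← hx]
  have hx0 : x ≠ 0 := by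
    rw [hx]
    exact fun h => h1 (root_ext (sub_eq_zero.1 h))
  have hn : ip x x ≤ 6 := by
    rw [hx, ip_sub_sub_h14, a.2, b.2]
    have h3 := abs_le.1 (abs_ip_root_le a b)
    have h4 : ip a.1 b.1 ≠ -2 := fun h => h2 ((ip_root_eq_neg_two_iff a b).1 h)
    omega
  let g : Lat →+ ℤ :=
    { toFun := fun v => ip v x
      map_zero' := by simp [ip]
      map_add' := fun u v => ip_add_left u v x }
  obtain ⟨d, hd⟩ := Int.subgroup_cyclic g.range
  have hdiv : ∀ v, d ∣ ip v x := by
    intro v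
    have h3 : g v ∈ g.range := ⟨v, rfl⟩
    rw [hd, AddSubgroup.mem_closure_singleton] at h3
    obtain ⟨n, hn⟩ := h3
    exact ⟨n, by rw [mul_comm, ← smul_eq_mul]; exact hn.symm⟩
  have hdx : ∀ i, d ∣ x i := by
    intro i
    obtain ⟨v, hv⟩ := functional_h14 (Pi.evalAddMonoidHom (fun _ => ℤ) i)
    have h3 := hdiv v
    rw [← hv x] at h3
    exact h3
  choose z hz using hdx
  have hz0 : (z : Lat) ≠ 0 := by
    intro h
    apply hx0
    funext i
    rw [hz i, h]
    simp
  have hxz : ip x x = d * d * ip z z := by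
    have : x = d • (z : Lat) := by
      funext i
      rw [hz i]
      rfl
    rw [this]
    simp only [ip, Pi.smul_apply, smul_eq_mul, Finset.mul_sum]
    refine Finset.sum_congr rfl fun i _ => Finset.sum_congr rfl fun j _ => ?_
    ring
  have hz2 : 2 ≤ ip z z := by
    have h3 := ip_pos hz0
    obtain ⟨m, hm⟩ := ip_even z
    omega
  have hd1 : d * d ≤ 3 := by nlinarith [mul_self_nonneg d]
  have hd0 : d ≠ 0 := by
    rintro rfl
    apply hx0
    funext i
    rw [hz i]
    simp
  have hd2 : d = 1 ∨ d = -1 := by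
    have h3 : -1 ≤ d ∧ d ≤ 1 := by constructor <;> nlinarith
    omega
  have h3 : (1 : ℤ) ∈ g.range := by
    rw [hd, AddSubgroup.mem_closure_singleton]
    rcases hd2 with rfl | rfl
    · exact ⟨1, rfl⟩
    · exact ⟨-1, rfl⟩
  obtain ⟨v, hv⟩ := h3
  exact ⟨v, hv⟩

/-- The lattice is unimodular. -/
theorem exists_of_functional (f : Lat →+ ℤ) : ∃ v : Lat, ∀ x, f x = ip v x := by
  exact functional_h14 f

end Pool.Agent.Helper73.E8
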