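import Pool.Agent.Helper73.E8.Alg
import Pool.Agent.Helper73.E8.Roots

/-!
# Block E8-KILL: the invariant form of the Chevalley algebra of type E8

* `bf_invariant`: both sides are trilinear, check on basis vectors (`decomp`, `lie_c_c`, `lie_c_e`, `lie_e_e_add`, `lie_e_neg`,
  `lie_e_e_zero`): (h, e_a, e_(-a)): `bf [h, e_a] e_(-a) = - pr h a`, `bf e_a [h, e_(-a)] = pr h a`. (e_a, h, e_(-a)) and
  (e_a, e_(-a), h) similar. (e_a, e_b, e_d) with `a + b + d = 0`: `bf [e_a, e_b] e_d = - eps(a,b)` and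
  `bf e_b [e_a, e_d] = - eps(a, d) = - eps(a, -a-b) = - eps(a,a) eps(a,b) = eps(a, b)` (`eps(a,a) = -1`).
* `killingForm_eq`: trace of `ad y ∘ ad z` in the basis `Chev.basis` (or `LinearMap.trace_eq_matrix_trace`,
  `LinearMap.traceForm`). By bilinearity it suffices: `κ(h, h') = ∑_a pr h a pr h' a = 60 (h, h')` (`sum_root`; in
  coordinates `∑_a (C a)_i (C a)_j = 60 C_ij`); `κ(h, e_a) = 0` and `κ(e_a, e_b) = 0` for `b ≠ -a` because `ad y ∘ ad z` maps each
  basis vector of weight `v` to weight `v + a` resp. `v + a + b`, different from `v`; `κ(e_a, e_(-a)) = -60`: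
  `ad e_a ad e_(-a)` on the Cartan part: trace of `h ↦ [e_a, [e_(-a), h]] = [e_a, pr h a e_(-a)] = - pr h a t(a)` is `-(a,a) = -2`;
  on `e_a`: `[e_a, [e_(-a), e_a]] = [e_a, t a] = -2 e_a`: contributes `-2` (note `[e_(-a), e_a] = t a`);
  on `e_(-a)`: 0; on `e_b`, `b ≠ ± a`: if `(a, b) = 1` then `b - a` is a root and
  `[e_a, [e_(-a), e_b]] = eps(-a, b) eps(a, b - a) e_b = eps(a,b) eps(a,b) eps(a,a) e_b = - e_b`; otherwise 0. There are 56
  roots `b` with `(a, b) = 1`: from `∑_b (a,b)^2 = 60 * 2 = 120 = 2 * 4 + #{b : (a,b) = ± 1}` and symmetry `b ↦ -b`. Total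
  `-2 - 2 - 56 = -60`. (Alternatively: use invariance of both forms to reduce `κ(e_a, e_(-a))` to `κ(h, t a)` where `pr h a = 1`
  for some `h`: `κ([h, e_a], e_(-a)) = κ(h, [e_a, e_(-a)]) = - κ(h, t a) = -60 pr h a`, and `h` with `pr h a = 1` exists over `Z`
  by `exists_of_functional`-like unimodularity, because the coordinates of a root are coprime. This is shorter:
  `LieModule.traceForm_apply_lie_apply`.)
* `bf_perfect`: the matrix of `bf` in the basis is block diagonal with blocks `C` (determinant 1, `CartanMatrix.E₈_det`) and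
  `- (permutation matrix of a ↦ -a)`; injective: `bf y e_(-a) = - y.x a`, and `C` invertible; surjective: explicit preimage.
* `bf_self_even`: `∑_ij h_i C_ij h_j = 2 (∑_i h_i^2 + ∑_{i<j} C_ij h_i h_j)` and the root sum is over the pairs `{a, -a}`:
  twice the sum over the positive roots (`root_pos_or_neg`, or choose any section of the free involution).
-/

set_option autoImplicit false

namespace Pool.Agent.Helper73.E8.Chev

variable {R : Type*} [CommRing R]

private theorem E8_symm (i j : Fin 8) : CartanMatrix.E₈ i j = CartanMatrix.E₈ j i :=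
  (congrFun (congrFun CartanMatrix.E₈_transpose i) j).symm

private theorem eps_self (a : Root) : eps a.1 a.1 = -1 := by
  have h1 := two_be_self a.1
  rw [a.2] at h1
  have h2 : be a.1 a.1 = 1 := by linarith
  unfold eps
  rw [h2]
  rfl

private theorem eps_sq (x y : Lat) : ((eps x y : ℤ) : R) * ((eps x y : ℤ) : R) = 1 := by
  rw [← Int.cast_mul, ← Units.val_mul, Int.units_mul_self]
  simp

/-- `eps(a, c) = -eps(a, b)` if `a + b = c`. -/
private theorem eps_third (a b c : Root) (h : a.1 + b.1 = c.1) : eps a.1 c.1 = -eps a.1 b.1 := by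
  rw [← h, eps_add_right, eps_self]
  simp

private theorem sum_h_root (h : Fin 8 → R) (a : Lat) :
    ∑ i, ∑ j, (a i : R) * (CartanMatrix.E₈ i j : R) * h j = pr h a := by
  unfold pr
  rw [Finset.sum_comm]
  refine Finset.sum_congr rfl fun j _ => Finset.sum_congr rfl fun i _ => ?_
  rw [E8_symm i j]
  ring

private theorem bf_brk_h (x y : Chev R) (h : Fin 8 → R) :
    ∑ i, ∑ j, ⁅x, y⁆.h i * (CartanMatrix.E₈ i j : R) * h j = -∑ a : Root, pr h a.1 * (x.x a * y.x (-a)) := by
  have h1 : ∀ i j, ⁅x, y⁆.h i * (CartanMatrix.E₈ i j : R) * h j =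
      -∑ a : Root, ((a.1 i : R) * (CartanMatrix.E₈ i j : R) * h j) * (x.x a * y.x (-a)) := by
    intro i j
    rw [brk_h, neg_mul, neg_mul, Finset.sum_mul, Finset.sum_mul]
    refine congrArg Neg.neg (Finset.sum_congr rfl fun a _ => ?_)
    ring
  simp only [h1, Finset.sum_neg_distrib]
  congr 1
  calc ∑ i, ∑ j, ∑ a : Root, ((a.1 i : R) * (CartanMatrix.E₈ i j : R) * h j) * (x.x a * y.x (-a))
      = ∑ i, ∑ a : Root, ∑ j, ((a.1 i : R) * (CartanMatrix.E₈ i j : R) * h j) * (x.x a * y.x (-a)) :=
        Finset.sum_congr rfl fun i _ => Finset.sum_comm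
    _ = ∑ a : Root, ∑ i, ∑ j, ((a.1 i : R) * (CartanMatrix.E₈ i j : R) * h j) * (x.x a * y.x (-a)) := Finset.sum_comm
    _ = ∑ a : Root, pr h a.1 * (x.x a * y.x (-a)) := by
        refine Finset.sum_congr rfl fun a _ => ?_
        rw [← sum_h_root, Finset.sum_mul]
        refine Finset.sum_congr rfl fun i _ => ?_
        rw [Finset.sum_mul]

private theorem bf_h_comm (g h : Fin 8 → R) :
    ∑ i, ∑ j, g i * (CartanMatrix.E₈ i j : R) * h j = ∑ i, ∑ j, h i * (CartanMatrix.E₈ i j : R) * g j := by
  rw [Finset.sum_comm]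
  refine Finset.sum_congr rfl fun j _ => Finset.sum_congr rfl fun i _ => ?_
  rw [E8_symm i j]
  ring

theorem bf_invariant (x y z : Chev R) : bf ⁅x, y⁆ z = -bf y ⁅x, z⁆ := by
  have hR : ∑ i, ∑ j, y.h i * (CartanMatrix.E₈ i j : R) * ⁅x, z⁆.h j = -∑ a : Root, pr y.h a.1 * (x.x a * z.x (-a)) := by
    rw [bf_h_comm, bf_brk_h]
  unfold bf
  rw [bf_brk_h, hR]
  have key : ∑ c : Root, (∑ a : Root, ∑ b : Root, if a.1 + b.1 = c.1 then ((eps a.1 b.1 : ℤ) : R) * (x.x a * y.x b) else 0) * z.x (-c) =
      -∑ c : Root, y.x c * (∑ a : Root, ∑ b : Root, if a.1 + b.1 = (-c).1 then ((eps a.1 b.1 : ℤ) : R) * (x.x a * z.x b) else 0) := by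
    have hL : ∑ c : Root, (∑ a : Root, ∑ b : Root, if a.1 + b.1 = c.1 then ((eps a.1 b.1 : ℤ) : R) * (x.x a * y.x b) else 0) * z.x (-c) =
        ∑ a : Root, ∑ c : Root, ∑ b : Root, if a.1 + b.1 = c.1 then ((eps a.1 b.1 : ℤ) : R) * (x.x a * y.x b * z.x (-c)) else 0 := by
      rw [Finset.sum_comm]
      refine Finset.sum_congr rfl fun c _ => ?_
      rw [Finset.sum_mul]
      refine Finset.sum_congr rfl fun a _ => ?_
      rw [Finset.sum_mul]
      refine Finset.sum_congr rfl fun b _ => ?_
      split_ifs <;> ring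
    have hRR : ∑ c : Root, y.x c * (∑ a : Root, ∑ b : Root, if a.1 + b.1 = (-c).1 then ((eps a.1 b.1 : ℤ) : R) * (x.x a * z.x b) else 0) =
        ∑ a : Root, ∑ b : Root, ∑ c : Root, if a.1 + c.1 = b.1 then -(((eps a.1 c.1 : ℤ) : R) * (x.x a * y.x c * z.x (-b))) else 0 := by
      have h1 : ∀ c : Root, y.x c * (∑ a : Root, ∑ b : Root, if a.1 + b.1 = (-c).1 then ((eps a.1 b.1 : ℤ) : R) * (x.x a * z.x b) else 0) =
          ∑ a : Root, ∑ b : Root, if a.1 + c.1 = b.1 then -(((eps a.1 c.1 : ℤ) : R) * (x.x a * y.x c * z.x (-b))) else 0 := by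
        intro c
        rw [Finset.mul_sum]
        refine Finset.sum_congr rfl fun a _ => ?_
        rw [← Equiv.sum_comp (Equiv.neg Root), Finset.mul_sum]
        refine Finset.sum_congr rfl fun b _ => ?_
        rw [Equiv.neg_apply]
        by_cases h : a.1 + c.1 = b.1
        · have h2 : a.1 + (-b).1 = (-c).1 := by
            rw [neg_val, neg_val, ← h]
            abel
          rw [if_pos h, if_pos h2, neg_val, eps_neg_right, eps_third a c b h]
          push_cast
          ring
        · have h2 : ¬ a.1 + (-b).1 = (-c).1 := by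
            intro h3
            apply h
            rw [neg_val, neg_val] at h3
            have h4 : a.1 + -b.1 + (c.1 + b.1) = -c.1 + (c.1 + b.1) := by rw [h3]
            have h5 : a.1 + -b.1 + (c.1 + b.1) = a.1 + c.1 := by abel
            have h6 : -c.1 + (c.1 + b.1) = b.1 := by abel
            rw [← h5, h4, h6]
          rw [if_neg h, if_neg h2, mul_zero]
      rw [Finset.sum_congr rfl fun c _ => h1 c, Finset.sum_comm]
      refine Finset.sum_congr rfl fun a _ => ?_
      rw [Finset.sum_comm]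
    rw [hL, hRR, ← Finset.sum_neg_distrib]
    refine Finset.sum_congr rfl fun a _ => ?_
    rw [← Finset.sum_neg_distrib]
    refine Finset.sum_congr rfl fun c _ => ?_
    rw [← Finset.sum_neg_distrib]
    refine Finset.sum_congr rfl fun b _ => ?_
    split_ifs
    · rw [neg_neg]
    · rw [neg_zero]
  have e1 : ∑ c : Root, ⁅x, y⁆.x c * z.x (-c) = ∑ c : Root, pr x.h c.1 * (y.x c * z.x (-c)) -
      ∑ c : Root, pr y.h c.1 * (x.x c * z.x (-c)) +
      ∑ c : Root, (∑ a : Root, ∑ b : Root, if a.1 + b.1 = c.1 then ((eps a.1 b.1 : ℤ) : R) * (x.x a * y.x b) else 0) * z.x (-c) := by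
    rw [← Finset.sum_sub_distrib, ← Finset.sum_add_distrib]
    refine Finset.sum_congr rfl fun c _ => ?_
    rw [brk_x]
    ring
  have e2 : ∑ c : Root, y.x c * ⁅x, z⁆.x (-c) = -∑ c : Root, pr x.h c.1 * (y.x c * z.x (-c)) +
      ∑ c : Root, pr z.h c.1 * (y.x c * x.x (-c)) +
      ∑ c : Root, y.x c * (∑ a : Root, ∑ b : Root, if a.1 + b.1 = (-c).1 then ((eps a.1 b.1 : ℤ) : R) * (x.x a * z.x b) else 0) := by
    rw [← Finset.sum_neg_distrib, ← Finset.sum_add_distrib, ← Finset.sum_add_distrib]
    refine Finset.sum_congr rfl fun c _ => ?_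
    rw [brk_x, neg_val, pr_neg_right, pr_neg_right]
    ring
  have e3 : ∑ c : Root, pr z.h c.1 * (y.x c * x.x (-c)) = -∑ c : Root, pr z.h c.1 * (x.x c * y.x (-c)) := by
    rw [← Equiv.sum_comp (Equiv.neg Root), ← Finset.sum_neg_distrib]
    refine Finset.sum_congr rfl fun c _ => ?_
    rw [Equiv.neg_apply, neg_val, pr_neg_right, neg_neg]
    ring
  rw [e1, e2, e3, key]
  ring

private theorem basis_repr_inl (y : Chev R) (i : Fin 8) : basis.repr y (Sum.inl i) = y.h i := by
  simp [basis, lin, toProd]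

private theorem basis_repr_inr (y : Chev R) (a : Root) : basis.repr y (Sum.inr a) = y.x a := by
  simp [basis, lin, toProd]

private theorem basis_inl (i : Fin 8) : (basis (Sum.inl i) : Chev R) = c (Pi.single i 1) := by
  simp [basis, lin, toProd, c]

private theorem basis_inr (a : Root) : (basis (Sum.inr a) : Chev R) = e a := by
  simp [basis, lin, toProd, e]

private theorem trace_eq_sum (f : Chev R →ₗ[R] Chev R) : LinearMap.trace R (Chev R) f =
    ∑ i, (f (c (Pi.single i 1))).h i + ∑ a : Root, (f (e a)).x a := by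
  rw [LinearMap.trace_eq_matrix_trace R (basis (R := R)), Matrix.trace, Fintype.sum_sum_type]
  refine congrArg₂ (· + ·) (Finset.sum_congr rfl fun i _ => ?_) (Finset.sum_congr rfl fun i _ => ?_)
  · rw [Matrix.diag_apply, LinearMap.toMatrix_apply, basis_repr_inl, basis_inl]
  · rw [Matrix.diag_apply, LinearMap.toMatrix_apply, basis_repr_inr, basis_inr]

private theorem killing_eq_sum (y z : Chev R) : killingForm R (Chev R) y z =
    ∑ i, ⁅y, ⁅z, (c (Pi.single i 1) : Chev R)⁆⁆.h i + ∑ a : Root, ⁅y, ⁅z, (e a : Chev R)⁆⁆.x a := by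
  rw [killingForm, LieModule.traceForm_apply_apply, trace_eq_sum]
  rfl

private theorem root_ne_zero (a : Root) : a.1 ≠ 0 := by
  intro h
  have h2 := a.2
  rw [h] at h2
  simp [ip] at h2

private theorem sum_single_pr (a : Root) : ∑ i, (a.1 i : R) * pr (Pi.single i 1) a.1 = 2 := by
  have h1 : ∀ i, (a.1 i : R) * pr (Pi.single i 1) a.1 = ∑ j, (a.1 i : R) * (CartanMatrix.E₈ i j : R) * (a.1 j : R) := by
    intro i
    unfold pr
    rw [Finset.sum_eq_single i, Finset.mul_sum]
    · refine Finset.sum_congr rfl fun j _ => ?_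
      rw [Pi.single_eq_same]
      ring
    · intro k _ hk
      simp [Pi.single_eq_of_ne hk]
    · simp
  rw [Finset.sum_congr rfl fun i _ => h1 i]
  have h2 := pr_intCast (R := R) a.1 a.1
  unfold pr at h2
  rw [h2, a.2]
  norm_num

private theorem part1 (y z : Chev R) : ∑ i, ⁅y, ⁅z, (c (Pi.single i 1) : Chev R)⁆⁆.h i =
    -(2 * ∑ a : Root, y.x a * z.x (-a)) := by
  have h1 : ∀ (i : Fin 8) (d : Root), ⁅z, (c (Pi.single i 1) : Chev R)⁆.x d = -(pr (Pi.single i 1) d.1 * z.x d) := by
    intro i d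
    rw [brk_x]
    simp
  have h2 : ∀ i : Fin 8, ⁅y, ⁅z, (c (Pi.single i 1) : Chev R)⁆⁆.h i =
      -∑ a : Root, (a.1 i : R) * pr (Pi.single i 1) a.1 * (y.x a * z.x (-a)) := by
    intro i
    rw [brk_h]
    refine congrArg Neg.neg (Finset.sum_congr rfl fun a _ => ?_)
    rw [h1, neg_val, pr_neg_right]
    ring
  rw [Finset.sum_congr rfl fun i _ => h2 i, Finset.sum_neg_distrib, Finset.sum_comm, Finset.mul_sum]
  refine congrArg Neg.neg (Finset.sum_congr rfl fun a _ => ?_)
  rw [← Finset.sum_mul, sum_single_pr]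

private theorem u_h (z : Chev R) (d : Root) (i : Fin 8) : ⁅z, (e d : Chev R)⁆.h i = (d.1 i : R) * z.x (-d) := by
  rw [brk_h, Finset.sum_eq_single (-d)]
  · simp
  · intro a _ ha
    have : -a ≠ d := fun h => ha (by rw [← h, neg_neg])
    simp [Pi.single_eq_of_ne this]
  · simp

private theorem pr_u_h (z : Chev R) (d : Root) : pr ⁅z, (e d : Chev R)⁆.h d.1 = 2 * z.x (-d) := by
  have h1 : ⁅z, (e d : Chev R)⁆.h = z.x (-d) • fun i => (d.1 i : R) := by
    funext i
    rw [u_h]
    simp [mul_comm]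
  rw [h1, pr_smul, pr_intCast, d.2]
  push_cast
  ring

private theorem u_x (z : Chev R) (d b : Root) : ⁅z, (e d : Chev R)⁆.x b =
    (if b = d then pr z.h b.1 else 0) + ∑ a : Root, if a.1 + d.1 = b.1 then ((eps a.1 d.1 : ℤ) : R) * z.x a else 0 := by
  rw [brk_x]
  simp only [e_h, e_x, pr_zero, zero_mul, sub_zero]
  refine congrArg₂ (· + ·) ?_ (Finset.sum_congr rfl fun a _ => ?_)
  · by_cases h : b = d
    · rw [h]; simp
    · rw [if_neg h, Pi.single_eq_of_ne h, mul_zero]
  · rw [Finset.sum_eq_single d]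
    · simp
    · intro b' _ h2
      rw [Pi.single_eq_of_ne h2]
      simp
    · simp

private theorem part2 (y z : Chev R) (c : Root) : ⁅y, ⁅z, (e c : Chev R)⁆⁆.x c =
    pr y.h c.1 * pr z.h c.1 - 2 * (y.x c * z.x (-c)) -
      ∑ a : Root, ∑ b : Root, if a.1 + b.1 = c.1 then y.x a * z.x (-a) else 0 := by
  rw [brk_x, pr_u_h]
  have h0 : ⁅z, (e c : Chev R)⁆.x c = pr z.h c.1 := by
    rw [u_x, if_pos rfl, Finset.sum_eq_zero, add_zero]
    intro a _
    rw [if_neg]
    intro h
    exact root_ne_zero a (by simpa using h)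
  have h1 : ∀ a b : Root, (if a.1 + b.1 = c.1 then ((eps a.1 b.1 : ℤ) : R) * (y.x a * ⁅z, (e c : Chev R)⁆.x b) else 0) =
      -(if a.1 + b.1 = c.1 then y.x a * z.x (-a) else 0) := by
    intro a b
    by_cases h : a.1 + b.1 = c.1
    · rw [if_pos h, if_pos h, u_x, if_neg, zero_add, Finset.sum_eq_single (-a)]
      · have h2 : (-a).1 + c.1 = b.1 := by
          rw [neg_val, ← h]
          abel
        rw [if_pos h2, neg_val, eps_neg_left, eps_third a b c h]
        have h3 := eps_sq (R := R) a.1 b.1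
        push_cast
        calc ((eps a.1 b.1 : ℤ) : R) * (y.x a * (-((eps a.1 b.1 : ℤ) : R) * z.x (-a)))
            = -(((eps a.1 b.1 : ℤ) : R) * ((eps a.1 b.1 : ℤ) : R)) * (y.x a * z.x (-a)) := by ring
          _ = -(y.x a * z.x (-a)) := by rw [h3]; ring
      · intro a' _ ha'
        rw [if_neg]
        intro h2
        apply ha'
        apply root_ext
        rw [neg_val]
        have h4 : a'.1 + c.1 + a.1 = c.1 := by rw [h2, ← h]; abel
        have h5 : a'.1 + a.1 = 0 := by
          have h6 : a'.1 + c.1 + a.1 - c.1 = 0 := by rw [h4]; simp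
          rw [← h6]
          abel
        exact eq_neg_of_add_eq_zero_left h5
      · simp
      · intro h2
        rw [h2] at h
        exact root_ne_zero a (by simpa using h)
    · rw [if_neg h, if_neg h, neg_zero]
  rw [h0, Finset.sum_congr rfl fun a _ => Finset.sum_congr rfl fun b _ => h1 a b]
  simp only [Finset.sum_neg_distrib]
  ring

private theorem count_neg_one (a : Root) : (Finset.univ.filter fun b : Root => ip a.1 b.1 = -1).card = 56 := by
  have h1 := sum_root a.1 a.1
  rw [a.2] at h1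
  have h2 : ∀ b : Root, ip a.1 b.1 * ip b.1 a.1 = (if b = a then 4 else 0) + (if b = -a then 4 else 0) +
      (if ip a.1 b.1 = 1 then 1 else 0) + (if ip a.1 b.1 = -1 then 1 else 0) := by
    intro b
    rw [ip_comm b.1 a.1]
    have h3 := abs_le.1 (abs_ip_root_le a b)
    have h4 := ip_root_eq_two_iff a b
    have h5 := ip_root_eq_neg_two_iff a b
    by_cases c1 : b = a
    · have e1 : ip a.1 b.1 = 2 := h4.2 c1.symm
      rw [if_pos c1, if_neg, e1]
      · norm_num
      · intro c2
        exact Root.neg_ne a (by rw [← c2, c1])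
    · by_cases c2 : b = -a
      · have e1 : ip a.1 b.1 = -2 := h5.2 (by rw [c2, neg_neg])
        rw [if_neg c1, if_pos c2, e1]
        norm_num
      · rw [if_neg c1, if_neg c2]
        have e1 : ip a.1 b.1 ≠ 2 := fun h => c1 (h4.1 h).symm
        have e2 : ip a.1 b.1 ≠ -2 := fun h => c2 (by rw [h5.1 h, neg_neg])
        have e3 : ip a.1 b.1 = -1 ∨ ip a.1 b.1 = 0 ∨ ip a.1 b.1 = 1 := by omega
        rcases e3 with e3 | e3 | e3 <;> rw [e3] <;> norm_num
  rw [Finset.sum_congr rfl fun b _ => h2 b, Finset.sum_add_distrib, Finset.sum_add_distrib, Finset.sum_add_distrib,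
    Finset.sum_ite_eq', Finset.sum_ite_eq', if_pos (Finset.mem_univ _), if_pos (Finset.mem_univ _)] at h1
  have h6 : ∑ b : Root, (if ip a.1 b.1 = 1 then (1 : ℤ) else 0) = ∑ b : Root, if ip a.1 b.1 = -1 then (1 : ℤ) else 0 := by
    rw [← Equiv.sum_comp (Equiv.neg Root)]
    refine Finset.sum_congr rfl fun b _ => ?_
    rw [Equiv.neg_apply, neg_val, ip_neg_right]
    by_cases h : ip a.1 b.1 = -1
    · rw [if_pos h, if_pos (by rw [h]; norm_num)]
    · rw [if_neg h, if_neg (by omega)]
  rw [h6] at h1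
  have h7 : ∑ b : Root, (if ip a.1 b.1 = -1 then (1 : ℤ) else 0) = ((Finset.univ.filter fun b : Root => ip a.1 b.1 = -1).card : ℤ) := by
    rw [Finset.card_filter]
    push_cast
    rfl
  rw [h7] at h1
  have h8 : ((Finset.univ.filter fun b : Root => ip a.1 b.1 = -1).card : ℤ) = 56 := by linarith
  exact_mod_cast h8

private theorem count_sum (a : Root) : ∑ b : Root, ∑ c : Root, (if a.1 + b.1 = c.1 then (1 : R) else 0) = 56 := by
  have h1 : ∀ b : Root, ∑ c : Root, (if a.1 + b.1 = c.1 then (1 : R) else 0) = if ip a.1 b.1 = -1 then 1 else 0 := by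
    intro b
    by_cases h : ip a.1 b.1 = -1
    · obtain ⟨c, hc⟩ := (add_root_iff a b).2 h
      rw [if_pos h, Finset.sum_eq_single c]
      · rw [if_pos hc.symm]
      · intro c' _ h2
        rw [if_neg]
        intro h3
        exact h2 (root_ext (by rw [← h3, hc]))
      · simp
    · rw [if_neg h]
      refine Finset.sum_eq_zero fun c _ => ?_
      rw [if_neg]
      intro h2
      exact h ((add_root_iff a b).1 ⟨c, h2.symm⟩)
  rw [Finset.sum_congr rfl fun b _ => h1 b, ← Finset.sum_filter, Finset.sum_const, count_neg_one]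
  simp

private theorem sum_pr (g h : Fin 8 → R) : ∑ a : Root, pr g a.1 * pr h a.1 =
    60 * ∑ i, ∑ j, g i * (CartanMatrix.E₈ i j : R) * h j := by
  have h1 : ∀ (g : Fin 8 → R) (a : Root), pr g a.1 = ∑ i, g i * (ip (al i) a.1 : R) := by
    intro g a
    unfold pr
    refine Finset.sum_congr rfl fun i _ => ?_
    have h2 : ip (al i) a.1 = ∑ j, CartanMatrix.E₈ i j * a.1 j := by
      unfold ip al
      rw [Finset.sum_eq_single i]
      · simp
      · intro k _ hk
        simp [Pi.single_eq_of_ne hk]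
      · simp
    rw [h2]
    push_cast
    rw [Finset.mul_sum]
    refine Finset.sum_congr rfl fun j _ => ?_
    ring
  calc ∑ a : Root, pr g a.1 * pr h a.1
      = ∑ a : Root, ∑ i, ∑ j, g i * h j * ((ip (al i) a.1 * ip a.1 (al j) : ℤ) : R) := by
        refine Finset.sum_congr rfl fun a _ => ?_
        rw [h1, h1, Finset.sum_mul_sum]
        refine Finset.sum_congr rfl fun i _ => Finset.sum_congr rfl fun j _ => ?_
        rw [ip_comm a.1 (al j)]
        push_cast
        ring
    _ = ∑ i, ∑ j, ∑ a : Root, g i * h j * ((ip (al i) a.1 * ip a.1 (al j) : ℤ) : R) := by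
        rw [Finset.sum_comm]
        refine Finset.sum_congr rfl fun i _ => Finset.sum_comm
    _ = ∑ i, ∑ j, g i * h j * ((60 * CartanMatrix.E₈ i j : ℤ) : R) := by
        refine Finset.sum_congr rfl fun i _ => Finset.sum_congr rfl fun j _ => ?_
        rw [← Finset.mul_sum, ← Int.cast_sum, sum_root, ip_al_al]
    _ = 60 * ∑ i, ∑ j, g i * (CartanMatrix.E₈ i j : R) * h j := by
        rw [Finset.mul_sum]
        refine Finset.sum_congr rfl fun i _ => ?_
        rw [Finset.mul_sum]
        refine Finset.sum_congr rfl fun j _ => ?_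
        push_cast
        ring

theorem killingForm_eq (y z : Chev R) : killingForm R (Chev R) y z = 60 * bf y z := by
  rw [killing_eq_sum, part1, Finset.sum_congr rfl fun c _ => part2 y z c, Finset.sum_sub_distrib, Finset.sum_sub_distrib,
    sum_pr, ← Finset.mul_sum]
  have h1 : ∑ c : Root, ∑ a : Root, ∑ b : Root, (if a.1 + b.1 = c.1 then y.x a * z.x (-a) else 0) =
      56 * ∑ a : Root, y.x a * z.x (-a) := by
    rw [Finset.sum_comm, Finset.mul_sum]
    refine Finset.sum_congr rfl fun a _ => ?_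
    rw [Finset.sum_comm, ← count_sum a, Finset.sum_mul]
    refine Finset.sum_congr rfl fun b _ => ?_
    rw [Finset.sum_mul]
    refine Finset.sum_congr rfl fun c _ => ?_
    split_ifs
    · rw [one_mul]
    · rw [zero_mul]
  rw [h1]
  unfold bf
  ring

/-- The Cartan matrix over `R`. -/
private noncomputable def CR (R : Type*) [CommRing R] : Matrix (Fin 8) (Fin 8) R :=
  CartanMatrix.E₈.map (Int.castRingHom R)

private theorem CR_det : (CR R).det = 1 := by
  unfold CR
  rw [← RingHom.mapMatrix_apply, ← RingHom.map_det, CartanMatrix.E₈_det, map_one]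

private theorem CR_apply (i j : Fin 8) : CR R i j = (CartanMatrix.E₈ i j : R) := rfl

private theorem bf_h (g h : Fin 8 → R) : ∑ i, ∑ j, g i * (CartanMatrix.E₈ i j : R) * h j = ∑ j, Matrix.vecMul g (CR R) j * h j := by
  rw [Finset.sum_comm]
  refine Finset.sum_congr rfl fun j _ => ?_
  rw [Matrix.vecMul, dotProduct, Finset.sum_mul]
  rfl

theorem bf_perfect : Function.Bijective (bfL : LinearMap.BilinForm R (Chev R)) := by
  have hu : IsUnit (CR R).det := by rw [CR_det]; exact isUnit_one
  constructor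
  · rw [injective_iff_map_eq_zero]
    intro y hy
    have h1 : ∀ z, bf y z = 0 := fun z => by rw [← bfL_apply, hy]; rfl
    have hx : y.x = 0 := by
      funext a
      have h2 := h1 (e (-a))
      unfold bf at h2
      rw [Finset.sum_eq_single (f := fun b : Root => y.x b * (e (-a) : Chev R).x (-b)) a] at h2
      · simpa using h2
      · intro b _ hb
        rw [e_x, Pi.single_eq_of_ne, mul_zero]
        intro h3
        exact hb (neg_injective h3)
      · simp
    have hh : y.h = 0 := by
      have h3 : Matrix.vecMul y.h (CR R) = 0 := by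
        funext j
        have h2 := h1 (c (Pi.single j 1))
        unfold bf at h2
        rw [bf_h, Finset.sum_eq_single j] at h2
        · simpa using h2
        · intro k _ hk
          rw [c_h, Pi.single_eq_of_ne hk, mul_zero]
        · simp
      have h4 : Matrix.vecMul (Matrix.vecMul y.h (CR R)) (CR R)⁻¹ = 0 := by rw [h3, Matrix.zero_vecMul]
      rwa [Matrix.vecMul_vecMul, Matrix.mul_nonsing_inv _ hu, Matrix.vecMul_one] at h4
    ext i
    · rw [hh]; rfl
    · rw [hx]; rfl
  · intro f
    refine ⟨⟨Matrix.vecMul (fun j => f (c (Pi.single j 1))) (CR R)⁻¹, fun a => -f (e (-a))⟩, ?_⟩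
    apply LinearMap.ext
    intro z
    rw [bfL_apply]
    unfold bf
    rw [bf_h]
    simp only [Matrix.vecMul_vecMul, Matrix.nonsing_inv_mul _ hu, Matrix.vecMul_one]
    have h1 : f z = ∑ j, z.h j * f (c (Pi.single j 1)) + ∑ a : Root, z.x a * f (e a) := by
      conv_lhs => rw [decomp z]
      have h2 : (c z.h : Chev R) = ∑ j, z.h j • c (Pi.single j 1) := by
        ext i
        · simp only [c_h, sum_h, smul_h, Finset.sum_apply, Pi.smul_apply, smul_eq_mul]
          rw [Finset.sum_eq_single i]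
          · simp
          · intro k _ hk
            rw [Pi.single_eq_of_ne hk.symm, mul_zero]
          · simp
        · simp
      rw [map_add, h2, map_sum, map_sum]
      simp only [map_smul, smul_eq_mul]
    rw [h1]
    have h3 : ∑ a : Root, -f (e (-a)) * z.x (-a) = -∑ a : Root, z.x a * f (e a) := by
      rw [← Equiv.sum_comp (Equiv.neg Root), ← Finset.sum_neg_distrib]
      refine Finset.sum_congr rfl fun a _ => ?_
      rw [Equiv.neg_apply, neg_neg]
      ring
    rw [h3, sub_neg_eq_add]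
    refine congrArg₂ (· + ·) (Finset.sum_congr rfl fun j _ => ?_) rfl
    ring

theorem bf_self_even (y : Chev R) : ∃ q : R, bf y y = 2 * q := by
  have h1 : ∑ i, ∑ j, y.h i * (CartanMatrix.E₈ i j : R) * y.h j =
      2 * ∑ i, ∑ j, (if i = j then y.h i * y.h j else if i < j then y.h i * (CartanMatrix.E₈ i j : R) * y.h j else 0) := by
    simp [Fin.sum_univ_eight, CartanMatrix.E₈]
    ring
  have h2 : ∑ a : Root, y.x a * y.x (-a) = 2 * ∑ a ∈ Finset.univ.filter (fun a : Root => 0 < ht a.1), y.x a * y.x (-a) := by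
    have h3 : ∑ a ∈ Finset.univ.filter (fun a : Root => ¬ 0 < ht a.1), y.x a * y.x (-a) =
        ∑ a ∈ Finset.univ.filter (fun a : Root => 0 < ht a.1), y.x a * y.x (-a) := by
      refine Finset.sum_nbij' (fun a => -a) (fun a => -a) ?_ ?_ ?_ ?_ ?_
      · intro a ha
        rw [Finset.mem_filter] at ha ⊢
        refine ⟨Finset.mem_univ _, ?_⟩
        rw [neg_val, ht_neg]
        have := ht_root_ne_zero a
        omega
      · intro a ha
        rw [Finset.mem_filter] at ha ⊢
        refine ⟨Finset.mem_univ _, ?_⟩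
        rw [neg_val, ht_neg]
        omega
      · intro a _
        exact neg_neg a
      · intro a _
        exact neg_neg a
      · intro a _
        rw [neg_neg, mul_comm]
    rw [← Finset.sum_filter_add_sum_filter_not Finset.univ (fun a : Root => 0 < ht a.1), h3]
    ring
  refine ⟨(∑ i, ∑ j, (if i = j then y.h i * y.h j else if i < j then y.h i * (CartanMatrix.E₈ i j : R) * y.h j else 0)) -
    ∑ a ∈ Finset.univ.filter (fun a : Root => 0 < ht a.1), y.x a * y.x (-a), ?_⟩
  unfold bf
  rw [h1, h2]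
  ring

theorem finrank_eq [Nontrivial R] : Module.finrank R (Chev R) = 248 := by
  rw [Module.finrank_eq_card_basis basis, Fintype.card_sum, Fintype.card_fin, card_root]

end Pool.Agent.Helper73.E8.Chev
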