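import Pool.Agent.Helper73.E8.Mono
import Pool.Agent.Helper73.E8.Kill

/-!
# Block E8-SEMI: semilinear automorphisms which preserve the Cartan subalgebra are monomial

`K`, `K'` fields of characteristic 0, `τ : K ≃+* K'`, `T : Chev K → Chev K'` a `τ`-semilinear bijection which preserves brackets and
maps the Cartan subalgebra `{y : y.x = 0}` into the Cartan subalgebra. Then `T = mono τ w k`.

Proof. (0) `T` maps the Cartan subalgebra ONTO the Cartan subalgebra: it is injective, semilinear, both have dimension 8
(the images `T (t (al i))` are linearly independent in an 8-dimensional space).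
(1) For a root `a`: for all `h'`, `[T (c h'), T (e a)] = T [c h', e a] = τ (pr h' a) T (e a)`. Write `T (e a) = c h'' + ∑ x_b e_b ≠ 0`.
By (0) every `c h` is `T (c h')`, with `λ(h) := τ (pr h' a)`: `[c h, T (e a)] = λ(h) T (e a)`; comparing components:
`λ(h) h'' = 0` and `pr h b x_b = λ(h) x_b`. `λ ≠ 0` (`pr h' a ≠ 0` for `h' = a`: value 2), so `h'' = 0`; if `x_b ≠ 0` then
`λ = pr · b`; `pr · b` for different `b` are different (characteristic 0, `C` invertible): exactly one `b =: π a` with
`x_b =: k_a ≠ 0`. So `T (e a) = k_a e_(π a)`.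
(2) `- T (t a) = T [e_a, e_(-a)] = k_a k_(-a) [e_(π a), e_(π(-a))]` is a non-zero element of the Cartan subalgebra, so
`π (-a) = - π a` (otherwise the bracket is 0 or in a root space), `T (t a) = k_a k_(-a) t (π a)`. From `[t a, e_a] = 2 e_a`:
`2 = k_a k_(-a) (π a, π a) = 2 k_a k_(-a)`, so `k_a k_(-a) = 1`, `T (t a) = t (π a)`.
(3) Define `w v = ∑ v_i π (sr i)`; then `T (t v) = t (w v)` for all `v` (additivity), so `t (w a) = T (t a) = t (π a)` and `w a = π a`
(`t` is injective in characteristic 0). `[t a, e_b] = (a, b) e_b` gives `(π a, π b) = (a, b)`, so `w` is isometric on roots, hence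
on the lattice (bilinear). `w` is bijective: injective since isometric (`ip_self_eq_zero`), and surjective e.g. because
the same construction for `T^-1` gives the inverse, or because an injective isometry of a unimodular lattice is onto
(integer matrix `A` with `A C A^T = C`, so `det A = ± 1`).
(4) `IsCoc`: apply `T` to `[e_a, e_b] = eps(a,b) e_(a+b)`. Then `eq_mono`.
-/

set_option autoImplicit false

namespace Pool.Agent.Helper73.E8.Chev

private theorem t_inj56 {K : Type*} [Field K] [CharZero K] {v w : Lat}
    (h : (t v : Chev K) = t w) : v = w := by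
  funext i
  have h1 := congrFun (congrArg Chev.h h) i
  simpa using h1

private theorem pr_inj56 {K : Type*} [Field K] [CharZero K] {a b : Lat}
    (h : ∀ h' : Fin 8 → K, pr h' a = pr h' b) : a = b := by
  have h1 : ∀ v : Lat, ip v a = ip v b := by
    intro v
    have h2 := h (fun i => (v i : K))
    rw [pr_intCast, pr_intCast] at h2
    exact_mod_cast h2
  have h2 : ip (a - b) (a - b) = 0 := by
    rw [sub_eq_add_neg, ip_add_right, ip_neg_right, h1]
    ring
  exact sub_eq_zero.1 (ip_self_eq_zero h2)

private theorem c_of_x56 {K : Type*} [Field K] (y : Chev K) (h : y.x = 0) : y = c y.h := by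
  ext i
  · rfl
  · simp [h]

private theorem lie_c56 {K : Type*} [Field K] (h : Fin 8 → K) (y : Chev K) :
    ⁅(c h : Chev K), y⁆.h = 0 ∧ ∀ b : Root, ⁅(c h : Chev K), y⁆.x b = pr h b.1 * y.x b := by
  constructor
  · funext i
    simp [brk_h]
  · intro b
    simp [brk_x]

private theorem onto56 {K K' : Type*} [Field K] [Field K'] (τ : K ≃+* K') (T : Chev K → Chev K')
    (hadd : ∀ y z, T (y + z) = T y + T z) (hsmul : ∀ (r : K) y, T (r • y) = τ r • T y)
    (hinj : Function.Injective T) (hh : ∀ h, (T (c h)).x = 0) (h' : Fin 8 → K') :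
    ∃ h : Fin 8 → K, T (c h) = c h' := by
  let L : (Fin 8 → K') →ₗ[K'] (Fin 8 → K') :=
    { toFun := fun g => (T (c (fun i => τ.symm (g i)))).h
      map_add' := by
        intro g g'
        have h1 : (fun i => τ.symm ((g + g') i)) =
            (fun i => τ.symm (g i)) + fun i => τ.symm (g' i) := by
          funext i
          simp
        rw [h1, c_add, hadd, add_h]
      map_smul' := by
        intro r g
        have h1 : (fun i => τ.symm ((r • g) i)) = (τ.symm r) • fun i => τ.symm (g i) := by
          funext i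
          simp
        rw [h1, c_smul, hsmul, τ.apply_symm_apply, smul_h, RingHom.id_apply] }
  have hL : Function.Injective L := by
    intro g g' hg
    have h1 : T (c (fun i => τ.symm (g i))) = T (c (fun i => τ.symm (g' i))) := by
      rw [c_of_x56 _ (hh (fun i => τ.symm (g i))), c_of_x56 _ (hh (fun i => τ.symm (g' i)))]
      exact congrArg c hg
    have h2 := congrArg Chev.h (hinj h1)
    funext i
    exact τ.symm.injective (congrFun h2 i)
  obtain ⟨g, hg⟩ := LinearMap.injective_iff_surjective.1 hL h'
  refine ⟨fun i => τ.symm (g i), ?_⟩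
  rw [c_of_x56 _ (hh _)]
  exact congrArg c hg

private theorem core56 {K K' : Type*} [Field K] [CharZero K] [Field K'] [CharZero K']
    (τ : K ≃+* K') (T : Chev K → Chev K')
    (hadd : ∀ y z, T (y + z) = T y + T z) (hsmul : ∀ (r : K) y, T (r • y) = τ r • T y)
    (hlie : ∀ y z, T ⁅y, z⁆ = ⁅T y, T z⁆) (hinj : Function.Injective T)
    (hh : ∀ h, (T (c h)).x = 0) (hsurj : ∀ h' : Fin 8 → K', ∃ h : Fin 8 → K, T (c h) = c h') :
    ∃ (w : Lat →+ Lat) (π : Root → Root) (k : Root → K'), (∀ v, T (t v) = t (w v)) ∧
      (∀ x y, ip (w x) (w y) = ip x y) ∧ (∀ a, (π a).1 = w a.1) ∧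
      (∀ a, T (e a) = k a • e (π a)) ∧ ∀ a, k a * k (-a) = 1 := by
  have hT0 : T 0 = 0 := by
    have h0 := hsmul 0 0
    rw [smul_zero, map_zero, zero_smul] at h0
    exact h0
  have hS : ∀ h, T (c h) = c (T (c h)).h := fun h => c_of_x56 _ (hh h)
  have h1 : ∀ a : Root, ∃ (b : Root) (k : K'), T (e a) = k • e b ∧
      ∀ h, pr (T (c h)).h b.1 = τ (pr h a.1) := by
    intro a
    have hbr : ∀ h, ⁅T (c h), T (e a)⁆ = τ (pr h a.1) • T (e a) := by
      intro h
      rw [← hlie, lie_c_e, hsmul]
    have hbx : ∀ (h : Fin 8 → K) (b : Root),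
        pr (T (c h)).h b.1 * (T (e a)).x b = τ (pr h a.1) * (T (e a)).x b := by
      intro h b
      have h2 : ⁅T (c h), T (e a)⁆.x b = (τ (pr h a.1) • T (e a)).x b := by rw [hbr h]
      rw [hS h, (lie_c56 _ _).2] at h2
      exact h2
    have hyh : (T (e a)).h = 0 := by
      have h2 : ⁅T (c (fun i => (a.1 i : K))), T (e a)⁆.h =
          (τ (pr (fun i => (a.1 i : K)) a.1) • T (e a)).h := by rw [hbr _]
      rw [hS, (lie_c56 _ _).1, pr_intCast, a.2, smul_h, map_intCast] at h2
      have h3 : ((2 : ℤ) : K') ≠ 0 := by norm_num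
      exact (smul_eq_zero.1 h2.symm).resolve_left h3
    have hne : T (e a) ≠ 0 := by
      intro h0
      have h2 : (e a : Chev K) = 0 := hinj (h0.trans hT0.symm)
      have h3 : (e a : Chev K).x a = (0 : Chev K).x a := by rw [h2]
      simp at h3
    obtain ⟨b, hb⟩ : ∃ b, (T (e a)).x b ≠ 0 := by
      by_contra hcon
      push Not at hcon
      apply hne
      ext i
      · rw [hyh]
        rfl
      · rw [hcon]
        rfl
    have hpr : ∀ b : Root, (T (e a)).x b ≠ 0 → ∀ h, pr (T (c h)).h b.1 = τ (pr h a.1) :=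
      fun b hb h => mul_right_cancel₀ hb (hbx h b)
    refine ⟨b, (T (e a)).x b, ?_, hpr b hb⟩
    ext i
    · rw [hyh]
      simp
    · by_cases hib : i = b
      · subst hib
        simp
      · have h3 : (T (e a)).x i = 0 := by
          by_contra hi
          apply hib
          apply root_ext
          apply pr_inj56 (K := K')
          intro h'
          obtain ⟨h, hh'⟩ := hsurj h'
          have e1 := hpr i hi h
          have e2 := hpr b hb h
          rw [hh', c_h] at e1 e2
          exact e1.trans e2.symm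
        rw [h3]
        simp [hib]
  choose π k hk hpr using h1
  have hneg : ∀ a, π (-a) = -π a := by
    intro a
    apply root_ext
    apply pr_inj56 (K := K')
    intro h'
    obtain ⟨h, hh'⟩ := hsurj h'
    have e1 := hpr (-a) h
    have e2 := hpr a h
    rw [hh', c_h] at e1 e2
    rw [e1, neg_val, pr_neg_right, map_neg, neg_val, pr_neg_right, e2]
  have hTt : ∀ a : Root, T (t a.1) = (k a * k (-a)) • t (π a).1 := by
    intro a
    have h2 : (t a.1 : Chev K) = (-1 : K) • ⁅(e a : Chev K), (e (-a) : Chev K)⁆ := by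
      rw [lie_e_neg, neg_smul, one_smul, neg_neg]
    rw [h2, hsmul, hlie, hk, hk, smul_lie, lie_smul, hneg, lie_e_neg, map_neg, map_one, neg_smul,
      one_smul, smul_neg, smul_neg, neg_neg, smul_smul]
  have hkk : ∀ a : Root, k a * k (-a) = 1 := by
    intro a
    have h2 := hpr a (fun i => (a.1 i : K))
    have h3 : T (c fun i => (a.1 i : K)) = T (t a.1) := rfl
    have h4 : pr (t (π a).1 : Chev K').h (π a).1 = ((2 : ℤ) : K') := by
      rw [t_h, pr_intCast, (π a).2]
    rw [h3, hTt, smul_h, pr_smul, h4, pr_intCast, a.2, map_intCast] at h2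
    have h5 : ((2 : ℤ) : K') ≠ 0 := by norm_num
    exact mul_right_cancel₀ h5 (h2.trans (one_mul _).symm)
  have hTt' : ∀ a : Root, T (t a.1) = t (π a).1 := by
    intro a
    rw [hTt, hkk, one_smul]
  let w : Lat →+ Lat :=
    { toFun := fun v => ∑ i, v i • (π (sr i)).1
      map_zero' := by simp
      map_add' := by
        intro x y
        simp only [Pi.add_apply, add_smul, Finset.sum_add_distrib] }
  have hwal : ∀ i, w (al i) = (π (sr i)).1 := by
    intro i
    change ∑ j, (al i) j • (π (sr j)).1 = (π (sr i)).1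
    rw [Finset.sum_eq_single i]
    · simp [al]
    · intro j _ hj
      simp [al, hj]
    · intro h
      exact absurd (Finset.mem_univ _) h
  have hTw : ∀ v, T (t v) = t (w v) := by
    let F : Lat →+ Chev K' :=
      { toFun := fun v => T (t v)
        map_zero' := by rw [t_zero, hT0]
        map_add' := by
          intro x y
          rw [t_add, hadd] }
    let G : Lat →+ Chev K' :=
      { toFun := fun v => t (w v)
        map_zero' := by rw [map_zero, t_zero]
        map_add' := by
          intro x y
          rw [map_add, t_add] }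
    have hFG : F = G := by
      refine lat_hom_ext _ _ fun i => ?_
      change T (t (al i)) = t (w (al i))
      rw [hwal]
      exact hTt' (sr i)
    intro v
    exact DFunLike.congr_fun hFG v
  have hπ : ∀ a : Root, (π a).1 = w a.1 := by
    intro a
    apply t_inj56 (K := K')
    rw [← hTt', hTw]
  have hiso : ∀ x y, ip (w x) (w y) = ip x y := by
    intro x
    let F : Lat →+ ℤ :=
      { toFun := fun v => ip (w x) (w v)
        map_zero' := by
          rw [map_zero]
          simp [ip]
        map_add' := by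
          intro y z
          rw [map_add, ip_add_right] }
    let G : Lat →+ ℤ :=
      { toFun := fun v => ip x v
        map_zero' := by simp [ip]
        map_add' := by
          intro y z
          rw [ip_add_right] }
    have hFG : F = G := by
      refine lat_hom_ext _ _ fun i => ?_
      change ip (w x) (w (al i)) = ip x (al i)
      have h2 := hpr (sr i) (fun j => (x j : K))
      have h3 : T (c fun j => (x j : K)) = T (t x) := rfl
      rw [h3, hTw, t_h, pr_intCast, pr_intCast, map_intCast, hπ] at h2
      exact_mod_cast h2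
    intro y
    exact DFunLike.congr_fun hFG y
  exact ⟨w, π, k, hTw, hiso, hπ, hk, hkk⟩

theorem exists_mono {K K' : Type*} [Field K] [CharZero K] [Field K'] [CharZero K'] (τ : K ≃+* K') (T : Chev K → Chev K')
    (hadd : ∀ y z, T (y + z) = T y + T z) (hsmul : ∀ (r : K) y, T (r • y) = τ r • T y)
    (hlie : ∀ y z, T ⁅y, z⁆ = ⁅T y, T z⁆) (hbij : Function.Bijective T) (hh : ∀ h, (T (c h)).x = 0) :
    ∃ (w : Lat ≃+ Lat) (hw : IsIsom w) (k : Root → K'), IsCoc w k ∧ ∀ y, T y = mono (τ : K →+* K') w hw k y := by
  have hsurj := onto56 τ T hadd hsmul hbij.1 hh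
  obtain ⟨w, π, k, hTw, hiso, hπ, hk, hkk⟩ := core56 τ T hadd hsmul hlie hbij.1 hh hsurj
  obtain ⟨T', hT'⟩ : ∃ T' : Chev K' → Chev K, ∀ y, T (T' y) = y :=
    ⟨fun y => (hbij.2 y).choose, fun y => (hbij.2 y).choose_spec⟩
  have hT'' : ∀ y, T' (T y) = y := fun y => hbij.1 (hT' (T y))
  obtain ⟨w', π', k', hTw', hiso', hπ', hk', hkk'⟩ := core56 τ.symm T'
    (fun y z => hbij.1 (by rw [hT', hadd, hT', hT']))
    (fun r y => hbij.1 (by rw [hT', hsmul, hT', τ.apply_symm_apply]))
    (fun y z => hbij.1 (by rw [hT', hlie, hT', hT']))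
    (fun y z hyz => by rw [← hT' y, hyz, hT'])
    (fun h => by
      obtain ⟨g, hg⟩ := hsurj h
      rw [← hg, hT'', c_x])
    (fun h => ⟨(T (c h)).h, by rw [← c_of_x56 _ (hh h), hT'']⟩)
  have hww' : ∀ v, w (w' v) = v := by
    intro v
    apply t_inj56 (K := K')
    rw [← hTw, ← hTw', hT']
  have hw'w : ∀ v, w' (w v) = v := by
    intro v
    apply t_inj56 (K := K)
    rw [← hTw', ← hTw, hT'']
  let W : Lat ≃+ Lat :=
    { toFun := w
      invFun := w'
      left_inv := hw'w
      right_inv := hww'
      map_add' := map_add w }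
  have hWw : ∀ v, W v = w v := fun v => rfl
  have hW : IsIsom W := fun x y => hiso x y
  have hon : ∀ a, onRoot W hW a = π a := fun a => root_ext (hπ a).symm
  refine ⟨W, hW, k, ⟨?_, hkk⟩, ?_⟩
  · intro a b d hd
    have h1 : T ⁅(e a : Chev K), (e b : Chev K)⁆ = ⁅T (e a), T (e b)⁆ := hlie _ _
    have h2 : (π d).1 = (π a).1 + (π b).1 := by rw [hπ, hπ, hπ, hd, map_add]
    rw [lie_e_e_add hd, hsmul, hk, hk, hk, smul_lie, lie_smul, lie_e_e_add h2, map_intCast,
      smul_smul, smul_smul, smul_smul] at h1
    have h3 := congrArg (fun z : Chev K' => z.x (π d)) h1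
    simp only [smul_x, Pi.smul_apply, e_x, Pi.single_eq_same, smul_eq_mul, mul_one] at h3
    rw [hWw, hWw, ← hπ, ← hπ, mul_comm, h3, mul_assoc]
  · intro y
    refine eq_mono (τ : K →+* K') W hW k hadd hsmul (fun i => hTw (al i)) (fun a => ?_) y
    rw [hon, hk]

end Pool.Agent.Helper73.E8.Chev
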