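import Pool.Agent.Helper73.E8.Base

/-!
# Heights, simple roots, highest root of E8 (definitions)
-/

set_option autoImplicit false

namespace Pool.Agent.Helper73.E8

/-- The height: sum of the coordinates with respect to the simple roots. -/
def ht (x : Lat) : ℤ := ∑ i, x i

theorem ht_add (x y : Lat) : ht (x + y) = ht x + ht y := by
  simp only [ht, Pi.add_apply, Finset.sum_add_distrib]

theorem ht_neg (x : Lat) : ht (-x) = -ht x := by
  simp only [ht, Pi.neg_apply, Finset.sum_neg_distrib]

/-- The simple roots, as vectors of the lattice. -/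
def al (i : Fin 8) : Lat := Pi.single i 1

theorem ip_al_al (i j : Fin 8) : ip (al i) (al j) = CartanMatrix.E₈ i j := by
  unfold ip al
  rw [Finset.sum_eq_single i (fun k _ hk => by simp [hk]) (fun h => absurd (Finset.mem_univ _) h),
    Finset.sum_eq_single j (fun k _ hk => by simp [hk]) (fun h => absurd (Finset.mem_univ _) h)]
  simp

/-- The simple roots. -/
def sr (i : Fin 8) : Root := ⟨al i, by rw [ip_al_al]; exact CartanMatrix.E₈_diag i⟩

/-- The highest root. -/
def theta : Lat := ![2, 3, 4, 6, 5, 4, 3, 2]

end Pool.Agent.Helper73.E8
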