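import Pool.Agent.Helper73.E8.Jac
import Pool.Agent.Helper73.E8.RootsDef

/-!
# The Chevalley algebra of type E8 as a Lie algebra, brackets of the basis vectors, the form `bf`
-/

set_option autoImplicit false

namespace Pool.Agent.Helper73.E8

theorem Root.neg_ne (a : Root) : -a ≠ a := by
  intro h
  have h1 : ip (-a).1 a.1 = ip a.1 a.1 := by rw [h]
  rw [neg_val, ip_neg_left, a.2] at h1
  omega

theorem ip_add_self (a b : Lat) : ip (a + b) (a + b) = ip a a + ip b b + 2 * ip a b := by
  rw [ip_add_left, ip_add_right, ip_add_right, ip_comm b a]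
  ring

namespace Chev

variable {R : Type*} [CommRing R]

noncomputable instance : LieRing (Chev R) where
  add_lie := add_brk
  lie_add := brk_add
  lie_self := brk_self
  leibniz_lie := jacobi

noncomputable instance : LieAlgebra R (Chev R) where
  lie_smul := brk_smul

/-- The basis vector of the root space of `a`. -/
def e (a : Root) : Chev R := ⟨0, Pi.single a 1⟩

/-- An element of the Cartan subalgebra. -/
def c (h : Fin 8 → R) : Chev R := ⟨h, 0⟩

/-- The element of the Cartan subalgebra given by a vector of the lattice. -/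
def t (v : Lat) : Chev R := c fun i => (v i : R)

@[simp] theorem e_h (a : Root) : (e a : Chev R).h = 0 := rfl
@[simp] theorem e_x (a : Root) : (e a : Chev R).x = Pi.single a 1 := rfl
@[simp] theorem c_h (h : Fin 8 → R) : (c h).h = h := rfl
@[simp] theorem c_x (h : Fin 8 → R) : (c h).x = 0 := rfl
@[simp] theorem t_h (v : Lat) : (t v : Chev R).h = fun i => (v i : R) := rfl
@[simp] theorem t_x (v : Lat) : (t v : Chev R).x = 0 := rfl

@[simp] theorem sum_h {ι : Type*} (s : Finset ι) (f : ι → Chev R) : (∑ i ∈ s, f i).h = ∑ i ∈ s, (f i).h := by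
  classical
  induction s using Finset.induction_on with
  | empty => rfl
  | insert a s ha ih => rw [Finset.sum_insert ha, Finset.sum_insert ha, add_h, ih]

@[simp] theorem sum_x {ι : Type*} (s : Finset ι) (f : ι → Chev R) : (∑ i ∈ s, f i).x = ∑ i ∈ s, (f i).x := by
  classical
  induction s using Finset.induction_on with
  | empty => rfl
  | insert a s ha ih => rw [Finset.sum_insert ha, Finset.sum_insert ha, add_x, ih]

theorem c_add (h h' : Fin 8 → R) : (c (h + h') : Chev R) = c h + c h' := by
  ext <;> simp

theorem c_smul (r : R) (h : Fin 8 → R) : (c (r • h) : Chev R) = r • c h := by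
  ext <;> simp

theorem t_add (v w : Lat) : (t (v + w) : Chev R) = t v + t w := by
  ext <;> simp

theorem t_neg (v : Lat) : (t (-v) : Chev R) = -t v := by
  ext <;> simp

@[simp] theorem t_zero : (t 0 : Chev R) = 0 := by
  ext <;> simp

/-- Every element is the sum of its components. -/
theorem decomp (y : Chev R) : y = c y.h + ∑ a : Root, y.x a • e a := by
  ext i
  · simp
  · simp [Finset.sum_apply, Pi.single_apply]

theorem c_eq_sum (h : Fin 8 → R) : (c h : Chev R) = ∑ i, h i • t (al i) := by
  ext i
  · simp only [c_h, sum_h, smul_h, t_h, Finset.sum_apply, Pi.smul_apply, smul_eq_mul, al]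
    rw [Finset.sum_eq_single i]
    · simp
    · intro j _ hj
      simp [Pi.single_apply, hj.symm]
    · simp
  · simp

theorem lie_c_c (h h' : Fin 8 → R) : ⁅(c h : Chev R), (c h' : Chev R)⁆ = 0 := by
  ext i
  · simp [brk_h]
  · simp [brk_x]

theorem lie_c_e (h : Fin 8 → R) (a : Root) : ⁅(c h : Chev R), (e a : Chev R)⁆ = pr h a.1 • e a := by
  ext b
  · simp [brk_h]
  · simp only [brk_x, c_h, e_x, e_h, pr_zero, c_x, Pi.zero_apply, zero_mul, mul_zero, sub_zero, smul_x, Pi.smul_apply,
      smul_eq_mul, ite_self, Finset.sum_const_zero, add_zero]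
    by_cases hb : b = a
    · rw [hb]
    · simp [Pi.single_apply, hb]

theorem lie_t_e (v : Lat) (a : Root) : ⁅(t v : Chev R), (e a : Chev R)⁆ = (ip v a.1 : R) • e a := by
  unfold t
  rw [lie_c_e, pr_intCast]

theorem lie_e_e_add {a b d : Root} (h : d.1 = a.1 + b.1) :
    ⁅(e a : Chev R), (e b : Chev R)⁆ = ((eps a.1 b.1 : ℤ) : R) • e d := by
  have hab : -a ≠ b := by
    intro h1
    rw [← h1, neg_val, add_neg_cancel] at h
    have h2 := d.2
    rw [h] at h2
    simp [ip] at h2
  ext i
  · simp only [brk_h, e_x, e_h, smul_h, Pi.smul_apply, Pi.zero_apply, smul_zero]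
    rw [Finset.sum_eq_single a]
    · rw [Pi.single_eq_of_ne hab]
      simp
    · intro a' _ h2
      rw [Pi.single_eq_of_ne h2]
      simp
    · simp
  · simp only [brk_x, e_h, pr_zero, zero_mul, sub_zero, zero_add, e_x, smul_x, Pi.smul_apply, smul_eq_mul]
    rw [Finset.sum_eq_single a, Finset.sum_eq_single b]
    · by_cases hi : i = d
      · rw [hi, if_pos h.symm]
        simp
      · rw [if_neg (fun h2 => hi (root_ext (by rw [← h2, h]))), Pi.single_eq_of_ne hi]
        simp
    · intro b' _ h2
      rw [Pi.single_eq_of_ne h2]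
      simp
    · simp
    · intro a' _ h2
      rw [Pi.single_eq_of_ne h2]
      simp
    · simp

theorem lie_e_neg (a : Root) : ⁅(e a : Chev R), (e (-a) : Chev R)⁆ = -t a.1 := by
  ext i
  · simp only [brk_h, e_x, neg_h, Pi.neg_apply, t_h]
    rw [Finset.sum_eq_single a]
    · simp
    · intro a' _ h2
      rw [Pi.single_eq_of_ne h2]
      simp
    · simp
  · simp only [brk_x, e_h, pr_zero, zero_mul, sub_zero, zero_add, e_x, neg_x, Pi.neg_apply, t_x, Pi.zero_apply, neg_zero]
    rw [Finset.sum_eq_single a, Finset.sum_eq_single (-a)]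
    · rw [if_neg]
      intro h2
      rw [neg_val, add_neg_cancel] at h2
      have h3 := i.2
      rw [← h2] at h3
      simp [ip] at h3
    · intro b' _ h2
      rw [Pi.single_eq_of_ne h2]
      simp
    · simp
    · intro a' _ h2
      rw [Pi.single_eq_of_ne h2]
      simp
    · simp

theorem lie_e_e_zero {a b : Root} (h1 : b ≠ -a) (h2 : ∀ d : Root, d.1 ≠ a.1 + b.1) :
    ⁅(e a : Chev R), (e b : Chev R)⁆ = 0 := by
  ext i
  · simp only [brk_h, e_x, zero_h, Pi.zero_apply]
    rw [Finset.sum_eq_single a]
    · rw [Pi.single_eq_of_ne h1.symm]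
      simp
    · intro a' _ h3
      rw [Pi.single_eq_of_ne h3]
      simp
    · simp
  · simp only [brk_x, e_h, pr_zero, zero_mul, sub_zero, zero_add, e_x, zero_x, Pi.zero_apply]
    rw [Finset.sum_eq_single a, Finset.sum_eq_single b]
    · rw [if_neg (fun h3 => h2 i h3.symm)]
    · intro b' _ h3
      rw [Pi.single_eq_of_ne h3]
      simp
    · simp
    · intro a' _ h3
      rw [Pi.single_eq_of_ne h3]
      simp
    · simp

/-- The standard basis. -/
noncomputable def basis : Module.Basis (Fin 8 ⊕ Root) R (Chev R) :=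
  ((Pi.basisFun R (Fin 8)).prod (Pi.basisFun R Root)).map lin.symm

instance : Module.Free R (Chev R) := Module.Free.of_basis basis

instance : Module.Finite R (Chev R) := Module.Finite.of_basis basis

/-- The invariant form: `(h, h')` on the Cartan subalgebra and `(e_a, e_(-a)) = -1`. The Killing form is `60 bf`. -/
noncomputable def bf (y z : Chev R) : R := ∑ i, ∑ j, y.h i * (CartanMatrix.E₈ i j : R) * z.h j - ∑ a : Root, y.x a * z.x (-a)

theorem bf_add_left (y y' z : Chev R) : bf (y + y') z = bf y z + bf y' z := by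
  simp only [bf, add_h, add_x, Pi.add_apply, add_mul, Finset.sum_add_distrib]
  ring

theorem bf_add_right (y z z' : Chev R) : bf y (z + z') = bf y z + bf y z' := by
  simp only [bf, add_h, add_x, Pi.add_apply, mul_add, Finset.sum_add_distrib]
  ring

theorem bf_smul_left (r : R) (y z : Chev R) : bf (r • y) z = r * bf y z := by
  simp only [bf, smul_h, smul_x, Pi.smul_apply, smul_eq_mul, mul_sub, Finset.mul_sum, mul_assoc]

theorem bf_smul_right (r : R) (y z : Chev R) : bf y (r • z) = r * bf y z := by
  simp only [bf, smul_h, smul_x, Pi.smul_apply, smul_eq_mul, mul_sub, Finset.mul_sum]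
  congr 1
  · refine Finset.sum_congr rfl fun i _ => Finset.sum_congr rfl fun j _ => ?_
    ring
  · refine Finset.sum_congr rfl fun i _ => ?_
    ring

theorem bf_comm (y z : Chev R) : bf y z = bf z y := by
  unfold bf
  congr 1
  · rw [Finset.sum_comm]
    refine Finset.sum_congr rfl fun i _ => Finset.sum_congr rfl fun j _ => ?_
    have h : CartanMatrix.E₈ j i = CartanMatrix.E₈ i j := congrFun (congrFun CartanMatrix.E₈_transpose i) j
    rw [h]
    ring
  · rw [← Equiv.sum_comp (Equiv.neg Root)]
    refine Finset.sum_congr rfl fun a _ => ?_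
    rw [Equiv.neg_apply, neg_neg, mul_comm]

/-- `bf` as a bilinear form. -/
noncomputable def bfL : LinearMap.BilinForm R (Chev R) :=
  LinearMap.mk₂ R bf bf_add_left bf_smul_left bf_add_right bf_smul_right

@[simp] theorem bfL_apply (y z : Chev R) : bfL y z = bf y z := rfl

end Chev

end Pool.Agent.Helper73.E8
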