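import Mathlib

/-!
# Project E8Z (MP_90bd9d_al): definitions

The root lattice of type E8 is `Lat = Z^8` (coordinates with respect to the simple roots) with the form `ip`
given by the Cartan matrix. `Root` is the set of the 240 vectors of norm 2. `E8 R` is the Chevalley Lie algebra
of type E8 over the commutative ring `R`: `(Fin 8 → R) × (Root → R)`, Cartan part `R ⊗ Lat` and one basis
vector `e_a` for each root, with
`[h, e_a] = (h, a) e_a`, `[e_a, e_b] = eps(a, b) e_(a+b)` if `a + b` is a root, `[e_a, e_(-a)] = - a`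
and all other brackets of basis vectors zero; `eps` is the bimultiplicative sign with
`eps(a, a) = (-1)^((a,a)/2)`.
-/

set_option autoImplicit false

namespace Pool.Agent.Helper73.E8

open Matrix

/-- The root lattice of type E8, in coordinates with respect to the simple roots. -/
abbrev Lat : Type := Fin 8 → ℤ

/-- The form of the lattice, given by the Cartan matrix. -/
def ip (x y : Lat) : ℤ := ∑ i, ∑ j, x i * CartanMatrix.E₈ i j * y j

/-- The roots: the vectors of norm 2. -/
def Root : Type := {a : Lat // ip a a = 2}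

/-- Exponent of the sign `eps`: the bilinear form with `be (α_i, α_i) = 1`, `be (α_i, α_j) = (α_i, α_j)` for
`i < j` and `be (α_i, α_j) = 0` for `i > j`. -/
def be (x y : Lat) : ℤ := ∑ i, ∑ j, if i = j then x i * y j else
  if i < j then x i * CartanMatrix.E₈ i j * y j else 0

/-- The sign `(-1)^(be x y)`. -/
def eps (x y : Lat) : ℤˣ := (be x y).negOnePow

theorem ip_add_left (x y z : Lat) : ip (x + y) z = ip x z + ip y z := by
  simp only [ip, Pi.add_apply, add_mul, Finset.sum_add_distrib]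

theorem ip_add_right (x y z : Lat) : ip x (y + z) = ip x y + ip x z := by
  simp only [ip, Pi.add_apply, mul_add, Finset.sum_add_distrib]

theorem ip_neg_left (x y : Lat) : ip (-x) y = - ip x y := by
  simp only [ip, Pi.neg_apply, neg_mul, Finset.sum_neg_distrib]

theorem ip_neg_right (x y : Lat) : ip x (-y) = - ip x y := by
  simp only [ip, Pi.neg_apply, mul_neg, Finset.sum_neg_distrib]

theorem ip_comm (x y : Lat) : ip x y = ip y x := by
  unfold ip
  rw [Finset.sum_comm]
  refine Finset.sum_congr rfl fun i _ => Finset.sum_congr rfl fun j _ => ?_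
  have h : CartanMatrix.E₈ j i = CartanMatrix.E₈ i j := congrFun (congrFun CartanMatrix.E₈_transpose i) j
  rw [h]
  ring

theorem be_add_left (x y z : Lat) : be (x + y) z = be x z + be y z := by
  simp only [be, Pi.add_apply, add_mul, ← Finset.sum_add_distrib]
  refine Finset.sum_congr rfl fun i _ => Finset.sum_congr rfl fun j _ => ?_
  split_ifs <;> ring

theorem be_add_right (x y z : Lat) : be x (y + z) = be x y + be x z := by
  simp only [be, Pi.add_apply, mul_add, ← Finset.sum_add_distrib]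
  refine Finset.sum_congr rfl fun i _ => Finset.sum_congr rfl fun j _ => ?_
  split_ifs <;> ring

theorem be_neg_left (x y : Lat) : be (-x) y = - be x y := by
  simp only [be, Pi.neg_apply, ← Finset.sum_neg_distrib]
  refine Finset.sum_congr rfl fun i _ => Finset.sum_congr rfl fun j _ => ?_
  split_ifs <;> ring

theorem be_neg_right (x y : Lat) : be x (-y) = - be x y := by
  simp only [be, Pi.neg_apply, ← Finset.sum_neg_distrib]
  refine Finset.sum_congr rfl fun i _ => Finset.sum_congr rfl fun j _ => ?_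
  split_ifs <;> ring

/-- `be x y + be y x = (x, y)`. -/
theorem be_add_be (x y : Lat) : be x y + be y x = ip x y := by
  simp [be, ip, Fin.sum_univ_eight, CartanMatrix.E₈]
  ring

theorem two_be_self (x : Lat) : 2 * be x x = ip x x := by
  have := be_add_be x x
  linarith

theorem eps_add_left (x y z : Lat) : eps (x + y) z = eps x z * eps y z := by
  unfold eps
  rw [be_add_left, Int.negOnePow_add]

theorem eps_add_right (x y z : Lat) : eps x (y + z) = eps x y * eps x z := by
  unfold eps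
  rw [be_add_right, Int.negOnePow_add]

theorem eps_neg_left (x y : Lat) : eps (-x) y = eps x y := by
  unfold eps
  rw [be_neg_left, Int.negOnePow_neg]

theorem eps_neg_right (x y : Lat) : eps x (-y) = eps x y := by
  unfold eps
  rw [be_neg_right, Int.negOnePow_neg]

theorem eps_mul_eps (x y : Lat) : eps x y * eps y x = (ip x y).negOnePow := by
  unfold eps
  rw [← Int.negOnePow_add, be_add_be]

theorem four_ip (x : Lat) : 4 * ip x x = (x 0 + 2 * x 1 - 2 * x 2) ^ 2 + (-x 0 + 2 * x 1 + 2 * x 2 - 2 * x 3) ^ 2 +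
    (-x 0 + 2 * x 3 - 2 * x 4) ^ 2 + (-x 0 + 2 * x 4 - 2 * x 5) ^ 2 + (-x 0 + 2 * x 5 - 2 * x 6) ^ 2 +
    (-x 0 + 2 * x 6 - 2 * x 7) ^ 2 + (-x 0 + 2 * x 7) ^ 2 + x 0 ^ 2 := by
  simp [ip, Fin.sum_univ_eight, CartanMatrix.E₈]
  ring

theorem ip_nonneg (x : Lat) : 0 ≤ ip x x := by
  have h := four_ip x
  have : 0 ≤ 4 * ip x x := by rw [h]; positivity
  linarith

private theorem sq8 {a b c d e f g h : ℤ} (H : 0 = a ^ 2 + b ^ 2 + c ^ 2 + d ^ 2 + e ^ 2 + f ^ 2 + g ^ 2 + h ^ 2) :
    a = 0 ∧ b = 0 ∧ c = 0 ∧ d = 0 ∧ e = 0 ∧ f = 0 ∧ g = 0 ∧ h = 0 := by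
  have := sq_nonneg a
  have := sq_nonneg b
  have := sq_nonneg c
  have := sq_nonneg d
  have := sq_nonneg e
  have := sq_nonneg f
  have := sq_nonneg g
  have := sq_nonneg h
  refine ⟨?_, ?_, ?_, ?_, ?_, ?_, ?_, ?_⟩ <;> exact pow_eq_zero_iff two_ne_zero |>.1 (by linarith)

theorem ip_self_eq_zero {x : Lat} (h : ip x x = 0) : x = 0 := by
  have h4 := four_ip x
  rw [h, mul_zero] at h4
  obtain ⟨h1, h2, h3, h4, h5, h6, h7, h8⟩ := sq8 h4
  funext i
  fin_cases i <;> simp <;> omega

/-- The form is positive definite. -/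
theorem ip_pos {x : Lat} (hx : x ≠ 0) : 0 < ip x x :=
  lt_of_le_of_ne (ip_nonneg x) fun h => hx (ip_self_eq_zero h.symm)

private theorem sq8' {a b c d e f g h : ℤ} (H : 8 = a ^ 2 + b ^ 2 + c ^ 2 + d ^ 2 + e ^ 2 + f ^ 2 + g ^ 2 + h ^ 2) :
    (-2 ≤ a ∧ a ≤ 2) ∧ (-2 ≤ b ∧ b ≤ 2) ∧ (-2 ≤ c ∧ c ≤ 2) ∧ (-2 ≤ d ∧ d ≤ 2) ∧ (-2 ≤ e ∧ e ≤ 2) ∧
    (-2 ≤ f ∧ f ≤ 2) ∧ (-2 ≤ g ∧ g ≤ 2) ∧ (-2 ≤ h ∧ h ≤ 2) := by
  have h1 := sq_nonneg a
  have h2 := sq_nonneg b
  have h3 := sq_nonneg c
  have h4 := sq_nonneg d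
  have h5 := sq_nonneg e
  have h6 := sq_nonneg f
  have h7 := sq_nonneg g
  have h8 := sq_nonneg h
  have key : ∀ t : ℤ, t ^ 2 ≤ 8 → -2 ≤ t ∧ t ≤ 2 := by
    intro t ht
    constructor <;> nlinarith
  exact ⟨key _ (by linarith), key _ (by linarith), key _ (by linarith), key _ (by linarith),
    key _ (by linarith), key _ (by linarith), key _ (by linarith), key _ (by linarith)⟩

theorem root_bound {a : Lat} (h : ip a a = 2) : a ∈ Set.Icc (fun _ => (-10 : ℤ)) (fun _ => 10) := by
  have h4 := four_ip a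
  rw [h] at h4
  obtain ⟨⟨p1, q1⟩, ⟨p2, q2⟩, ⟨p3, q3⟩, ⟨p4, q4⟩, ⟨p5, q5⟩, ⟨p6, q6⟩, ⟨p7, q7⟩, ⟨p8, q8⟩⟩ := sq8' h4
  clear h4 h
  have b7 : -2 ≤ a 7 ∧ a 7 ≤ 2 := by constructor <;> linarith
  have b6 : -4 ≤ a 6 ∧ a 6 ≤ 4 := by constructor <;> linarith
  have b5 : -6 ≤ a 5 ∧ a 5 ≤ 6 := by constructor <;> linarith
  have b4 : -8 ≤ a 4 ∧ a 4 ≤ 8 := by constructor <;> linarith
  have b3 : -10 ≤ a 3 ∧ a 3 ≤ 10 := by constructor <;> linarith
  have b1 : -7 ≤ a 1 ∧ a 1 ≤ 7 := by constructor <;> linarith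
  have b2 : -7 ≤ a 2 ∧ a 2 ≤ 7 := by constructor <;> linarith
  have b0 : -2 ≤ a 0 ∧ a 0 ≤ 2 := ⟨p8, q8⟩
  rw [Set.mem_Icc, Pi.le_def, Pi.le_def]
  constructor <;> intro i <;> fin_cases i <;> simp <;> linarith

instance : Finite Root :=
  Set.Finite.to_subtype (s := {a : Lat | ip a a = 2}) ((Set.finite_Icc _ _).subset fun _ h => root_bound h)

noncomputable instance : Fintype Root := Fintype.ofFinite Root

instance : DecidableEq Root := inferInstanceAs (DecidableEq {a : Lat // ip a a = 2})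

instance : Neg Root := ⟨fun a => ⟨-a.1, by rw [ip_neg_left, ip_neg_right, neg_neg]; exact a.2⟩⟩

@[simp] theorem neg_val (a : Root) : (-a).1 = -a.1 := rfl

theorem root_ext {a b : Root} (h : a.1 = b.1) : a = b := Subtype.ext h

instance : InvolutiveNeg Root where
  neg_neg a := root_ext (neg_neg a.1)

/-- The Chevalley algebra of type E8 over `R`, as a module: the Cartan part `R ⊗ Lat` (coordinates with respect
to the simple roots) and a free module on the roots. -/
@[ext] structure Chev (R : Type*) where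
  /-- the component in the Cartan subalgebra -/
  h : Fin 8 → R
  /-- the components in the root spaces -/
  x : Root → R

namespace Chev

variable {R : Type*} [CommRing R]

/-- Coordinates. -/
def toProd : Chev R ≃ (Fin 8 → R) × (Root → R) where
  toFun z := (z.h, z.x)
  invFun p := ⟨p.1, p.2⟩
  left_inv _ := rfl
  right_inv _ := rfl

instance : AddCommGroup (Chev R) := toProd.addCommGroup
instance : Module R (Chev R) := toProd.module R

@[simp] theorem add_h (y z : Chev R) : (y + z).h = y.h + z.h := rfl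
@[simp] theorem add_x (y z : Chev R) : (y + z).x = y.x + z.x := rfl
@[simp] theorem zero_h : (0 : Chev R).h = 0 := rfl
@[simp] theorem zero_x : (0 : Chev R).x = 0 := rfl
@[simp] theorem neg_h (y : Chev R) : (-y).h = -y.h := rfl
@[simp] theorem neg_x (y : Chev R) : (-y).x = -y.x := rfl
@[simp] theorem sub_h (y z : Chev R) : (y - z).h = y.h - z.h := rfl
@[simp] theorem sub_x (y z : Chev R) : (y - z).x = y.x - z.x := rfl
@[simp] theorem smul_h (r : R) (y : Chev R) : (r • y).h = r • y.h := rfl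
@[simp] theorem smul_x (r : R) (y : Chev R) : (r • y).x = r • y.x := rfl

/-- The coordinates as a linear equivalence. -/
def lin : Chev R ≃ₗ[R] (Fin 8 → R) × (Root → R) :=
  { toProd with
    map_add' := fun _ _ => rfl
    map_smul' := fun _ _ => rfl }

/-- The pairing of `h ∈ R ⊗ Lat` with `c ∈ Lat`. -/
def pr (h : Fin 8 → R) (c : Lat) : R := ∑ i, ∑ j, h i * (CartanMatrix.E₈ i j : R) * (c j : R)

/-- The bracket of the Chevalley algebra. -/
noncomputable def brk (y z : Chev R) : Chev R where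
  h := fun i => -∑ a : Root, (a.1 i : R) * (y.x a * z.x (-a))
  x := fun c => pr y.h c.1 * z.x c - pr z.h c.1 * y.x c +
     ∑ a : Root, ∑ b : Root, if a.1 + b.1 = c.1 then ((eps a.1 b.1 : ℤ) : R) * (y.x a * z.x b) else 0

noncomputable instance : Bracket (Chev R) (Chev R) := ⟨brk⟩

theorem brk_h (y z : Chev R) (i : Fin 8) : ⁅y, z⁆.h i = -∑ a : Root, (a.1 i : R) * (y.x a * z.x (-a)) := rfl

theorem brk_x (y z : Chev R) (c : Root) : ⁅y, z⁆.x c = pr y.h c.1 * z.x c - pr z.h c.1 * y.x c +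
     ∑ a : Root, ∑ b : Root, if a.1 + b.1 = c.1 then ((eps a.1 b.1 : ℤ) : R) * (y.x a * z.x b) else 0 := rfl

theorem pr_add (h h' : Fin 8 → R) (c : Lat) : pr (h + h') c = pr h c + pr h' c := by
  simp only [pr, Pi.add_apply, add_mul, Finset.sum_add_distrib]

theorem pr_smul (r : R) (h : Fin 8 → R) (c : Lat) : pr (r • h) c = r * pr h c := by
  simp only [pr, Pi.smul_apply, smul_eq_mul, Finset.mul_sum, mul_assoc]

@[simp] theorem pr_zero (c : Lat) : pr (0 : Fin 8 → R) c = 0 := by
  simp [pr]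

theorem pr_add_right (h : Fin 8 → R) (c d : Lat) : pr h (c + d) = pr h c + pr h d := by
  simp only [pr, Pi.add_apply, Int.cast_add, mul_add, Finset.sum_add_distrib]

theorem pr_neg_right (h : Fin 8 → R) (c : Lat) : pr h (-c) = -pr h c := by
  simp only [pr, Pi.neg_apply, Int.cast_neg, mul_neg, Finset.sum_neg_distrib]

theorem pr_intCast (x c : Lat) : pr (fun i => (x i : R)) c = (ip x c : R) := by
  simp only [pr, ip, Int.cast_sum, Int.cast_mul]

theorem add_brk (y z w : Chev R) : ⁅y + z, w⁆ = ⁅y, w⁆ + ⁅z, w⁆ := by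
  ext i
  · simp only [brk_h, add_h, add_x, Pi.add_apply, add_mul, mul_add, Finset.sum_add_distrib, neg_add]
  · simp only [brk_x, add_x, add_h, Pi.add_apply, pr_add]
    rw [show ∀ p q r : R, p + (q + r) = p + q + r from fun p q r => (add_assoc p q r).symm]
    have h : ∀ a b : Root, (if a.1 + b.1 = i.1 then ((eps a.1 b.1 : ℤ) : R) * ((y.x a + z.x a) * w.x b) else 0) =
      (if a.1 + b.1 = i.1 then ((eps a.1 b.1 : ℤ) : R) * (y.x a * w.x b) else 0) +
      (if a.1 + b.1 = i.1 then ((eps a.1 b.1 : ℤ) : R) * (z.x a * w.x b) else 0) := by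
      intro a b
      split_ifs <;> ring
    simp only [h, Finset.sum_add_distrib]
    ring

theorem brk_add (y z w : Chev R) : ⁅y, z + w⁆ = ⁅y, z⁆ + ⁅y, w⁆ := by
  ext i
  · simp only [brk_h, add_h, add_x, Pi.add_apply, mul_add, Finset.sum_add_distrib, neg_add]
  · simp only [brk_x, add_x, add_h, Pi.add_apply, pr_add]
    have h : ∀ a b : Root, (if a.1 + b.1 = i.1 then ((eps a.1 b.1 : ℤ) : R) * (y.x a * (z.x b + w.x b)) else 0) =
      (if a.1 + b.1 = i.1 then ((eps a.1 b.1 : ℤ) : R) * (y.x a * z.x b) else 0) +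
      (if a.1 + b.1 = i.1 then ((eps a.1 b.1 : ℤ) : R) * (y.x a * w.x b) else 0) := by
      intro a b
      split_ifs <;> ring
    simp only [h, Finset.sum_add_distrib]
    ring

theorem brk_smul (r : R) (y z : Chev R) : ⁅y, r • z⁆ = r • ⁅y, z⁆ := by
  ext i
  · simp only [brk_h, smul_h, smul_x, Pi.smul_apply, smul_eq_mul, mul_neg, Finset.mul_sum]
    refine congrArg Neg.neg (Finset.sum_congr rfl fun a _ => ?_)
    ring
  · simp only [brk_x, smul_x, smul_h, Pi.smul_apply, smul_eq_mul, pr_smul, mul_add, Finset.mul_sum]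
    refine congrArg₂ (· + ·) (by ring) (Finset.sum_congr rfl fun a _ => Finset.sum_congr rfl fun b _ => ?_)
    split_ifs <;> ring

end Chev

end Pool.Agent.Helper73.E8
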