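import Pool.Agent.Helper73.E8.Red

/-!
# The group of automorphisms of the Lie ring `L`; if it is irreducible, it has an element of order 31
-/

set_option autoImplicit false

open scoped TensorProduct

namespace Pool.Agent.Helper73.E8

open Chev

/-- The group of the automorphisms of the Lie ring `L`. -/
def AutL (L : Type) [LieRing L] : Subgroup (L ≃ₗ[ℤ] L) where
  carrier := {g | ∀ x y, g ⁅x, y⁆ = ⁅g x, g y⁆}
  one_mem' := fun _ _ => rfl
  mul_mem' := fun {a b} ha hb x y => by
    rw [LinearEquiv.mul_apply, LinearEquiv.mul_apply, LinearEquiv.mul_apply, hb, ha]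
  inv_mem' := fun {a} ha x y => by
    apply a.injective
    rw [ha]
    change a (a.symm _) = ⁅a (a.symm x), a (a.symm y)⁆
    rw [a.apply_symm_apply, a.apply_symm_apply, a.apply_symm_apply]

/-- An element of `AutL L` as an isomorphism of Lie algebras. -/
def toLie {L : Type} [LieRing L] (g : AutL L) : L ≃ₗ⁅ℤ⁆ L :=
  { g.1 with map_lie' := fun {x y} => g.2 x y }

@[simp] theorem toLie_apply {L : Type} [LieRing L] (g : AutL L) (x : L) : toLie g x = g.1 x := rfl

/-- An isomorphism of Lie algebras as an element of `AutL L`. -/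
def ofLie {L : Type} [LieRing L] (g : L ≃ₗ⁅ℤ⁆ L) : AutL L := ⟨g.toLinearEquiv, fun x y => LieEquiv.map_lie g x y⟩

@[simp] theorem ofLie_apply {L : Type} [LieRing L] (g : L ≃ₗ⁅ℤ⁆ L) (x : L) : (ofLie g).1 x = g x := rfl

variable {L : Type} [LieRing L] [Module.Free ℤ L] [Module.Finite ℤ L] {B : LinearMap.BilinForm ℤ L}

theorem B_lie (hL : IsLat L B) (g : L ≃ₗ⁅ℤ⁆ L) (x y : L) : B (g x) (g y) = B x y := by
  have h1 : killingForm ℤ L (g x) (g y) = killingForm ℤ L x y := LieAlgebra.killingForm_of_equiv_apply g x y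
  rw [hL.kill, hL.kill] at h1
  omega

theorem AutL_B (hL : IsLat L B) (g : AutL L) (x y : L) : B (g.1 x) (g.1 y) = B x y := B_lie hL (toLie g) x y

theorem AutL_finite (hL : IsLat L B) : Finite (AutL L) := by
  have := finite_isometries B hL.pos
  refine Finite.of_injective (fun g : AutL L => (⟨g.1, AutL_B hL g⟩ : {g : L ≃ₗ[ℤ] L // ∀ x y, B (g x) (g y) = B x y})) ?_
  intro g g' h
  exact Subtype.ext (congrArg (fun z : {g : L ≃ₗ[ℤ] L // ∀ x y, B (g x) (g y) = B x y} => z.1) h)

/-- The action of `AutL L` on `ℝ ⊗ L` is irreducible. -/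
def Irr (L : Type) [LieRing L] : Prop :=
  ∀ W : Submodule ℝ (ℝ ⊗[ℤ] L), (∀ g : AutL L, W.map ((g.1 : L →ₗ[ℤ] L).baseChange ℝ) ≤ W) → W = ⊥ ∨ W = ⊤

theorem card_dvd (hL : IsLat L B) (hirr : Irr L) : 124 ∣ Nat.card (AutL L) := by
  have := AutL_finite hL
  have h := dvd_two_card B hL.symm hL.pos hL.uni (AutL L).subtype (fun g x y => AutL_B hL g x y) hirr
    (by rw [hL.rank]; norm_num)
  rw [hL.rank] at h
  omega

theorem exists_order31 (hL : IsLat L B) (hirr : Irr L) : ∃ g : AutL L, orderOf g = 31 := by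
  have := AutL_finite hL
  have : Fact (Nat.Prime 31) := ⟨by norm_num⟩
  exact exists_prime_orderOf_dvd_card' 31 (dvd_trans (by norm_num) (card_dvd hL hirr))

theorem pow_apply (g : AutL L) (n : ℕ) (x : L) : (g ^ n).1 x = g.1^[n] x := by
  induction n with
  | zero => rfl
  | succ n ih =>
    rw [pow_succ', Function.iterate_succ_apply', ← ih]
    rfl

/-- The element of order 31. -/
theorem exists_g (hL : IsLat L B) (hirr : Irr L) :
    ∃ g : L ≃ₗ⁅ℤ⁆ L, (∀ x, g^[31] x = x) ∧ ∃ x, g x ≠ x := by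
  obtain ⟨g, hg⟩ := exists_order31 hL hirr
  refine ⟨toLie g, fun x => ?_, ?_⟩
  · have h1 : g ^ 31 = 1 := by rw [← hg, pow_orderOf_eq_one]
    have h2 := pow_apply g 31 x
    rw [h1] at h2
    exact h2.symm
  · by_contra h
    push Not at h
    have h1 : g = 1 := Subtype.ext (LinearEquiv.ext fun x => h x)
    rw [h1, orderOf_one] at hg
    omega

end Pool.Agent.Helper73.E8
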