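import Pool.Agent.Helper73.E8.Int.Rlat
import Pool.Agent.Helper73.E8.Grp
import Pool.Agent.Helper64.E8C.Main
import Pool.Agent.Helper58.E8Z.Core

/-!
# The data of the endgame from an irreducible compact form
-/

set_option autoImplicit false

open scoped TensorProduct

namespace Pool.Agent.Helper73.E8

open Chev NumberField Polynomial
open Pool.Agent.Helper2.E8A (K ζ σ FI dI dv P0 V D)
open Pool.Agent.Helper64.E8C (Fx et rW IsL cm gg inc InL O)

variable {L : Type} [LieRing L] [Module.Free ℤ L] [Module.Finite ℤ L] {B : LinearMap.BilinForm ℤ L}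

/-- The fixed field of `σ`. -/
private theorem fixed73 {x : K} (hx : σ x = x) (hi : IsIntegral ℤ x) : ∃ n : ℤ, (n : K) = x := by
  have hgal : IsGalois ℚ K := IsCyclotomicExtension.isGalois {31} ℚ K
  have h1 : ∀ i : ℕ, (σ ^ i) x = x := by
    intro i
    induction i with
    | zero => rfl
    | succ i ih => rw [pow_succ, AlgEquiv.mul_apply, hx, ih]
  have h2 : ∀ τ : K ≃ₐ[ℚ] K, τ x = x := by
    intro τ
    obtain ⟨i, -, hi⟩ := Pool.Agent.Helper2.E8A.aut_eq τ
    rw [hi]
    exact h1 i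
  obtain ⟨q, hq⟩ := (IsGalois.mem_range_algebraMap_iff_fixed x).2 h2
  have h3 : IsIntegral ℤ q := by
    rw [← hq] at hi
    exact (isIntegral_algebraMap_iff (algebraMap ℚ K).injective).1 hi
  obtain ⟨n, hn⟩ := IsIntegrallyClosed.isIntegral_iff.1 h3
  refine ⟨n, ?_⟩
  rw [← hq, ← hn]
  simp

/-- An element of `M = f (𝓞 K ⊗ L)` fixed by `TT f` comes from `L`. -/
theorem exists_of_inM {f : K ⊗[ℤ] L ≃ₗ⁅K⁆ Chev K} {y : Chev K} (hM : InM f y) (hT : TT f y = y) :
    ∃ z : L, f (1 ⊗ₜ z) = y := by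
  obtain ⟨z, hz⟩ := hM
  let b := Module.Free.chooseBasis ℤ L
  let bK := b.baseChange K
  have hbK : ∀ i, bK i = (1 : K) ⊗ₜ[ℤ] b i := fun i => by
    rw [Module.Basis.baseChange_apply]
  obtain ⟨q, hq⟩ : ∃ q : K ⊗[ℤ] L, q = cT L (algebraMap (𝓞 K) K) z := ⟨_, rfl⟩
  rw [← hq] at hz
  have hσ : cT L (σ : K →+* K) q = q := by
    rw [← hz] at hT
    unfold TT at hT
    rw [f.symm_apply_apply] at hT
    exact f.injective hT
  have hcoord : ∀ (w : K ⊗[ℤ] L) i, bK.repr (cT L (σ : K →+* K) w) i = σ (bK.repr w i) := by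
    intro w i
    induction w using TensorProduct.induction_on with
    | zero => rw [map_zero, map_zero, Finsupp.zero_apply, map_zero]
    | tmul a x =>
      rw [cT_tmul]
      have h1 : ∀ c : K, bK.repr (c ⊗ₜ[ℤ] x) i = c * ((b.repr x i : ℤ) : K) := by
        intro c
        rw [Module.Basis.baseChange_repr_tmul]
        simp [mul_comm]
      rw [h1, h1, map_mul, map_intCast]
      rfl
    | add u v hu hv =>
      rw [_root_.map_add, _root_.map_add, Finsupp.add_apply, hu, hv, _root_.map_add, Finsupp.add_apply, _root_.map_add]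
  have hint : ∀ (w : 𝓞 K ⊗[ℤ] L) i, IsIntegral ℤ (bK.repr (cT L (algebraMap (𝓞 K) K) w) i) := by
    intro w i
    induction w using TensorProduct.induction_on with
    | zero => rw [map_zero, map_zero, Finsupp.zero_apply]; exact isIntegral_zero
    | tmul a x =>
      rw [cT_tmul]
      have h1 : ∀ c : K, bK.repr (c ⊗ₜ[ℤ] x) i = c * ((b.repr x i : ℤ) : K) := by
        intro c
        rw [Module.Basis.baseChange_repr_tmul]
        simp [mul_comm]
      rw [h1]
      exact a.isIntegral_coe.mul (isIntegral_intCast _)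
    | add u v hu hv =>
      rw [_root_.map_add, _root_.map_add, Finsupp.add_apply]
      exact hu.add hv
  have hr : ∀ i, ∃ m : ℤ, (m : K) = bK.repr q i := by
    intro i
    refine fixed73 ?_ ?_
    · rw [← hcoord, hσ]
    · rw [hq]
      exact hint z i
  choose m hm using hr
  refine ⟨∑ i, m i • b i, ?_⟩
  rw [← hz]
  congr 1
  rw [← bK.sum_repr q, TensorProduct.tmul_sum]
  refine Finset.sum_congr rfl fun i _ => ?_
  rw [← hm i, hbK, TensorProduct.smul_tmul', smul_eq_mul, mul_one, TensorProduct.tmul_smul,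
    TensorProduct.smul_tmul', zsmul_eq_mul, mul_one]

/-- The image of `L` in the Chevalley algebra. -/
noncomputable def lam (f : K ⊗[ℤ] L ≃ₗ⁅K⁆ Chev K) : AddSubgroup (Chev K) :=
  (AddMonoidHom.mk' (fun y : L => f (1 ⊗ₜ y)) (fun y z => by
    rw [TensorProduct.tmul_add, _root_.map_add])).range

omit [Module.Free ℤ L] [Module.Finite ℤ L] in
theorem mem_lam {f : K ⊗[ℤ] L ≃ₗ⁅K⁆ Chev K} {y : Chev K} : y ∈ lam f ↔ ∃ z : L, f (1 ⊗ₜ z) = y := Iff.rfl

/-- `Fx σ` in terms of the monomial map. -/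
theorem fx_iff (y : Chev K) :
    Fx σ y ↔ mono (σ : K →+* K) W W_isom (fun a => ((et a.1 : ℤ) : K)) y = y := by
  have hW : ∀ i j : Fin 8, W (al i) j = Wmat i j := by
    intro i j
    rw [W_apply]
    simp [al, Pi.single_apply]
  constructor
  · rintro ⟨h1, h2⟩
    ext i
    · change ∑ j, σ (y.h j) * ((W (al j) i : ℤ) : K) = y.h i
      rw [h1 i]
      exact Finset.sum_congr rfl fun j _ => by rw [hW]
    · change ((et ((onRoot W W_isom).symm i).1 : ℤ) : K) * σ (y.x ((onRoot W W_isom).symm i)) = y.x i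
      have h3 := h2 ((onRoot W W_isom).symm i)
      rw [← h3]
      congr 1
      exact (onRoot W W_isom).apply_symm_apply i
  · intro h
    refine ⟨fun j => ?_, fun a => ?_⟩
    · have h1 := congrFun (congrArg Chev.h h) j
      rw [← h1]
      change ∑ i, σ (y.h i) * ((W (al i) j : ℤ) : K) = _
      exact Finset.sum_congr rfl fun i _ => by rw [hW]
    · have h1 := congrFun (congrArg Chev.x h) (rW a)
      rw [← h1]
      change ((et ((onRoot W W_isom).symm (rW a)).1 : ℤ) : K) * σ (y.x ((onRoot W W_isom).symm (rW a))) = _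
      have h2 : (onRoot W W_isom).symm (rW a) = a := (onRoot W W_isom).symm_apply_apply a
      rw [h2]

theorem TT_one {f : K ⊗[ℤ] L ≃ₗ⁅K⁆ Chev K} (hTT : IsTT f et 1) (y : Chev K) :
    TT f y = mono (σ : K →+* K) W W_isom (fun a => ((et a.1 : ℤ) : K)) y := by
  rw [hTT]
  congr 1
  funext a
  simp

omit [Module.Free ℤ L] [Module.Finite ℤ L] in
theorem TT_tmul (f : K ⊗[ℤ] L ≃ₗ⁅K⁆ Chev K) (y : L) : TT f (f (1 ⊗ₜ y)) = f (1 ⊗ₜ y) := by
  unfold TT
  rw [f.symm_apply_apply, cT_tmul, map_one]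

theorem isL_of (hL : IsLat L B) {f : K ⊗[ℤ] L ≃ₗ⁅K⁆ Chev K} {g : L ≃ₗ⁅ℤ⁆ L}
    (hfg : ∀ y : L, f (1 ⊗ₜ g y) = gz ζ (f (1 ⊗ₜ y))) (h0 : ∀ (a : Root) (v : V), v ≠ P0 → dI (IA f a) v = 0)
    (hTT : IsTT f et 1) : IsL (lam f) where
  fx := by
    rintro _ ⟨y, rfl⟩
    rw [fx_iff, ← TT_one hTT]
    exact TT_tmul f y
  lie := by
    rintro _ ⟨y, rfl⟩ _ ⟨z, rfl⟩
    refine ⟨⁅y, z⁆, ?_⟩
    change f (1 ⊗ₜ ⁅y, z⁆) = ⁅f (1 ⊗ₜ y), f (1 ⊗ₜ z)⁆
    rw [← LieEquiv.map_lie]
    congr 1
    simp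
  g := by
    rintro _ ⟨y, rfl⟩
    exact ⟨g y, hfg y⟩
  int := by
    rintro _ ⟨y, rfl⟩ _ ⟨z, rfl⟩
    refine ⟨-B y z, ?_⟩
    change bf (f (1 ⊗ₜ y)) (f (1 ⊗ₜ z)) = _
    rw [bf_f hL]
    push_cast
    rfl
  dual := by
    intro y hy hd
    have hM : InM f y := by
      rw [inM_dual f hL]
      rintro z ⟨u, rfl⟩
      induction u using TensorProduct.induction_on with
      | zero =>
        rw [map_zero, map_zero]
        have h : bf y (0 : Chev K) = 0 := by
          have h := bf_smul_right (0 : K) y (0 : Chev K)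
          rwa [zero_smul, zero_mul] at h
        rw [h]
        exact isIntegral_zero
      | add u u' hu hu' => rw [_root_.map_add, _root_.map_add, bf_add_right]; exact hu.add hu'
      | tmul a x =>
        rw [cT_tmul]
        have htm : ((algebraMap (𝓞 K) K a) ⊗ₜ[ℤ] x : K ⊗[ℤ] L) = (algebraMap (𝓞 K) K a) • ((1 : K) ⊗ₜ[ℤ] x) := by
          rw [TensorProduct.smul_tmul', smul_eq_mul, mul_one]
        rw [htm, _root_.map_smul, bf_smul_right]
        obtain ⟨n, hn⟩ := hd _ ⟨x, rfl⟩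
        change bf y (f (1 ⊗ₜ x)) = n at hn
        rw [hn]
        exact a.2.mul (isIntegral_intCast _)
    exact exists_of_inM hM (by rw [TT_one hTT]; exact (fx_iff y).1 hy)
  bdd := by
    -- uniform exponent from a basis
    have h1 : ∀ y : L, ∃ k : ℕ, ∃ y' : Chev O, inc y' = (31 : K) ^ k • f (1 ⊗ₜ y) := by
      intro y
      have hx := coord_x hL h0 y
      choose n hn using hx
      have h31 : IsIntegral ℤ (31 : K) := by
        have h31' : IsIntegral ℤ ((31 : ℤ) : K) := isIntegral_intCast _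
        simpa using h31'
      let N := ∑ a : Root, n a + 1
      have hN : ∀ a, n a ≤ N := fun a => (Finset.single_le_sum (fun _ _ => Nat.zero_le _) (Finset.mem_univ a)).trans
        (Nat.le_succ _)
      have hxi : ∀ a, IsIntegral ℤ ((31 : K) ^ N * (f (1 ⊗ₜ y)).x a) := by
        intro a
        have : (31 : K) ^ N * (f (1 ⊗ₜ y)).x a = (31 : K) ^ (N - n a) * ((31 : K) ^ (n a) * (f (1 ⊗ₜ y)).x a) := by
          rw [← mul_assoc, ← pow_add, Nat.sub_add_cancel (hN a)]
        rw [this]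
        exact (h31.pow _).mul (hn a)
      have hhi : ∀ i, IsIntegral ℤ ((31 : K) ^ N * (f (1 ⊗ₜ y)).h i) := by
        intro i
        have h2 := coord_h hL hfg y i
        have : (31 : K) ^ N * (f (1 ⊗ₜ y)).h i = (31 : K) ^ (N - 1) * ((31 : K) * (f (1 ⊗ₜ y)).h i) := by
          rw [← mul_assoc, ← pow_succ, Nat.sub_add_cancel (Nat.succ_le_succ (Nat.zero_le _))]
        rw [this]
        exact (h31.pow _).mul h2
      refine ⟨N, ⟨fun i => ⟨_, hhi i⟩, fun a => ⟨_, hxi a⟩⟩, ?_⟩
      ext i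
      · rfl
      · rfl
    let b := Module.Free.chooseBasis ℤ L
    choose k hk using fun i => h1 (b i)
    choose y' hy' using hk
    refine ⟨∑ i, k i, ?_⟩
    rintro _ ⟨y, rfl⟩
    refine ⟨∑ i, (((b.repr y i : ℤ) : O) * (31 : O) ^ (∑ j, k j - k i)) • y' i, ?_⟩
    have hinc_sum : ∀ (s : Finset (Module.Free.ChooseBasisIndex ℤ L)) (F : Module.Free.ChooseBasisIndex ℤ L → Chev O),
        inc (∑ i ∈ s, F i) = ∑ i ∈ s, inc (F i) := by
      intro s F
      classical
      induction s using Finset.induction_on with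
      | empty => simp [inc, cm]; rfl
      | insert a s ha ih =>
        rw [Finset.sum_insert ha, Finset.sum_insert ha, ← ih]
        ext i
        · exact _root_.map_add (algebraMap O K) _ _
        · exact _root_.map_add (algebraMap O K) _ _
    have hinc_smul : ∀ (r : O) (z : Chev O), inc (r • z) = (r : K) • inc z := by
      intro r z
      ext i
      · exact _root_.map_mul (algebraMap O K) _ _
      · exact _root_.map_mul (algebraMap O K) _ _
    change _ = (31 : K) ^ (∑ i, k i) • f (1 ⊗ₜ y)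
    rw [hinc_sum]
    have hy2 : f (1 ⊗ₜ y) = ∑ i, ((b.repr y i : ℤ) : K) • f (1 ⊗ₜ b i) := by
      conv_lhs => rw [← b.sum_repr y]
      rw [TensorProduct.tmul_sum, map_sum]
      refine Finset.sum_congr rfl fun i _ => ?_
      rw [← _root_.map_smul f, TensorProduct.tmul_smul, TensorProduct.smul_tmul', TensorProduct.smul_tmul', smul_eq_mul,
        mul_one, zsmul_eq_mul, mul_one]
    rw [hy2, Finset.smul_sum]
    refine Finset.sum_congr rfl fun i _ => ?_
    rw [hinc_smul, hy', smul_smul, smul_smul]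
    congr 1
    have hle : k i ≤ ∑ j, k j := Finset.single_le_sum (fun _ _ => Nat.zero_le _) (Finset.mem_univ i)
    have h3 : (((((b.repr y i : ℤ) : O) * (31 : O) ^ (∑ j, k j - k i) : O)) : K) =
        ((b.repr y i : ℤ) : K) * (31 : K) ^ (∑ j, k j - k i) := by
      have h4 : (((31 : O)) : K) = 31 := map_ofNat (algebraMap O K) 31
      have h5 : ((((b.repr y i : ℤ) : O)) : K) = ((b.repr y i : ℤ) : K) := map_intCast (algebraMap O K) _
      change algebraMap O K _ = _
      rw [_root_.map_mul, _root_.map_pow]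
      change ((((b.repr y i : ℤ) : O)) : K) * ((((31 : O)) : K)) ^ _ = _
      rw [h4, h5]
    rw [h3, mul_assoc, ← pow_add, Nat.sub_add_cancel hle, mul_comm]

omit [Module.Finite ℤ L] in
theorem emb_injective (f : K ⊗[ℤ] L ≃ₗ⁅K⁆ Chev K) {x y : L} (h : f (1 ⊗ₜ x) = f (1 ⊗ₜ y)) : x = y := by
  have h1 : (1 : K) ⊗ₜ[ℤ] x = 1 ⊗ₜ y := f.injective h
  let b := Module.Free.chooseBasis ℤ L
  have h2 := congrArg (Algebra.TensorProduct.basis K b).repr h1
  rw [Algebra.TensorProduct.basis_repr_tmul, Algebra.TensorProduct.basis_repr_tmul, one_smul, one_smul] at h2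
  refine b.repr.injective (Finsupp.ext fun i => ?_)
  have h3 := DFunLike.congr_fun h2 i
  rw [Finsupp.mapRange_apply, Finsupp.mapRange_apply] at h3
  exact (algebraMap ℤ K).injective_int h3

theorem sigma_thirty : (σ ^ 30 : K ≃ₐ[ℚ] K) = 1 := by
  have hgal : IsGalois ℚ K := IsCyclotomicExtension.isGalois {31} ℚ K
  have h1 : Nat.card (K ≃ₐ[ℚ] K) = 30 := by
    rw [IsGalois.card_aut_eq_finrank, IsCyclotomicExtension.Rat.finrank 31 K]
    exact Nat.totient_prime (by norm_num)
  rw [← h1]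
  exact pow_card_eq_one'

/-- The automorphism `t` of order 30 from the stability under `σ`. -/
theorem exists_t {f : K ⊗[ℤ] L ≃ₗ⁅K⁆ Chev K} (hs : ∀ y : L, ∃ z : L, f (1 ⊗ₜ z) = map (σ : K →+* K) (f (1 ⊗ₜ y))) :
    ∃ t : AutL L, ∀ y : L, f (1 ⊗ₜ t.1 y) = map (σ : K →+* K) (f (1 ⊗ₜ y)) := by
  choose t ht using hs
  have hadd : ∀ x y, t (x + y) = t x + t y := by
    intro x y
    apply emb_injective f
    rw [ht, TensorProduct.tmul_add, _root_.map_add, Chev.map_add, TensorProduct.tmul_add, _root_.map_add, ht, ht]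
  have hlie : ∀ x y, t ⁅x, y⁆ = ⁅t x, t y⁆ := by
    intro x y
    have hl : ∀ u v : L, f (1 ⊗ₜ ⁅u, v⁆) = ⁅f (1 ⊗ₜ u), f (1 ⊗ₜ v)⁆ := by
      intro u v
      rw [← LieEquiv.map_lie]
      congr 1
      simp
    apply emb_injective f
    rw [ht, hl, hl, map_lie, ht, ht]
  have hit : ∀ (n : ℕ) (x : L), f (1 ⊗ₜ t^[n] x) = map (((σ ^ n : K ≃ₐ[ℚ] K)) : K →+* K) (f (1 ⊗ₜ x)) := by
    intro n
    induction n with
    | zero => intro x; rfl
    | succ n ih =>
      intro x
      rw [Function.iterate_succ_apply', ht, ih]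
      ext i
      · change σ ((σ ^ n) _) = (σ ^ (n + 1)) _
        rw [pow_succ']
        rfl
      · change σ ((σ ^ n) _) = (σ ^ (n + 1)) _
        rw [pow_succ']
        rfl
  have h30 : ∀ x, t^[30] x = x := by
    intro x
    apply emb_injective f
    rw [hit, sigma_thirty]
    rfl
  have hbij : Function.Bijective t := by
    constructor
    · intro x y hxy
      rw [← h30 x, ← h30 y, Function.iterate_succ_apply t 29 x, Function.iterate_succ_apply t 29 y, hxy]
    · intro x
      exact ⟨t^[29] x, by rw [← Function.iterate_succ_apply' t 29 x]; exact h30 x⟩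
  let t0 : L →+ L := AddMonoidHom.mk' t hadd
  let t1 : L ≃+ L := AddEquiv.ofBijective t0 hbij
  exact ⟨⟨t1.toIntLinearEquiv, fun x y => hlie x y⟩, fun y => ht y⟩

/-- The data of the endgame, together with the facts which determine the lattice (`Helper64.E8C.mem_iff`). -/
theorem exists_core (hL : IsLat L B) (hirr : Irr L) : ∃ C : Ez.Core L B, IsL (lam C.f) ∧ C.η = et := by
  obtain ⟨g, hg, hg1⟩ := exists_g hL hirr
  obtain ⟨f, hfg, hTT, h0⟩ := exists_std hL g hg hg1 Pool.Agent.Helper64.E8C.et_lift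
  have hI := isL_of hL hfg h0 hTT
  obtain ⟨t, ht⟩ := exists_t (f := f) (fun y => by
    have h1 := Pool.Agent.Helper64.E8C.sigma_mem hI (y := f (1 ⊗ₜ y)) ⟨y, rfl⟩
    exact h1)
  refine ⟨{ hL := hL
            f := f
            g := ofLie g
            t := t
            η := et
            hη := Pool.Agent.Helper64.E8C.et_lift
            hg := hfg
            ht := ht
            hσ := fun z => ?_
            bf := fun x y => ?_
            conv := fun y hh hx hy => ?_ }, hI, rfl⟩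
  · have h1 := TT_one hTT (f z)
    unfold TT at h1
    rw [f.symm_apply_apply] at h1
    exact h1
  · rw [bf_f hL, neg_neg]
  · obtain ⟨n, z, hz⟩ := exists_of_fixed hL hfg h0 hTT y (fun a => ⟨0, by rw [pow_zero, one_mul]; exact hx a⟩)
      (fun i => ⟨0, by rw [pow_zero, one_mul]; exact hh i⟩) hy
    exact ⟨n, z, hz⟩

end Pool.Agent.Helper73.E8
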