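import Pool.Agent.Helper73.E8.Isom

/-!
# Block E8-CP: an isometry which multiplies a functional modulo 31 by 3 satisfies `Φ_30`

Let `w` be an isometry of the E8 lattice, `r ≠ 0` a homomorphism to `Z/31` with `r (w x) = 3 r x`. Then
`Φ_30(w) = 0`, `Φ_30 = X^8 + X^7 - X^5 - X^4 - X^3 + X + 1`.

Proof. Let `A` be the 8 x 8 integer matrix of `w`. (1) `w` has finite order `N > 0`: it permutes the finite set `Root`
(`onRoot`), some power of this permutation is trivial, and the simple roots generate (`lat_hom_ext`).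
(2) Let `p` be the characteristic polynomial of `A`: monic of degree 8, `p(A) = 0` (Cayley-Hamilton), so
`0 = r (p(w) x) = p(3) r x` in `Z/31` for all `x`, hence `p(3) = 0` in `Z/31` (a field, `r ≠ 0`).
(3) Over `Q` (or `Z`) every irreducible factor of `p` divides the minimal polynomial of `A`, which divides
`X^N - 1 = ∏_{d ∣ N} Φ_d` (`Polynomial.prod_cyclotomic_eq_X_pow_sub_one`), so `p` is a product of cyclotomic polynomials
`Φ_d` (irreducible: `Polynomial.cyclotomic.irreducible_rat`), each of degree `φ(d) ≤ 8`. One of them has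
`Φ_d(3) = 0` in `Z/31`. As `φ(d) ≤ 8`, `31 ∤ d` (31 ∣ d would give `30 ∣ φ(d)`), so 3 is a primitive `d`-th root of unity
in `Z/31` (`Polynomial.isRoot_cyclotomic_iff`), and 3 has order 30 in `(Z/31)^*` (`decide`): `d = 30`. As `Φ_30` is monic of
degree 8 and divides the monic `p` of degree 8, `p = Φ_30`, and `Φ_30(A) = 0`.
(Alternative for (3): only `Φ_d ∣ minpoly` is needed for one `d`, then degree comparison.)
`Φ_30` explicitly: `X^8 + X^7 - X^5 - X^4 - X^3 + X + 1`, e.g. from
`Φ_30 * (X^5 + 1) * (X^3 + 1) = (X^15 + 1) * (X + 1)` or via `Polynomial.cyclotomic_prime_mul...` or from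
`X^15 + 1 = Φ_2 Φ_6 Φ_10 Φ_30`.
-/

set_option autoImplicit false

namespace Pool.Agent.Helper73.E8

open Polynomial

/-- The endomorphism. -/
private def fE (w : Lat ≃+ Lat) : Module.End ℤ Lat := w.toAddMonoidHom.toIntLinearMap

private theorem fE_pow (w : Lat ≃+ Lat) (k : ℕ) (x : Lat) : (fE w ^ k) x = w^[k] x := by
  rw [Module.End.pow_apply]
  rfl

private theorem r_iter {w : Lat ≃+ Lat} {r : Lat →+ ZMod 31} (h : ∀ x, r (w x) = 3 * r x) (k : ℕ) (x : Lat) :
    r (w^[k] x) = 3 ^ k * r x := by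
  induction k with
  | zero => simp
  | succ n ih => rw [Function.iterate_succ_apply', h, ih, pow_succ']; ring

private theorem r_aeval {w : Lat ≃+ Lat} {r : Lat →+ ZMod 31} (h : ∀ x, r (w x) = 3 * r x) (q : ℤ[X]) (x : Lat) :
    r (aeval (fE w) q x) = eval₂ (Int.castRingHom (ZMod 31)) 3 q * r x := by
  induction q using Polynomial.induction_on' with
  | add p q hp hq => rw [map_add, LinearMap.add_apply, map_add, hp, hq, eval₂_add, add_mul]
  | monomial n a =>
    rw [aeval_monomial, eval₂_monomial, Module.End.mul_apply, fE_pow, Module.algebraMap_end_apply, map_zsmul,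
      r_iter h, zsmul_eq_mul, eq_intCast, mul_assoc]

private theorem onRoot_iter (w : Lat ≃+ Lat) (hw : IsIsom w) (k : ℕ) (a : Root) :
    ((onRoot w hw ^ k : Equiv.Perm Root) a).1 = w^[k] a.1 := by
  induction k with
  | zero => simp
  | succ n ih => rw [pow_succ', Equiv.Perm.mul_apply, onRoot_val, ih, Function.iterate_succ_apply']

private theorem exists_order (w : Lat ≃+ Lat) (hw : IsIsom w) : ∃ N : ℕ, 0 < N ∧ fE w ^ N = 1 := by
  refine ⟨orderOf (onRoot w hw : Equiv.Perm Root), orderOf_pos _, ?_⟩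
  have h : (fE w ^ orderOf (onRoot w hw : Equiv.Perm Root)).toAddMonoidHom = AddMonoidHom.id Lat := by
    refine lat_hom_ext _ _ fun i => ?_
    have h1 := onRoot_iter w hw (orderOf (onRoot w hw : Equiv.Perm Root)) (sr i)
    rw [pow_orderOf_eq_one] at h1
    show (fE w ^ _) (al i) = al i
    rw [fE_pow]
    exact h1.symm
  exact LinearMap.ext fun x => DFunLike.congr_fun h x

/-- The rational matrix. -/
private noncomputable def Aq (w : Lat ≃+ Lat) : Matrix (Fin 8) (Fin 8) ℚ :=
  (LinearMap.toMatrixAlgEquiv' (fE w)).map (Int.castRingHom ℚ)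

private theorem aeval_Aq (w : Lat ≃+ Lat) (q : ℤ[X]) :
    aeval (Aq w) (q.map (Int.castRingHom ℚ)) = 0 ↔ aeval (fE w) q = 0 := by
  have h1 : aeval (Aq w) (q.map (Int.castRingHom ℚ)) =
      (LinearMap.toMatrixAlgEquiv' (aeval (fE w) q)).map (Int.castRingHom ℚ) := by
    rw [← Polynomial.aeval_algHom_apply (LinearMap.toMatrixAlgEquiv' : _ ≃ₐ[ℤ] _) (fE w) q]
    rw [← RingHom.mapMatrix_apply, aeval_def, aeval_def, hom_eval₂, eval₂_map]
    exact congrArg (fun g => eval₂ g (Aq w) q) (Subsingleton.elim _ _)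
  rw [h1]
  constructor
  · intro h
    have h2 : (LinearMap.toMatrixAlgEquiv' (aeval (fE w) q)) = 0 := by
      ext i j
      have := congrFun (congrFun h i) j
      rw [Matrix.map_apply] at this
      simpa using this
    simpa using h2
  · intro h
    rw [h, map_zero]
    ext i j
    simp

private theorem ord3 : orderOf (3 : ZMod 31) = 30 := by
  rw [orderOf_eq_iff (by norm_num)]
  refine ⟨by decide, ?_⟩
  decide

private theorem totient_le {d : ℕ} (hd : 0 < d) (h : 30 ∣ d) (h8 : d.totient ≤ 8) : d = 30 := by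
  obtain ⟨k, rfl⟩ := h
  rcases Nat.lt_or_ge 1 k with hk | hk
  · exfalso
    obtain ⟨p, hp, hpk⟩ := Nat.exists_prime_and_dvd (by omega : k ≠ 1)
    obtain ⟨l, rfl⟩ := hpk
    have h1 : (p * 30).totient ∣ (30 * (p * l)).totient := Nat.totient_dvd_of_dvd ⟨l, by ring⟩
    have h2 : (p * 30).totient ≤ 8 := le_trans (Nat.le_of_dvd (Nat.totient_pos.2 hd) h1) h8
    have h30 : (30 : ℕ).totient = 8 := by decide
    by_cases hp30 : p ∣ 30
    · rw [Nat.totient_mul_of_prime_of_dvd hp hp30, h30] at h2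
      have := hp.two_le
      omega
    · rw [Nat.totient_mul_of_prime_of_not_dvd hp hp30, h30] at h2
      have := hp.two_le
      have h3 : p = 2 := by omega
      exact hp30 (h3 ▸ by norm_num)
  · have : k = 1 := by
      rcases Nat.eq_zero_or_pos k with h0 | h0
      · subst h0; simp at hd
      · omega
    rw [this]

private theorem cyc30 : cyclotomic 30 ℤ = X ^ 8 + X ^ 7 - X ^ 5 - X ^ 4 - X ^ 3 + X + 1 := by
  have h1 : expand ℤ 5 (cyclotomic 6 ℤ) = cyclotomic 30 ℤ * cyclotomic 6 ℤ :=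
    cyclotomic_expand_eq_cyclotomic_mul (by norm_num) (by norm_num) ℤ
  rw [cyclotomic_six] at h1
  simp only [map_add, map_sub, map_pow, expand_X, map_one] at h1
  have h2 : (X ^ 2 - X + 1 : ℤ[X]) ≠ 0 := by
    rw [← cyclotomic_six]
    exact cyclotomic_ne_zero 6 ℤ
  refine mul_right_cancel₀ h2 ?_
  rw [← h1]
  ring

theorem phi30 (w : Lat ≃+ Lat) (hw : IsIsom w) (r : Lat →+ ZMod 31) (hr : r ≠ 0) (h : ∀ x, r (w x) = 3 * r x)
    (x : Lat) : w^[8] x + w^[7] x - w^[5] x - w^[4] x - w^[3] x + w x + x = 0 := by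
  classical
  obtain ⟨N, hN, hfN⟩ := exists_order w hw
  obtain ⟨y, hy⟩ : ∃ y, r y ≠ 0 := by
    by_contra hc
    push Not at hc
    exact hr (AddMonoidHom.ext hc)
  have key : ∀ q : ℤ[X], aeval (fE w) q = 0 → eval₂ (Int.castRingHom (ZMod 31)) 3 q = 0 := by
    intro q hq
    have h1 := r_aeval h q y
    rw [hq, LinearMap.zero_apply, map_zero] at h1
    have : Fact (Nat.Prime 31) := ⟨by norm_num⟩
    rcases mul_eq_zero.1 h1.symm with h2 | h2
    · exact h2
    · exact absurd h2 hy
  set m : ℚ[X] := minpoly ℚ (Aq w) with hm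
  have hint : IsIntegral ℚ (Aq w) := Matrix.isIntegral _
  set S := N.divisors.filter fun d => cyclotomic d ℚ ∣ m with hS
  set M : ℤ[X] := ∏ d ∈ S, cyclotomic d ℤ with hM
  have hmN : m ∣ X ^ N - 1 := by
    refine minpoly.dvd ℚ _ ?_
    have h1 : aeval (Aq w) ((X ^ N - 1 : ℤ[X]).map (Int.castRingHom ℚ)) = 0 := by
      rw [aeval_Aq]
      simp [hfN]
    simpa using h1
  have hmM : m ∣ M.map (Int.castRingHom ℚ) := by
    have h1 : (X ^ N - 1 : ℚ[X]) = M.map (Int.castRingHom ℚ) *
        ∏ d ∈ N.divisors.filter (fun d => ¬ cyclotomic d ℚ ∣ m), cyclotomic d ℚ := by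
      rw [← prod_cyclotomic_eq_X_pow_sub_one hN, hM, Polynomial.map_prod]
      rw [← Finset.prod_filter_mul_prod_filter_not N.divisors fun d => cyclotomic d ℚ ∣ m]
      congr 1
      exact Finset.prod_congr rfl fun d _ => (map_cyclotomic_int d ℚ).symm
    rw [h1] at hmN
    refine IsCoprime.dvd_of_dvd_mul_right ?_ hmN
    refine IsCoprime.prod_right fun d hd => ?_
    rw [Finset.mem_filter] at hd
    have hirr : Irreducible (cyclotomic d ℚ) :=
      cyclotomic.irreducible_rat (Nat.pos_of_mem_divisors hd.1)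
    exact ((hirr.coprime_iff_not_dvd).2 hd.2).symm
  have hMf : aeval (fE w) M = 0 := by
    rw [← aeval_Aq]
    obtain ⟨c, hc⟩ := hmM
    rw [hc, map_mul, minpoly.aeval, zero_mul]
  have hM3 := key M hMf
  obtain ⟨d, hdS, hd3⟩ : ∃ d ∈ S, eval₂ (Int.castRingHom (ZMod 31)) 3 (cyclotomic d ℤ) = 0 := by
    have : Fact (Nat.Prime 31) := ⟨by norm_num⟩
    rw [hM, eval₂_finsetProd, Finset.prod_eq_zero_iff] at hM3
    exact hM3
  rw [Finset.mem_filter] at hdS
  have hdpos : 0 < d := Nat.pos_of_mem_divisors hdS.1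
  have h3d : (3 : ZMod 31) ^ d = 1 := by
    obtain ⟨c, hc⟩ := cyclotomic.dvd_X_pow_sub_one d ℤ
    have h1 := congrArg (eval₂ (Int.castRingHom (ZMod 31)) 3) hc
    rw [eval₂_mul, hd3, zero_mul] at h1
    simp only [eval₂_sub, eval₂_pow, eval₂_X, eval₂_one] at h1
    exact sub_eq_zero.1 h1
  have h30 : 30 ∣ d := ord3 ▸ orderOf_dvd_of_pow_eq_one h3d
  have hmc : m ∣ (Aq w).charpoly := Matrix.minpoly_dvd_charpoly _
  have hcyc : cyclotomic d ℚ ∣ (Aq w).charpoly := hdS.2.trans hmc
  have hmon : (Aq w).charpoly.Monic := Matrix.charpoly_monic _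
  have hdeg : (Aq w).charpoly.natDegree = 8 := by
    rw [Matrix.charpoly_natDegree_eq_dim, Fintype.card_fin]
  have hphi : d.totient ≤ 8 := by
    rw [← natDegree_cyclotomic d ℚ, ← hdeg]
    exact natDegree_le_of_dvd hcyc hmon.ne_zero
  have hd30 : d = 30 := totient_le hdpos h30 hphi
  subst hd30
  have heq : (Aq w).charpoly = cyclotomic 30 ℚ := by
    refine eq_of_monic_of_dvd_of_natDegree_le (cyclotomic.monic 30 ℚ) hmon hcyc ?_
    rw [hdeg, natDegree_cyclotomic]
    decide
  have hfin : aeval (fE w) (cyclotomic 30 ℤ) = 0 := by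
    rw [← aeval_Aq, map_cyclotomic_int, ← heq]
    exact Matrix.aeval_self_charpoly _
  rw [cyc30] at hfin
  have h2 := LinearMap.congr_fun hfin x
  simp only [map_add, map_sub, map_pow, aeval_X, map_one, LinearMap.add_apply, LinearMap.sub_apply, fE_pow,
    LinearMap.zero_apply, Module.End.one_apply] at h2
  exact h2

end Pool.Agent.Helper73.E8
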