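import Pool.Agent.Helper73.E8.Kill

/-!
# Block E8-FORM: forms of the E8 Lie algebra over Z: the unimodular form `B`, base change

`L` is a Lie ring, free of finite rank over `Z`, and `f : R ⊗ L ≃ Chev R` for a faithfully flat ring `R`.

* `exists_baseChange`: define `f'` on `S ⊗[ℤ] L` by `s ⊗ x ↦ s • map (algebraMap R S) (f (1 ⊗ x))`; it is a homomorphism of Lie
  algebras over `S`. Bijective: take a `Z`-basis `b_i` of `L`; `f (1 ⊗ b_i)` is an `R`-basis of `Chev R` and its images
  under `map` form an `S`-basis of `Chev S` (the matrix of coordinates is the image of an invertible matrix), so `f'` maps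
  the basis `1 ⊗ b_i` to a basis.
* `exists_form`: `killingForm R (R ⊗ L)` is the base change of `killingForm ℤ L` (`LieAlgebra.killingForm`,
  `LieModule.traceForm_baseChange` in `Mathlib/Algebra/Lie/TraceForm.lean`) and corresponds under `f` to the Killing form of `Chev R`,
  which is `60 bf` (`killingForm_eq`; the Killing form is invariant under isomorphisms). So
  `(κ_L(x, y) : R) = 60 * bf (f (1 ⊗ x)) (f (1 ⊗ y)) ∈ 60 R`. `R` is faithfully flat over `Z`, so `60 R ∩ Z = 60 Z`
  (`Ideal.comap_map_eq_self_of_faithfullyFlat` or similar): `60 ∣ κ_L(x, y)`. Put `B = - κ_L / 60`. (`R` is torsion free over `Z`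
  (flat), so `(B (x, y) : R) = - bf (f (1 ⊗ x)) (f (1 ⊗ y))`.)
  `B` is bijective `L → Dual L`: its base change to `R` is bijective because `bf` is perfect (`bf_perfect`), and `R` is
  faithfully flat (or: the determinant of the Gram matrix of `B` in a basis is an integer which is a unit in `R`, hence
  `± 1`: if a prime `p` divided it, `p` would be a unit in `R`, `R/pR = R ⊗ Z/p = 0`, contradiction).
* `finrank_L`: `Module.finrank R (R ⊗ L) = Module.finrank ℤ L` (`Module.finrank_baseChange`) and `finrank_eq`.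
-/

set_option autoImplicit false

open scoped TensorProduct

namespace Pool.Agent.Helper73.E8

namespace Chev

variable {R S : Type*} [CommRing R] [CommRing S]

/-- Change of the coefficients. -/
def map (τ : R →+* S) (y : Chev R) : Chev S := ⟨fun i => τ (y.h i), fun a => τ (y.x a)⟩

theorem map_add (τ : R →+* S) (y z : Chev R) : map τ (y + z) = map τ y + map τ z := by
  ext <;> simp [map]

theorem map_smul (τ : R →+* S) (r : R) (y : Chev R) : map τ (r • y) = τ r • map τ y := by
  ext <;> simp [map]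

private theorem map_pr68 (τ : R →+* S) (h : Fin 8 → R) (v : Lat) : τ (pr h v) = pr (fun i => τ (h i)) v := by
  simp only [pr, map_sum, map_mul, map_intCast]

theorem map_lie (τ : R →+* S) (y z : Chev R) : map τ ⁅y, z⁆ = ⁅map τ y, map τ z⁆ := by
  ext i
  · simp only [map, brk_h, map_neg, map_sum, map_mul, map_intCast]
  · simp only [map, brk_x, _root_.map_add, map_sub, map_mul, map_pr68, map_sum]
    refine congrArg₂ (· + ·) rfl (Finset.sum_congr rfl fun a _ => Finset.sum_congr rfl fun b _ => ?_)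
    split_ifs
    · simp only [map_mul, map_intCast]
    · simp only [map_zero]

theorem map_bf (τ : R →+* S) (y z : Chev R) : bf (map τ y) (map τ z) = τ (bf y z) := by
  simp only [bf, map, map_sub, map_sum, map_mul, map_intCast]

private theorem basis_repr_inl68 (y : Chev R) (i : Fin 8) : basis.repr y (Sum.inl i) = y.h i := by
  simp [basis, lin, toProd]

private theorem basis_repr_inr68 (y : Chev R) (a : Root) : basis.repr y (Sum.inr a) = y.x a := by
  simp [basis, lin, toProd]

private noncomputable def bcEquiv68 (R S : Type*) [CommRing R] [CommRing S] [Algebra R S] :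
    S ⊗[R] Chev R ≃ₗ[S] Chev S :=
  ((basis (R := R)).baseChange S).equiv (basis (R := S)) (Equiv.refl _)

private theorem bcEquiv68_tmul [Algebra R S] (y : Chev R) :
    bcEquiv68 R S (1 ⊗ₜ[R] y) = map (algebraMap R S) y := by
  apply (basis (R := S)).repr.injective
  have h1 : (basis (R := S)).repr (bcEquiv68 R S (1 ⊗ₜ[R] y)) = ((basis (R := R)).baseChange S).repr (1 ⊗ₜ[R] y) := by
    unfold bcEquiv68
    simp [Module.Basis.equiv]
  rw [h1]
  ext i
  rw [Module.Basis.baseChange_repr_tmul]
  rcases i with i | a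
  · rw [basis_repr_inl68, basis_repr_inl68]
    simp [map, Algebra.smul_def]
  · rw [basis_repr_inr68, basis_repr_inr68]
    simp [map, Algebra.smul_def]

end Chev

open Chev

variable (L : Type) [LieRing L] [Module.Free ℤ L] [Module.Finite ℤ L]

theorem exists_baseChange {R S : Type} [CommRing R] [CommRing S] [Algebra R S] (f : R ⊗[ℤ] L ≃ₗ⁅R⁆ Chev R) :
    ∃ f' : S ⊗[ℤ] L ≃ₗ⁅S⁆ Chev S, ∀ x : L, f' (1 ⊗ₜ x) = map (algebraMap R S) (f (1 ⊗ₜ x)) := by
  classical
  let bL := Module.Free.chooseBasis ℤ L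
  let bR : Module.Basis _ R (Chev R) := (bL.baseChange R).map f.toLinearEquiv
  let bR' : Module.Basis _ S (Chev S) := (bR.baseChange S).map (bcEquiv68 R S)
  let g : S ⊗[ℤ] L ≃ₗ[S] Chev S := (bL.baseChange S).equiv bR' (Equiv.refl _)
  let g1 : L →+ Chev S :=
    { toFun := fun x => g (1 ⊗ₜ x)
      map_zero' := by simp
      map_add' := fun x y => by simp [TensorProduct.tmul_add] }
  let g2 : L →+ Chev S :=
    { toFun := fun x => map (algebraMap R S) (f (1 ⊗ₜ x))
      map_zero' := by
        rw [TensorProduct.tmul_zero, map_zero f]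
        ext <;> simp [map]
      map_add' := fun x y => by
        rw [TensorProduct.tmul_add, _root_.map_add f, Chev.map_add] }
  have hg12 : g1.toIntLinearMap = g2.toIntLinearMap := by
    refine bL.ext fun i => ?_
    change g (1 ⊗ₜ bL i) = map (algebraMap R S) (f (1 ⊗ₜ bL i))
    have h1 : g (1 ⊗ₜ bL i) = bR' i := by
      have h2 : (1 : S) ⊗ₜ[ℤ] bL i = bL.baseChange S i := by simp
      rw [h2]
      simp only [g, Module.Basis.equiv_apply, Equiv.refl_apply]
    rw [h1]
    change bcEquiv68 R S (bR.baseChange S i) = _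
    rw [Module.Basis.baseChange_apply, bcEquiv68_tmul]
    congr 1
    change f.toLinearEquiv (bL.baseChange R i) = _
    rw [Module.Basis.baseChange_apply]
    rfl
  have hg : ∀ x : L, g (1 ⊗ₜ x) = map (algebraMap R S) (f (1 ⊗ₜ x)) := fun x =>
    congrArg (fun h : L →ₗ[ℤ] Chev S => h x) hg12
  clear_value g
  clear hg12 g1 g2
  have hs : ∀ (s : S) (x : L), g (s ⊗ₜ x) = s • map (algebraMap R S) (f (1 ⊗ₜ x)) := by
    intro s x
    rw [← hg, ← _root_.map_smul g, TensorProduct.smul_tmul', smul_eq_mul, mul_one]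
  have lz : ∀ z : S ⊗[ℤ] L, ⁅z, (0 : S ⊗[ℤ] L)⁆ = 0 := fun z => lie_zero z
  have la : ∀ z w w' : S ⊗[ℤ] L, ⁅z, w + w'⁆ = ⁅z, w⁆ + ⁅z, w'⁆ := fun z w w' => lie_add z w w'
  have hf : ∀ z w : R ⊗[ℤ] L, f ⁅z, w⁆ = ⁅f z, f w⁆ := fun z w => LieHom.map_lie f.toLieHom z w
  have hlie : ∀ z w : S ⊗[ℤ] L, g ⁅z, w⁆ = ⁅g z, g w⁆ := by
    intro z w
    induction z using TensorProduct.induction_on with
    | zero => rw [zero_lie, map_zero g, zero_lie]
    | add z z' hz hz' => rw [add_lie, _root_.map_add g, _root_.map_add g, add_lie, hz, hz']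
    | tmul s x =>
      induction w using TensorProduct.induction_on with
      | zero => rw [lz, map_zero g, lie_zero]
      | add w w' hw hw' => rw [la, _root_.map_add g, _root_.map_add g, lie_add, hw, hw']
      | tmul t y =>
        rw [LieAlgebra.ExtendScalars.bracket_tmul, hs, hs, hs, smul_lie, lie_smul, ← map_lie, smul_smul]
        congr 2
        have h1 : (1 : R) ⊗ₜ[ℤ] ⁅x, y⁆ = ⁅(1 : R) ⊗ₜ[ℤ] x, (1 : R) ⊗ₜ[ℤ] y⁆ := by
          rw [LieAlgebra.ExtendScalars.bracket_tmul, mul_one]
        rw [h1, hf]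
  let G : S ⊗[ℤ] L →ₗ⁅S⁆ Chev S := { toLinearMap := g.toLinearMap, map_lie' := @hlie }
  exact ⟨⟨G, g.symm, fun z => g.symm_apply_apply z, fun z => g.apply_symm_apply z⟩, hg⟩

theorem exists_form {R : Type} [CommRing R] [Module.FaithfullyFlat ℤ R] (f : R ⊗[ℤ] L ≃ₗ⁅R⁆ Chev R) :
    ∃ B : LinearMap.BilinForm ℤ L, (∀ x y, killingForm ℤ L x y = -60 * B x y) ∧ Function.Bijective B := by
  classical
  have key : ∀ x y : L, ((killingForm ℤ L x y : ℤ) : R) = 60 * bf (f (1 ⊗ₜ x)) (f (1 ⊗ₜ y)) := by
    intro x y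
    rw [← killingForm_eq, LieAlgebra.killingForm_of_equiv_apply]
    have h1 : killingForm R (R ⊗[ℤ] L) = (killingForm ℤ L).baseChange R := LieModule.traceForm_baseChange ℤ L L R
    rw [h1, LinearMap.BilinForm.baseChange_tmul]
    simp
  have hdvd : ∀ x y : L, (60 : ℤ) ∣ killingForm ℤ L x y := by
    intro x y
    rw [← Ideal.mem_span_singleton, ← Ideal.comap_map_eq_self_of_faithfullyFlat (B := R) (Ideal.span {(60 : ℤ)}),
      Ideal.mem_comap, Ideal.map_span, Set.image_singleton, Ideal.mem_span_singleton]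
    refine ⟨bf (f (1 ⊗ₜ x)) (f (1 ⊗ₜ y)), ?_⟩
    rw [algebraMap_int_eq, eq_intCast, key]
    simp
  let B : LinearMap.BilinForm ℤ L := LinearMap.mk₂ ℤ (fun x y => -(killingForm ℤ L x y / 60))
    (fun x x' y => by
      rw [_root_.map_add, LinearMap.add_apply, Int.add_ediv_of_dvd_left (hdvd x y), neg_add])
    (fun n x y => by
      rw [_root_.map_smul, LinearMap.smul_apply, smul_eq_mul, smul_eq_mul, Int.mul_ediv_assoc _ (hdvd x y), mul_neg])
    (fun x y y' => by
      rw [_root_.map_add, Int.add_ediv_of_dvd_left (hdvd x y), neg_add])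
    (fun n x y => by
      rw [_root_.map_smul, smul_eq_mul, smul_eq_mul, Int.mul_ediv_assoc _ (hdvd x y), mul_neg])
  have hB : ∀ x y : L, killingForm ℤ L x y = -60 * B x y := by
    intro x y
    have h1 : B x y = -(killingForm ℤ L x y / 60) := rfl
    have h2 := Int.mul_ediv_cancel' (hdvd x y)
    rw [h1]
    linarith
  have hBR : ∀ x y : L, ((B x y : ℤ) : R) = -bf (f (1 ⊗ₜ x)) (f (1 ⊗ₜ y)) := by
    intro x y
    have h1 := key x y
    rw [hB] at h1
    have h2 : IsSMulRegular R (60 : ℤ) :=
      Module.Flat.isSMulRegular_of_nonZeroDivisors (mem_nonZeroDivisors_of_ne_zero (by norm_num))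
    apply h2
    simp only [zsmul_eq_mul]
    push_cast at h1 ⊢
    linear_combination -h1
  refine ⟨B, hB, ?_⟩
  let bL := Module.Free.chooseBasis ℤ L
  let bR : Module.Basis _ R (Chev R) := (bL.baseChange R).map f.toLinearEquiv
  have hbR : ∀ i, bR i = f (1 ⊗ₜ bL i) := by
    intro i
    change f.toLinearEquiv (bL.baseChange R i) = _
    rw [Module.Basis.baseChange_apply]
    rfl
  have hM : (Int.castRingHom R).mapMatrix (LinearMap.toMatrix bL bL.dualBasis B) =
      -LinearMap.toMatrix bR bR.dualBasis (bfL : LinearMap.BilinForm R (Chev R)) := by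
    ext i j
    rw [RingHom.mapMatrix_apply, Matrix.map_apply, Matrix.neg_apply, LinearMap.toMatrix_apply, LinearMap.toMatrix_apply,
      Module.Basis.dualBasis_repr, Module.Basis.dualBasis_repr, eq_intCast, hBR, bfL_apply, hbR, hbR]
  have hunitR : IsUnit (LinearMap.toMatrix bR bR.dualBasis (bfL : LinearMap.BilinForm R (Chev R))).det :=
    LinearEquiv.isUnit_det (LinearEquiv.ofBijective _ (bf_perfect (R := R))) bR bR.dualBasis
  have hunit : IsUnit (LinearMap.toMatrix bL bL.dualBasis B).det := by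
    refine isUnit_of_map_unit (algebraMap ℤ R) _ ?_
    rw [algebraMap_int_eq, RingHom.map_det, hM, Matrix.det_neg]
    exact ((isUnit_one.neg).pow _).mul hunitR
  have h1 := (LinearEquiv.ofIsUnitDet hunit).bijective
  exact h1

theorem finrank_L {R : Type} [CommRing R] [Nontrivial R] (f : R ⊗[ℤ] L ≃ₗ⁅R⁆ Chev R) : Module.finrank ℤ L = 248 := by
  rw [← Module.finrank_baseChange (R := R) (S := ℤ) (M' := L), LinearEquiv.finrank_eq f.toLinearEquiv, finrank_eq]

end Pool.Agent.Helper73.E8
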