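import Pool.Agent.Helper73.E8.Ct

/-!
# Block E8-LINE: Galois stable lines contain rational vectors

`Ω/K` a Galois extension (possibly infinite), `M` a Lie ring, free of finite rank over `Z`, `u ∈ Ω ⊗ M` non-zero with `(τ ⊗ 1) u ∈ Ω u` for
all `τ ∈ Gal(Ω/K)`. Then `c u = ` image of some `x ∈ K ⊗ M`, for some `c ≠ 0`.
Proof. Take a `Z`-basis `b_i` of `M`; `u = ∑ u_i ⊗ b_i`, some `u_i ≠ 0`; replace `u` by `u_i^-1 u` (still `τ u = λ u` for some `λ`), so `u_i = 1`.
Then `τ u = λ u` and the `i`-th coordinate gives `λ = 1`. So all coordinates `u_j` are fixed by all `τ`, hence in `K`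
(`IsGalois.mem_bot_iff_fixed`, `InfiniteGalois` or `IsGalois.tfae`-like lemmas; for infinite extensions:
`IntermediateField.fixedField_fixingSubgroup` or `InfiniteGalois.fixedField_bot`, `IsGalois` of an algebraic closure in characteristic
0 is an instance). `fixed_vector`: the same with `λ = 1`.
-/

set_option autoImplicit false

open scoped TensorProduct

namespace Pool.Agent.Helper73.E8

private noncomputable def bs50 (A : Type) [CommRing A] (M : Type) [LieRing M] [Module.Free ℤ M] :
    Module.Basis (Module.Free.ChooseBasisIndex ℤ M) A (A ⊗[ℤ] M) :=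
  Algebra.TensorProduct.basis A (Module.Free.chooseBasis ℤ M)

private theorem bs50_cT {A A' : Type} [CommRing A] [CommRing A'] (M : Type) [LieRing M] [Module.Free ℤ M] (t : A →+* A')
    (y : A ⊗[ℤ] M) (i : Module.Free.ChooseBasisIndex ℤ M) :
    (bs50 A' M).repr (cT M t y) i = t ((bs50 A M).repr y i) := by
  induction y using TensorProduct.induction_on with
  | zero => simp only [map_zero, Finsupp.coe_zero, Pi.zero_apply]
  | tmul a x =>
    rw [cT_tmul, bs50, bs50, Algebra.TensorProduct.basis_repr_tmul, Algebra.TensorProduct.basis_repr_tmul,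
      Finsupp.smul_apply, Finsupp.smul_apply, Finsupp.mapRange_apply, Finsupp.mapRange_apply, smul_eq_mul, smul_eq_mul,
      map_mul]
    simp
  | add y z hy hz => simp only [map_add, Finsupp.coe_add, Pi.add_apply, hy, hz]

theorem fixed_vector {F E : Type} [Field F] [Field E] [Algebra F E] [IsGalois F E] (M : Type) [LieRing M] [Module.Free ℤ M]
    [Module.Finite ℤ M] (u : E ⊗[ℤ] M) (h : ∀ τ : E ≃ₐ[F] E, cT M (τ : E →+* E) u = u) :
    ∃ x : F ⊗[ℤ] M, cT M (algebraMap F E) x = u := by
  have h1 : ∀ i, ∃ a : F, algebraMap F E a = (bs50 E M).repr u i := by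
    intro i
    have := (InfiniteGalois.mem_range_algebraMap_iff_fixed (k := F) ((bs50 E M).repr u i)).2 fun f => by
      have h2 := bs50_cT M (f : E →+* E) u i
      rw [h f] at h2
      exact h2.symm
    exact this
  choose a ha using h1
  refine ⟨(bs50 F M).repr.symm (Finsupp.equivFunOnFinite.symm a), ?_⟩
  apply (bs50 E M).repr.injective
  ext i
  rw [bs50_cT, LinearEquiv.apply_symm_apply]
  exact ha i

theorem exists_rational_vector {F E : Type} [Field F] [Field E] [Algebra F E] [IsGalois F E] (M : Type) [LieRing M]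
    [Module.Free ℤ M] [Module.Finite ℤ M] (u : E ⊗[ℤ] M) (hu : u ≠ 0)
    (h : ∀ τ : E ≃ₐ[F] E, ∃ l : E, cT M (τ : E →+* E) u = l • u) :
    ∃ (l : E) (x : F ⊗[ℤ] M), l ≠ 0 ∧ cT M (algebraMap F E) x = l • u := by
  obtain ⟨i, hi⟩ : ∃ i, (bs50 E M).repr u i ≠ 0 := by
    by_contra hcon
    push Not at hcon
    apply hu
    apply (bs50 E M).repr.injective
    ext i
    rw [hcon i, map_zero, Finsupp.coe_zero, Pi.zero_apply]
  set c : E := (bs50 E M).repr u i with hc
  have hfix : ∀ τ : E ≃ₐ[F] E, cT M (τ : E →+* E) (c⁻¹ • u) = c⁻¹ • u := by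
    intro τ
    obtain ⟨l, hl⟩ := h τ
    have h1 := bs50_cT M (τ : E →+* E) u i
    rw [hl, map_smul, Finsupp.smul_apply, smul_eq_mul, ← hc] at h1
    rw [cT_smul, hl, smul_smul, map_inv₀, ← h1, mul_inv, mul_comm l⁻¹, mul_assoc]
    have hl0 : l ≠ 0 := by
      rintro rfl
      rw [zero_mul] at h1
      exact hi ((map_eq_zero (τ : E →+* E)).1 h1.symm)
    rw [inv_mul_cancel₀ hl0, mul_one]
  obtain ⟨x, hx⟩ := fixed_vector M (c⁻¹ • u) hfix
  exact ⟨c⁻¹, x, inv_ne_zero hi, hx⟩

/-- `F ⊗ M → E ⊗ M` is injective and maps `F`-linearly independent families to `E`-linearly independent ones. -/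
theorem cT_linearIndependent {F E : Type} [Field F] [Field E] [Algebra F E] (M : Type) [LieRing M] [Module.Free ℤ M]
    [Module.Finite ℤ M] {ι : Type*} (x : ι → F ⊗[ℤ] M) (hx : LinearIndependent F x) :
    LinearIndependent E fun i => cT M (algebraMap F E) (x i) := by
  have h1 : LinearIndependent F fun i => ⇑((bs50 F M).repr (x i)) :=
    hx.map' ((Finsupp.linearEquivFunOnFinite F F _).toLinearMap ∘ₗ (bs50 F M).repr.toLinearMap)
      (LinearMap.ker_eq_bot.2 ((Finsupp.linearEquivFunOnFinite F F _).injective.comp (bs50 F M).repr.injective))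
  have h2 := (linearIndependent_algebraMap_comp_iff (R := F) (S := E)).2 h1
  refine LinearIndependent.of_comp
    ((Finsupp.linearEquivFunOnFinite E E _).toLinearMap ∘ₗ (bs50 E M).repr.toLinearMap) ?_
  have h3 : (((Finsupp.linearEquivFunOnFinite E E _).toLinearMap ∘ₗ (bs50 E M).repr.toLinearMap) ∘
      fun i => cT M (algebraMap F E) (x i)) = fun i => algebraMap F E ∘ ⇑((bs50 F M).repr (x i)) := by
    funext j i
    exact bs50_cT M (algebraMap F E) (x j) i
  rw [h3]
  exact h2

end Pool.Agent.Helper73.E8
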