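import Pool.Agent.Helper73.E8.Form

/-!
# Block E8-SPANGEN: generation of the Chevalley algebra

A subset `N` of `Chev E`, closed under addition, multiplication by elements of the subfield `F`, and brackets, which
contains `e (sr i)`, `e (- sr i)`, `t (al i)`, contains `map (algebraMap F E) (Chev F)`. Proof: it contains all `e a`, by induction
on the height of a positive root (`root_pos_or_neg`, `exists_sub_simple`: `a = b + al i`, `[e b, e (sr i)] = ± e a`, so `e a ∈ N`
after multiplication with `± 1`), negative roots in the same way (`-a = -b + (-al i)`); then `decomp` and `c_eq_sum`.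
-/

set_option autoImplicit false

namespace Pool.Agent.Helper73.E8

open Chev

private theorem ht_al_sg (i : Fin 8) : ht (al i) = 1 := by
  unfold ht al
  rw [Finset.sum_eq_single i (fun k _ hk => by simp [hk]) (fun h => absurd (Finset.mem_univ _) h)]
  simp

private theorem sg_step {F E : Type} [Field F] [Field E] [Algebra F E] (N : Set (Chev E))
    (hsmul : ∀ (r : F), ∀ y ∈ N, algebraMap F E r • y ∈ N) (hlie : ∀ y ∈ N, ∀ z ∈ N, ⁅y, z⁆ ∈ N)
    {a b d : Root} (h : d.1 = a.1 + b.1) (ha : e a ∈ N) (hb : e b ∈ N) : e d ∈ N := by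
  have h1 := hsmul ((eps a.1 b.1 : ℤ) : F) _ (hlie _ ha _ hb)
  rw [lie_e_e_add h, map_intCast, smul_smul] at h1
  have h2 : ((eps a.1 b.1 : ℤ) : E) * ((eps a.1 b.1 : ℤ) : E) = 1 := by
    rw [← Int.cast_mul, ← Units.val_mul, Int.units_mul_self]
    simp
  rwa [h2, one_smul] at h1

theorem span_gen {F E : Type} [Field F] [Field E] [Algebra F E] (N : Set (Chev E)) (hadd : ∀ y ∈ N, ∀ z ∈ N, y + z ∈ N)
    (hsmul : ∀ (r : F), ∀ y ∈ N, algebraMap F E r • y ∈ N) (hlie : ∀ y ∈ N, ∀ z ∈ N, ⁅y, z⁆ ∈ N)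
    (h1 : ∀ i, e (sr i) ∈ N) (h2 : ∀ i, e (-sr i) ∈ N) (h3 : ∀ i, t (al i) ∈ N) (y : Chev F) : map (algebraMap F E) y ∈ N := by
  have h0 : (0 : Chev E) ∈ N := by
    have := hsmul 0 _ (h1 0)
    rwa [map_zero, zero_smul] at this
  have hsum : ∀ {ι : Type} (s : Finset ι) (f : ι → Chev E), (∀ i, f i ∈ N) → ∑ i ∈ s, f i ∈ N := by
    classical
    intro ι s f hf
    induction s using Finset.induction_on with
    | empty => simpa using h0
    | insert i s hi ih =>
      rw [Finset.sum_insert hi]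
      exact hadd _ (hf i) _ ih
  have hpos : ∀ (n : ℕ) (a : Root), ht a.1 = n + 1 → e a ∈ N ∧ e (-a) ∈ N := by
    intro n
    induction n with
    | zero =>
      intro a ha
      obtain ⟨i, rfl⟩ := root_of_ht_one a (by rw [ha]; norm_num)
      exact ⟨h1 i, h2 i⟩
    | succ n ih =>
      intro a ha
      obtain ⟨i, b, hb⟩ := exists_sub_simple a (by rw [ha]; push_cast; linarith [Int.natCast_nonneg n])
      have h5 : ht b.1 = n + 1 := by
        have h2 : ht a.1 = ht b.1 + ht (al i) := by rw [hb, ht_add]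
        rw [ht_al_sg, ha] at h2
        push_cast at h2
        linarith
      obtain ⟨h6, h7⟩ := ih b h5
      refine ⟨sg_step N hsmul hlie (b := sr i) hb h6 (h1 i), sg_step N hsmul hlie (b := -sr i) ?_ h7 (h2 i)⟩
      rw [neg_val, neg_val, neg_val, hb]
      change -(b.1 + al i) = -b.1 + -al i
      abel
  have hpos' : ∀ a : Root, (∀ i, 0 ≤ a.1 i) → e a ∈ N ∧ e (-a) ∈ N := by
    intro a ha
    have h1 : 0 ≤ ht a.1 := Finset.sum_nonneg fun i _ => ha i
    have h2 := ht_root_ne_zero a
    have h3 : 1 ≤ ht a.1 := by omega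
    exact hpos (ht a.1 - 1).toNat a (by rw [Int.toNat_of_nonneg (by omega)]; ring)
  have hall : ∀ a : Root, e a ∈ N := by
    intro a
    rcases root_pos_or_neg a with h | h
    · exact (hpos' a h).1
    · have h4 := (hpos' (-a) (fun i => by
        rw [neg_val, Pi.neg_apply]
        exact neg_nonneg.mpr (h i))).2
      rwa [neg_neg] at h4
  rw [decomp (map (algebraMap F E) y), c_eq_sum]
  refine hadd _ (hsum _ _ fun i => ?_) _ (hsum _ _ fun a => ?_)
  · exact hsmul (y.h i) _ (h3 i)
  · exact hsmul (y.x a) _ (hall a)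

end Pool.Agent.Helper73.E8
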