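import Pool.Agent.Helper73.E8.Gom
import Pool.Agent.Helper73.E8.Line
import Pool.Agent.Helper73.E8.SpanGen

/-!
# Block E8-GK: the element of order 31 over `K = ℚ(ζ)`

* `exists_kdata`. Let `D`, `f₂` be as in `exists_gom`. For `τ ∈ Gal(Ω/K)`: `T_τ = f₂ ∘ (τ ⊗ 1) ∘ f₂^-1 = mono τ w k` (`semi_of`), and
  `T_τ` commutes with `gz ζ` (`cT_cG`, `τ ζ = ζ`): on `e a`: `ζ^(ht (w a)) = ζ^(ht a)`, so `ht (w x) = ht x` mod 31 for roots, hence for all `x`, and
  `w = 1` (`dyn`). So `T_τ (t v) = t v`, `T_τ (e a) = k a e a`. By `exists_rational_vector` for `u = f₂^-1 (e a)`: for each root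
  `a` there are `x_a ∈ K ⊗ L` and `d_a ≠ 0` in `Ω` with `f₂ (ι x_a) = d_a e a` (`ι = cT (algebraMap K Ω)`); by `fixed_vector`
  `t v = f₂ (ι y_v)`. Let `u : Lat → Ω^*` be the homomorphism with `u (al i) = d_(sr i)^-1` and `f₃ = (mono 1 1 u) ∘ f₂`; then
  `f₃ (ι x_(sr i)) = e (sr i)`, `f₃ (ι y_v) = t v`, `f₃ (ι x_(-sr i)) = d' e (-sr i)`, `d' ≠ 0`, and the bracket of the last two
  types: `f₃ (ι [x_(sr i), x_(-sr i)]) = - d' t (al i) = - d' f₃ (ι y_(al i))`; `[x, x'] ∈ K ⊗ L` and `y ∈ K ⊗ L` are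
  proportional over `Ω`, so `d' ∈ K` (`cT_linearIndependent`: otherwise they are linearly independent over `K`... precisely: two
  vectors of `K ⊗ L` which are dependent over `Ω` are dependent over `K`). So `N = f₃ (ι (K ⊗ L))` contains `e (± sr i)`, `t (al i)`;
  `span_gen`: it contains `map (e a)`, `map (t v)`, hence `map (algebraMap K Ω) (Chev K)`. Every element of `Chev K` is
  `map^-1` of a unique `f₃ (ι x)`; dimensions (both 248 over `K`) give equality: `f (x) := ` the `y` with `map y = f₃ (ι x)` is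
  the wanted isomorphism (`f₃ ∘ ι` maps a `K`-basis of the preimage to a `K`-basis; or: the preimage of `map (Chev K)` in `K ⊗ L` has
  dimension 248 by `cT_linearIndependent`, so it is everything).
  `f (1 ⊗ g y) = gz ζ (f (1 ⊗ y))` because `mono 1 1 u` commutes with `gz ζ` and `map` is injective.
-/

set_option autoImplicit false

open scoped TensorProduct

namespace Pool.Agent.Helper73.E8

open Chev
open Pool.Agent.Helper2.E8A (K ζ σ)

section gen24

variable {F E : Type} [Field F] [Field E] [Algebra F E]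

private theorem gz_add24 (z : E) (y y' : Chev E) : gz z (y + y') = gz z y + gz z y' := by
  ext i
  · rfl
  · simp only [gz, add_x, Pi.add_apply, mul_add]

private theorem gz_smul24 (z r : E) (y : Chev E) : gz z (r • y) = r • gz z y := by
  ext i
  · rfl
  · simp only [gz, smul_x, Pi.smul_apply, smul_eq_mul]
    ring

private theorem gz_e24 (z : E) (a : Root) : gz z (e a : Chev E) = z ^ (ht a.1) • e a := by
  ext b
  · simp [gz]
  · simp only [gz, e_x, smul_x, Pi.smul_apply, smul_eq_mul]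
    by_cases hb : b = a
    · rw [hb]
    · rw [Pi.single_eq_of_ne hb, mul_zero, mul_zero]

private theorem map_gz24 (z : F) (y : Chev F) :
    map (algebraMap F E) (gz z y) = gz (algebraMap F E z) (map (algebraMap F E) y) := by
  ext i
  · rfl
  · simp only [gz, map, map_mul, map_zpow₀]

private theorem map_inj24 : Function.Injective (map (algebraMap F E)) := by
  intro y z h
  ext i
  · exact (algebraMap F E).injective (congrFun (congrArg Chev.h h) i)
  · exact (algebraMap F E).injective (congrFun (congrArg Chev.x h) i)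

private theorem onRoot_refl24 (a : Root) :
    (onRoot (AddEquiv.refl Lat) isIsom_refl).symm a = a := root_ext rfl

private theorem mono_refl24 (k : Root → E) (y : Chev E) :
    mono (RingHom.id E) (AddEquiv.refl Lat) isIsom_refl k y = ⟨y.h, fun a => k a * y.x a⟩ := by
  ext i
  · simp only [mono, RingHom.id_apply, AddEquiv.refl_apply, al]
    rw [Finset.sum_eq_single i]
    · simp
    · intro j _ hj
      simp [hj.symm]
    · simp
  · simp only [mono, RingHom.id_apply, onRoot_refl24]

private theorem zpow24 {z : E} (hz : IsPrimitiveRoot z 31) {a b : ℤ} (h : z ^ a = z ^ b) :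
    ((a : ℤ) : ZMod 31) = ((b : ℤ) : ZMod 31) := by
  have hz0 : z ≠ 0 := hz.ne_zero (by norm_num)
  have h1 : z ^ (b - a) = 1 := by rw [zpow_sub₀ hz0, h, div_self (zpow_ne_zero _ hz0)]
  exact (ZMod.intCast_eq_intCast_iff_dvd_sub a b 31).2 ((hz.zpow_eq_one_iff_dvd (b - a)).1 h1)

private theorem lat24 (φ ψ : Lat →+ ZMod 31) (h : ∀ i, φ (al i) = ψ (al i)) (x : Lat) :
    φ x = ψ x := by
  have h1 : x = ∑ j, x j • al j := by
    funext l
    rw [Finset.sum_apply, Finset.sum_eq_single l]
    · simp [al]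
    · intro j _ hj
      simp [al, hj.symm]
    · intro h
      exact absurd (Finset.mem_univ _) h
  rw [h1, map_sum, map_sum]
  exact Finset.sum_congr rfl fun j _ => by rw [map_zsmul, map_zsmul, h]

private theorem tau24 [CharZero E] {z : E} (hz : IsPrimitiveRoot z 31) {L : Type} [LieRing L]
    [Module.Free ℤ L] [Module.Finite ℤ L] (D : Submodule ℤ L) (hD : Module.finrank ℤ D = 8)
    (f : E ⊗[ℤ] L ≃ₗ⁅E⁆ Chev E) (hf : ∀ x ∈ D, (f (1 ⊗ₜ x)).x = 0) (g : L ≃ₗ⁅ℤ⁆ L)
    (hgz : ∀ y : L, f (1 ⊗ₜ g y) = gz z (f (1 ⊗ₜ y))) (τ : E ≃+* E) (hτ : τ z = z) :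
    (∀ v : Lat, f (cT L (τ : E →+* E) (f.symm (t v))) = t v) ∧
      ∀ a : Root, ∃ k : E, f (cT L (τ : E →+* E) (f.symm (e a))) = k • e a := by
  obtain ⟨w, hw, k, hk, hT⟩ := semi_of D hD f hf τ
  have hG : ∀ y : E ⊗[ℤ] L, f (cG E (g : L →ₗ⁅ℤ⁆ L) y) = gz z (f y) := by
    intro y
    induction y using TensorProduct.induction_on with
    | zero =>
      rw [map_zero, map_zero]
      ext i
      · rfl
      · simp [gz]
    | tmul a x =>
      have h1 : (a ⊗ₜ[ℤ] x : E ⊗[ℤ] L) = a • (1 ⊗ₜ[ℤ] x) := by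
        rw [TensorProduct.smul_tmul', smul_eq_mul, mul_one]
      have h2 : f (cG E (g : L →ₗ⁅ℤ⁆ L) (1 ⊗ₜ[ℤ] x)) = gz z (f (1 ⊗ₜ[ℤ] x)) := hgz x
      rw [h1, cG_smul, _root_.map_smul, _root_.map_smul, h2, gz_smul24]
    | add y y' hy hy' => rw [_root_.map_add, _root_.map_add, _root_.map_add, gz_add24, hy, hy']
  have hcomm : ∀ y : Chev E, mono (τ : E →+* E) w hw k (gz z y) =
      gz z (mono (τ : E →+* E) w hw k y) := by
    intro y
    have hs : f.symm (gz z y) = cG E (g : L →ₗ⁅ℤ⁆ L) (f.symm y) := by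
      refine f.injective (?_ : f _ = f _)
      rw [f.apply_symm_apply, hG, f.apply_symm_apply]
    rw [← hT, ← hT, hs, cT_cG, hG]
  have hk0 : ∀ a, k a ≠ 0 := fun a h0 => by
    have h1 := hk.neg a
    rw [h0, zero_mul] at h1
    exact zero_ne_one h1
  have hroot : ∀ a : Root, ((ht (w a.1) : ℤ) : ZMod 31) = ((ht a.1 : ℤ) : ZMod 31) := by
    intro a
    have h1 := hcomm (e a)
    rw [gz_e24, mono_smul, mono_e, gz_smul24, gz_e24] at h1
    have h2 := congrFun (congrArg Chev.x h1) (onRoot w hw a)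
    simp only [smul_x, Pi.smul_apply, smul_eq_mul, e_x, Pi.single_eq_same, mul_one,
      onRoot_val] at h2
    have h3 : (τ : E →+* E) (z ^ ht a.1) = z ^ ht a.1 := by
      rw [map_zpow₀]
      change (τ z) ^ ht a.1 = _
      rw [hτ]
    rw [h3, mul_comm] at h2
    exact (zpow24 hz (mul_left_cancel₀ (hk0 a) h2)).symm
  have hw1 : ∀ x, w x = x := by
    refine dyn w hw fun x => ?_
    exact lat24 ((Int.castAddHom (ZMod 31)).comp ((AddMonoidHom.mk' ht ht_add).comp
      w.toAddMonoidHom)) ((Int.castAddHom (ZMod 31)).comp (AddMonoidHom.mk' ht ht_add))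
      (fun i => hroot (sr i)) x
  refine ⟨fun v => ?_, fun a => ⟨k a, ?_⟩⟩
  · rw [hT, mono_t, hw1]
  · have h1 : onRoot w hw a = a := root_ext (hw1 a.1)
    rw [hT, mono_e, h1]

private theorem inj24 {L : Type} [LieRing L] [Module.Free ℤ L] [Module.Finite ℤ L] :
    Function.Injective (cT L (algebraMap F E)) := by
  rw [injective_iff_map_eq_zero]
  intro x hx
  by_contra h0
  have h1 : LinearIndependent F fun _ : Unit => x := linearIndependent_unique_iff.2 h0
  have h2 := (cT_linearIndependent (E := E) L _ h1).ne_zero ()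
  exact h2 hx

private theorem dep24 {L : Type} [LieRing L] [Module.Free ℤ L] [Module.Finite ℤ L]
    {x y : F ⊗[ℤ] L} (hy : y ≠ 0) {d : E}
    (h : cT L (algebraMap F E) x = d • cT L (algebraMap F E) y) : ∃ r : F, algebraMap F E r = d := by
  by_contra hcon
  push Not at hcon
  have h1 : LinearIndependent F ![x, y] := by
    rw [LinearIndependent.pair_iff]
    intro a b hab
    have ha : a = 0 := by
      by_contra ha
      have h2 : x = (-(a⁻¹ * b)) • y := by
        have h3 : a⁻¹ • (a • x + b • y) = 0 := by rw [hab, smul_zero]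
        rw [smul_add, smul_smul, smul_smul, inv_mul_cancel₀ ha, one_smul] at h3
        rw [neg_smul]
        exact eq_neg_of_add_eq_zero_left h3
      rw [h2, cT_smul] at h
      have h4 : (algebraMap F E (-(a⁻¹ * b)) - d) • cT L (algebraMap F E) y = 0 := by
        rw [sub_smul, h, sub_self]
      rcases smul_eq_zero.1 h4 with h5 | h5
      · exact hcon _ (sub_eq_zero.1 h5)
      · exact hy ((map_eq_zero_iff _ inj24).1 h5)
    refine ⟨ha, ?_⟩
    rw [ha, zero_smul, zero_add] at hab
    exact (smul_eq_zero.1 hab).resolve_right hy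
  have h2 := cT_linearIndependent (E := E) L _ h1
  have h3 : (fun i => cT L (algebraMap F E) (![x, y] i)) =
      ![cT L (algebraMap F E) x, cT L (algebraMap F E) y] := by
    funext i
    fin_cases i <;> rfl
  rw [h3, LinearIndependent.pair_iff] at h2
  have h4 := (h2 1 (-d) (by rw [one_smul, neg_smul, h, add_neg_cancel])).1
  exact one_ne_zero h4

/-- The general form, over an abstract Galois extension. -/
private theorem kdata24 [CharZero E] [IsGalois F E] {z : F} (hz : IsPrimitiveRoot z 31)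
    {L : Type} [LieRing L] [Module.Free ℤ L] [Module.Finite ℤ L]
    (hrank : Module.finrank ℤ L = 248) (D : Submodule ℤ L) (hD : Module.finrank ℤ D = 8)
    (f : E ⊗[ℤ] L ≃ₗ⁅E⁆ Chev E) (hf : ∀ x ∈ D, (f (1 ⊗ₜ x)).x = 0) (g : L ≃ₗ⁅ℤ⁆ L)
    (hgz : ∀ y : L, f (1 ⊗ₜ g y) = gz (algebraMap F E z) (f (1 ⊗ₜ y))) :
    ∃ f' : F ⊗[ℤ] L ≃ₗ⁅F⁆ Chev F, ∀ y : L, f' (1 ⊗ₜ g y) = gz z (f' (1 ⊗ₜ y)) := by
  classical
  have hz' : IsPrimitiveRoot (algebraMap F E z) 31 := hz.map_of_injective (algebraMap F E).injective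
  have htau : ∀ τ : E ≃ₐ[F] E, (∀ v : Lat, f (cT L (τ : E →+* E) (f.symm (t v))) = t v) ∧
      ∀ a : Root, ∃ k : E, f (cT L (τ : E →+* E) (f.symm (e a))) = k • e a := fun τ =>
    tau24 hz' D hD f hf g hgz τ.toRingEquiv (τ.commutes z)
  -- rational vectors
  have hY : ∀ v : Lat, ∃ y : F ⊗[ℤ] L, f (cT L (algebraMap F E) y) = t v := by
    intro v
    obtain ⟨y, hy⟩ := fixed_vector (F := F) L (f.symm (t v)) (fun τ => by
      refine f.injective (?_ : f _ = f _)
      rw [(htau τ).1 v, f.apply_symm_apply])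
    exact ⟨y, by rw [hy, f.apply_symm_apply]⟩
  have he0 : ∀ a : Root, (e a : Chev E) ≠ 0 := fun a h0 => by
    have h1 := congrFun (congrArg Chev.x h0) a
    rw [e_x, Pi.single_eq_same] at h1
    exact one_ne_zero h1
  have hX : ∀ a : Root, ∃ (l : E) (x : F ⊗[ℤ] L), l ≠ 0 ∧
      f (cT L (algebraMap F E) x) = l • e a := by
    intro a
    obtain ⟨l, x, hl, hx⟩ := exists_rational_vector (F := F) L (f.symm (e a))
      (fun h0 => he0 a (by rw [← f.apply_symm_apply (e a), h0, map_zero])) (fun τ => by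
        obtain ⟨k, hk⟩ := (htau τ).2 a
        refine ⟨k, ?_⟩
        refine f.injective (?_ : f _ = f _)
        rw [hk, _root_.map_smul, f.apply_symm_apply])
    exact ⟨l, x, hl, by rw [hx, _root_.map_smul, f.apply_symm_apply]⟩
  choose y hy using hY
  choose d x hd hx using hX
  -- the torus element
  let u : Multiplicative Lat →* Eˣ :=
    { toFun := fun v => ∏ i, (Units.mk0 (d (sr i)) (hd (sr i)))⁻¹ ^ (Multiplicative.toAdd v i)
      map_one' := by simp
      map_mul' := fun v v' => by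
        simp only [toAdd_mul, Pi.add_apply, zpow_add, Finset.prod_mul_distrib] }
  have hu : ∀ i, ((u (Multiplicative.ofAdd (al i)) : Eˣ) : E) = (d (sr i))⁻¹ := by
    intro i
    change ((∏ j, (Units.mk0 (d (sr j)) (hd (sr j)))⁻¹ ^ (al i j) : Eˣ) : E) = _
    rw [Finset.prod_eq_single i]
    · simp [al]
    · intro j _ hj
      simp [al, hj]
    · simp
  set k : Root → E := fun a => (u (Multiplicative.ofAdd a.1) : E) with hkdef
  have hk : IsCoc (AddEquiv.refl Lat) k := isCoc_torus u
  have hks : ∀ i, k (sr i) = (d (sr i))⁻¹ := hu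
  have hk0 : ∀ a, k a ≠ 0 := fun a => Units.ne_zero _
  let m := monoEquiv (AddEquiv.refl Lat) isIsom_refl k hk
  have hm : ∀ w : Chev E, m w = ⟨w.h, fun a => k a * w.x a⟩ := fun w => by
    change monoEquiv (AddEquiv.refl Lat) isIsom_refl k hk w = _
    rw [monoEquiv_apply, mono_refl24]
  have hme : ∀ a, m (e a) = k a • e a := by
    intro a
    rw [hm]
    ext b
    · simp
    · simp only [e_x, smul_x, Pi.smul_apply, smul_eq_mul]
      by_cases hb : b = a
      · rw [hb]
      · rw [Pi.single_eq_of_ne hb, mul_zero, mul_zero]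
  have hmt : ∀ v, m (t v) = t v := by
    intro v
    rw [hm]
    ext b
    · rfl
    · simp
  have hmg : ∀ w, m (gz (algebraMap F E z) w) = gz (algebraMap F E z) (m w) := by
    intro w
    rw [hm, hm]
    ext b
    · rfl
    · simp only [gz]
      ring
  let N : Set (Chev E) := Set.range fun s : F ⊗[ℤ] L => m (f (cT L (algebraMap F E) s))
  have hN : ∀ w : Chev F, map (algebraMap F E) w ∈ N := by
    have hsm : ∀ (r : F), ∀ w ∈ N, algebraMap F E r • w ∈ N := by
      rintro r _ ⟨s, rfl⟩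
      exact ⟨r • s, by
        change m (f (cT L (algebraMap F E) (r • s))) = _
        rw [cT_smul, _root_.map_smul, _root_.map_smul]⟩
    have h1 : ∀ i, e (sr i) ∈ N := fun i => ⟨x (sr i), by
      change m (f (cT L (algebraMap F E) (x (sr i)))) = _
      rw [hx, _root_.map_smul, hme, hks, smul_smul, mul_inv_cancel₀ (hd _), one_smul]⟩
    have h3 : ∀ i, t (al i) ∈ N := fun i => ⟨y (al i), by
      change m (f (cT L (algebraMap F E) (y (al i)))) = _
      rw [hy, hmt]⟩
    refine span_gen N ?_ hsm ?_ h1 ?_ h3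
    · rintro _ ⟨s, rfl⟩ _ ⟨s', rfl⟩
      exact ⟨s + s', by
        change m (f (cT L (algebraMap F E) (s + s'))) = _
        rw [_root_.map_add, _root_.map_add, _root_.map_add]⟩
    · rintro _ ⟨s, rfl⟩ _ ⟨s', rfl⟩
      exact ⟨⁅s, s'⁆, by
        change m (f (cT L (algebraMap F E) ⁅s, s'⁆)) = _
        rw [LieHom.map_lie, LieEquiv.map_lie, LieEquiv.map_lie]⟩
    · intro i
      obtain ⟨c, hc⟩ : ∃ c : E, c = d (-sr i) * k (-sr i) := ⟨_, rfl⟩
      have hc0 : c ≠ 0 := by
        rw [hc]
        exact mul_ne_zero (hd _) (hk0 _)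
      have h4 : m (f (cT L (algebraMap F E) (x (-sr i)))) = c • e (-sr i) := by
        rw [hx, _root_.map_smul, hme, smul_smul, hc]
      have h5 : m (f (cT L (algebraMap F E) (x (sr i)))) = e (sr i) := by
        rw [hx, _root_.map_smul, hme, hks, smul_smul, mul_inv_cancel₀ (hd _), one_smul]
      have h6 : cT L (algebraMap F E) ⁅x (sr i), x (-sr i)⁆ =
          (-c) • cT L (algebraMap F E) (y (al i)) := by
        refine f.injective (?_ : f _ = f _)
        refine m.injective (?_ : m _ = m _)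
        rw [LieHom.map_lie, LieEquiv.map_lie, LieEquiv.map_lie, h5, h4, lie_smul, lie_e_neg,
          _root_.map_smul, _root_.map_smul, hy, hmt, neg_smul, smul_neg]
        rfl
      have hy0 : y (al i) ≠ 0 := by
        intro h0
        have h7 := hy (al i)
        rw [h0, map_zero, map_zero] at h7
        have h8 := congrFun (congrArg Chev.h h7) i
        rw [t_h] at h8
        simp [al] at h8
      obtain ⟨r, hr⟩ := dep24 hy0 h6
      have hr0 : algebraMap F E (-r⁻¹) * c = 1 := by
        rw [map_neg, map_inv₀, hr, inv_neg, neg_neg, inv_mul_cancel₀ hc0]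
      have h9 := hsm (-r⁻¹) _ ⟨x (-sr i), h4⟩
      rwa [smul_smul, hr0, one_smul] at h9
  choose s hs using hN
  have hs' : ∀ w : Chev F, m (f (cT L (algebraMap F E) (s w))) = map (algebraMap F E) w := hs
  have huniq : ∀ (w : Chev F) (p : F ⊗[ℤ] L),
      m (f (cT L (algebraMap F E) p)) = map (algebraMap F E) w → p = s w := by
    intro w p hp
    rw [← hs'] at hp
    exact inj24 (f.injective (m.injective hp))
  let S : Chev F →ₗ[F] F ⊗[ℤ] L :=
    { toFun := s
      map_add' := fun w w' => (huniq _ _ (by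
        rw [_root_.map_add, _root_.map_add, _root_.map_add, hs', hs', Chev.map_add])).symm
      map_smul' := fun r w => (huniq _ _ (by
        rw [RingHom.id_apply, cT_smul, _root_.map_smul, _root_.map_smul, hs', Chev.map_smul])).symm }
  have hSinj : Function.Injective S := by
    intro w w' h
    apply map_inj24 (E := E)
    rw [← hs', ← hs']
    exact congrArg (fun p => m (f (cT L (algebraMap F E) p))) h
  have hfin : Module.finrank F (Chev F) = Module.finrank F (F ⊗[ℤ] L) := by
    rw [finrank_eq, Module.finrank_baseChange, hrank]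
  have hSsurj : Function.Surjective S :=
    (LinearMap.injective_iff_surjective_of_finrank_eq_finrank hfin).1 hSinj
  let S' : Chev F ≃ₗ⁅F⁆ F ⊗[ℤ] L :=
    { LinearEquiv.ofBijective S ⟨hSinj, hSsurj⟩ with
      map_lie' := by
        intro w w'
        have h1 : s ⁅w, w'⁆ = ⁅s w, s w'⁆ := (huniq _ _ (by
          rw [LieHom.map_lie, LieEquiv.map_lie, LieEquiv.map_lie, hs', hs', map_lie])).symm
        exact h1 }
  refine ⟨S'.symm, fun p => ?_⟩
  have hsymm : ∀ p : F ⊗[ℤ] L, map (algebraMap F E) (S'.symm p) =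
      m (f (cT L (algebraMap F E) p)) := by
    intro p
    rw [← hs']
    have h1 : s (S'.symm p) = p := S'.apply_symm_apply p
    rw [h1]
  apply map_inj24 (E := E)
  rw [hsymm, map_gz24, hsymm, cT_tmul, cT_tmul, map_one, hgz, hmg]

end gen24

variable {L : Type} [LieRing L] [Module.Free ℤ L] [Module.Finite ℤ L] {B : LinearMap.BilinForm ℤ L}

theorem exists_kdata (hL : IsLat L B) (g : L ≃ₗ⁅ℤ⁆ L) (hg : ∀ x, g^[31] x = x) (hg1 : ∃ x, g x ≠ x) :
    ∃ f : K ⊗[ℤ] L ≃ₗ⁅K⁆ Chev K, ∀ y : L, f (1 ⊗ₜ g y) = gz ζ (f (1 ⊗ₜ y)) := by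
  obtain ⟨D, f, hD, -, hf, hgz⟩ := exists_gom hL g hg hg1
  exact kdata24 Pool.Agent.Helper2.E8A.hζ hL.rank D hD f hf g hgz

end Pool.Agent.Helper73.E8
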