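import Pool.Agent.Helper73.E8.Isom

/-!
# Block E8-KAC: a regular functional modulo 31 is conjugate to the height

`r : Lat → Z/31` with `r a ≠ 0` for all roots `a`. Then there is an isometry `v` with `r (v x) = ht x` modulo 31.

Proof. (1) `ht x = (x, ρ)` with `ρ = (46, 68, 91, 135, 110, 84, 57, 29)` (check `(al i, ρ) = 1`). Lift `r` to an integer functional and use
unimodularity (`exists_of_functional`): there is `y ∈ Lat` with `r x = (x, y)` mod 31 for all `x`.
(2) Consider all pairs (`v` an isometry, `y' ∈ Lat` with `(v x, y) ≡ (x, y')` mod 31 for all `x`; i.e. `y' ≡ v^-1 y` mod `31 Lat`).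
The set of these `y'` is non-empty; choose `(v, y')` with `(y' - ρ, y' - ρ)` minimal (a natural number).
(3) For a root `a` and an integer `m` with ... : the reflection `s_a x = x - (a, x) a` is an isometry (involution); the affine
reflection `y' ↦ y' - ((a, y') - 31 m) a` of `y'` is again an admissible `y''` for `v ∘ s_a`:
`(v (s_a x), y) ≡ (s_a x, y') = (x, s_a y') ≡ (x, y'')` mod 31. Its distance to `ρ`: with `t = (a, y') - 31 m`:
`(y'' - ρ, y'' - ρ) = (y' - ρ, y' - ρ) - 2 t (a, y' - ρ) + 2 t^2 = (y' - ρ, y' - ρ) + 2 t ((a, ρ) - 31 m)`.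
By minimality `t ((a, ρ) - 31 m) ≥ 0`.
With `a = al i`, `m = 0`, `(a, ρ) = 1`: `(al i, y') ≥ 0`. With `a = theta` (a root, `ht = 29`), `m = 1`, `(a, ρ) - 31 = -2`:
`(theta, y') ≤ 31`.
(4) `(a, y') ≡ r (v a) ≠ 0` mod 31 for roots `a` (`v a` is a root): so `s_i := (al i, y') ≥ 1` and `(theta, y') ≤ 30`.
`(theta, y') = ∑ theta_i s_i`, `∑ theta_i = 29`, all `theta_i ≥ 2`: `∑ theta_i (s_i - 1) ≤ 1`, so all `s_i = 1`, i.e. `(x, y') = ht x`, and
`r (v x) ≡ (v x, y) ≡ (x, y') = ht x`.
-/

set_option autoImplicit false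

namespace Pool.Agent.Helper73.E8

private theorem ip_smul_left' (t : ℤ) (x y : Lat) : ip (t • x) y = t * ip x y := by
  simp only [ip, Pi.smul_apply, smul_eq_mul, Finset.mul_sum, mul_assoc]

private theorem ip_smul_right' (t : ℤ) (x y : Lat) : ip x (t • y) = t * ip x y := by
  rw [ip_comm, ip_smul_left', ip_comm]

private theorem ip_sub_left' (x y z : Lat) : ip (x - y) z = ip x z - ip y z := by
  rw [sub_eq_add_neg, ip_add_left, ip_neg_left, sub_eq_add_neg]

private theorem ip_sub_right' (x y z : Lat) : ip x (y - z) = ip x y - ip x z := by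
  rw [sub_eq_add_neg, ip_add_right, ip_neg_right, sub_eq_add_neg]

/-- The reflection in a root. -/
private def sRefl (a : Root) : Lat ≃+ Lat where
  toFun x := x - (ip a.1 x) • a.1
  invFun x := x - (ip a.1 x) • a.1
  left_inv x := by
    have h2 : ip a.1 a.1 = 2 := a.2
    change (x - ip a.1 x • a.1) - ip a.1 (x - ip a.1 x • a.1) • a.1 = x
    rw [ip_sub_right', ip_smul_right', h2]
    module
  right_inv x := by
    have h2 : ip a.1 a.1 = 2 := a.2
    change (x - ip a.1 x • a.1) - ip a.1 (x - ip a.1 x • a.1) • a.1 = x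
    rw [ip_sub_right', ip_smul_right', h2]
    module
  map_add' x y := by
    rw [ip_add_right]
    module

private theorem sRefl_apply (a : Root) (x : Lat) : sRefl a x = x - (ip a.1 x) • a.1 := rfl

private theorem sRefl_isom (a : Root) : IsIsom (sRefl a) := by
  intro x y
  have h2 : ip a.1 a.1 = 2 := a.2
  rw [sRefl_apply, sRefl_apply, ip_sub_left', ip_sub_right', ip_sub_right', ip_smul_left', ip_smul_left',
    ip_smul_right', ip_smul_right', h2, ip_comm x a.1]
  ring

private def rho : Lat := ![46, 68, 91, 135, 110, 84, 57, 29]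

private theorem ip_rho (x : Lat) : ip rho x = ht x := by
  simp [ip, ht, rho, Fin.sum_univ_eight, CartanMatrix.E₈]
  ring

private theorem ip_expand (x y : Lat) : ip x y = ∑ i, x i * ip (al i) y := by
  simp [ip, al, Fin.sum_univ_eight, CartanMatrix.E₈]
  ring

private theorem ip_theta : ip theta theta = 2 := by decide

private def Adm (r : Lat →+ ZMod 31) (v : Lat ≃+ Lat) (y : Lat) : Prop :=
  IsIsom v ∧ ∀ x, r (v x) = ((ip y x : ℤ) : ZMod 31)

private theorem adm_step {r : Lat →+ ZMod 31} {v : Lat ≃+ Lat} {y : Lat} (h : Adm r v y) (a : Root) (m : ℤ) :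
    Adm r ((sRefl a).trans v) (y - (ip a.1 y - 31 * m) • a.1) := by
  refine ⟨(sRefl_isom a).trans h.1, fun x => ?_⟩
  rw [AddEquiv.trans_apply, h.2, sRefl_apply, ip_sub_left', ip_sub_right', ip_smul_left', ip_smul_right',
    ip_comm y a.1]
  push_cast
  have h31 : (31 : ZMod 31) = 0 := by decide
  rw [h31]
  ring

private theorem dist_step (y : Lat) (a : Root) (m : ℤ) :
    ip (y - (ip a.1 y - 31 * m) • a.1 - rho) (y - (ip a.1 y - 31 * m) • a.1 - rho) =
    ip (y - rho) (y - rho) + 2 * (ip a.1 y - 31 * m) * (ht a.1 - 31 * m) := by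
  have h2 : ip a.1 a.1 = 2 := a.2
  have h3 := ip_rho a.1
  have h4 := ip_comm a.1 rho
  have h5 := ip_comm a.1 y
  have h6 := ip_comm rho y
  simp only [ip_sub_left', ip_sub_right', ip_smul_left', ip_smul_right', h2, h5, h4, h3]
  ring

theorem kac (r : Lat →+ ZMod 31) (hreg : ∀ a : Root, r a.1 ≠ 0) :
    ∃ v : Lat ≃+ Lat, IsIsom v ∧ ∀ x, r (v x) = ((ht x : ℤ) : ZMod 31) := by
  classical
  -- (1)
  let f : Lat →+ ℤ :=
    { toFun := fun x => ∑ i, x i * ((r (al i)).val : ℤ)
      map_zero' := by simp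
      map_add' := fun x y => by simp only [Pi.add_apply, add_mul, Finset.sum_add_distrib] }
  have hf : (Int.castAddHom (ZMod 31)).comp f = r := by
    refine lat_hom_ext _ _ fun i => ?_
    have h1 : f (al i) = ((r (al i)).val : ℤ) := by
      change ∑ k, al i k * ((r (al k)).val : ℤ) = _
      rw [Finset.sum_eq_single i (fun k _ hk => by simp [al, hk]) (fun h => absurd (Finset.mem_univ _) h)]
      simp [al]
    rw [AddMonoidHom.comp_apply, h1]
    simp
  obtain ⟨y0, hy0⟩ := exists_of_functional f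
  have hadm0 : Adm r (AddEquiv.refl Lat) y0 := by
    refine ⟨fun x y => rfl, fun x => ?_⟩
    have h1 := DFunLike.congr_fun hf x
    rw [AddMonoidHom.comp_apply, hy0] at h1
    rw [ip_comm, AddEquiv.refl_apply]
    rw [ip_comm] at h1
    exact h1.symm
  -- (2)
  have hex : ∃ n : ℕ, ∃ (v : Lat ≃+ Lat) (y : Lat), Adm r v y ∧ ip (y - rho) (y - rho) = n :=
    ⟨(ip (y0 - rho) (y0 - rho)).toNat, AddEquiv.refl Lat, y0, hadm0, (Int.toNat_of_nonneg (ip_nonneg _)).symm⟩
  obtain ⟨v, y, hadm, hn⟩ := Nat.find_spec hex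
  have hmin : ∀ (v' : Lat ≃+ Lat) (y' : Lat), Adm r v' y' → ip (y - rho) (y - rho) ≤ ip (y' - rho) (y' - rho) := by
    intro v' y' h'
    have h1 : Nat.find hex ≤ (ip (y' - rho) (y' - rho)).toNat :=
      Nat.find_min' hex ⟨v', y', h', (Int.toNat_of_nonneg (ip_nonneg _)).symm⟩
    rw [hn, ← Int.toNat_of_nonneg (ip_nonneg (y' - rho))]
    exact_mod_cast h1
  -- (3)
  have key : ∀ (a : Root) (m : ℤ), 0 ≤ (ip a.1 y - 31 * m) * (ht a.1 - 31 * m) := by
    intro a m
    have h1 := hmin _ _ (adm_step hadm a m)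
    rw [dist_step] at h1
    linarith
  have hne : ∀ a : Root, ((ip a.1 y : ℤ) : ZMod 31) ≠ 0 := by
    intro a h0
    have h1 := hadm.2 a.1
    rw [ip_comm, h0] at h1
    exact hreg (onRoot v hadm.1 a) (by rw [onRoot_val]; exact h1)
  have hs : ∀ i, 1 ≤ ip (al i) y := by
    intro i
    have h1 := key (sr i) 0
    have h2 : ht (sr i).1 = 1 := by
      change ht (al i) = 1
      fin_cases i <;> decide
    rw [h2] at h1
    have h3 : 0 ≤ ip (al i) y := by
      have : (sr i).1 = al i := rfl
      rw [this] at h1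
      linarith
    have h4 : ip (al i) y ≠ 0 := by
      intro h0
      apply hne (sr i)
      have : (sr i).1 = al i := rfl
      rw [this, h0]
      simp
    omega
  have ht1 : ip theta y ≤ 30 := by
    have h1 := key ⟨theta, ip_theta⟩ 1
    have h2 : ht theta = 29 := by decide
    change 0 ≤ (ip theta y - 31 * 1) * (ht theta - 31 * 1) at h1
    rw [h2] at h1
    have h4 : ip theta y ≠ 31 := by
      intro h0
      apply hne ⟨theta, ip_theta⟩
      change ((ip theta y : ℤ) : ZMod 31) = 0
      rw [h0]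
      decide
    omega
  have hall : ∀ i, ip (al i) y = 1 := by
    rw [ip_expand] at ht1
    simp [Fin.sum_univ_eight, theta] at ht1
    have h0 := hs 0
    have h1 := hs 1
    have h2 := hs 2
    have h3 := hs 3
    have h4 := hs 4
    have h5 := hs 5
    have h6 := hs 6
    have h7 := hs 7
    intro i
    fin_cases i <;> simp <;> omega
  refine ⟨v, hadm.1, fun x => ?_⟩
  rw [hadm.2, ip_comm, ip_expand]
  simp only [hall, mul_one]
  rfl

end Pool.Agent.Helper73.E8
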