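import Pool.Agent.Helper73.E8.Form

/-!
# Block E8-NS: descent of isomorphisms with the Nullstellensatz

* `exists_solution`: a system `S` of polynomials over `Q` in finitely many variables which has a zero in a non-trivial
  commutative `Q`-algebra `A` has a zero in every algebraically closed field `Ω` of characteristic 0. Proof: the ideal `I` generated
  by `S` in `MvPolynomial σ ℚ` is not the unit ideal (evaluate in `A`); take a maximal ideal `m ⊇ I`;
  `MvPolynomial σ ℚ / m` is a field of finite type over `Q`, hence finite over `Q` (Zariski's lemma, in Mathlib e.g.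
  `finite_of_finite_type_of_isJacobsonRing`), so it embeds into `Ω` (`IsAlgClosed.lift`); or apply
  `MvPolynomial`'s Nullstellensatz over `Ω` to the ideal generated by `S` in `MvPolynomial σ Ω` (it is proper because
  `MvPolynomial σ Ω = Ω ⊗ MvPolynomial σ ℚ` is faithfully flat).
* `iso_descend`: take a `Z`-basis `b_1, ..., b_n` of `L` with structure constants in `Z`, and `Chev.basis` of `Chev` (structure
  constants in `Z`, the same over all rings: `map_lie`, `Int.castRingHom`). An isomorphism `A ⊗ L ≃ Chev A` is an `n x 248` matrix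
  `X` with an inverse `Y` such that `X Y = 1`, `Y X = 1` and polynomial equations with integer coefficients say that `X` preserves
  brackets of basis vectors. For `z = ∑ z_i b_i ∈ Z` the condition `(f (1 ⊗ z)).x = 0` is `∑ z_i X_ia = 0` for all `a : Root`. Apply
  `exists_solution` to this system in the variables `X, Y`.
-/

set_option autoImplicit false

open scoped TensorProduct

namespace Pool.Agent.Helper73.E8

open Chev

theorem exists_solution {σ : Type*} [Finite σ] (S : Set (MvPolynomial σ ℚ)) {A : Type*} [CommRing A] [Nontrivial A] [Algebra ℚ A]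
    (x : σ → A) (hx : ∀ p ∈ S, MvPolynomial.aeval x p = 0) {Ω : Type*} [Field Ω] [IsAlgClosed Ω] [Algebra ℚ Ω] :
    ∃ y : σ → Ω, ∀ p ∈ S, MvPolynomial.aeval y p = 0 := by
  have hne : RingHom.ker (MvPolynomial.aeval x : MvPolynomial σ ℚ →ₐ[ℚ] A) ≠ ⊤ := RingHom.ker_ne_top _
  obtain ⟨M, hM, hle⟩ := Ideal.exists_le_maximal _ hne
  let _ : Field (MvPolynomial σ ℚ ⧸ M) := Ideal.Quotient.field M
  have : Algebra.FiniteType ℚ (MvPolynomial σ ℚ ⧸ M) :=
    Algebra.FiniteType.of_surjective (Ideal.Quotient.mkₐ ℚ M) (Ideal.Quotient.mkₐ_surjective ℚ M)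
  have : Module.Finite ℚ (MvPolynomial σ ℚ ⧸ M) := finite_of_finite_type_of_isJacobsonRing ℚ _
  have : Algebra.IsAlgebraic ℚ (MvPolynomial σ ℚ ⧸ M) := Algebra.IsAlgebraic.of_finite ℚ _
  let φ : (MvPolynomial σ ℚ ⧸ M) →ₐ[ℚ] Ω := IsAlgClosed.lift
  refine ⟨fun i => φ (Ideal.Quotient.mkₐ ℚ M (MvPolynomial.X i)), fun p hp => ?_⟩
  have h1 : MvPolynomial.aeval (fun i => φ (Ideal.Quotient.mkₐ ℚ M (MvPolynomial.X i))) =
      φ.comp (Ideal.Quotient.mkₐ ℚ M) := by
    refine MvPolynomial.algHom_ext fun i => ?_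
    simp
  rw [h1, AlgHom.comp_apply]
  have h2 : Ideal.Quotient.mkₐ ℚ M p = 0 := by
    rw [Ideal.Quotient.mkₐ_eq_mk, Ideal.Quotient.eq_zero_iff_mem]
    exact hle (hx p hp)
  rw [h2, map_zero]

private theorem map_inj {R S : Type*} [CommRing R] [CommRing S] {τ : R →+* S} (hτ : Function.Injective τ) :
    Function.Injective (Chev.map τ) := by
  intro y z h
  have h1 := congrArg Chev.h h
  have h2 := congrArg Chev.x h
  ext i
  · exact hτ (congrFun h1 i)
  · exact hτ (congrFun h2 i)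

/-- The element with given coordinates. -/
private def ofCo {R : Type*} (v : Fin 8 ⊕ Root → R) : Chev R := ⟨fun i => v (Sum.inl i), fun a => v (Sum.inr a)⟩

private theorem basis_inl {R : Type*} [CommRing R] (i : Fin 8) :
    (Chev.basis (Sum.inl i) : Chev R) = c (Pi.single i 1) := by
  simp [Chev.basis, c]
  rfl

private theorem basis_inr {R : Type*} [CommRing R] (a : Root) :
    (Chev.basis (Sum.inr a) : Chev R) = e a := by
  simp [Chev.basis, e]
  rfl

private theorem ofCo_eq {R : Type*} [CommRing R] (v : Fin 8 ⊕ Root → R) : ofCo v = ∑ k, v k • Chev.basis k := by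
  rw [Fintype.sum_sum_type]
  simp only [basis_inl, basis_inr]
  rw [decomp (ofCo v)]
  congr 1
  ext i
  · simp [ofCo, Finset.sum_apply, Pi.single_apply]
  · simp

private theorem map_ofCo {R S : Type*} [CommRing R] [CommRing S] (τ : R →+* S) (v : Fin 8 ⊕ Root → R) :
    Chev.map τ (ofCo v) = ofCo (fun k => τ (v k)) := rfl

private theorem ofCo_repr {R : Type*} [CommRing R] (y : Chev R) : ofCo (fun k => Chev.basis.repr y k) = y := by
  rw [ofCo_eq, Chev.basis.sum_repr]

private theorem core {L : Type} [LieRing L] {ι : Type} [Fintype ι] [DecidableEq ι] (b : Module.Basis ι ℤ L)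
    {A A0 Ω : Type} [CommRing A] [CommRing A0] [CommRing Ω] (inc : A0 →+* A) (hinc : Function.Injective inc) (φ : A0 →+* Ω)
    (f : A ⊗[ℤ] L ≃ₗ⁅A⁆ Chev A) (X0 : ι → Fin 8 ⊕ Root → A0) (Y0 : Fin 8 ⊕ Root → ι → A0)
    (hX : ∀ i, f (1 ⊗ₜ b i) = ofCo (fun k => inc (X0 i k)))
    (hY : ∀ k, f.symm (Chev.basis k) = ∑ i, inc (Y0 k i) • (1 ⊗ₜ[ℤ] b i : A ⊗[ℤ] L)) :
    ∃ f' : Ω ⊗[ℤ] L ≃ₗ⁅Ω⁆ Chev Ω, ∀ z : L, (f (1 ⊗ₜ z)).x = 0 → (f' (1 ⊗ₜ z)).x = 0 := by
  classical
  let BA : Module.Basis ι A (A ⊗[ℤ] L) := Algebra.TensorProduct.basis A b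
  let BΩ : Module.Basis ι Ω (Ω ⊗[ℤ] L) := Algebra.TensorProduct.basis Ω b
  have hBA : ∀ i, BA i = 1 ⊗ₜ b i := fun i => Algebra.TensorProduct.basis_apply b i
  have hBΩ : ∀ i, BΩ i = 1 ⊗ₜ b i := fun i => Algebra.TensorProduct.basis_apply b i
  have hXY : ∀ i j, ∑ k, X0 i k * Y0 k j = if i = j then 1 else 0 := by
    intro i j
    apply hinc
    have h1 : f.symm (f (BA i)) = BA i := f.symm_apply_apply _
    rw [hBA, hX, ofCo_eq, map_sum] at h1
    have h2 := congrArg (fun z => BA.repr z j) h1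
    simp only [_root_.map_smul, hY, ← hBA] at h2
    simp only [map_sum, _root_.map_smul, Module.Basis.repr_self, Finsupp.coe_finsetSum, Finset.sum_apply, Finsupp.coe_smul,
      Pi.smul_apply, Finsupp.single_apply, smul_eq_mul] at h2
    rw [map_sum]
    simp only [map_mul]
    simp only [mul_ite, mul_one, mul_zero, Finset.sum_ite_eq', Finset.mem_univ, if_true] at h2
    rw [h2]
    split_ifs <;> simp
  have hYX : ∀ k l, ∑ i, Y0 k i * X0 i l = if k = l then 1 else 0 := by
    intro k l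
    apply hinc
    have h1 : f (f.symm (Chev.basis k)) = Chev.basis k := f.apply_symm_apply _
    rw [hY, map_sum] at h1
    have h2 := congrArg (fun z => Chev.basis.repr z l) h1
    simp only [_root_.map_smul, hX, ofCo_eq] at h2
    simp only [map_sum, _root_.map_smul, Module.Basis.repr_self, Finsupp.coe_finsetSum, Finset.sum_apply, Finsupp.coe_smul,
      Pi.smul_apply, Finsupp.single_apply, smul_eq_mul] at h2
    rw [map_sum]
    simp only [map_mul]
    simp only [mul_ite, mul_one, mul_zero, Finset.sum_ite_eq', Finset.mem_univ, if_true] at h2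
    rw [h2]
    split_ifs <;> simp
  have hXY1 : ∀ i j, ∑ k, φ (X0 i k) * φ (Y0 k j) = if i = j then 1 else 0 := by
    intro i j
    have h1 := congrArg φ (hXY i j)
    rw [map_sum] at h1
    simp only [map_mul] at h1
    rw [h1]
    split_ifs <;> simp
  have hYX1 : ∀ k l, ∑ i, φ (Y0 k i) * φ (X0 i l) = if k = l then 1 else 0 := by
    intro k l
    have h1 := congrArg φ (hYX k l)
    rw [map_sum] at h1
    simp only [map_mul] at h1
    rw [h1]
    split_ifs <;> simp
  let F : Ω ⊗[ℤ] L →ₗ[Ω] Chev Ω := BΩ.constr Ω fun i => ∑ k, φ (X0 i k) • Chev.basis k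
  let G : Chev Ω →ₗ[Ω] Ω ⊗[ℤ] L := Chev.basis.constr Ω fun k => ∑ i, φ (Y0 k i) • BΩ i
  have hF : ∀ i, F (BΩ i) = ∑ k, φ (X0 i k) • Chev.basis k := fun i => BΩ.constr_basis _ _ _
  have hG : ∀ k, G (Chev.basis k) = ∑ i, φ (Y0 k i) • BΩ i := fun k => Chev.basis.constr_basis _ _ _
  have hFG : F.comp G = LinearMap.id := by
    refine Chev.basis.ext fun k => ?_
    rw [LinearMap.comp_apply, hG, map_sum]
    simp only [_root_.map_smul, hF, Finset.smul_sum, smul_smul]
    rw [Finset.sum_comm]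
    simp only [← Finset.sum_smul, hYX1]
    simp
  have hGF : G.comp F = LinearMap.id := by
    refine BΩ.ext fun i => ?_
    rw [LinearMap.comp_apply, hF, map_sum]
    simp only [_root_.map_smul, hG, Finset.smul_sum, smul_smul]
    rw [Finset.sum_comm]
    simp only [← Finset.sum_smul, hXY1]
    simp
  let g : L →+ Chev A0 :=
    { toFun := fun l => ∑ i, ((b.repr l i : ℤ) : A0) • ofCo (X0 i)
      map_zero' := by simp
      map_add' := fun l m => by simp [add_smul, Finset.sum_add_distrib] }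
  have hgb : ∀ i, g (b i) = ofCo (X0 i) := by
    intro i
    change ∑ j, ((b.repr (b i) j : ℤ) : A0) • ofCo (X0 j) = _
    rw [Finset.sum_eq_single i]
    · simp
    · intro j _ hj
      simp [hj.symm]
    · simp
  let mapHom : ∀ {R S : Type} [CommRing R] [CommRing S] (τ : R →+* S), Chev R →+ Chev S := fun τ =>
    AddMonoidHom.mk' (Chev.map τ) (Chev.map_add τ)
  have hgA : ∀ l, Chev.map inc (g l) = f (1 ⊗ₜ l) := by
    intro l
    let g1 : L →+ Chev A := (mapHom inc).comp g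
    let g2 : L →+ Chev A :=
      { toFun := fun l => f (1 ⊗ₜ l)
        map_zero' := by simp
        map_add' := fun l m => by rw [TensorProduct.tmul_add, _root_.map_add] }
    have h1 : g1.toIntLinearMap = g2.toIntLinearMap := by
      refine b.ext fun i => ?_
      change Chev.map inc (g (b i)) = f (1 ⊗ₜ b i)
      rw [hgb, hX, map_ofCo]
    exact DFunLike.congr_fun h1 l
  have hgΩ : ∀ l, Chev.map φ (g l) = F (1 ⊗ₜ l) := by
    intro l
    let g1 : L →+ Chev Ω := (mapHom φ).comp g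
    let g2 : L →+ Chev Ω :=
      { toFun := fun l => F (1 ⊗ₜ l)
        map_zero' := by simp
        map_add' := fun l m => by rw [TensorProduct.tmul_add, _root_.map_add] }
    have h1 : g1.toIntLinearMap = g2.toIntLinearMap := by
      refine b.ext fun i => ?_
      change Chev.map φ (g (b i)) = F (1 ⊗ₜ b i)
      rw [hgb, ← hBΩ, hF, map_ofCo, ofCo_eq]
    exact DFunLike.congr_fun h1 l
  have hglie : ∀ l m, g ⁅l, m⁆ = ⁅g l, g m⁆ := by
    intro l m
    apply map_inj hinc
    rw [hgA, Chev.map_lie, hgA, hgA, ← LieEquiv.coe_toLieHom, ← LieHom.map_lie]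
    simp
  have hFlie1 : ∀ l m, F (1 ⊗ₜ ⁅l, m⁆) = ⁅F (1 ⊗ₜ l), F (1 ⊗ₜ m)⁆ := by
    intro l m
    rw [← hgΩ, ← hgΩ, ← hgΩ, hglie, Chev.map_lie]
  have hFlie : ∀ u v, F ⁅u, v⁆ = ⁅F u, F v⁆ := by
    intro u v
    have e0 : ∀ (s : Ω) (l : L), F (s ⊗ₜ l) = s • F (1 ⊗ₜ l) := by
      intro s l
      rw [← F.map_smul, TensorProduct.smul_tmul', smul_eq_mul, mul_one]
    induction u using TensorProduct.induction_on with
    | zero =>
      rw [show ⁅(0 : Ω ⊗[ℤ] L), v⁆ = 0 from zero_lie _, F.map_zero, zero_lie]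
    | add u1 u2 h1 h2 =>
      rw [show ⁅u1 + u2, v⁆ = ⁅u1, v⁆ + ⁅u2, v⁆ from add_lie _ _ _, F.map_add, h1, h2, F.map_add, add_lie]
    | tmul s l =>
      induction v using TensorProduct.induction_on with
      | zero =>
        have h0 : ⁅(s ⊗ₜ[ℤ] l : Ω ⊗[ℤ] L), (0 : Ω ⊗[ℤ] L)⁆ = 0 := by
          have h1 := LieRing.lie_add (s ⊗ₜ[ℤ] l : Ω ⊗[ℤ] L) 0 0
          rw [add_zero] at h1
          exact left_eq_add.1 h1
        rw [h0, F.map_zero, lie_zero]
      | add u1 u2 h1 h2 =>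
        rw [show ⁅(s ⊗ₜ[ℤ] l : Ω ⊗[ℤ] L), u1 + u2⁆ = ⁅s ⊗ₜ[ℤ] l, u1⁆ + ⁅s ⊗ₜ[ℤ] l, u2⁆ from
          LieRing.lie_add _ _ _, F.map_add,
          h1, h2, F.map_add, lie_add]
      | tmul t m =>
        rw [LieAlgebra.ExtendScalars.bracket_tmul, e0, e0 s, e0 t, hFlie1, smul_lie, lie_smul, smul_smul]
  let Fl : Ω ⊗[ℤ] L →ₗ⁅Ω⁆ Chev Ω := { F with map_lie' := fun {u v} => hFlie u v }
  let E : Ω ⊗[ℤ] L ≃ₗ⁅Ω⁆ Chev Ω :=
    { Fl with
      invFun := G
      left_inv := fun u => DFunLike.congr_fun hGF u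
      right_inv := fun u => DFunLike.congr_fun hFG u }
  refine ⟨E, fun z hz => ?_⟩
  change (F (1 ⊗ₜ z)).x = 0
  have h1 : (g z).x = 0 := by
    funext a
    apply hinc
    rw [← hgA] at hz
    have := congrFun hz a
    rw [Pi.zero_apply, map_zero]
    exact this
  rw [← hgΩ]
  funext a
  change φ ((g z).x a) = 0
  rw [h1, Pi.zero_apply, map_zero]

theorem iso_descend {L : Type} [LieRing L] [Module.Free ℤ L] [Module.Finite ℤ L] {A : Type} [CommRing A] [Nontrivial A]
    [Algebra ℚ A] {Ω : Type} [Field Ω] [IsAlgClosed Ω] [Algebra ℚ Ω] (f : A ⊗[ℤ] L ≃ₗ⁅A⁆ Chev A) (Z : Set L)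
    (hZ : ∀ z ∈ Z, (f (1 ⊗ₜ z)).x = 0) : ∃ f' : Ω ⊗[ℤ] L ≃ₗ⁅Ω⁆ Chev Ω, ∀ z ∈ Z, (f' (1 ⊗ₜ z)).x = 0 := by
  classical
  let ι := Module.Free.ChooseBasisIndex ℤ L
  let κ := Fin 8 ⊕ Root
  let b : Module.Basis ι ℤ L := Module.Free.chooseBasis ℤ L
  let BA : Module.Basis ι A (A ⊗[ℤ] L) := Algebra.TensorProduct.basis A b
  have hBA : ∀ i, BA i = 1 ⊗ₜ b i := fun i => Algebra.TensorProduct.basis_apply b i
  let X : ι → κ → A := fun i k => Chev.basis.repr (f (BA i)) k
  let Y : κ → ι → A := fun k i => BA.repr (f.symm (Chev.basis k)) i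
  let σ := (ι × κ) ⊕ (κ × ι)
  let x : σ → A := Sum.elim (fun p => X p.1 p.2) (fun p => Y p.1 p.2)
  let I : Ideal (MvPolynomial σ ℚ) := RingHom.ker (MvPolynomial.aeval x : MvPolynomial σ ℚ →ₐ[ℚ] A)
  obtain ⟨y, hy⟩ := exists_solution (Ω := Ω) (I : Set (MvPolynomial σ ℚ)) x (fun p hp => hp)
  let inc : (MvPolynomial σ ℚ ⧸ I) →+* A :=
    Ideal.Quotient.lift I (MvPolynomial.aeval x : MvPolynomial σ ℚ →ₐ[ℚ] A).toRingHom (fun p hp => hp)
  have hinc : Function.Injective inc := by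
    intro p q hpq
    obtain ⟨p, rfl⟩ := Ideal.Quotient.mk_surjective p
    obtain ⟨q, rfl⟩ := Ideal.Quotient.mk_surjective q
    rw [Ideal.Quotient.eq]
    change MvPolynomial.aeval x (p - q) = 0
    rw [map_sub]
    exact sub_eq_zero.2 hpq
  let φ : (MvPolynomial σ ℚ ⧸ I) →+* Ω :=
    Ideal.Quotient.lift I (MvPolynomial.aeval y : MvPolynomial σ ℚ →ₐ[ℚ] Ω).toRingHom (fun p hp => hy p hp)
  obtain ⟨f', hf'⟩ := core b inc hinc φ f (fun i k => Ideal.Quotient.mk I (MvPolynomial.X (Sum.inl (i, k))))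
    (fun k i => Ideal.Quotient.mk I (MvPolynomial.X (Sum.inr (k, i)))) (fun i => by
      have h1 : ∀ k, inc (Ideal.Quotient.mk I (MvPolynomial.X (Sum.inl (i, k)))) = X i k := by
        intro k
        change MvPolynomial.aeval x (MvPolynomial.X (Sum.inl (i, k))) = X i k
        rw [MvPolynomial.aeval_X]
        rfl
      simp only [h1]
      rw [← hBA]
      exact (ofCo_repr _).symm) (fun k => by
      have h1 : ∀ i, inc (Ideal.Quotient.mk I (MvPolynomial.X (Sum.inr (k, i)))) = Y k i := by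
        intro i
        change MvPolynomial.aeval x (MvPolynomial.X (Sum.inr (k, i))) = Y k i
        rw [MvPolynomial.aeval_X]
        rfl
      simp only [h1, ← hBA]
      exact (BA.sum_repr _).symm)
  exact ⟨f', fun z hz => hf' z (hZ z hz)⟩

end Pool.Agent.Helper73.E8
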