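import Pool.Agent.Helper73.E8.Cp

/-!
# Block E8-REG: regularity of the functional

`w` an isometry, `r ≠ 0` a homomorphism `Lat → Z/31` with `r (w x) = 3 r x`. Then `r a ≠ 0` for every root `a`.

Proof. Suppose `r a = 0`. Then `r (w^k a) = 3^k r a = 0` for all `k`. Consider the 8 vectors `a_k = w^k a`, `k = 0, ..., 7`, and
the integer matrix `D` with rows `a_k`.
(1) `det D ≠ 0`: if `q(w) a = 0` for a non-zero rational polynomial `q` of degree `≤ 7`; `Φ_30` is irreducible of degree 8 over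
`Q` (`Polynomial.cyclotomic.irreducible_rat`) and `Φ_30(w) = 0` (`phi30`, file Cp.lean), so `q` is coprime to `Φ_30`,
`u q + v Φ_30 = 1`, `a = u(w) q(w) a = 0`, contradiction (clear denominators, or work in `Fin 8 → ℚ`).
(2) `det D ≡ 0` mod 31: the non-zero vector `(r (al i))_i` over `Z/31` is in the kernel of `D` mod 31
(`r x = ∑ x_i r (al i)`; `r ≠ 0` gives `r (al i) ≠ 0` for some `i`, `lat_hom_ext`). So `(det D)^2 ≥ 31^2 = 961`.
(3) Gram matrix `G = D C D^T` (`C = CartanMatrix.E₈`, determinant 1: `CartanMatrix.E₈_det`), `G_kl = (a_k, a_l)`, is symmetric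
positive semidefinite with diagonal entries `(w^k a, w^k a) = 2`, and `det G = (det D)^2`. Hadamard: `det G ≤ 2^8 = 256`
(AM-GM for the eigenvalues: `det G = ∏ λ_i ≤ ((∑ λ_i)/8)^8 = (trace G / 8)^8 = 2^8`; `Matrix.IsHermitian.det_eq_prod_eigenvalues`,
`Matrix.IsHermitian.trace_eq_sum_eigenvalues`, `Real.inner_le_nnorm_mul_nnorm`... or `Real.geom_mean_le_arith_mean_weighted`).
Contradiction.
-/

set_option autoImplicit false

namespace Pool.Agent.Helper73.E8

open Polynomial in
private theorem cyc30_88 : (cyclotomic 30 ℤ) = X ^ 8 + X ^ 7 - X ^ 5 - X ^ 4 - X ^ 3 + X + 1 := by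
  have h := cyclotomic_expand_eq_cyclotomic_mul (n := 6) Nat.prime_five (by norm_num) ℤ
  have h0 : cyclotomic 6 ℤ ≠ 0 := cyclotomic_ne_zero 6 ℤ
  apply mul_right_cancel₀ h0
  rw [show 30 = 6 * 5 by norm_num, ← h, cyclotomic_six, map_add, map_sub, map_pow, expand_X, map_one]
  ring

/-- The matrix with `4 C = Bᵀ B`. -/
private def B88 : Matrix (Fin 8) (Fin 8) ℤ :=
  !![1, 2, -2, 0, 0, 0, 0, 0;
    -1, 2, 2, -2, 0, 0, 0, 0;
    -1, 0, 0, 2, -2, 0, 0, 0;
    -1, 0, 0, 0, 2, -2, 0, 0;
    -1, 0, 0, 0, 0, 2, -2, 0;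
    -1, 0, 0, 0, 0, 0, 2, -2;
    -1, 0, 0, 0, 0, 0, 0, 2;
    1, 0, 0, 0, 0, 0, 0, 0]

private theorem BtB88 : B88.transpose * B88 = (4 : ℤ) • CartanMatrix.E₈ := by
  ext i j
  revert i j
  decide

private theorem det_B88 : B88.det ^ 2 = 4 ^ 8 := by
  have h := congrArg Matrix.det BtB88
  rw [Matrix.det_mul, Matrix.det_transpose, Matrix.det_smul, CartanMatrix.E₈_det, mul_one, Fintype.card_fin] at h
  rw [sq]
  exact h

private theorem ip_eq88 (x : Lat) : 4 * ip x x = ∑ m, (∑ i, B88 m i * x i) ^ 2 := by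
  rw [four_ip]
  simp only [Fin.sum_univ_eight, B88]
  simp
  ring

/-- AM-GM for the eigenvalues. -/
private theorem had88 (E : Matrix (Fin 8) (Fin 8) ℝ) (h : ∀ k, ∑ m, E m k ^ 2 = 8) : E.det ^ 2 ≤ 8 ^ 8 := by
  have hP : (E.conjTranspose * E).PosSemidef := Matrix.posSemidef_conjTranspose_mul_self E
  have hdet : (E.conjTranspose * E).det = E.det ^ 2 := by
    rw [Matrix.det_mul, Matrix.conjTranspose_eq_transpose_of_trivial, Matrix.det_transpose, sq]
  have htr : (E.conjTranspose * E).trace = 64 := by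
    rw [Matrix.trace]
    have h1 : ∀ k, (E.conjTranspose * E).diag k = 8 := by
      intro k
      rw [← h k, Matrix.diag_apply, Matrix.mul_apply]
      refine Finset.sum_congr rfl fun m _ => ?_
      rw [Matrix.conjTranspose_apply, star_trivial, sq]
    rw [Finset.sum_congr rfl fun k _ => h1 k, Finset.sum_const, Finset.card_univ, Fintype.card_fin]
    norm_num
  have hl := hP.isHermitian.trace_eq_sum_eigenvalues
  have hd := hP.isHermitian.det_eq_prod_eigenvalues
  simp only [RCLike.ofReal_real_eq_id, id] at hl hd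
  rw [htr] at hl
  rw [hdet] at hd
  rw [hd]
  have h2 : ∀ k, hP.isHermitian.eigenvalues k ≤ 8 * Real.exp (hP.isHermitian.eigenvalues k / 8 - 1) := by
    intro k
    have := Real.add_one_le_exp (hP.isHermitian.eigenvalues k / 8 - 1)
    linarith
  calc ∏ k, hP.isHermitian.eigenvalues k ≤ ∏ k : Fin 8, 8 * Real.exp (hP.isHermitian.eigenvalues k / 8 - 1) :=
        Finset.prod_le_prod (fun k _ => hP.eigenvalues_nonneg k) fun k _ => h2 k
    _ = 8 ^ 8 * Real.exp (∑ k : Fin 8, (hP.isHermitian.eigenvalues k / 8 - 1)) := by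
        rw [Finset.prod_mul_distrib, Finset.prod_const, Finset.card_univ, Fintype.card_fin, Real.exp_sum]
    _ = 8 ^ 8 := by
        rw [Finset.sum_sub_distrib, ← Finset.sum_div, ← hl, Finset.sum_const, Finset.card_univ, Fintype.card_fin]
        norm_num

/-- Eight roots span a parallelepiped of volume at most 16. -/
private theorem det_le88 (D : Matrix (Fin 8) (Fin 8) ℤ) (h : ∀ k, ip (D k) (D k) = 2) : D.det ^ 2 ≤ 256 := by
  have h1 : (B88 * D.transpose).det ^ 2 = 4 ^ 8 * D.det ^ 2 := by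
    rw [Matrix.det_mul, Matrix.det_transpose, mul_pow, det_B88]
  have h2 : (((B88 * D.transpose).map (Int.castRingHom ℝ)).det) ^ 2 ≤ 8 ^ 8 := by
    refine had88 _ fun k => ?_
    have h3 := ip_eq88 (D k)
    rw [h k] at h3
    have h4 : ∑ m, (B88 * D.transpose) m k ^ 2 = 8 := by
      have h5 : ∀ m, (B88 * D.transpose) m k = ∑ i, B88 m i * D k i := fun m => by
        rw [Matrix.mul_apply]
        rfl
      simp only [h5]
      linarith
    have h6 : ((∑ m, (B88 * D.transpose) m k ^ 2 : ℤ) : ℝ) = 8 := by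
      rw [h4]
      norm_num
    rw [← h6]
    push_cast
    rfl
  have h7 : ((B88 * D.transpose).map (Int.castRingHom ℝ)).det = (((B88 * D.transpose).det : ℤ) : ℝ) := by
    rw [← RingHom.mapMatrix_apply, ← RingHom.map_det]
    rfl
  rw [h7] at h2
  have h8 : (B88 * D.transpose).det ^ 2 ≤ 8 ^ 8 := by exact_mod_cast h2
  rw [h1] at h8
  norm_num at h8
  linarith

private theorem iter88 (w : Lat ≃+ Lat) (k : ℕ) (x : Lat) :
    (w.toAddMonoidHom.toIntLinearMap ^ k : Module.End ℤ Lat) x = w^[k] x := by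
  rw [Module.End.pow_apply]
  rfl

open Polynomial in
/-- Linear independence of the eight vectors. -/
private theorem indep88 (w : Lat ≃+ Lat)
    (hw : ∀ x, w^[8] x + w^[7] x - w^[5] x - w^[4] x - w^[3] x + w x + x = 0) (a : Lat) (ha : a ≠ 0)
    (q : Fin 8 → ℤ) (hq : q ≠ 0) : ∑ k, q k • w^[(k : ℕ)] a ≠ 0 := by
  intro h0
  obtain ⟨L, hL⟩ : ∃ L : Module.End ℤ Lat, L = w.toAddMonoidHom.toIntLinearMap := ⟨_, rfl⟩
  have hit : ∀ (k : ℕ) (x : Lat), (L ^ k) x = w^[k] x := fun k x => by rw [hL]; exact iter88 w k x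
  obtain ⟨Q, hQ⟩ : ∃ Q : ℤ[X], Q = ∑ k : Fin 8, C (q k) * X ^ (k : ℕ) := ⟨_, rfl⟩
  have hcoeff : ∀ k : Fin 8, Q.coeff k = q k := by
    intro k
    rw [hQ, finsetSum_coeff, Finset.sum_eq_single k]
    · rw [coeff_C_mul_X_pow, if_pos rfl]
    · intro b _ hb
      rw [coeff_C_mul_X_pow, if_neg fun hc => hb (Fin.ext hc.symm)]
    · intro hk
      exact absurd (Finset.mem_univ k) hk
  have hQ0 : Q ≠ 0 := by
    intro hc
    apply hq
    funext k
    rw [← hcoeff k, hc, coeff_zero]
    rfl
  have hQd : Q.natDegree < 8 := by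
    rw [hQ]
    refine lt_of_le_of_lt (natDegree_sum_le_of_forall_le (n := 7) _ _ fun k _ => ?_) (by norm_num)
    exact (natDegree_C_mul_X_pow_le _ _).trans (by omega)
  have hQa : aeval L Q a = 0 := by
    rw [hQ, map_sum, LinearMap.sum_apply, ← h0]
    refine Finset.sum_congr rfl fun k _ => ?_
    rw [map_mul, aeval_C, map_pow, aeval_X, Module.End.mul_apply, hit, Module.algebraMap_end_apply]
  have hΦa : ∀ x, aeval L (cyclotomic 30 ℤ) x = 0 := by
    intro x
    rw [cyc30_88]
    simp only [map_add, map_sub, map_pow, aeval_X, map_one, LinearMap.add_apply, LinearMap.sub_apply,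
      Module.End.one_apply, hit]
    have h1 : L x = w x := by rw [hL]; rfl
    rw [h1]
    exact hw x
  -- coprimality
  have hΦd : (cyclotomic 30 ℤ).natDegree = 8 := by
    rw [natDegree_cyclotomic]
    decide
  have hcop : IsCoprime ((cyclotomic 30 ℤ).map (Int.castRingHom ℚ)) (Q.map (Int.castRingHom ℚ)) := by
    rw [map_cyclotomic]
    refine ((cyclotomic.irreducible_rat (by norm_num)).coprime_iff_not_dvd).2 fun hdvd => ?_
    have hQm : Q.map (Int.castRingHom ℚ) ≠ 0 := by
      rw [Ne, Polynomial.map_eq_zero_iff Int.cast_injective]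
      exact hQ0
    have h1 := natDegree_le_of_dvd hdvd hQm
    rw [natDegree_cyclotomic, natDegree_map_eq_of_injective Int.cast_injective] at h1
    have h2 : Nat.totient 30 = 8 := by decide
    omega
  have hres : resultant (cyclotomic 30 ℤ) Q ≠ 0 := by
    intro hc
    have h1 := resultant_ne_zero _ _ hcop
    rw [natDegree_map_eq_of_injective Int.cast_injective, natDegree_map_eq_of_injective Int.cast_injective,
      resultant_map_map, hc, map_zero] at h1
    exact h1 rfl
  obtain ⟨p, s, _, _, hps⟩ := exists_mul_add_mul_eq_C_resultant (cyclotomic 30 ℤ) Q le_rfl le_rfl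
    (Or.inl (by rw [hΦd]; norm_num))
  have h1 := congrArg (fun P => aeval L P a) hps
  simp only [map_add, map_mul, LinearMap.add_apply, Module.End.mul_apply, hΦa, aeval_C,
    Module.algebraMap_end_apply] at h1
  have h2 : aeval L Q (aeval L s a) = 0 := by
    rw [← Module.End.mul_apply, ← map_mul, mul_comm, map_mul, Module.End.mul_apply, hQa, map_zero]
  rw [h2, add_zero] at h1
  exact (smul_ne_zero hres ha) h1.symm

theorem regular (w : Lat ≃+ Lat) (hw : IsIsom w) (r : Lat →+ ZMod 31) (hr : r ≠ 0) (h : ∀ x, r (w x) = 3 * r x)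
    (a : Root) : r a.1 ≠ 0 := by
  intro ha
  obtain ⟨D, hDk⟩ : ∃ D : Matrix (Fin 8) (Fin 8) ℤ, ∀ k, D k = w^[(k : ℕ)] a.1 :=
    ⟨fun k => w^[(k : ℕ)] a.1, fun _ => rfl⟩
  have hnorm : ∀ (k : ℕ) (x : Lat), ip (w^[k] x) (w^[k] x) = ip x x := by
    intro k
    induction k with
    | zero => exact fun x => rfl
    | succ k ih => exact fun x => by rw [Function.iterate_succ_apply, ih, hw]
  have h1 : D.det ^ 2 ≤ 256 := det_le88 D fun k => by rw [hDk, hnorm, a.2]
  have ha0 : a.1 ≠ 0 := by
    intro hc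
    have h2 := a.2
    rw [hc] at h2
    exact absurd h2 (by decide)
  have h2 : D.det ≠ 0 := by
    intro hc
    obtain ⟨q, hq, hq2⟩ := Matrix.exists_vecMul_eq_zero_iff.2 hc
    refine indep88 w (phi30 w hw r hr h) a.1 ha0 q hq ?_
    funext i
    have h3 := congrFun hq2 i
    rw [Finset.sum_apply]
    rw [Matrix.vecMul, dotProduct] at h3
    rw [← h3]
    refine Finset.sum_congr rfl fun k _ => ?_
    rw [← hDk]
    rfl
  have hrk : ∀ (k : ℕ) (x : Lat), r x = 0 → r (w^[k] x) = 0 := by
    intro k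
    induction k with
    | zero => exact fun x hx => hx
    | succ k ih =>
      intro x hx
      rw [Function.iterate_succ_apply]
      exact ih _ (by rw [h, hx, mul_zero])
  have h3 : ((D.det : ℤ) : ZMod 31) = 0 := by
    have : Fact (Nat.Prime 31) := ⟨by norm_num⟩
    have h4 : ((D.det : ℤ) : ZMod 31) = (D.map (Int.castRingHom (ZMod 31))).det := by
      rw [← RingHom.mapMatrix_apply, ← RingHom.map_det]
      rfl
    rw [h4]
    refine Matrix.exists_mulVec_eq_zero_iff.1 ⟨fun i => r (al i), ?_, ?_⟩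
    · intro hc
      exact hr (lat_hom_ext _ _ fun i => by rw [AddMonoidHom.zero_apply]; exact congrFun hc i)
    · funext k
      have h5 := hrk k a.1 ha
      rw [← hDk] at h5
      have h6 : r (D k) = ∑ i, ((D k i : ℤ) : ZMod 31) * r (al i) := by
        have h7 : D k = ∑ i, D k i • al i := by
          funext j
          rw [Finset.sum_apply, Finset.sum_eq_single j]
          · simp [al]
          · intro b _ hb
            simp [al, hb.symm]
          · intro hj
            exact absurd (Finset.mem_univ j) hj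
        conv_lhs => rw [h7]
        rw [map_sum]
        refine Finset.sum_congr rfl fun i _ => ?_
        rw [map_zsmul, zsmul_eq_mul]
      rw [h6] at h5
      exact h5
  have h4 : (31 : ℤ) ∣ D.det := (ZMod.intCast_zmod_eq_zero_iff_dvd _ 31).1 h3
  obtain ⟨c, hc⟩ := h4
  have hc0 : c ≠ 0 := by
    rintro rfl
    exact h2 (by rw [hc, mul_zero])
  have hc1 : 1 ≤ c ^ 2 := by
    have := sq_pos_of_ne_zero hc0
    omega
  rw [hc] at h1
  nlinarith

end Pool.Agent.Helper73.E8
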