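import Pool.Agent.Helper73.E8.SemiOf
import Pool.Agent.Helper73.E8.Gz
import Pool.Agent.Helper73.E8.Ns
import Pool.Agent.Helper73.E8.Reg
import Pool.Agent.Helper73.E8.Kac
import Pool.Agent.Helper73.E8.Dyn
import Pool.Agent.Helper73.E8.Cpt.CartanG
import Pool.Agent.Helper2.E8A.Defs

/-!
# Block E8-GOM: the element of order 31 over the algebraic closure

`K = ℚ(ζ)`, `ζ` a primitive 31st root of unity, `σ ζ = ζ^3` (file Helper2/E8A/Defs.lean), `Ω = AlgebraicClosure K`.
`gz z y` multiplies the `a`-component of `y` with `z^(ht a)`.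

`exists_gom`. Proof. `exists_cartanG` gives `D` and a complex `f`; `iso_descend` (`A = ℂ`, `Z = D`) gives
`f₁ : Ω ⊗ L ≃ Chev Ω` with `(f₁ (1 ⊗ x)).x = 0` for `x ∈ D`. By `semi_of`, `f₁ ∘ (1 ⊗ g) ∘ f₁^-1 = mono 1 1 k`, `IsCoc 1 k`, so `k a = u a`
for a homomorphism `u : Lat → Ω^*` (`hom_ext`). `g^31 = 1` gives `u^31 = 1` (on roots, hence on `Lat`), so `u x = ζ^(r x)` for a
homomorphism `r : Lat → Z/31` (31st roots of unity are powers of `ζ`), `r ≠ 0` because `g ≠ 1`. Extend `σ` to an automorphism `τ₀` of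
`Ω` (`IsAlgClosed.lift` or `IsAlgClosure.equivOfEquiv`); `T₀ = f₁ ∘ (τ₀ ⊗ 1) ∘ f₁^-1 = mono τ₀ w₀ k₀` (`semi_of`) commutes with
`f₁ ∘ (1 ⊗ g) ∘ f₁^-1` (`cT_cG`). On `e a`: `u (w₀ a) = τ₀ (u a) = (u a)^3`, so `r (w₀ x) = 3 r x` (roots generate). `regular`: `r a ≠ 0` for all
roots. `kac`: an isometry `v` with `r (v x) = ht x` mod 31. Let `η` be a lift of `v.symm` (`exists_lift`) and `f₂ = (mono 1 v.symm η) ∘ f₁`
(`monoEquiv`, `isCoc_lift`): the Cartan subalgebra is preserved, and `f₂ ∘ (1 ⊗ g) ∘ f₂^-1` maps `e a` to `u (v a) e a = ζ^(ht a) e a`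
(integer powers of `ζ` only depend on the exponent mod 31).
-/

set_option autoImplicit false

open scoped TensorProduct

namespace Pool.Agent.Helper73.E8

open Chev
open Pool.Agent.Helper2.E8A (K ζ σ)

/-- The algebraic closure of `K`. -/
abbrev Om : Type := AlgebraicClosure K

variable {L : Type} [LieRing L] [Module.Free ℤ L] [Module.Finite ℤ L] {B : LinearMap.BilinForm ℤ L}

/-- The trivial-`w` monomial map in coordinates. -/
private theorem mono_refl_h {F : Type} [Field F] (k : Root → F) (y : Chev F) :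
    (mono (RingHom.id F) (AddEquiv.refl Lat) isIsom_refl k y).h = y.h := by
  funext i
  change ∑ j, y.h j * (((al j) i : ℤ) : F) = y.h i
  rw [Finset.sum_eq_single i]
  · simp [al]
  · intro j _ hj
    simp [al, hj.symm]
  · intro h
    exact absurd (Finset.mem_univ _) h

private theorem mono_refl_x {F : Type} [Field F] (k : Root → F) (y : Chev F) (a : Root) :
    (mono (RingHom.id F) (AddEquiv.refl Lat) isIsom_refl k y).x a = k a * y.x a := rfl

omit [Module.Finite ℤ L] in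
private theorem tmul_inj {F : Type} [Field F] [CharZero F] {x y : L} (h : (1 : F) ⊗ₜ[ℤ] x = 1 ⊗ₜ[ℤ] y) : x = y := by
  let b := Module.Free.chooseBasis ℤ L
  have h1 := congrArg (Algebra.TensorProduct.basis F b).repr h
  rw [Algebra.TensorProduct.basis_repr_tmul, Algebra.TensorProduct.basis_repr_tmul, one_smul, one_smul] at h1
  refine b.repr.injective (Finsupp.ext fun i => ?_)
  have h2 := DFunLike.congr_fun h1 i
  rw [Finsupp.mapRange_apply, Finsupp.mapRange_apply] at h2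
  exact (algebraMap ℤ F).injective_int h2

omit [Module.Free ℤ L] [Module.Finite ℤ L] in
private theorem cG_iter {F : Type} [Field F] (g : L ≃ₗ⁅ℤ⁆ L) (n : ℕ) (hg : ∀ x, g^[n] x = x) (z : F ⊗[ℤ] L) :
    (cG F (g : L →ₗ⁅ℤ⁆ L))^[n] z = z := by
  have h1 : ∀ (m : ℕ) (a : F) (x : L), (cG F (g : L →ₗ⁅ℤ⁆ L))^[m] (a ⊗ₜ x) = a ⊗ₜ (g^[m] x) := by
    intro m
    induction m with
    | zero => intro a x; rfl
    | succ m ih =>
      intro a x
      rw [Function.iterate_succ_apply', ih, cG_tmul, Function.iterate_succ_apply']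
      rfl
  induction z using TensorProduct.induction_on with
  | zero => rw [iterate_map_zero]
  | tmul a x => rw [h1, hg]
  | add y z hy hz => rw [iterate_map_add, hy, hz]

private theorem σ_ζ' : σ ζ = ζ ^ 3 := by
  have h := IsCyclotomicExtension.Rat.galEquivZMod_apply_of_pow_eq 31 K σ Helper2.E8A.hζ.pow_eq_one
  have h2 : IsCyclotomicExtension.Rat.galEquivZMod 31 K σ
      = ZMod.unitOfCoprime 3 (by norm_num) := MulEquiv.apply_symm_apply _ _
  rw [h, h2]
  rfl

/-- The character of `Z/31` with value `z` at `1`. -/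
private theorem exists_char {F : Type} [Field F] {z : F} (hz : IsPrimitiveRoot z 31) :
    ∃ (zu : Fˣ) (E : ZMod 31 →+ Additive Fˣ), (zu : F) = z ∧ Function.Injective E ∧
      (∀ m : ℤ, E (m : ZMod 31) = Additive.ofMul (zu ^ m)) ∧
      ∀ u : Fˣ, u ^ 31 = 1 → ∃ n : ZMod 31, E n = Additive.ofMul u := by
  obtain ⟨zu, hzu⟩ : ∃ zu : Fˣ, (zu : F) = z := ⟨hz.isUnit (by norm_num) |>.unit, rfl⟩
  have hzu31 : IsPrimitiveRoot zu 31 := by
    rw [← IsPrimitiveRoot.coe_units_iff, hzu]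
    exact hz
  let f : {f : ℤ →+ Additive Fˣ // f (31 : ℕ) = 0} := ⟨zmultiplesHom (Additive Fˣ) (Additive.ofMul zu), by
    rw [zmultiplesHom_apply, ← ofMul_zpow, zpow_natCast, hzu31.pow_eq_one, ofMul_one]⟩
  have hE : ∀ m : ℤ, ZMod.lift 31 f (m : ZMod 31) = Additive.ofMul (zu ^ m) := by
    intro m
    rw [ZMod.lift_coe]
    change zmultiplesHom (Additive Fˣ) (Additive.ofMul zu) m = _
    rw [zmultiplesHom_apply, ← ofMul_zpow]
  refine ⟨zu, ZMod.lift 31 f, hzu, ?_, hE, ?_⟩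
  · rw [injective_iff_map_eq_zero]
    intro n hn
    obtain ⟨m, rfl⟩ := ZMod.intCast_surjective n
    rw [hE] at hn
    have h1 : zu ^ m = 1 := Additive.ofMul.injective hn
    rw [hzu31.zpow_eq_one_iff_dvd] at h1
    exact (ZMod.intCast_zmod_eq_zero_iff_dvd m 31).2 h1
  · intro u hu
    have h1 : (u : F) ^ 31 = 1 := by
      rw [← Units.val_pow_eq_pow_val, hu, Units.val_one]
    obtain ⟨i, _, hi⟩ := hz.eq_pow_of_pow_eq_one h1
    refine ⟨((i : ℤ) : ZMod 31), ?_⟩
    rw [hE]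
    congr 1
    apply Units.ext
    rw [zpow_natCast, Units.val_pow_eq_pow_val, hzu, hi]

private theorem gom_core {F : Type} [Field F] [CharZero F] {z : F} (hz : IsPrimitiveRoot z 31) (D : Submodule ℤ L)
    (hD : Module.finrank ℤ D = 8) (g : L ≃ₗ⁅ℤ⁆ L) (hg : ∀ x, g^[31] x = x) (hg1 : ∃ x, g x ≠ x) (hgD : ∀ x ∈ D, g x = x)
    (f₁ : F ⊗[ℤ] L ≃ₗ⁅F⁆ Chev F) (hf₁ : ∀ x ∈ D, (f₁ (1 ⊗ₜ x)).x = 0) (τ : F ≃+* F) (hτ : τ z = z ^ 3) :
    ∃ f : F ⊗[ℤ] L ≃ₗ⁅F⁆ Chev F, (∀ x ∈ D, (f (1 ⊗ₜ x)).x = 0) ∧ ∀ y : L, f (1 ⊗ₜ g y) = gz z (f (1 ⊗ₜ y)) := by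
  obtain ⟨zu, E, hzu, hEinj, hE, hEsurj⟩ := exists_char hz
  obtain ⟨u, hu⟩ := lin_of D hD f₁ hf₁ g hgD
  set G : Chev F → Chev F := mono (RingHom.id F) (AddEquiv.refl Lat) isIsom_refl
    (fun a => (u (Multiplicative.ofAdd a.1) : F)) with hG
  have hG1 : ∀ w, f₁ (cG F (g : L →ₗ⁅ℤ⁆ L) w) = G (f₁ w) := by
    intro w
    rw [← hu (f₁ w)]
    congr 2
    exact (f₁.symm_apply_apply w).symm
  have hGe : ∀ (c : F) (a : Root), G (c • e a) = (c * (u (Multiplicative.ofAdd a.1) : F)) • e a := by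
    intro c a
    rw [hG, mono_smul, mono_e, RingHom.id_apply, smul_smul]
    rfl
  -- order 31
  have hu31 : ∀ a : Root, (u (Multiplicative.ofAdd a.1)) ^ 31 = 1 := by
    intro a
    have h1 : ∀ n : ℕ, f₁ ((cG F (g : L →ₗ⁅ℤ⁆ L))^[n] (f₁.symm (e a))) =
        ((u (Multiplicative.ofAdd a.1) : F) ^ n) • e a := by
      intro n
      induction n with
      | zero => 
        rw [Function.iterate_zero, id_eq, pow_zero, one_smul]
        exact f₁.apply_symm_apply _
      | succ n ih => rw [Function.iterate_succ_apply', hG1, ih, hGe, pow_succ]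
    have h2 := h1 31
    rw [cG_iter g 31 hg] at h2
    have h3 : f₁ (f₁.symm (e a)) = e a := f₁.apply_symm_apply _
    rw [h3] at h2
    have h4 := congrFun (congrArg Chev.x h2) a
    simp only [e_x, smul_x, Pi.smul_apply, Pi.single_eq_same, smul_eq_mul, mul_one] at h4
    apply Units.ext
    rw [Units.val_pow_eq_pow_val, Units.val_one]
    exact h4.symm
  -- the functional r
  choose n hn using fun i => hEsurj _ (hu31 (sr i))
  let r : Lat →+ ZMod 31 :=
    { toFun := fun x => ∑ i, (x i : ZMod 31) * n i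
      map_zero' := by simp
      map_add' := fun x y => by
        simp only [Pi.add_apply, Int.cast_add, add_mul, Finset.sum_add_distrib] }
  have hral : ∀ i, r (al i) = n i := by
    intro i
    change ∑ j, ((al i) j : ZMod 31) * n j = n i
    rw [Finset.sum_eq_single i]
    · simp [al]
    · intro j _ hj
      simp [al, hj]
    · intro h
      exact absurd (Finset.mem_univ _) h
  have hEr : ∀ x : Lat, E (r x) = Additive.ofMul (u (Multiplicative.ofAdd x)) := by
    have h1 : E.comp r = (MonoidHom.toAdditive u).comp (AddEquiv.additiveMultiplicative Lat).symm.toAddMonoidHom := by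
      refine lat_hom_ext _ _ fun i => ?_
      change E (r (al i)) = _
      rw [hral, hn]
      rfl
    intro x
    exact DFunLike.congr_fun h1 x
  have hr : r ≠ 0 := by
    intro h0
    obtain ⟨x, hx⟩ := hg1
    apply hx
    have h1 : ∀ a : Root, (u (Multiplicative.ofAdd a.1) : F) = 1 := by
      intro a
      have h2 := hEr a.1
      rw [h0, AddMonoidHom.zero_apply, map_zero] at h2
      have h3 : u (Multiplicative.ofAdd a.1) = 1 := Additive.ofMul.injective h2.symm
      rw [h3, Units.val_one]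
    have h2 : ∀ y, G y = y := by
      intro y
      ext i
      · rw [hG, mono_refl_h]
      · rw [hG, mono_refl_x, h1, one_mul]
    have h3 := hG1 (1 ⊗ₜ x)
    rw [h2, cG_tmul] at h3
    exact tmul_inj (f₁.injective h3)
  -- semilinear map
  obtain ⟨w₀, hw₀, k₀, hk₀, hT⟩ := semi_of D hD f₁ hf₁ τ
  have hT1 : ∀ w, f₁ (cT L (τ : F →+* F) w) = mono (τ : F →+* F) w₀ hw₀ k₀ (f₁ w) := by
    intro w
    rw [← hT (f₁ w)]
    congr 2
    exact (f₁.symm_apply_apply w).symm
  have hrw : ∀ x, r (w₀ x) = 3 * r x := by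
    have hroot : ∀ a : Root, r (w₀ a.1) = 3 * r a.1 := by
      intro a
      apply hEinj
      have h1 := congrArg f₁ (cT_cG (τ : F →+* F) (g : L →ₗ⁅ℤ⁆ L) (f₁.symm (e a)))
      rw [hT1, hG1, hG1, hT1] at h1
      have h3 : f₁ (f₁.symm (e a)) = e a := f₁.apply_symm_apply _
      rw [h3, mono_e] at h1
      have h4 : G (e a) = (u (Multiplicative.ofAdd a.1) : F) • e a := by
        rw [hG, mono_e]
        rfl
      rw [h4, hGe, mono_smul, mono_e, smul_smul] at h1
      have h5 := congrFun (congrArg Chev.x h1) (onRoot w₀ hw₀ a)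
      simp only [e_x, smul_x, Pi.smul_apply, Pi.single_eq_same, smul_eq_mul, mul_one, onRoot_val] at h5
      rw [mul_comm (k₀ a)] at h5
      have hk : k₀ a ≠ 0 := left_ne_zero_of_mul_eq_one (hk₀.neg a)
      have h6 := mul_right_cancel₀ hk h5
      -- τ (u a) = (u a)^3
      obtain ⟨m, hm⟩ := ZMod.intCast_surjective (r a.1)
      have h7 : u (Multiplicative.ofAdd a.1) = zu ^ m := by
        have h8 := hEr a.1
        rw [← hm, hE] at h8
        exact (Additive.ofMul.injective h8).symm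
      have h9 : (τ : F →+* F) (u (Multiplicative.ofAdd a.1) : F) = ((u (Multiplicative.ofAdd a.1)) ^ 3 : Fˣ) := by
        rw [h7]
        rw [Units.val_zpow_eq_zpow_val, hzu, map_zpow₀, Units.val_pow_eq_pow_val, Units.val_zpow_eq_zpow_val, hzu]
        change (τ z) ^ m = _
        rw [hτ, ← zpow_natCast, ← zpow_natCast, ← zpow_mul, ← zpow_mul, mul_comm]
      rw [h9] at h6
      have h10 : u (Multiplicative.ofAdd (w₀ a.1)) = u (Multiplicative.ofAdd a.1) ^ 3 := Units.ext h6.symm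
      rw [hEr, h10, ofMul_pow, ← hEr]
      have h11 : (3 : ZMod 31) * r a.1 = 3 • r a.1 := by
        rw [nsmul_eq_mul]
        norm_num
      rw [h11, map_nsmul]
    have h1 : r.comp w₀.toAddMonoidHom = (AddMonoidHom.mulLeft (3 : ZMod 31)).comp r :=
      lat_hom_ext _ _ fun i => hroot (sr i)
    intro x
    exact DFunLike.congr_fun h1 x
  obtain ⟨v, hv, hvr⟩ := kac r (regular w₀ hw₀ r hr hrw)
  obtain ⟨η, hη⟩ := exists_lift v.symm hv.symm
  have hk := isCoc_lift (S := F) v.symm η hη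
  refine ⟨f₁.trans (monoEquiv v.symm hv.symm _ hk), ?_, ?_⟩
  · intro x hx
    rw [LieEquiv.trans_apply, monoEquiv_apply]
    funext a
    simp only [mono, hf₁ x hx, Pi.zero_apply, map_zero, mul_zero]
  · intro y
    rw [LieEquiv.trans_apply, LieEquiv.trans_apply, monoEquiv_apply, monoEquiv_apply]
    have h1 : f₁ (1 ⊗ₜ g y) = G (f₁ (1 ⊗ₜ y)) := by
      rw [← hG1, cG_tmul]
      rfl
    rw [h1]
    ext i
    · simp only [mono, gz]
      rw [hG, mono_refl_h]
    · simp only [mono, gz]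
      rw [hG, mono_refl_x]
      have h2 : (((onRoot v.symm hv.symm).symm i).1 : Lat) = v i.1 := rfl
      have h3 : u (Multiplicative.ofAdd (v i.1)) = zu ^ (ht i.1) := by
        have h4 := hEr (v i.1)
        rw [hvr, hE] at h4
        exact (Additive.ofMul.injective h4).symm
      rw [h2, h3, Units.val_zpow_eq_zpow_val, hzu]
      simp only [RingHom.id_apply]
      ring

theorem exists_gom (hL : IsLat L B) (g : L ≃ₗ⁅ℤ⁆ L) (hg : ∀ x, g^[31] x = x) (hg1 : ∃ x, g x ≠ x) :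
    ∃ (D : Submodule ℤ L) (f : Om ⊗[ℤ] L ≃ₗ⁅Om⁆ Chev Om), Module.finrank ℤ D = 8 ∧ (∀ x ∈ D, g x = x) ∧
      (∀ x ∈ D, (f (1 ⊗ₜ x)).x = 0) ∧ ∀ y : L, f (1 ⊗ₜ g y) = gz (algebraMap K Om ζ) (f (1 ⊗ₜ y)) := by
  obtain ⟨D, hgD, _, _, hD, fC, hfC⟩ := exists_cartanG hL g hg
  obtain ⟨f₁, hf₁⟩ := iso_descend (Ω := Om) fC (D : Set L) hfC
  have hz : IsPrimitiveRoot (algebraMap K Om ζ) 31 :=
    Helper2.E8A.hζ.map_of_injective (algebraMap K Om).injective
  have hτ : IsAlgClosure.equivOfEquiv Om Om (σ : K ≃+* K) (algebraMap K Om ζ) = (algebraMap K Om ζ) ^ 3 := by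
    rw [IsAlgClosure.equivOfEquiv_algebraMap, ← map_pow]
    exact congrArg _ σ_ζ'
  obtain ⟨f, hf, hfg⟩ := gom_core hz D hD g hg hg1 hgD f₁ hf₁ _ hτ
  exact ⟨D, f, hD, hgD, hf, hfg⟩

end Pool.Agent.Helper73.E8
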