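import Pool.Agent.Helper73.E8.Roots

/-!
# Isometries of the lattice of type E8, the special isometry `W` (a Coxeter element)
-/

set_option autoImplicit false

namespace Pool.Agent.Helper73.E8

/-- `w` is an isometry. -/
def IsIsom (w : Lat ≃+ Lat) : Prop := ∀ x y, ip (w x) (w y) = ip x y

/-- The action of an isometry on the roots. -/
def onRoot (w : Lat ≃+ Lat) (hw : IsIsom w) : Root ≃ Root where
  toFun a := ⟨w a.1, by rw [hw]; exact a.2⟩
  invFun a := ⟨w.symm a.1, by rw [← hw, w.apply_symm_apply]; exact a.2⟩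
  left_inv a := root_ext (w.symm_apply_apply a.1)
  right_inv a := root_ext (w.apply_symm_apply a.1)

@[simp] theorem onRoot_val (w : Lat ≃+ Lat) (hw : IsIsom w) (a : Root) : (onRoot w hw a).1 = w a.1 := rfl

theorem IsIsom.symm {w : Lat ≃+ Lat} (hw : IsIsom w) : IsIsom w.symm := fun x y => by
  rw [← hw, w.apply_symm_apply, w.apply_symm_apply]

theorem IsIsom.trans {w w' : Lat ≃+ Lat} (hw : IsIsom w) (hw' : IsIsom w') : IsIsom (w.trans w') := fun x y => by
  rw [AddEquiv.trans_apply, AddEquiv.trans_apply, hw', hw]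

/-- Images of the simple roots under `W` (the roots of height 3 mod 31). -/
def Wmat : Fin 8 → Lat :=
  ![![0, 0, 0, 1, 1, 1, 0, 0],
    ![-2, -3, -4, -6, -5, -4, -3, -1],
    ![0, 1, 1, 1, 0, 0, 0, 0],
    ![0, 0, 0, 0, 1, 1, 1, 0],
    ![1, 0, 1, 1, 0, 0, 0, 0],
    ![0, 1, 0, 1, 1, 0, 0, 0],
    ![0, 0, 0, 0, 0, 1, 1, 1],
    ![0, 0, 1, 1, 1, 0, 0, 0]]

/-- Images of the simple roots under the inverse of `W`. -/
def Wimat : Fin 8 → Lat :=
  ![![-1, -1, -2, -2, -1, -1, -1, -1],
    ![-1, -1, -1, -2, -2, -1, -1, -1],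
    ![-1, -1, -1, -2, -2, -2, -1, 0],
    ![2, 2, 3, 4, 4, 3, 2, 1],
    ![-1, -1, -2, -2, -2, -1, -1, 0],
    ![0, -1, -1, -2, -2, -2, -1, -1],
    ![1, 2, 3, 5, 4, 3, 2, 1],
    ![-1, -1, -2, -3, -2, -1, 0, 0]]

theorem Wmat_Wimat (i j : Fin 8) : ∑ k, Wmat i k * Wimat k j = if i = j then 1 else 0 := by
  revert i j; decide

theorem Wimat_Wmat (i j : Fin 8) : ∑ k, Wimat i k * Wmat k j = if i = j then 1 else 0 := by
  revert i j; decide

/-- The isometry with `ht (W x) = 3 ht x` modulo 31; a Coxeter element. -/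
def W : Lat ≃+ Lat where
  toFun x := fun j => ∑ i, x i * Wmat i j
  invFun x := fun j => ∑ i, x i * Wimat i j
  left_inv x := by
    funext j
    simp only [Finset.sum_mul, mul_assoc]
    rw [Finset.sum_comm]
    simp only [← Finset.mul_sum, Wmat_Wimat]
    simp
  right_inv x := by
    funext j
    simp only [Finset.sum_mul, mul_assoc]
    rw [Finset.sum_comm]
    simp only [← Finset.mul_sum, Wimat_Wmat]
    simp
  map_add' x y := by
    funext j
    simp only [Pi.add_apply, add_mul, Finset.sum_add_distrib]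

theorem W_apply (x : Lat) (j : Fin 8) : W x j = ∑ i, x i * Wmat i j := rfl

theorem W_isom : IsIsom W := by
  intro x y
  simp only [ip, W_apply, Fin.sum_univ_eight, Wmat, CartanMatrix.E₈]
  simp
  ring

theorem ht_W (x : Lat) : ((ht (W x) : ℤ) : ZMod 31) = 3 * (ht x : ℤ) := by
  have h : ht (W x) = 3 * ht x - 31 * x 1 := by
    simp only [ht, W_apply, Fin.sum_univ_eight, Wmat]
    simp
    ring
  rw [h]
  push_cast
  have h31 : (31 : ZMod 31) = 0 := by decide
  rw [h31]
  ring

theorem lat_hom_ext {M : Type*} [AddCommGroup M] (f g : Lat →+ M) (h : ∀ i, f (al i) = g (al i)) : f = g := by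
  refine AddMonoidHom.functions_ext _ _ _ fun i x => ?_
  have h1 : (Pi.single i x : Lat) = x • al i := by
    unfold al
    rw [← Pi.single_smul, smul_eq_mul, mul_one]
  rw [h1, map_zsmul, map_zsmul, h]

/-- The powers of `W` as homomorphisms. -/
def Wpow (k : ℕ) : Lat →+ Lat where
  toFun := W^[k]
  map_zero' := by
    induction k with
    | zero => rfl
    | succ n ih => rw [Function.iterate_succ_apply', ih, map_zero]
  map_add' x y := by
    induction k with
    | zero => rfl
    | succ n ih => rw [Function.iterate_succ_apply', ih, map_add, ← Function.iterate_succ_apply' W,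
        ← Function.iterate_succ_apply' W]

theorem Wpow_apply (k : ℕ) (x : Lat) : Wpow k x = W^[k] x := rfl

theorem W_phi (x : Lat) : W^[8] x + W^[7] x - W^[5] x - W^[4] x - W^[3] x + W x + x = 0 := by
  have h : Wpow 8 + Wpow 7 - Wpow 5 - Wpow 4 - Wpow 3 + Wpow 1 + Wpow 0 = 0 :=
    lat_hom_ext _ _ fun i => by fin_cases i <;> decide
  exact DFunLike.congr_fun h x

theorem W_fifteen (x : Lat) : W^[15] x = -x := by
  have h : Wpow 15 = -AddMonoidHom.id Lat :=
    lat_hom_ext _ _ fun i => by fin_cases i <;> decide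
  exact DFunLike.congr_fun h x

end Pool.Agent.Helper73.E8
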