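import Pool.Agent.Helper73.E8.Base

/-!
# Block E8-JAC: the Chevalley algebra of type E8 is a Lie algebra

`brk_self` and `jacobi` for the bracket `brk` of `Base.lean`, over every commutative ring `R`.

Proof of `brk_self`: Cartan part `- ∑ a, a_i x_a x_(-a)`: the involution `a ↦ -a` changes the sign of the summand
(`Finset.sum_involution`-like, or: sum = - sum termwise after reindexing is NOT enough in characteristic 2, so pair
`a` with `-a`: use `Finset.sum_involution` with the non-zero fixed point free involution `a ↦ -a`, `a ≠ -a`).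
Root part at `c`: `pr h c * x_c - pr h c * x_c = 0` and in the double sum the involution `(a, b) ↦ (b, a)` on pairs
with `a + b = c`: if `a + b = c` is a root then `(a, b) = -1` (from `2 = (c, c) = 2 + 2 + 2 (a, b)`), so
`eps a b = - eps b a` (`eps_mul_eps`), and `a ≠ b` (`(a, a) = 2 ≠ -1`).

Proof of `jacobi`: all three terms are trilinear (`add_brk`, `brk_add`, `brk_smul`, and `smul_brk` from antisymmetry),
and every element is the finite sum `∑ i, h_i • t(α_i) + ∑ a, x_a • e_a`; so it suffices to check basis vectors.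
First compute on basis vectors (`t v` = lattice vector in the Cartan part, `e a` = root vector):
`[t v, t w] = 0`, `[t v, e a] = (v, a) e a`, `[e a, e b] = eps(a, b) e (a + b)` if `a + b` is a root,
`= - t a` if `b = -a`, `= 0` otherwise.
Jacobi `[x,[y,z]] = [[x,y],z] + [y,[x,z]]` for (t, t, t): 0 = 0; (t, t, e): commutativity of multiplication; (t, e, e):
additivity of `(v, ·)` (and `[t v, t a] = 0` if the sum is 0); the other orders of arguments follow from antisymmetry.
(e a, e b, e c): put `s = a + b + c`. If `s` is not a root and not 0 all terms vanish. If `s = 0`: `a + b = -c` is a root,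
`(a,b) = (b,c) = (c,a) = -1`, and `eps(b,c) = eps(b, -a-b) = eps(b,a) eps(b,b) = - eps(b,a) = eps(a,b)`; the cyclic sum is
`- (eps(b,c) a + eps(c,a) b + eps(a,b) c) = - eps(a,b) (a + b + c) = 0`.
If `s` is a root: `(a,b) + (b,c) + (c,a) = -2` with each of the three in `{-2,...,2}` (Cauchy-Schwarz: a ± b has norm >= 0).
 (i) some of them is -2, say `b = -a`, then `s = c`: check `(a,c) = -2, -1, 0, 1, 2`.
 (ii) none is -2: then up to order they are `-1, -1, 0` (three numbers in {-1,0,1,2} with sum -2 are (-1,-1,0); (-1,-1,0)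
 is the only possibility, as 2 or 1 would need another one <= -2). If `(a,b) = (b,c) = -1, (a,c) = 0` then `a + c` has norm 4,
 `[e a, e c] = 0`, and `eps(b,c) eps(a,b+c) + eps(a,b) eps(c,a+b) = 0` because `eps(a,c) = eps(c,a)` and
 `eps(b,c) = - eps(c,b)`.
It is convenient to define `E : Lat → Chev R`, `E v = e v` if `v` is a root, `0` otherwise, and to prove the formula
`[E a, E b] = eps a b • (E (a + b) or - ... t a)`.
Helper lemmas: private or with names of your own.
-/

set_option autoImplicit false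

namespace Pool.Agent.Helper73.E8.Chev

variable {R : Type*} [CommRing R]

/-! ### Norms and signs -/

private theorem ip_add_self68 (a b : Lat) : ip (a + b) (a + b) = ip a a + ip b b + 2 * ip a b := by
  rw [ip_add_left, ip_add_right, ip_add_right, ip_comm b a]
  ring

private theorem ip_of_add68 {a b : Lat} (ha : ip a a = 2) (hb : ip b b = 2) :
    ip (a + b) (a + b) = 2 ↔ ip a b = -1 := by
  rw [ip_add_self68, ha, hb]
  omega

private theorem add_eq_zero68 {a b : Lat} (ha : ip a a = 2) (hb : ip b b = 2) :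
    a + b = 0 ↔ ip a b = -2 := by
  constructor
  · intro h
    have h1 := ip_add_self68 a b
    rw [h, ha, hb] at h1
    have h2 : ip (0 : Lat) 0 = 0 := by simp [ip]
    omega
  · intro h
    apply ip_self_eq_zero
    rw [ip_add_self68, ha, hb, h]
    norm_num

private theorem ip_bound68 {a b : Lat} (ha : ip a a = 2) (hb : ip b b = 2) :
    -2 ≤ ip a b ∧ ip a b ≤ 2 := by
  have h1 := ip_nonneg (a + b)
  have h2 := ip_nonneg (a + -b)
  rw [ip_add_self68] at h1 h2
  rw [ip_neg_left, ip_neg_right, ip_neg_right] at h2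
  omega

private theorem ne_neg68 (a : Root) : -a ≠ a := by
  intro h
  have h1 : -a.1 = a.1 := congrArg Subtype.val h
  have h2 : ip (-a.1) a.1 = 2 := by rw [h1]; exact a.2
  have h3 := a.2
  rw [ip_neg_left] at h2
  omega

/-- The sign as an integer. -/
private def sg68 (n : ℤ) : ℤ := ((n.negOnePow : ℤˣ) : ℤ)

private theorem sg_swap68 (a b : Lat) :
    ((eps b a : ℤˣ) : ℤ) = sg68 (ip a b) * ((eps a b : ℤˣ) : ℤ) := by
  unfold sg68
  rw [← Units.val_mul, ← eps_mul_eps a b]
  congr 1
  rw [mul_right_comm, Int.units_mul_self, one_mul]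

private theorem sg_even68 {n : ℤ} (h : Even n) : sg68 n = 1 := by
  unfold sg68
  rw [Int.negOnePow_even _ h]
  rfl

private theorem sg_odd68 {n : ℤ} (h : Odd n) : sg68 n = -1 := by
  unfold sg68
  rw [Int.negOnePow_odd _ h]
  rfl

private theorem eps_self68 {a : Lat} (ha : ip a a = 2) : eps a a = -1 := by
  unfold eps
  have h := two_be_self a
  rw [ha] at h
  have h1 : be a a = 1 := by omega
  rw [h1]
  rfl

private theorem eps_anti68 {a b : Lat} (h : ip a b = -1) :
    ((eps b a : ℤˣ) : ℤ) = - ((eps a b : ℤˣ) : ℤ) := by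
  rw [sg_swap68, h, sg_odd68 (by decide)]
  ring

theorem brk_self (y : Chev R) : ⁅y, y⁆ = 0 := by
  classical
  apply Chev.ext
  · funext i
    rw [brk_h, zero_h, Pi.zero_apply, neg_eq_zero]
    refine Finset.sum_involution (fun a _ => -a) (fun a _ => ?_) (fun a _ _ => ne_neg68 a)
      (fun a _ => Finset.mem_univ _) (fun a _ => neg_neg a)
    rw [neg_neg, neg_val, Pi.neg_apply, Int.cast_neg]
    ring
  · funext c
    rw [brk_x, zero_x, Pi.zero_apply, sub_self, zero_add, ← Fintype.sum_prod_type']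
    refine Finset.sum_involution (fun p _ => p.swap) (fun p _ => ?_) (fun p _ hp => ?_)
      (fun p _ => Finset.mem_univ _) (fun p _ => Prod.swap_swap p)
    · obtain ⟨a, b⟩ := p
      simp only [Prod.swap_prod_mk]
      by_cases h : a.1 + b.1 = c.1
      · rw [if_pos h, if_pos (by rw [add_comm]; exact h)]
        have h1 : ip a.1 b.1 = -1 := (ip_of_add68 a.2 b.2).1 (by rw [h]; exact c.2)
        rw [eps_anti68 h1, Int.cast_neg]
        ring
      · rw [if_neg h, if_neg (by rw [add_comm]; exact h), add_zero]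
    · obtain ⟨a, b⟩ := p
      intro h
      apply hp
      rw [Prod.swap_prod_mk] at h
      have h1 : b = a := congrArg Prod.fst h
      subst h1
      refine if_neg fun h2 => ?_
      have h3 := ip_add_self68 b.1 b.1
      rw [h2, c.2, b.2] at h3
      omega

/-! ### Linearity -/

private theorem brk_anti68 (y z : Chev R) : ⁅z, y⁆ = -⁅y, z⁆ := by
  have h := brk_self (y + z)
  rw [add_brk, brk_add, brk_add, brk_self, brk_self, zero_add, add_zero] at h
  exact eq_neg_of_add_eq_zero_right h

private theorem smul_brk68 (r : R) (y z : Chev R) : ⁅r • y, z⁆ = r • ⁅y, z⁆ := by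
  rw [brk_anti68 z, brk_smul, brk_anti68 y z, smul_neg, neg_neg]

private theorem zero_brk68 (z : Chev R) : ⁅(0 : Chev R), z⁆ = 0 := by
  have h := smul_brk68 (0 : R) (0 : Chev R) z
  rwa [zero_smul, zero_smul] at h

private theorem brk_zero68 (z : Chev R) : ⁅z, (0 : Chev R)⁆ = 0 := by
  rw [brk_anti68 0, zero_brk68, neg_zero]

private theorem brk_neg68 (y z : Chev R) : ⁅y, -z⁆ = -⁅y, z⁆ := by
  have h := brk_smul (-1 : R) y z
  rwa [neg_one_smul, neg_one_smul] at h

private theorem neg_brk68 (y z : Chev R) : ⁅-y, z⁆ = -⁅y, z⁆ := by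
  rw [brk_anti68 z, brk_neg68, brk_anti68 y z, neg_neg]

private theorem brk_sub68 (y z w : Chev R) : ⁅y, z - w⁆ = ⁅y, z⁆ - ⁅y, w⁆ := by
  rw [sub_eq_add_neg, brk_add, brk_neg68, ← sub_eq_add_neg]

/-! ### Basis vectors -/

variable (R) in
private def T68 (v : Lat) : Chev R := ⟨fun i => (v i : R), 0⟩

variable (R) in
private def E68 (v : Lat) : Chev R := ⟨0, fun c => if v = c.1 then 1 else 0⟩

private theorem E_zero68 {v : Lat} (h : ip v v ≠ 2) : E68 R v = 0 := by
  unfold E68
  apply Chev.ext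
  · rfl
  · funext c
    have h1 : v ≠ c.1 := fun h1 => h (by rw [h1]; exact c.2)
    simp [h1]

private theorem T_add68 (v w : Lat) : T68 R (v + w) = T68 R v + T68 R w := by
  unfold T68
  apply Chev.ext
  · funext i
    simp
  · simp

private theorem T_zero68 : T68 R 0 = 0 := by
  unfold T68
  apply Chev.ext
  · funext i
    simp
  · rfl

private theorem brk_TT68 (v w : Lat) : ⁅T68 R v, T68 R w⁆ = 0 := by
  apply Chev.ext
  · funext i
    rw [brk_h]
    simp [T68]
  · funext c
    rw [brk_x]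
    simp [T68]

private theorem brk_TE68 (v a : Lat) : ⁅T68 R v, E68 R a⁆ = (ip v a : R) • E68 R a := by
  apply Chev.ext
  · funext i
    rw [brk_h]
    simp [T68, E68]
  · funext c
    rw [brk_x]
    have h1 : pr (T68 R v).h c.1 = (ip v c.1 : R) := pr_intCast v c.1
    rw [h1]
    by_cases h : a = c.1
    · simp [T68, E68, h]
    · simp [T68, E68, h]

private theorem brk_ET68 (v a : Lat) : ⁅E68 R a, T68 R v⁆ = -((ip v a : R) • E68 R a) := by
  rw [brk_anti68 (T68 R v), brk_TE68]

private theorem brk_EE68 (a b : Root) : ⁅E68 R a.1, E68 R b.1⁆ =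
    (((eps a.1 b.1 : ℤˣ) : ℤ) : R) • E68 R (a.1 + b.1) -
      (if a.1 + b.1 = 0 then T68 R a.1 else 0) := by
  classical
  apply Chev.ext
  · funext i
    rw [brk_h, Finset.sum_eq_single a]
    · by_cases h : a.1 + b.1 = 0
      · have h1 : b.1 = (-a).1 := by
          rw [neg_val]
          exact eq_neg_of_add_eq_zero_right h
        simp [E68, T68, h1]
      · have h1 : b.1 ≠ -a.1 := by
          intro h1
          exact h (by rw [h1, add_neg_cancel])
        simp [E68, h, h1]
    · intro a' _ h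
      have h1 : a.1 ≠ a'.1 := fun h1 => h (root_ext h1.symm)
      simp [E68, h1]
    · intro h
      exact absurd (Finset.mem_univ _) h
  · funext c
    rw [brk_x, Finset.sum_eq_single a, Finset.sum_eq_single b]
    · by_cases h : a.1 + b.1 = 0
      · have h1 : (0 : Lat) ≠ c.1 := by
          intro h1
          have h2 := c.2
          rw [← h1] at h2
          simp [ip] at h2
        simp [E68, T68, h, h1]
      · by_cases h1 : a.1 + b.1 = c.1
        · have h2 : c.1 ≠ 0 := by rw [← h1]; exact h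
          simp [E68, h1, h2]
        · simp [E68, h, h1]
    · intro b' _ h
      have h1 : b.1 ≠ b'.1 := fun h1 => h (root_ext h1.symm)
      simp [E68, h1]
    · intro h
      exact absurd (Finset.mem_univ _) h
    · intro a' _ h
      have h1 : a.1 ≠ a'.1 := fun h1 => h (root_ext h1.symm)
      simp [E68, h1]
    · intro h
      exact absurd (Finset.mem_univ _) h

private theorem decomp68 (y : Chev R) : y = ∑ i : Fin 8, y.h i • T68 R (Pi.single i 1) +
    ∑ a : Root, y.x a • E68 R a.1 := by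
  classical
  have hh : ∀ (s : Finset (Fin 8)) (f : Fin 8 → Chev R), (∑ i ∈ s, f i).h = ∑ i ∈ s, (f i).h := by
    intro s f
    induction s using Finset.induction_on with
    | empty => simp
    | insert i s hi ih => rw [Finset.sum_insert hi, Finset.sum_insert hi, add_h, ih]
  have hx : ∀ (s : Finset (Fin 8)) (f : Fin 8 → Chev R), (∑ i ∈ s, f i).x = ∑ i ∈ s, (f i).x := by
    intro s f
    induction s using Finset.induction_on with
    | empty => simp
    | insert i s hi ih => rw [Finset.sum_insert hi, Finset.sum_insert hi, add_x, ih]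
  have hh' : ∀ (s : Finset Root) (f : Root → Chev R), (∑ i ∈ s, f i).h = ∑ i ∈ s, (f i).h := by
    intro s f
    induction s using Finset.induction_on with
    | empty => simp
    | insert i s hi ih => rw [Finset.sum_insert hi, Finset.sum_insert hi, add_h, ih]
  have hx' : ∀ (s : Finset Root) (f : Root → Chev R), (∑ i ∈ s, f i).x = ∑ i ∈ s, (f i).x := by
    intro s f
    induction s using Finset.induction_on with
    | empty => simp
    | insert i s hi ih => rw [Finset.sum_insert hi, Finset.sum_insert hi, add_x, ih]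
  apply Chev.ext
  · funext j
    rw [add_h, hh, hh', Pi.add_apply, Finset.sum_apply, Finset.sum_apply,
      Finset.sum_eq_single j, Finset.sum_eq_zero]
    · simp [T68]
    · intro a _
      simp [E68]
    · intro i _ hij
      simp [T68, Pi.single_apply, hij.symm]
    · intro h
      exact absurd (Finset.mem_univ _) h
  · funext c
    rw [add_x, hx, hx', Pi.add_apply, Finset.sum_apply, Finset.sum_apply,
      Finset.sum_eq_zero, Finset.sum_eq_single c]
    · simp [E68]
    · intro a _ hac
      have h1 : a.1 ≠ c.1 := fun h1 => hac (root_ext h1)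
      simp [E68, h1]
    · intro h
      exact absurd (Finset.mem_univ _) h
    · intro i _
      simp [T68]

private theorem span68 {P : Chev R → Prop} (h0 : P 0) (hadd : ∀ x y, P x → P y → P (x + y))
    (hsmul : ∀ (r : R) (x : Chev R), P x → P (r • x)) (hT : ∀ v, P (T68 R v))
    (hE : ∀ a : Root, P (E68 R a.1)) (y : Chev R) : P y := by
  rw [decomp68 y]
  refine hadd _ _ ?_ ?_
  · exact Finset.sum_induction _ P hadd h0 fun i _ => hsmul _ _ (hT _)
  · exact Finset.sum_induction _ P hadd h0 fun a _ => hsmul _ _ (hE _)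

/-! ### The Jacobi identity -/

private def Jac68 (y z w : Chev R) : Prop := ⁅y, ⁅z, w⁆⁆ = ⁅⁅y, z⁆, w⁆ + ⁅z, ⁅y, w⁆⁆

private theorem swap12_68 {y z w : Chev R} (h : Jac68 y z w) : Jac68 z y w := by
  unfold Jac68 at h ⊢
  rw [h, brk_anti68 y z, neg_brk68]
  abel

private theorem swap23_68 {y z w : Chev R} (h : Jac68 y z w) : Jac68 y w z := by
  unfold Jac68 at h ⊢
  rw [brk_anti68 z w, brk_neg68, h, brk_anti68 w ⁅y, z⁆, brk_anti68 ⁅y, w⁆ z]
  abel

private theorem jac_add68 {y y' z w : Chev R} (h : Jac68 y z w) (h' : Jac68 y' z w) :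
    Jac68 (y + y') z w := by
  unfold Jac68 at h h' ⊢
  rw [add_brk, h, h', add_brk, add_brk, add_brk, brk_add]
  abel

private theorem jac_smul68 (r : R) {y z w : Chev R} (h : Jac68 y z w) : Jac68 (r • y) z w := by
  unfold Jac68 at h ⊢
  rw [smul_brk68, h, smul_brk68, smul_brk68, smul_brk68, brk_smul, smul_add]

private theorem jac_zero68 (z w : Chev R) : Jac68 0 z w := by
  unfold Jac68
  simp only [zero_brk68, brk_zero68, add_zero]

private theorem jac_TTw68 (v u : Lat) (w : Chev R) : Jac68 (T68 R v) (T68 R u) w := by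
  have h : Jac68 w (T68 R v) (T68 R u) := by
    refine span68 (P := fun w => Jac68 w (T68 R v) (T68 R u)) (jac_zero68 _ _)
      (fun _ _ h h' => jac_add68 h h') (fun r _ h => jac_smul68 r h) ?_ ?_ w
    · intro x
      unfold Jac68
      rw [brk_TT68, brk_TT68, brk_TT68, brk_zero68, brk_zero68, zero_brk68, add_zero]
    · intro a
      unfold Jac68
      rw [brk_TT68, brk_ET68, brk_ET68, brk_zero68, neg_brk68, smul_brk68, brk_ET68, brk_neg68,
        brk_smul, brk_TE68, smul_neg, neg_neg, smul_smul, smul_smul, mul_comm, add_neg_cancel]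
  exact swap23_68 (swap12_68 h)

private theorem jac_TEE68 (v : Lat) (a b : Root) :
    Jac68 (T68 R v) (E68 R a.1) (E68 R b.1) := by
  unfold Jac68
  rw [brk_TE68, brk_TE68, smul_brk68, brk_smul, ← add_smul, brk_EE68, brk_sub68, brk_smul,
    brk_TE68, smul_sub, smul_smul, smul_smul, ← Int.cast_add, ← ip_add_right,
    mul_comm (ip v (a.1 + b.1) : R)]
  congr 1
  by_cases h : a.1 + b.1 = 0
  · rw [if_pos h, brk_TT68, h]
    have h1 : ip v 0 = 0 := by simp [ip]
    rw [h1, Int.cast_zero, zero_smul]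
  · rw [if_neg h, brk_zero68, smul_zero]

private theorem jac_T68 (v : Lat) (z w : Chev R) : Jac68 (T68 R v) z w := by
  have h1 : ∀ (a : Root) (w : Chev R), Jac68 w (T68 R v) (E68 R a.1) := by
    intro a w
    refine span68 (P := fun w => Jac68 w (T68 R v) (E68 R a.1)) (jac_zero68 _ _)
      (fun _ _ h h' => jac_add68 h h') (fun r _ h => jac_smul68 r h) ?_ ?_ w
    · intro u
      exact jac_TTw68 u v _
    · intro b
      exact swap12_68 (jac_TEE68 v b a)
  have h2 : Jac68 z (T68 R v) w := by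
    refine span68 (P := fun z => Jac68 z (T68 R v) w) (jac_zero68 _ _)
      (fun _ _ h h' => jac_add68 h h') (fun r _ h => jac_smul68 r h) ?_ ?_ z
    · intro u
      exact jac_TTw68 u v _
    · intro a
      exact swap12_68 (swap23_68 (swap12_68 (h1 a w)))
  exact swap12_68 h2

/-- The coefficient of the double bracket. -/
private def w68 (a b c : Lat) : ℤ :=
  (if ip b c = -1 then ((eps b c : ℤˣ) : ℤ) * ((eps a b : ℤˣ) : ℤ) * ((eps a c : ℤˣ) : ℤ) else 0) +
    (if ip b c = -2 then ip b a else 0)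

private theorem brk_EEE68 (a b c : Root) : ⁅E68 R a.1, ⁅E68 R b.1, E68 R c.1⁆⁆ =
    (w68 a.1 b.1 c.1 : R) • E68 R (a.1 + b.1 + c.1) -
      (if a.1 + b.1 + c.1 = 0 then (((eps b.1 c.1 : ℤˣ) : ℤ) : R) • T68 R a.1 else 0) := by
  rw [brk_EE68 b c, brk_sub68, brk_smul]
  unfold w68
  by_cases h1 : ip b.1 c.1 = -1
  · have h2 : b.1 + c.1 ≠ 0 := by
      rw [Ne, add_eq_zero68 b.2 c.2]
      omega
    have h3 : ip (b.1 + c.1) (b.1 + c.1) = 2 := (ip_of_add68 b.2 c.2).2 h1
    have h4 := brk_EE68 (R := R) a ⟨b.1 + c.1, h3⟩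
    simp only at h4
    have h1' : ¬ ip b.1 c.1 = -2 := by omega
    rw [h4, if_neg h2, if_pos h1, if_neg h1', brk_zero68, sub_zero, add_zero, smul_sub,
      smul_smul, add_assoc, eps_add_right, Units.val_mul]
    congr 1
    · congr 1
      push_cast
      ring
    · by_cases h5 : a.1 + (b.1 + c.1) = 0
      · rw [if_pos h5, if_pos h5]
      · rw [if_neg h5, if_neg h5, smul_zero]
  · have h3 : ip (b.1 + c.1) (b.1 + c.1) ≠ 2 := fun h => h1 ((ip_of_add68 b.2 c.2).1 h)
    have h6 : a.1 + b.1 + c.1 ≠ 0 := by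
      intro h6
      apply h3
      have h7 : b.1 + c.1 = -a.1 := by
        rw [add_assoc] at h6
        exact eq_neg_of_add_eq_zero_right h6
      rw [h7, ip_neg_left, ip_neg_right, neg_neg]
      exact a.2
    rw [E_zero68 h3, brk_zero68, smul_zero, if_neg h1, if_neg h6, zero_sub, sub_zero, zero_add]
    by_cases h2 : b.1 + c.1 = 0
    · rw [if_pos h2, if_pos ((add_eq_zero68 b.2 c.2).1 h2), brk_ET68, neg_neg, add_assoc, h2,
        add_zero]
    · rw [if_neg h2, if_neg (fun h => h2 ((add_eq_zero68 b.2 c.2).2 h)), brk_zero68, neg_zero,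
        Int.cast_zero, zero_smul]

private theorem eps_sq68 (a b : Lat) : ((eps a b : ℤˣ) : ℤ) * ((eps a b : ℤˣ) : ℤ) = 1 := by
  rw [← Units.val_mul, Int.units_mul_self]
  rfl

private theorem arith68 {p q r D : ℤ} (hp : -2 ≤ p ∧ p ≤ 2) (hq : -2 ≤ q ∧ q ≤ 2)
    (hr : -2 ≤ r ∧ r ≤ 2) (h : p + q + r = -2) (h1 : q = -2 → D = -1) (h2 : p = -2 → D = -1)
    (h3 : r = -2 → D = -sg68 p) :
    ((if q = -1 then D else 0) + (if q = -2 then p else 0)) +
      ((if p = -1 then sg68 r * sg68 q * D else 0) + (if p = -2 then r else 0)) -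
      ((if r = -1 then sg68 p * D else 0) + (if r = -2 then p else 0)) = 0 := by
  have e0 : sg68 0 = 1 := sg_even68 (by decide)
  have e1 : sg68 (-1) = -1 := sg_odd68 (by decide)
  have e2 : sg68 1 = -1 := sg_odd68 (by decide)
  have e3 : sg68 (-2) = 1 := sg_even68 (by decide)
  have e4 : sg68 2 = 1 := sg_even68 (by decide)
  obtain ⟨hp1, hp2⟩ := hp
  obtain ⟨hq1, hq2⟩ := hq
  obtain ⟨hr1, hr2⟩ := hr
  have hr' : r = -2 - p - q := by omega
  have hs : sg68 r = sg68 p * sg68 q := by
    rw [hr']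
    unfold sg68
    rw [Int.negOnePow_sub, Int.negOnePow_sub, Units.val_mul, Units.val_mul,
      Int.negOnePow_neg, Int.negOnePow_even 2 (by decide), Units.val_one, one_mul]
  rw [hs]
  interval_cases p <;> interval_cases q <;> (try (exfalso; omega)) <;>
    (subst hr'; norm_num [e0, e1, e2, e3, e4] at h1 h2 h3 ⊢) <;> omega

private theorem coef68 (a b c : Root) (hs : ip (a.1 + b.1 + c.1) (a.1 + b.1 + c.1) = 2) :
    w68 a.1 b.1 c.1 + w68 c.1 a.1 b.1 - w68 b.1 a.1 c.1 = 0 := by
  have hsum : ip a.1 b.1 + ip b.1 c.1 + ip a.1 c.1 = -2 := by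
    rw [ip_add_self68, ip_add_self68, a.2, b.2, c.2, ip_add_left] at hs
    omega
  have h := arith68 (D := ((eps a.1 b.1 : ℤˣ) : ℤ) * ((eps b.1 c.1 : ℤˣ) : ℤ) *
    ((eps a.1 c.1 : ℤˣ) : ℤ)) (ip_bound68 a.2 b.2) (ip_bound68 b.2 c.2) (ip_bound68 a.2 c.2) hsum
    ?_ ?_ ?_
  · unfold w68
    rw [ip_comm b.1 a.1, sg_swap68 a.1 c.1, sg_swap68 b.1 c.1, sg_swap68 a.1 b.1]
    refine Eq.trans ?_ h
    congr 1
    · congr 1
      · congr 1
        split_ifs <;> ring
      · congr 1
        split_ifs <;> ring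
    · congr 1
      split_ifs <;> ring
  · intro hq
    have h1 : c.1 = -b.1 := eq_neg_of_add_eq_zero_right ((add_eq_zero68 b.2 c.2).2 hq)
    rw [h1, eps_neg_right, eps_neg_right, eps_self68 b.2, mul_right_comm, eps_sq68]
    rfl
  · intro hp
    have h1 : b.1 = -a.1 := eq_neg_of_add_eq_zero_right ((add_eq_zero68 a.2 b.2).2 hp)
    rw [h1, eps_neg_right, eps_neg_left, eps_self68 a.2, mul_assoc, eps_sq68]
    rfl
  · intro hr
    have h1 : c.1 = -a.1 := eq_neg_of_add_eq_zero_right ((add_eq_zero68 a.2 c.2).2 hr)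
    rw [h1, eps_neg_right, eps_neg_right, eps_self68 a.2, sg_swap68 a.1 b.1]
    have h2 := eps_sq68 a.1 b.1
    calc ((eps a.1 b.1 : ℤˣ) : ℤ) * (sg68 (ip a.1 b.1) * ((eps a.1 b.1 : ℤˣ) : ℤ)) *
        (((-1 : ℤˣ)) : ℤ) = -(sg68 (ip a.1 b.1) *
          (((eps a.1 b.1 : ℤˣ) : ℤ) * ((eps a.1 b.1 : ℤˣ) : ℤ))) := by
          rw [Units.val_neg, Units.val_one]
          ring
      _ = -sg68 (ip a.1 b.1) := by rw [h2, mul_one]

private theorem jac_EEE68 (a b c : Root) : Jac68 (E68 R a.1) (E68 R b.1) (E68 R c.1) := by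
  unfold Jac68
  rw [brk_anti68 (E68 R c.1) ⁅E68 R a.1, E68 R b.1⁆, brk_EEE68 a b c, brk_EEE68 c a b,
    brk_EEE68 b a c]
  have e1 : c.1 + a.1 + b.1 = a.1 + b.1 + c.1 := by abel
  have e2 : b.1 + a.1 + c.1 = a.1 + b.1 + c.1 := by abel
  rw [e1, e2]
  by_cases h0 : a.1 + b.1 + c.1 = 0
  · have h00 : ip (0 : Lat) 0 ≠ 2 := by simp [ip]
    rw [if_pos h0, if_pos h0, if_pos h0, h0, E_zero68 h00, smul_zero, smul_zero, smul_zero,
      zero_sub, zero_sub, zero_sub, neg_neg]
    have ha : a.1 = -(b.1 + c.1) := by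
      rw [add_assoc] at h0
      exact eq_neg_of_add_eq_zero_left h0
    have hbc : ip b.1 c.1 = -1 := by
      refine (ip_of_add68 b.2 c.2).1 ?_
      have h1 := a.2
      rwa [ha, ip_neg_left, ip_neg_right, neg_neg] at h1
    have h1 : ((eps a.1 b.1 : ℤˣ) : ℤ) = ((eps b.1 c.1 : ℤˣ) : ℤ) := by
      rw [ha, eps_neg_left, eps_add_left, eps_self68 b.2, Units.val_mul, eps_anti68 hbc,
        Units.val_neg, Units.val_one]
      ring
    have h2 : ((eps a.1 c.1 : ℤˣ) : ℤ) = -((eps b.1 c.1 : ℤˣ) : ℤ) := by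
      rw [ha, eps_neg_left, eps_add_left, eps_self68 c.2, Units.val_mul, Units.val_neg,
        Units.val_one]
      ring
    have h3 : T68 R a.1 + T68 R b.1 + T68 R c.1 = 0 := by
      rw [← T_add68, ← T_add68, h0, T_zero68]
    have h4 : T68 R a.1 = -(T68 R b.1 + T68 R c.1) := by
      rw [add_assoc] at h3
      exact eq_neg_of_add_eq_zero_left h3
    rw [h1, h2, h4, Int.cast_neg, neg_smul, smul_neg, neg_neg, neg_neg, smul_add, add_comm]
  · rw [if_neg h0, if_neg h0, if_neg h0, sub_zero, sub_zero, sub_zero]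
    by_cases hs : ip (a.1 + b.1 + c.1) (a.1 + b.1 + c.1) = 2
    · have h1 := coef68 a b c hs
      have h2 : (w68 a.1 b.1 c.1 : R) = -(w68 c.1 a.1 b.1 : R) + (w68 b.1 a.1 c.1 : R) := by
        have h3 : w68 a.1 b.1 c.1 = -w68 c.1 a.1 b.1 + w68 b.1 a.1 c.1 := by linarith
        rw [h3]
        push_cast
        ring
      rw [h2, add_smul, neg_smul]
    · rw [E_zero68 hs, smul_zero, smul_zero, smul_zero, neg_zero, add_zero]

/-- Jacobi identity. -/
theorem jacobi (y z w : Chev R) : ⁅y, ⁅z, w⁆⁆ = ⁅⁅y, z⁆, w⁆ + ⁅z, ⁅y, w⁆⁆ := by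
  change Jac68 y z w
  have h1 : ∀ (b c : Root) (y : Chev R), Jac68 y (E68 R b.1) (E68 R c.1) := by
    intro b c y
    refine span68 (P := fun y => Jac68 y (E68 R b.1) (E68 R c.1)) (jac_zero68 _ _)
      (fun _ _ h h' => jac_add68 h h') (fun r _ h => jac_smul68 r h) ?_ ?_ y
    · intro u
      exact jac_T68 u _ _
    · intro a
      exact jac_EEE68 a b c
  have h2 : ∀ (c : Root) (y z : Chev R), Jac68 y z (E68 R c.1) := by
    intro c y z
    refine swap12_68 ?_
    refine span68 (P := fun z => Jac68 z y (E68 R c.1)) (jac_zero68 _ _)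
      (fun _ _ h h' => jac_add68 h h') (fun r _ h => jac_smul68 r h) ?_ ?_ z
    · intro u
      exact jac_T68 u _ _
    · intro b
      exact swap12_68 (h1 b c y)
  have h3 : Jac68 w y z := by
    refine span68 (P := fun w => Jac68 w y z) (jac_zero68 _ _)
      (fun _ _ h h' => jac_add68 h h') (fun r _ h => jac_smul68 r h) ?_ ?_ w
    · intro u
      exact jac_T68 u _ _
    · intro c
      exact swap12_68 (swap23_68 (h2 c y z))
  exact swap23_68 (swap12_68 h3)

end Pool.Agent.Helper73.E8.Chev
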