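import Mathlib

/-!
# Block E8-STR: a finite group which acts irreducibly on a unimodular lattice of rank `n`

`L` free of finite rank `n` over `Z`, `B` a symmetric bilinear form, unimodular (`L → Dual L` bijective), positive definite
over the reals; `F` a finite group, `ρ : F → Aut(L)` preserving `B`, `ℝ ⊗ L` has no invariant subspace except 0 and itself.
Then `n` divides `2 |F|`.

Proof. For `v ∈ L` let `S_v : L → L`, `S_v y = ∑_x B(ρ x v, y) ρ x v`. It commutes with all `ρ x` and is symmetric for `B`. Over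
the reals `S_v` is a symmetric operator of the Euclidean space `ℝ ⊗ L` (inner product = base change of `B`), so it has
a real eigenvalue `μ` (if `n > 0`); the eigenspace is `F`-invariant and non-zero, hence everything: `S_v = μ`.
`μ` is an integer: for a basis vector `b` of `L`, `μ (1 ⊗ b) = 1 ⊗ S_v b`, compare the coordinate at `b`. The trace gives
`n μ = ∑_x B(ρ x v, ρ x v) = |F| B(v, v)` (trace of `y ↦ B(w, y) w` is `B(w, w)`). So `n ∣ |F| B(v, v)` for all `v ∈ L`;
polarisation: `n ∣ 2 |F| B(v, w)` for all `v, w`; and `B(v, w) = 1` for some `v, w` (unimodular, `n > 0`: the first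
coordinate functional of a basis is `B v`, and it takes the value 1). For `n = 0`: `2 |F|` is divisible by 0 is false, so assume
`0 < n`. (To get an eigenvalue: `LinearMap.IsSymmetric` needs an inner product space structure; alternatively
diagonalise via matrices, or avoid it: maximise `B(S_v y, y) / B(y, y)` on the unit sphere.)
-/

set_option autoImplicit false

open scoped TensorProduct

namespace Pool.Agent.Helper73.E8

private theorem exists_eig88 {V : Type*} [AddCommGroup V] [Module ℝ V] [FiniteDimensional ℝ V] [Nontrivial V]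
    (Bf : LinearMap.BilinForm ℝ V) (hs : ∀ x y, Bf x y = Bf y x) (hp : ∀ x, x ≠ 0 → 0 < Bf x x)
    (S : V →ₗ[ℝ] V) (hS : ∀ x y, Bf (S x) y = Bf x (S y)) : ∃ μ : ℝ, ∃ x : V, x ≠ 0 ∧ S x = μ • x := by
  let core : InnerProductSpace.Core ℝ V :=
    { inner := fun x y => Bf x y
      conj_inner_symm := fun x y => by
        rw [RCLike.conj_to_real]
        exact hs y x
      re_inner_nonneg := fun x => by
        rw [RCLike.re_to_real]
        by_cases hx : x = 0
        · rw [hx]
          simp
        · exact (hp x hx).le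
      add_left := fun x y z => by
        show Bf (x + y) z = Bf x z + Bf y z
        rw [map_add, LinearMap.add_apply]
      smul_left := fun x y r => by
        rw [RCLike.conj_to_real]
        show Bf (r • x) y = r * Bf x y
        rw [map_smul, LinearMap.smul_apply, smul_eq_mul]
      definite := fun x hx => by
        by_contra hne
        exact (hp x hne).ne' hx }
  let _ : NormedAddCommGroup V := core.toNormedAddCommGroup
  let _ : InnerProductSpace ℝ V := InnerProductSpace.ofCore core.toCore
  have hsym : LinearMap.IsSymmetric S := fun x y => hS x y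
  obtain ⟨x, hx⟩ := (hsym.hasEigenvalue_iSup_of_finiteDimensional).exists_hasEigenvector
  exact ⟨_, x, hx.2, Module.End.mem_eigenspace_iff.1 hx.1⟩

theorem dvd_two_card {L : Type*} [AddCommGroup L] [Module.Free ℤ L] [Module.Finite ℤ L] (B : LinearMap.BilinForm ℤ L)
    (hsymm : ∀ x y, B x y = B y x) (hpos : ∀ x : ℝ ⊗[ℤ] L, x ≠ 0 → 0 < B.baseChange ℝ x x) (huni : Function.Bijective B)
    {F : Type*} [Group F] [Finite F] (ρ : F →* (L ≃ₗ[ℤ] L)) (hρ : ∀ g x y, B (ρ g x) (ρ g y) = B x y)
    (hirr : ∀ W : Submodule ℝ (ℝ ⊗[ℤ] L), (∀ g, W.map ((ρ g : L →ₗ[ℤ] L).baseChange ℝ) ≤ W) → W = ⊥ ∨ W = ⊤)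
    (hn : 0 < Module.finrank ℤ L) : Module.finrank ℤ L ∣ 2 * Nat.card F := by
  classical
  have hF : Fintype F := Fintype.ofFinite F
  let b := Module.Free.chooseBasis ℤ L
  have hcard : Module.finrank ℤ L = Fintype.card (Module.Free.ChooseBasisIndex ℤ L) :=
    Module.finrank_eq_card_chooseBasisIndex ℤ L
  obtain ⟨i0⟩ : Nonempty (Module.Free.ChooseBasisIndex ℤ L) := by
    rw [← Fintype.card_pos_iff, ← hcard]
    exact hn
  -- the bilinear form over the reals
  have hbs : ∀ x y : ℝ ⊗[ℤ] L, B.baseChange ℝ x y = B.baseChange ℝ y x := by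
    intro x y
    induction x using TensorProduct.induction_on with
    | zero => rw [map_zero, LinearMap.zero_apply, map_zero]
    | add x x' hx hx' => rw [map_add, LinearMap.add_apply, hx, hx', map_add]
    | tmul r l =>
      induction y using TensorProduct.induction_on with
      | zero => rw [map_zero, map_zero, LinearMap.zero_apply]
      | add y y' hy hy' => rw [map_add, hy, hy', map_add, LinearMap.add_apply]
      | tmul s m => rw [LinearMap.BilinForm.baseChange_tmul, LinearMap.BilinForm.baseChange_tmul, hsymm, mul_comm]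
  have hnt : Nontrivial (ℝ ⊗[ℤ] L) := by
    refine Module.nontrivial_of_finrank_pos (R := ℝ) ?_
    rw [Module.finrank_baseChange]
    exact hn
  -- the divisibility for the norms
  have key : ∀ v : L, (Module.finrank ℤ L : ℤ) ∣ (Nat.card F : ℤ) * B v v := by
    intro v
    obtain ⟨S, hSdef⟩ : ∃ S : L →ₗ[ℤ] L, S = ∑ x : F, (B (ρ x v)).smulRight (ρ x v) := ⟨_, rfl⟩
    have hS : ∀ y, S y = ∑ x, B (ρ x v) y • ρ x v := by
      intro y
      rw [hSdef, LinearMap.sum_apply]
      exact Finset.sum_congr rfl fun x _ => LinearMap.smulRight_apply _ _ _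
    have hSs : ∀ y z, B (S y) z = B y (S z) := by
      intro y z
      rw [hS, hS, map_sum, map_sum, LinearMap.sum_apply]
      refine Finset.sum_congr rfl fun x _ => ?_
      rw [map_smul, map_smul, LinearMap.smul_apply, hsymm y, smul_eq_mul, smul_eq_mul, mul_comm]
    have hSc : ∀ g y, S (ρ g y) = ρ g (S y) := by
      intro g y
      rw [hS, hS, map_sum, ← Equiv.sum_comp (Equiv.mulLeft g)]
      refine Finset.sum_congr rfl fun x _ => ?_
      rw [Equiv.coe_mulLeft, map_mul, LinearEquiv.mul_apply, hρ, map_zsmul]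
    obtain ⟨T, hT⟩ : ∃ T : ℝ ⊗[ℤ] L →ₗ[ℝ] ℝ ⊗[ℤ] L, T = S.baseChange ℝ := ⟨_, rfl⟩
    have hTt : ∀ (r : ℝ) (l : L), T (r ⊗ₜ l) = r ⊗ₜ S l := fun r l => by rw [hT, LinearMap.baseChange_tmul]
    have hTs : ∀ x y : ℝ ⊗[ℤ] L, B.baseChange ℝ (T x) y = B.baseChange ℝ x (T y) := by
      intro x y
      induction x using TensorProduct.induction_on with
      | zero => rw [map_zero, map_zero, LinearMap.zero_apply, LinearMap.zero_apply]
      | add x x' hx hx' => rw [map_add, map_add, LinearMap.add_apply, hx, hx', map_add, LinearMap.add_apply]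
      | tmul r l =>
        induction y using TensorProduct.induction_on with
        | zero => rw [map_zero, map_zero, map_zero]
        | add y y' hy hy' => rw [map_add, hy, hy', map_add, map_add]
        | tmul s m => rw [hTt, hTt, LinearMap.BilinForm.baseChange_tmul, LinearMap.BilinForm.baseChange_tmul, hSs]
    have hTc : ∀ g (x : ℝ ⊗[ℤ] L), T ((ρ g : L →ₗ[ℤ] L).baseChange ℝ x) = (ρ g : L →ₗ[ℤ] L).baseChange ℝ (T x) := by
      intro g x
      induction x using TensorProduct.induction_on with
      | zero => rw [map_zero, map_zero, map_zero]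
      | add x x' hx hx' => rw [map_add, map_add, hx, hx', map_add, map_add]
      | tmul r l =>
        rw [hTt, LinearMap.baseChange_tmul, LinearMap.baseChange_tmul, hTt, LinearEquiv.coe_coe, hSc]
    obtain ⟨μ, x, hx0, hx⟩ := exists_eig88 (B.baseChange ℝ) hbs hpos T hTs
    have htop : Module.End.eigenspace T μ = ⊤ := by
      refine (hirr (Module.End.eigenspace T μ) fun g => ?_).resolve_left ?_
      · rintro _ ⟨z, hz, rfl⟩
        rw [Module.End.mem_eigenspace_iff, hTc, Module.End.mem_eigenspace_iff.1 hz, map_smul]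
      · intro hbot
        exact hx0 (((Submodule.eq_bot_iff _).1 hbot) x (Module.End.mem_eigenspace_iff.2 hx))
    have hall : ∀ z, T z = μ • z := fun z =>
      Module.End.mem_eigenspace_iff.1 (by rw [htop]; exact Submodule.mem_top)
    have hdiag : ∀ i, ((b.repr (S (b i)) i : ℤ) : ℝ) = μ := by
      intro i
      have h1 := hall ((1 : ℝ) ⊗ₜ[ℤ] b i)
      rw [hTt] at h1
      have h2 := congrArg (fun z => (Algebra.TensorProduct.basis ℝ b).repr z i) h1
      simp only [map_smul, Algebra.TensorProduct.basis_repr_tmul, one_smul, Finsupp.smul_apply,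
        Finsupp.mapRange_apply, Module.Basis.repr_self, Finsupp.single_eq_same, map_one, smul_eq_mul, mul_one] at h2
      exact h2
    have hdiag' : ∀ i, b.repr (S (b i)) i = b.repr (S (b i0)) i0 := by
      intro i
      exact_mod_cast (hdiag i).trans (hdiag i0).symm
    have htr1 : LinearMap.trace ℤ L S = (Module.finrank ℤ L : ℤ) * b.repr (S (b i0)) i0 := by
      rw [LinearMap.trace_eq_matrix_trace ℤ b, Matrix.trace]
      have h1 : ∀ i, (LinearMap.toMatrix b b S).diag i = b.repr (S (b i0)) i0 := by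
        intro i
        rw [Matrix.diag_apply, LinearMap.toMatrix_apply, hdiag' i]
      rw [Finset.sum_congr rfl fun i _ => h1 i, Finset.sum_const, Finset.card_univ, nsmul_eq_mul, hcard]
    have htr2 : LinearMap.trace ℤ L S = (Nat.card F : ℤ) * B v v := by
      rw [hSdef, map_sum]
      have h1 : ∀ x : F, LinearMap.trace ℤ L ((B (ρ x v)).smulRight (ρ x v)) = B v v := by
        intro x
        rw [LinearMap.trace_smulRight, hρ]
      rw [Finset.sum_congr rfl fun x _ => h1 x, Finset.sum_const, Finset.card_univ, nsmul_eq_mul,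
        Nat.card_eq_fintype_card]
    rw [← htr2, htr1]
    exact Dvd.intro _ rfl
  obtain ⟨v, hv⟩ := huni.2 (b.coord i0)
  have hvw : B v (b i0) = 1 := by
    rw [hv, Module.Basis.coord_apply, Module.Basis.repr_self, Finsupp.single_eq_same]
  have h1 := key (v + b i0)
  have h2 := key v
  have h3 := key (b i0)
  have h4 : (Nat.card F : ℤ) * B (v + b i0) (v + b i0) - (Nat.card F : ℤ) * B v v - (Nat.card F : ℤ) * B (b i0) (b i0) =
      ((2 * Nat.card F : ℕ) : ℤ) := by
    simp only [map_add, LinearMap.add_apply]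
    rw [hsymm (b i0) v, hvw]
    push_cast
    ring
  have h5 : (Module.finrank ℤ L : ℤ) ∣ ((2 * Nat.card F : ℕ) : ℤ) := by
    rw [← h4]
    exact (h1.sub h2).sub h3
  exact Int.natCast_dvd_natCast.1 h5

/-- The group of isometries of a definite lattice is finite. -/
theorem finite_isometries {L : Type*} [AddCommGroup L] [Module.Free ℤ L] [Module.Finite ℤ L] (B : LinearMap.BilinForm ℤ L)
    (hpos : ∀ x : ℝ ⊗[ℤ] L, x ≠ 0 → 0 < B.baseChange ℝ x x) : Finite {g : L ≃ₗ[ℤ] L // ∀ x y, B (g x) (g y) = B x y} := by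
  classical
  let b := Module.Free.chooseBasis ℤ L
  obtain ⟨R, hR⟩ : ∃ R : LinearMap.BilinForm ℝ (ℝ ⊗[ℤ] L), R = B.baseChange ℝ := ⟨_, rfl⟩
  rw [← hR] at hpos
  have hnn : ∀ x : ℝ ⊗[ℤ] L, 0 ≤ R x x := by
    intro x
    by_cases hx : x = 0
    · rw [hx, map_zero]
    · exact (hpos x hx).le
  obtain ⟨T, hT⟩ : ∃ T : (ℝ ⊗[ℤ] L) →ₗ[ℝ] Module.Dual ℝ (ℝ ⊗[ℤ] L), T = R + R.flip := ⟨_, rfl⟩
  have hTa : ∀ x y, T x y = R x y + R y x := by
    intro x y
    rw [hT]
    rfl
  have hinj : Function.Injective T := by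
    rw [injective_iff_map_eq_zero]
    intro x hx
    by_contra hne
    have h1 := hTa x x
    rw [hx, LinearMap.zero_apply] at h1
    have h2 := hpos x hne
    linarith
  have hsurj : Function.Surjective T :=
    (LinearMap.injective_iff_surjective_of_finrank_eq_finrank (Subspace.dual_finrank_eq).symm).1 hinj
  have hco : ∀ i, ∃ K : ℕ, ∀ x : L, |b.repr x i| ≤ B x x + K := by
    intro i
    obtain ⟨y, hy⟩ := hsurj ((Algebra.TensorProduct.basis ℝ b).coord i)
    obtain ⟨K, hK⟩ := exists_nat_ge (R y y)
    refine ⟨K, fun x => ?_⟩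
    have h1 : ((b.repr x i : ℤ) : ℝ) = R y (1 ⊗ₜ x) + R (1 ⊗ₜ x) y := by
      rw [← hTa, hy, Module.Basis.coord_apply, Algebra.TensorProduct.basis_repr_tmul, one_smul, Finsupp.mapRange_apply]
      rfl
    have h2 := hnn (y + 1 ⊗ₜ x)
    have h3 := hnn (y - 1 ⊗ₜ x)
    simp only [map_add, map_sub, LinearMap.add_apply, LinearMap.sub_apply] at h2 h3
    have h4 : R (1 ⊗ₜ x) (1 ⊗ₜ x) = ((B x x : ℤ) : ℝ) := by
      rw [hR, LinearMap.BilinForm.baseChange_tmul, mul_one, zsmul_eq_mul, mul_one]
    have h5 : |((b.repr x i : ℤ) : ℝ)| ≤ ((B x x : ℤ) : ℝ) + K :=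
      abs_le.2 ⟨by linarith, by linarith⟩
    exact_mod_cast h5
  choose K hK using hco
  have hfin : ∀ c : ℤ, {x : L | B x x = c}.Finite := by
    intro c
    refine ((Set.finite_Icc (fun i => -(c + (K i : ℤ))) (fun i => c + (K i : ℤ))).preimage
      b.equivFun.injective.injOn).subset fun x hx => ?_
    have hx' : B x x = c := hx
    refine ⟨fun i => ?_, fun i => ?_⟩
    · have h1 := (abs_le.1 (hK i x)).1
      rw [hx'] at h1
      exact h1
    · have h1 := (abs_le.1 (hK i x)).2
      rw [hx'] at h1
      exact h1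
  have hfin' : ∀ i, Finite {x : L // B x x = B (b i) (b i)} := fun i => (hfin _).to_subtype
  refine Finite.of_injective (β := ∀ i, {x : L // B x x = B (b i) (b i)})
    (fun g i => ⟨g.1 (b i), g.2 _ _⟩) ?_
  intro g h hgh
  refine Subtype.ext (b.ext' fun i => ?_)
  exact congrArg Subtype.val (congrFun hgh i)

end Pool.Agent.Helper73.E8
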