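import Pool.Agent.Helper73.E8.Form
import Pool.Agent.Helper73.E8.Str
import Pool.Agent.Helper73.E8.Cpt.Real

/-!
# Compact integral forms of the Lie algebra of type E8 (definitions)
-/

set_option autoImplicit false

open scoped TensorProduct

namespace Pool.Agent.Helper73.E8

open Chev

/-- `L` is a compact form over `Z` with form `B = - κ / 60`, which becomes isomorphic to the Chevalley algebra over `ℂ`;
this is what is used of the hypotheses of the theorem. -/
structure IsLat (L : Type) [LieRing L] [Module.Free ℤ L] [Module.Finite ℤ L] (B : LinearMap.BilinForm ℤ L) : Prop where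
  kill : ∀ x y, killingForm ℤ L x y = -60 * B x y
  symm : ∀ x y, B x y = B y x
  inv : ∀ x y z : L, B ⁅x, y⁆ z = -B y ⁅x, z⁆
  uni : Function.Bijective B
  pos : ∀ x : ℝ ⊗[ℤ] L, x ≠ 0 → 0 < B.baseChange ℝ x x
  cx : Nonempty (ℂ ⊗[ℤ] L ≃ₗ⁅ℂ⁆ Chev ℂ)
  rank : Module.finrank ℤ L = 248

end Pool.Agent.Helper73.E8
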