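import Pool.Agent.Helper73.E8.Lattice
import Pool.Agent.Helper73.E8.Ns

/-!
# Forms of the Chevalley algebra over `ℤ` with negative definite Killing form
-/

set_option autoImplicit false

open scoped TensorProduct

namespace Pool.Agent.Helper73.E8

open Chev

variable {L : Type} [LieRing L] [Module.Free ℤ L] [Module.Finite ℤ L]

theorem exists_isLat {R : Type} [CommRing R] [Module.FaithfullyFlat ℤ R] (e : R ⊗[ℤ] L ≃ₗ⁅R⁆ Chev R)
    (hneg : ∀ x : ℝ ⊗[ℤ] L, x ≠ 0 → killingForm ℝ (ℝ ⊗[ℤ] L) x x < 0) :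
    ∃ B : LinearMap.BilinForm ℤ L, IsLat L B := by
  obtain ⟨B, hB, huni⟩ := exists_form L e
  have hR : Nontrivial R := by
    have h := Module.FaithfullyFlat.lTensor_nontrivial (R := ℤ) (M := R) ℤ
    by_contra h1
    rw [not_nontrivial_iff_subsingleton] at h1
    have : Subsingleton (R ⊗[ℤ] ℤ) := (TensorProduct.rid ℤ R).toEquiv.subsingleton
    exact not_nontrivial _ h
  refine ⟨B, hB, fun x y => ?_, fun x y z => ?_, huni, fun x hx => ?_, ?_, finrank_L L e⟩
  · have h1 : killingForm ℤ L x y = killingForm ℤ L y x := LieModule.traceForm_comm ℤ L L x y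
    rw [hB, hB] at h1
    omega
  · have h1 : killingForm ℤ L ⁅x, y⁆ z = -killingForm ℤ L y ⁅x, z⁆ := by
      rw [← lie_skew, map_neg, LinearMap.neg_apply]
      congr 1
      exact LieModule.traceForm_apply_lie_apply ℤ L L y x z
    rw [hB, hB] at h1
    omega
  · have h1 : killingForm ℝ (ℝ ⊗[ℤ] L) = (killingForm ℤ L).baseChange ℝ := LieModule.traceForm_baseChange ℤ L L ℝ
    have h2 : killingForm ℤ L = (-60 : ℤ) • B := by
      ext x y
      rw [hB, LinearMap.smul_apply, LinearMap.smul_apply, smul_eq_mul]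
    have h3 : ((-60 : ℤ) • B).baseChange ℝ = (-60 : ℝ) • B.baseChange ℝ := by
      ext x y
      simp [LinearMap.BilinForm.baseChange_tmul]
    have h4 := hneg x hx
    rw [h1, h2, h3, LinearMap.smul_apply, LinearMap.smul_apply, smul_eq_mul] at h4
    linarith
  · have hA : Nontrivial (R ⊗[ℤ] ℚ) := Module.FaithfullyFlat.lTensor_nontrivial (R := ℤ) (M := R) ℚ
    letI : Algebra ℚ (R ⊗[ℤ] ℚ) := Algebra.TensorProduct.rightAlgebra
    obtain ⟨f, -⟩ := exists_baseChange L (S := R ⊗[ℤ] ℚ) e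
    obtain ⟨f', -⟩ := iso_descend (Ω := ℂ) f ∅ (by simp)
    exact ⟨f'⟩

end Pool.Agent.Helper73.E8
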