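import Pool.Agent.Helper73.E8.Ct
import Pool.Agent.Helper73.E8.Semi

/-!
# Block E8-SEMIOF: semilinear maps attached to a Cartan subalgebra of `L`

`semi_of`: `f : F ⊗ L ≃ Chev F` maps `1 ⊗ D` into the Cartan subalgebra, `rank D = 8`. For a ring automorphism `τ` of `F` the map
`T = f ∘ (τ ⊗ 1) ∘ f^-1` is `τ`-semilinear, bijective, preserves brackets (`cT`), and preserves the Cartan subalgebra, because
this is the `F`-span of `f (1 ⊗ D)` (8 linearly independent vectors in an 8-dimensional space: integer vectors which are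
independent over `Z` are independent over `F`, characteristic 0) and `T f (1 ⊗ x) = f (1 ⊗ x)`. So `exists_mono` applies.
`lin_of`: the same for `f ∘ (1 ⊗ g) ∘ f^-1` with `g = 1` on `D` (`τ = 1`; `exists_mono` gives `w`, `k`), where moreover `w = 1`: the map fixes
`f (1 ⊗ D)`, hence the whole Cartan subalgebra, hence `t (al i)`; and `k` comes from a homomorphism `u` by `hom_ext` (`IsCoc` with
`w = 1`: `k (a + b) = k a k b`, `k (-a) = (k a)⁻¹`).
-/

set_option autoImplicit false

open scoped TensorProduct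

namespace Pool.Agent.Helper73.E8

open Chev

variable {L : Type} [LieRing L] [Module.Free ℤ L] [Module.Finite ℤ L]

private theorem linearIndependent_congr56 {F : Type} [Field F] {M ι : Type*} [AddCommGroup M]
    [Module F M] {v w : ι → M} (h : ∀ i, w i = v i) (hw : LinearIndependent F w) :
    LinearIndependent F v := by
  have h1 : w = v := funext h
  rwa [h1] at hw

/-- `c` as a linear map. -/
private def cLin56 (F : Type) [Field F] : (Fin 8 → F) →ₗ[F] Chev F where
  toFun := c
  map_add' := c_add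
  map_smul' := c_smul

private theorem span56 {F : Type} [Field F] [CharZero F] (D : Submodule ℤ L)
    (hD : Module.finrank ℤ D = 8) (f : F ⊗[ℤ] L ≃ₗ⁅F⁆ Chev F)
    (hf : ∀ x ∈ D, (f (1 ⊗ₜ x)).x = 0) (h : Fin 8 → F) :
    (c h : Chev F) ∈ Submodule.span F (Set.range fun x : D => f ((1 : F) ⊗ₜ[ℤ] (x : L))) := by
  let b := Module.Free.chooseBasis ℤ D
  let v : Module.Free.ChooseBasisIndex ℤ D → Chev F := fun i => f ((1 : F) ⊗ₜ[ℤ] ((b i : D) : L))
  have hli : LinearIndependent F v := by
    have h1 : LinearIndependent F (Algebra.TensorProduct.basis F b) := Module.Basis.linearIndependent _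
    have h2 : Function.Injective (LinearMap.baseChange F D.subtype) := by
      have h3 := Module.Flat.lTensor_preserves_injective_linearMap (M := F) D.subtype
        D.injective_subtype
      exact h3
    have h4 := h1.map' (LinearMap.baseChange F D.subtype) (LinearMap.ker_eq_bot.2 h2)
    have h5 := h4.map' (f.toLinearEquiv : F ⊗[ℤ] L →ₗ[F] Chev F)
      (LinearMap.ker_eq_bot.2 f.toLinearEquiv.injective)
    refine (linearIndependent_congr56 ?_ h5)
    intro i
    simp [v]
  have hv : ∀ i, v i = cLin56 F (v i).h := by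
    intro i
    have h1 : (v i).x = 0 := hf _ (b i).2
    ext j
    · rfl
    · simp [cLin56, h1]
  have hli2 : LinearIndependent F (fun i => (v i).h) := by
    refine LinearIndependent.of_comp (cLin56 F) ?_
    have h1 : (cLin56 F ∘ fun i => (v i).h) = v := funext fun i => (hv i).symm
    rw [h1]
    exact hli
  have hcard : Fintype.card (Module.Free.ChooseBasisIndex ℤ D) = Module.finrank F (Fin 8 → F) := by
    rw [← Module.finrank_eq_card_chooseBasisIndex, hD, Module.finrank_fin_fun]
  have htop := hli2.span_eq_top_of_card_eq_finrank' hcard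
  have hmem : h ∈ Submodule.span F (Set.range fun i => (v i).h) := by
    rw [htop]
    exact Submodule.mem_top
  have h6 := Submodule.mem_map_of_mem (f := cLin56 F) hmem
  rw [Submodule.map_span] at h6
  refine Submodule.span_mono ?_ h6
  rintro _ ⟨_, ⟨i, rfl⟩, rfl⟩
  refine ⟨b i, ?_⟩
  exact (hv i)

theorem semi_of {F : Type} [Field F] [CharZero F] (D : Submodule ℤ L) (hD : Module.finrank ℤ D = 8)
    (f : F ⊗[ℤ] L ≃ₗ⁅F⁆ Chev F) (hf : ∀ x ∈ D, (f (1 ⊗ₜ x)).x = 0) (τ : F ≃+* F) :
    ∃ (w : Lat ≃+ Lat) (hw : IsIsom w) (k : Root → F), IsCoc w k ∧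
      ∀ y, f (cT L (τ : F →+* F) (f.symm y)) = mono (τ : F →+* F) w hw k y := by
  have hadd : ∀ y z, f (cT L (τ : F →+* F) (f.symm (y + z))) =
      f (cT L (τ : F →+* F) (f.symm y)) + f (cT L (τ : F →+* F) (f.symm z)) := by
    intro y z
    rw [_root_.map_add, _root_.map_add, _root_.map_add]
  have hsmul : ∀ (r : F) y, f (cT L (τ : F →+* F) (f.symm (r • y))) =
      τ r • f (cT L (τ : F →+* F) (f.symm y)) := by
    intro r y
    rw [_root_.map_smul, cT_smul, _root_.map_smul]
    rfl
  refine exists_mono τ (fun y => f (cT L (τ : F →+* F) (f.symm y))) hadd hsmul (fun y z => ?_)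
    (f.bijective.comp ((cT_bijective L τ).comp f.symm.bijective)) (fun h => ?_)
  · rw [LieEquiv.map_lie, LieHom.map_lie, LieEquiv.map_lie]
  · have hs := span56 D hD f hf h
    generalize (c h : Chev F) = y0 at hs ⊢
    induction hs using Submodule.span_induction with
    | mem y hy =>
      obtain ⟨x, rfl⟩ := hy
      have h1 : f (cT L (τ : F →+* F) (f.symm (f ((1 : F) ⊗ₜ[ℤ] (x : L))))) =
          f ((1 : F) ⊗ₜ[ℤ] (x : L)) := by
        rw [LieEquiv.symm_apply_apply, cT_tmul, map_one]
      exact (congrArg Chev.x h1).trans (hf _ x.2)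
    | zero =>
      change (f (cT L (τ : F →+* F) (f.symm 0))).x = 0
      rw [map_zero, map_zero, map_zero]
      rfl
    | add y z _ _ hy hz =>
      change (f (cT L (τ : F →+* F) (f.symm (y + z)))).x = 0
      rw [hadd, add_x]
      exact (congrArg₂ (· + ·) hy hz).trans (add_zero _)
    | smul r y _ hy =>
      change (f (cT L (τ : F →+* F) (f.symm (r • y)))).x = 0
      rw [hsmul, smul_x]
      exact (congrArg (fun z => τ r • z) hy).trans (smul_zero _)

theorem lin_of {F : Type} [Field F] [CharZero F] (D : Submodule ℤ L) (hD : Module.finrank ℤ D = 8)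
    (f : F ⊗[ℤ] L ≃ₗ⁅F⁆ Chev F) (hf : ∀ x ∈ D, (f (1 ⊗ₜ x)).x = 0) (g : L ≃ₗ⁅ℤ⁆ L) (hg : ∀ x ∈ D, g x = x) :
    ∃ u : Multiplicative Lat →* Fˣ, ∀ y, f (cG F (g : L →ₗ⁅ℤ⁆ L) (f.symm y)) =
      mono (RingHom.id F) (AddEquiv.refl Lat) isIsom_refl (fun a => (u (Multiplicative.ofAdd a.1) : F)) y := by
  have hadd : ∀ y z, f (cG F (g : L →ₗ⁅ℤ⁆ L) (f.symm (y + z))) =
      f (cG F (g : L →ₗ⁅ℤ⁆ L) (f.symm y)) + f (cG F (g : L →ₗ⁅ℤ⁆ L) (f.symm z)) := by
    intro y z
    rw [_root_.map_add, _root_.map_add, _root_.map_add]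
  have hsmul : ∀ (r : F) y, f (cG F (g : L →ₗ⁅ℤ⁆ L) (f.symm (r • y))) =
      r • f (cG F (g : L →ₗ⁅ℤ⁆ L) (f.symm y)) := by
    intro r y
    rw [_root_.map_smul, cG_smul, _root_.map_smul]
  have hfix : ∀ h : Fin 8 → F, f (cG F (g : L →ₗ⁅ℤ⁆ L) (f.symm (c h))) = c h := by
    intro h
    have hs := span56 D hD f hf h
    generalize (c h : Chev F) = y0 at hs ⊢
    induction hs using Submodule.span_induction with
    | mem y hy =>
      obtain ⟨x, rfl⟩ := hy
      change f (cG F (g : L →ₗ⁅ℤ⁆ L) (f.symm (f ((1 : F) ⊗ₜ[ℤ] (x : L))))) =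
          f ((1 : F) ⊗ₜ[ℤ] (x : L))
      rw [LieEquiv.symm_apply_apply, cG_tmul]
      exact congrArg (fun z => f ((1 : F) ⊗ₜ[ℤ] z)) (hg _ x.2)
    | zero => rw [map_zero, map_zero, map_zero]
    | add y z _ _ hy hz => rw [hadd, hy, hz]
    | smul r y _ hy => rw [hsmul, hy]
  obtain ⟨w, hw, k, hk, hT⟩ := exists_mono (RingEquiv.refl F)
    (fun y => f (cG F (g : L →ₗ⁅ℤ⁆ L) (f.symm y))) hadd hsmul
    (fun y z => by
      rw [LieEquiv.map_lie, LieHom.map_lie, LieEquiv.map_lie])
    (f.bijective.comp ((cG_bijective g).comp f.symm.bijective))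
    (fun h => by
      rw [hfix, c_x])
  have hw1 : ∀ v, w v = v := by
    have h1 : (w : Lat →+ Lat) = AddMonoidHom.id Lat := by
      refine lat_hom_ext _ _ fun i => ?_
      have h2 := hT (t (al i))
      rw [mono_t] at h2
      have h3 : (t (w (al i)) : Chev F) = t (al i) := h2.symm.trans (hfix _)
      have h4 := congrArg Chev.h h3
      funext j
      have h5 := congrFun h4 j
      simpa using h5
    intro v
    exact DFunLike.congr_fun h1 v
  have hw2 : w = AddEquiv.refl Lat := by
    ext1 v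
    exact hw1 v
  subst hw2
  have hne : ∀ a : Root, k a ≠ 0 := fun a => left_ne_zero_of_mul_eq_one (hk.neg a)
  obtain ⟨u, hu⟩ := hom_ext (fun a => Units.mk0 (k a) (hne a))
    (fun a b d hd => by
      apply Units.ext
      have h1 := hk.add a b d hd
      have h2 : ((eps a.1 b.1 : ℤ) : F) ≠ 0 := by
        exact_mod_cast (eps a.1 b.1).ne_zero
      exact mul_right_cancel₀ h2 h1)
    (fun a => by
      apply Units.ext
      rw [Units.val_inv_eq_inv_val]
      exact eq_inv_of_mul_eq_one_right (hk.neg a))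
  refine ⟨u, fun y => ?_⟩
  have h1 : (fun a : Root => (u (Multiplicative.ofAdd a.1) : F)) = k := by
    funext a
    rw [← hu]
    rfl
  rw [h1]
  exact hT y

end Pool.Agent.Helper73.E8
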